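import Mathlib

/-!
Product Bernoulli expectations on a finite cube and a Janson-type inequality
(proved from the FKG inequality).
-/

namespace Pool.Agent.T9h20

open Finset

set_option linter.unusedSectionVars false

section Prod

variable {E : Type*} [Fintype E] [DecidableEq E]

/-- Weight of a configuration: each coordinate is `false` with probability `p`
and `true` with probability `1 - p`. -/
noncomputable def wt (p : ℝ) (F : E → Bool) : ℝ := ∏ e, (if F e = true then 1 - p else p)

/-- Expectation with respect to `wt p`. -/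
noncomputable def ex (p : ℝ) (f : (E → Bool) → ℝ) : ℝ := ∑ F : E → Bool, wt p F * f F

/-- Indicator of the event that all coordinates in `s` are `false`. -/
noncomputable def ind (s : Finset E) (F : E → Bool) : ℝ :=
  if ∀ e ∈ s, F e = false then 1 else 0

lemma ind_nonneg (s : Finset E) (F : E → Bool) : 0 ≤ ind s F := by
  unfold ind; split_ifs <;> norm_num

lemma ind_le_one (s : Finset E) (F : E → Bool) : ind s F ≤ 1 := by
  unfold ind; split_ifs <;> norm_num

lemma ind_mul (s t : Finset E) (F : E → Bool) : ind s F * ind t F = ind (s ∪ t) F := by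
  unfold ind
  by_cases h1 : ∀ e ∈ s, F e = false
  · by_cases h2 : ∀ e ∈ t, F e = false
    · have h3 : ∀ e ∈ s ∪ t, F e = false := by
        intro e he
        rcases Finset.mem_union.1 he with h | h
        · exact h1 e h
        · exact h2 e h
      rw [if_pos h1, if_pos h2, if_pos h3]; norm_num
    · have h3 : ¬ ∀ e ∈ s ∪ t, F e = false := by
        intro h
        exact h2 (fun e he => h e (Finset.mem_union_right _ he))
      rw [if_neg h2, if_neg h3]; norm_num
  · have h3 : ¬ ∀ e ∈ s ∪ t, F e = false := by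
      intro h
      exact h1 (fun e he => h e (Finset.mem_union_left _ he))
    rw [if_neg h1, if_neg h3]; norm_num

lemma ind_antitone (s : Finset E) {F G : E → Bool} (h : F ≤ G) : ind s G ≤ ind s F := by
  unfold ind
  by_cases h1 : ∀ e ∈ s, G e = false
  · have h2 : ∀ e ∈ s, F e = false := by
      intro e he
      have h3 := h e
      rw [h1 e he] at h3
      exact le_bot_iff.1 h3
    rw [if_pos h1, if_pos h2]
  · rw [if_neg h1]
    split_ifs <;> norm_num

variable {p : ℝ}

lemma wt_nonneg (h0 : 0 ≤ p) (h1 : p ≤ 1) (F : E → Bool) : 0 ≤ wt p F := by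
  unfold wt
  apply Finset.prod_nonneg
  intro e _
  split_ifs <;> linarith

lemma sum_wt : ∑ F : E → Bool, wt p F = 1 := by
  have h := Finset.prod_univ_sum (R := ℝ) (ι := E) (κ := fun _ => Bool)
    (fun _ => (Finset.univ : Finset Bool)) (fun _ b => if b = true then 1 - p else p)
  rw [Fintype.piFinset_univ] at h
  unfold wt
  rw [← h]
  simp

lemma ex_one : ex (E := E) p (fun _ => 1) = 1 := by
  unfold ex
  simp only [mul_one]
  exact sum_wt

lemma ex_mono (h0 : 0 ≤ p) (h1 : p ≤ 1) {f g : (E → Bool) → ℝ} (h : ∀ F, f F ≤ g F) :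
    ex p f ≤ ex p g := by
  unfold ex
  apply Finset.sum_le_sum
  intro F _
  exact mul_le_mul_of_nonneg_left (h F) (wt_nonneg h0 h1 F)

lemma ex_nonneg (h0 : 0 ≤ p) (h1 : p ≤ 1) {f : (E → Bool) → ℝ} (h : ∀ F, 0 ≤ f F) :
    0 ≤ ex p f := by
  unfold ex
  apply Finset.sum_nonneg
  intro F _
  exact mul_nonneg (wt_nonneg h0 h1 F) (h F)

lemma ex_add (f g : (E → Bool) → ℝ) : ex p (fun F => f F + g F) = ex p f + ex p g := by
  unfold ex
  rw [← Finset.sum_add_distrib]
  apply Finset.sum_congr rfl
  intro F _
  ring

lemma ex_sub (f g : (E → Bool) → ℝ) : ex p (fun F => f F - g F) = ex p f - ex p g := by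
  unfold ex
  rw [← Finset.sum_sub_distrib]
  apply Finset.sum_congr rfl
  intro F _
  ring

lemma ex_mul_left (c : ℝ) (f : (E → Bool) → ℝ) : ex p (fun F => c * f F) = c * ex p f := by
  unfold ex
  rw [Finset.mul_sum]
  apply Finset.sum_congr rfl
  intro F _
  ring

lemma ex_sum {ι : Type*} (J : Finset ι) (f : ι → (E → Bool) → ℝ) :
    ex p (fun F => ∑ j ∈ J, f j F) = ∑ j ∈ J, ex p (f j) := by
  unfold ex
  rw [Finset.sum_comm]
  apply Finset.sum_congr rfl
  intro F _
  rw [Finset.mul_sum]

lemma wt_update_true (e0 : E) (F : E → Bool) (hF : F e0 = false) :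
    p * wt p (Function.update F e0 true) = (1 - p) * wt p F := by
  unfold wt
  rw [← Finset.mul_prod_erase Finset.univ _ (Finset.mem_univ e0),
    ← Finset.mul_prod_erase Finset.univ (fun e => if F e = true then 1 - p else p)
      (Finset.mem_univ e0)]
  have h : ∏ x ∈ Finset.univ.erase e0, (if Function.update F e0 true x = true then 1 - p else p)
      = ∏ x ∈ Finset.univ.erase e0, (if F x = true then 1 - p else p) := by
    apply Finset.prod_congr rfl
    intro x hx
    rw [Function.update_of_ne (Finset.ne_of_mem_erase hx)]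
  rw [h]
  simp only [Function.update_self, hF]
  simp
  ring

lemma ex_coord (e0 : E) (h : (E → Bool) → ℝ)
    (hh : ∀ F b, h (Function.update F e0 b) = h F) :
    ex p (fun F => (if F e0 = false then (1 : ℝ) else 0) * h F) = p * ex p h := by
  classical
  have hsplit : ex p h = ex p (fun F => (if F e0 = false then (1 : ℝ) else 0) * h F)
      + ex p (fun F => (if F e0 = true then (1 : ℝ) else 0) * h F) := by
    rw [← ex_add]
    unfold ex
    apply Finset.sum_congr rfl
    intro F _
    cases hF : F e0 <;> simp [hF]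
  have hrel : p * ex p (fun F => (if F e0 = true then (1 : ℝ) else 0) * h F)
      = (1 - p) * ex p (fun F => (if F e0 = false then (1 : ℝ) else 0) * h F) := by
    unfold ex
    have h1 : ∑ F : E → Bool, wt p F * ((if F e0 = true then (1 : ℝ) else 0) * h F)
        = ∑ F ∈ Finset.univ.filter (fun F : E → Bool => F e0 = true), wt p F * h F := by
      rw [Finset.sum_filter]
      apply Finset.sum_congr rfl
      intro F _
      split_ifs <;> simp
    have h2 : ∑ F : E → Bool, wt p F * ((if F e0 = false then (1 : ℝ) else 0) * h F)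
        = ∑ F ∈ Finset.univ.filter (fun F : E → Bool => F e0 = false), wt p F * h F := by
      rw [Finset.sum_filter]
      apply Finset.sum_congr rfl
      intro F _
      split_ifs <;> simp
    rw [h1, h2, Finset.mul_sum, Finset.mul_sum]
    symm
    refine Finset.sum_nbij' (fun F => Function.update F e0 true)
      (fun F => Function.update F e0 false) ?_ ?_ ?_ ?_ ?_
    · intro F _
      simp
    · intro F _
      simp
    · intro F hF
      simp only [Finset.mem_filter, Finset.mem_univ, true_and] at hF
      simp only [Function.update_idem]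
      rw [← hF, Function.update_eq_self]
    · intro F hF
      simp only [Finset.mem_filter, Finset.mem_univ, true_and] at hF
      simp only [Function.update_idem]
      rw [← hF, Function.update_eq_self]
    · intro F hF
      simp only [Finset.mem_filter, Finset.mem_univ, true_and] at hF
      rw [hh, ← mul_assoc, ← mul_assoc, wt_update_true e0 F hF]
  rw [hsplit, mul_add, hrel]
  ring

/-- Independence: `ind s` is independent of a function that does not look at `s`. -/
lemma ex_ind_mul (s : Finset E) (g : (E → Bool) → ℝ)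
    (hg : ∀ e ∈ s, ∀ F b, g (Function.update F e b) = g F) :
    ex p (fun F => ind s F * g F) = p ^ s.card * ex p g := by
  induction s using Finset.induction_on with
  | empty => simp [ind]
  | insert e0 s he ih =>
    have hg' : ∀ e ∈ s, ∀ F b, g (Function.update F e b) = g F :=
      fun e hes => hg e (Finset.mem_insert_of_mem hes)
    have h1 : ∀ F : E → Bool, ind (insert e0 s) F * g F
        = (if F e0 = false then (1 : ℝ) else 0) * (ind s F * g F) := by
      intro F
      have h2 : ind (insert e0 s) F = (if F e0 = false then (1 : ℝ) else 0) * ind s F := by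
        have h3 := ind_mul {e0} s F
        rw [← Finset.insert_eq] at h3
        rw [← h3]
        simp [ind]
      rw [h2, mul_assoc]
    simp_rw [h1]
    rw [ex_coord e0, ih hg', Finset.card_insert_of_notMem he, pow_succ]
    · ring
    · intro F b
      rw [hg e0 (Finset.mem_insert_self _ _)]
      congr 1
      unfold ind
      congr 1
      apply propext
      constructor
      · intro h e hes
        have h4 := h e hes
        rwa [Function.update_of_ne (by rintro rfl; exact he hes)] at h4
      · intro h e hes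
        rw [Function.update_of_ne (by rintro rfl; exact he hes)]
        exact h e hes

lemma ex_ind (s : Finset E) : ex p (ind s) = p ^ s.card := by
  have h := ex_ind_mul (p := p) s (fun _ => (1 : ℝ)) (fun _ _ _ _ => rfl)
  simp only [mul_one] at h
  rw [h, ex_one, mul_one]

lemma wt_lattice (F G : E → Bool) :
    wt p F * wt p G = wt p (F ⊓ G) * wt p (F ⊔ G) := by
  unfold wt
  rw [← Finset.prod_mul_distrib, ← Finset.prod_mul_distrib]
  apply Finset.prod_congr rfl
  intro e _
  have key : ∀ x y : Bool, (if x = true then 1 - p else p) * (if y = true then 1 - p else p)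
      = (if x ⊓ y = true then 1 - p else p) * (if x ⊔ y = true then 1 - p else p) := by
    intro x y
    cases x <;> cases y <;> simp [mul_comm]
  exact key (F e) (G e)

/-- FKG under conditioning on `ind s`: for monotone nonnegative `f, g` with `g` not looking
at `s`, `E[1_s f] * E[g] ≤ E[1_s f g]`. -/
lemma fkg_ind (h0 : 0 < p) (h1 : p ≤ 1) (s : Finset E) (f g : (E → Bool) → ℝ)
    (hf0 : 0 ≤ f) (hg0 : 0 ≤ g) (hf : Monotone f) (hg : Monotone g)
    (hgs : ∀ e ∈ s, ∀ F b, g (Function.update F e b) = g F) :
    ex p (fun F => ind s F * f F) * ex p g ≤ ex p (fun F => ind s F * (f F * g F)) := by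
  have hfkg := fkg f g (fun F : E → Bool => wt p F * ind s F)
    (fun F => mul_nonneg (wt_nonneg h0.le h1 F) (ind_nonneg s F)) hf0 hg0 hf hg (by
      intro a b
      have hw := wt_lattice (p := p) a b
      have hw0 : 0 ≤ wt p (a ⊓ b) * wt p (a ⊔ b) :=
        mul_nonneg (wt_nonneg h0.le h1 _) (wt_nonneg h0.le h1 _)
      have hi : ind s a * ind s b ≤ ind s (a ⊓ b) * ind s (a ⊔ b) := by
        unfold ind
        by_cases ha : ∀ e ∈ s, a e = false
        · by_cases hb : ∀ e ∈ s, b e = false
          · have h2 : ∀ e ∈ s, (a ⊓ b) e = false := by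
              intro e he; simp [ha e he]
            have h3 : ∀ e ∈ s, (a ⊔ b) e = false := by
              intro e he; simp [ha e he, hb e he]
            rw [if_pos ha, if_pos hb, if_pos h2, if_pos h3]
          · rw [if_neg hb]
            simp only [mul_zero]
            split_ifs <;> norm_num
        · rw [if_neg ha]
          simp only [zero_mul]
          split_ifs <;> norm_num
      calc wt p a * ind s a * (wt p b * ind s b)
          = (wt p a * wt p b) * (ind s a * ind s b) := by ring
        _ = (wt p (a ⊓ b) * wt p (a ⊔ b)) * (ind s a * ind s b) := by rw [hw]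
        _ ≤ (wt p (a ⊓ b) * wt p (a ⊔ b)) * (ind s (a ⊓ b) * ind s (a ⊔ b)) :=
            mul_le_mul_of_nonneg_left hi hw0
        _ = _ := by ring)
  have e1 : ∑ a, wt p a * ind s a * f a = ex p (fun F => ind s F * f F) := by
    unfold ex; apply Finset.sum_congr rfl; intro F _; ring
  have e2 : ∑ a, wt p a * ind s a * g a = ex p (fun F => ind s F * g F) := by
    unfold ex; apply Finset.sum_congr rfl; intro F _; ring
  have e3 : ∑ a, wt p a * ind s a = ex p (ind s) := by
    unfold ex; rfl
  have e4 : ∑ a, wt p a * ind s a * (f a * g a) = ex p (fun F => ind s F * (f F * g F)) := by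
    unfold ex; apply Finset.sum_congr rfl; intro F _; ring
  rw [e1, e2, e3, e4, ex_ind_mul s g hgs, ex_ind] at hfkg
  have hp : 0 < p ^ s.card := pow_pos h0 _
  have h5 : p ^ s.card * (ex p (fun F => ind s F * f F) * ex p g)
      ≤ p ^ s.card * ex p (fun F => ind s F * (f F * g F)) := by
    calc p ^ s.card * (ex p (fun F => ind s F * f F) * ex p g)
        = ex p (fun F => ind s F * f F) * (p ^ s.card * ex p g) := by ring
      _ ≤ _ := hfkg
  exact le_of_mul_le_mul_left h5 hp

lemma one_sub_sum_le_prod {ι : Type*} [DecidableEq ι] (J : Finset ι) (x : ι → ℝ)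
    (hx0 : ∀ j ∈ J, 0 ≤ x j) (hx1 : ∀ j ∈ J, x j ≤ 1) :
    1 - ∑ j ∈ J, x j ≤ ∏ j ∈ J, (1 - x j) ∧ ∏ j ∈ J, (1 - x j) ≤ 1 := by
  induction J using Finset.induction_on with
  | empty => simp
  | insert i J hi ih =>
    obtain ⟨ih1, ih2⟩ := ih (fun j hj => hx0 j (Finset.mem_insert_of_mem hj))
      (fun j hj => hx1 j (Finset.mem_insert_of_mem hj))
    have hi0 := hx0 i (Finset.mem_insert_self _ _)
    have hi1 := hx1 i (Finset.mem_insert_self _ _)
    have hP0 : 0 ≤ ∏ j ∈ J, (1 - x j) := Finset.prod_nonneg (fun j hj => by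
      have := hx1 j (Finset.mem_insert_of_mem hj); linarith)
    rw [Finset.sum_insert hi, Finset.prod_insert hi]
    constructor
    · nlinarith
    · nlinarith

lemma prod_sub_ind_mono {ι : Type*} (J : Finset ι) (Es : ι → Finset E) (s : ι → ℝ)
    (hs0 : ∀ j ∈ J, 0 ≤ s j) (hs1 : ∀ j ∈ J, s j ≤ 1) :
    Monotone (fun F : E → Bool => ∏ j ∈ J, (1 - s j * ind (Es j) F)) := by
  intro F G hFG
  apply Finset.prod_le_prod
  · intro j hj
    have h1 := ind_nonneg (Es j) F
    have h2 := ind_le_one (Es j) F
    have h3 := hs0 j hj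
    have h4 := hs1 j hj
    nlinarith
  · intro j hj
    have h1 := ind_antitone (Es j) hFG
    have h3 := hs0 j hj
    nlinarith

lemma prod_sub_ind_nonneg {ι : Type*} (J : Finset ι) (Es : ι → Finset E) (s : ι → ℝ)
    (hs0 : ∀ j ∈ J, 0 ≤ s j) (hs1 : ∀ j ∈ J, s j ≤ 1) :
    0 ≤ (fun F : E → Bool => ∏ j ∈ J, (1 - s j * ind (Es j) F)) := by
  intro F
  apply Finset.prod_nonneg
  intro j hj
  have h1 := ind_nonneg (Es j) F
  have h2 := ind_le_one (Es j) F
  have h3 := hs0 j hj
  have h4 := hs1 j hj
  nlinarith

/-- A Janson-type inequality: the expectation of a product of `1 - s_j 1_{A_j}` where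
`A_j` is the event that all coordinates of `Es j` are `false`. -/
theorem janson {ι : Type*} [DecidableEq ι] (h0 : 0 < p) (h1 : p ≤ 1) (J : Finset ι)
    (Es : ι → Finset E) (s : ι → ℝ)
    (hs0 : ∀ j ∈ J, 0 ≤ s j) (hs1 : ∀ j ∈ J, s j ≤ 1) :
    ex p (fun F => ∏ j ∈ J, (1 - s j * ind (Es j) F)) ≤
      Real.exp (-(∑ i ∈ J, s i * p ^ (Es i).card)
        + ∑ i ∈ J, ∑ j ∈ J,
          (if Disjoint (Es i) (Es j) then 0 else s i * s j * p ^ (Es i ∪ Es j).card)) := by
  classical
  induction J using Finset.induction_on with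
  | empty => simp [ex_one]
  | insert i J hi ih =>
    have hs0' : ∀ j ∈ J, 0 ≤ s j := fun j hj => hs0 j (Finset.mem_insert_of_mem hj)
    have hs1' : ∀ j ∈ J, s j ≤ 1 := fun j hj => hs1 j (Finset.mem_insert_of_mem hj)
    have hi0 := hs0 i (Finset.mem_insert_self _ _)
    have hi1 := hs1 i (Finset.mem_insert_self _ _)
    specialize ih hs0' hs1'
    set Jn := J.filter (fun j => ¬ Disjoint (Es i) (Es j)) with hJn
    set Jd := J.filter (fun j => Disjoint (Es i) (Es j)) with hJd
    set f : (E → Bool) → ℝ := fun F => ∏ j ∈ Jn, (1 - s j * ind (Es j) F) with hf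
    set g : (E → Bool) → ℝ := fun F => ∏ j ∈ Jd, (1 - s j * ind (Es j) F) with hg
    have hJn0 : ∀ j ∈ Jn, 0 ≤ s j := fun j hj => hs0' j (Finset.mem_filter.1 hj).1
    have hJn1 : ∀ j ∈ Jn, s j ≤ 1 := fun j hj => hs1' j (Finset.mem_filter.1 hj).1
    have hJd0 : ∀ j ∈ Jd, 0 ≤ s j := fun j hj => hs0' j (Finset.mem_filter.1 hj).1
    have hJd1 : ∀ j ∈ Jd, s j ≤ 1 := fun j hj => hs1' j (Finset.mem_filter.1 hj).1
    have hfg : ∀ F, ∏ j ∈ J, (1 - s j * ind (Es j) F) = f F * g F := by
      intro F
      rw [hf, hg, mul_comm]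
      exact (Finset.prod_filter_mul_prod_filter_not J (fun j => Disjoint (Es i) (Es j)) _).symm
    set Θ := ex p (fun F => ∏ j ∈ J, (1 - s j * ind (Es j) F)) with hΘ
    have hΘ0 : 0 ≤ Θ := ex_nonneg h0.le h1 (fun F => prod_sub_ind_nonneg J Es s hs0' hs1' F)
    have hfm : Monotone f := prod_sub_ind_mono Jn Es s hJn0 hJn1
    have hgm : Monotone g := prod_sub_ind_mono Jd Es s hJd0 hJd1
    have hfn : 0 ≤ f := prod_sub_ind_nonneg Jn Es s hJn0 hJn1
    have hgn : 0 ≤ g := prod_sub_ind_nonneg Jd Es s hJd0 hJd1
    have hgs : ∀ e ∈ Es i, ∀ F b, g (Function.update F e b) = g F := by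
      intro e he F b
      apply Finset.prod_congr rfl
      intro j hj
      have hdis := (Finset.mem_filter.1 hj).2
      have hne : ∀ e' ∈ Es j, e' ≠ e := by
        rintro e' he' rfl
        exact (Finset.disjoint_left.1 hdis he) he'
      have hind : ind (Es j) (Function.update F e b) = ind (Es j) F := by
        unfold ind
        congr 1
        apply propext
        constructor
        · intro h e' he'
          have h4 := h e' he'
          rwa [Function.update_of_ne (hne e' he')] at h4
        · intro h e' he'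
          rw [Function.update_of_ne (hne e' he')]
          exact h e' he'
      rw [hind]
    have hfkg := fkg_ind h0 h1 (Es i) f g hfn hgn hfm hgm hgs
    have hxF : ∀ F, ∀ j ∈ Jn, 0 ≤ s j * ind (Es j) F :=
      fun F j hj => mul_nonneg (hJn0 j hj) (ind_nonneg _ _)
    have hxF1 : ∀ F, ∀ j ∈ Jn, s j * ind (Es j) F ≤ 1 := by
      intro F j hj
      have a1 := hJn0 j hj
      have a2 := hJn1 j hj
      have a3 := ind_nonneg (Es j) F
      have a4 := ind_le_one (Es j) F
      nlinarith
    have hf1 : ∀ F, f F ≤ 1 := fun F => (one_sub_sum_le_prod Jn _ (hxF F) (hxF1 F)).2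
    have hglb : Θ ≤ ex p g := by
      rw [hΘ]
      apply ex_mono h0.le h1
      intro F
      rw [hfg F]
      have a1 := hf1 F
      have a2 := hgn F
      simp only [Pi.zero_apply] at a2
      nlinarith
    set Sg : ℝ := ∑ j ∈ Jn, s j * p ^ (Es i ∪ Es j).card with hSg
    have hA : p ^ (Es i).card - Sg ≤ ex p (fun F => ind (Es i) F * f F) := by
      have a1 : ex p (fun F => ind (Es i) F - ∑ j ∈ Jn, s j * ind (Es i ∪ Es j) F)
          ≤ ex p (fun F => ind (Es i) F * f F) := by
        apply ex_mono h0.le h1
        intro F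
        have a2 := (one_sub_sum_le_prod Jn _ (hxF F) (hxF1 F)).1
        have a3 := ind_nonneg (Es i) F
        calc ind (Es i) F - ∑ j ∈ Jn, s j * ind (Es i ∪ Es j) F
            = ind (Es i) F * (1 - ∑ j ∈ Jn, s j * ind (Es j) F) := by
              rw [mul_sub, mul_one, Finset.mul_sum]
              congr 1
              apply Finset.sum_congr rfl
              intro j _
              rw [← ind_mul]; ring
          _ ≤ ind (Es i) F * f F := mul_le_mul_of_nonneg_left a2 a3
      have a4 : ex p (fun F => ind (Es i) F - ∑ j ∈ Jn, s j * ind (Es i ∪ Es j) F)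
          = p ^ (Es i).card - Sg := by
        rw [ex_sub (fun F => ind (Es i) F) (fun F => ∑ j ∈ Jn, s j * ind (Es i ∪ Es j) F),
          ex_sum Jn (fun j F => s j * ind (Es i ∪ Es j) F)]
        congr 1
        · exact ex_ind _
        · rw [hSg]
          apply Finset.sum_congr rfl
          intro j _
          rw [ex_mul_left, ← ex_ind (p := p) (Es i ∪ Es j)]
      rw [← a4]; exact a1
    have hB : (p ^ (Es i).card - Sg) * Θ ≤ ex p (fun F => ind (Es i) F * (f F * g F)) := by
      have b1 : 0 ≤ ex p (fun F => ind (Es i) F * f F) :=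
        ex_nonneg h0.le h1 (fun F => mul_nonneg (ind_nonneg _ _) (hfn F))
      calc (p ^ (Es i).card - Sg) * Θ ≤ ex p (fun F => ind (Es i) F * f F) * Θ :=
            mul_le_mul_of_nonneg_right hA hΘ0
        _ ≤ ex p (fun F => ind (Es i) F * f F) * ex p g := mul_le_mul_of_nonneg_left hglb b1
        _ ≤ _ := hfkg
    have hC : ex p (fun F => ∏ j ∈ insert i J, (1 - s j * ind (Es j) F))
        = Θ - s i * ex p (fun F => ind (Es i) F * (f F * g F)) := by
      rw [← ex_mul_left, hΘ, ← ex_sub]
      unfold ex
      apply Finset.sum_congr rfl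
      intro F _
      dsimp only
      rw [Finset.prod_insert hi, hfg F]
      ring
    have hD : ex p (fun F => ∏ j ∈ insert i J, (1 - s j * ind (Es j) F))
        ≤ Θ * Real.exp (-(s i * p ^ (Es i).card) + s i * Sg) := by
      rw [hC]
      have d1 : Θ - s i * ex p (fun F => ind (Es i) F * (f F * g F))
          ≤ Θ * ((-(s i * p ^ (Es i).card) + s i * Sg) + 1) := by
        have d2 := mul_le_mul_of_nonneg_left hB hi0
        nlinarith
      exact d1.trans (mul_le_mul_of_nonneg_left (Real.add_one_le_exp _) hΘ0)
    refine hD.trans ?_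
    refine (mul_le_mul_of_nonneg_right ih (Real.exp_nonneg _)).trans ?_
    rw [← Real.exp_add]
    apply Real.exp_le_exp.2
    rw [Finset.sum_insert hi]
    set t : ι → ι → ℝ := fun a b =>
      (if Disjoint (Es a) (Es b) then 0 else s a * s b * p ^ (Es a ∪ Es b).card) with ht
    have ht0 : ∀ a ∈ insert i J, ∀ b ∈ insert i J, 0 ≤ t a b := by
      intro a ha b hb
      rw [ht]
      dsimp only
      split_ifs
      · exact le_rfl
      · exact mul_nonneg (mul_nonneg (hs0 a ha) (hs0 b hb)) (pow_nonneg h0.le _)
    have hQ : ∑ a ∈ insert i J, ∑ b ∈ insert i J, t a b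
        ≥ ∑ b ∈ J, t i b + ∑ a ∈ J, ∑ b ∈ J, t a b := by
      rw [Finset.sum_insert hi]
      have q1 : ∑ b ∈ J, t i b ≤ ∑ b ∈ insert i J, t i b := by
        rw [Finset.sum_insert hi]
        have := ht0 i (Finset.mem_insert_self _ _) i (Finset.mem_insert_self _ _)
        linarith
      have q2 : ∑ a ∈ J, ∑ b ∈ J, t a b ≤ ∑ a ∈ J, ∑ b ∈ insert i J, t a b := by
        apply Finset.sum_le_sum
        intro a ha
        rw [Finset.sum_insert hi]
        have := ht0 a (Finset.mem_insert_of_mem ha) i (Finset.mem_insert_self _ _)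
        linarith
      linarith
    have hR : ∑ b ∈ J, t i b = s i * Sg := by
      rw [hSg, Finset.mul_sum, hJn, Finset.sum_filter]
      apply Finset.sum_congr rfl
      intro b _
      rw [ht]
      dsimp only
      by_cases hd : Disjoint (Es i) (Es b)
      · simp [hd]
      · rw [if_neg hd, if_pos hd]; ring
    linarith

end Prod

end Pool.Agent.T9h20
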