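import Mathlib
import Pool.Agent.T9h20.Prod

/-!
Block assignments, random block predicates and the main probabilistic lemma.
-/

namespace Pool.Agent.T9h20

open Finset

set_option linter.unusedSectionVars false
set_option linter.unusedVariables false

section Blocks

variable {N : ℕ} {A : Type} [Fintype A] [DecidableEq A] [Inhabited A]

/-- Restriction of a block assignment to the blocks in `V` (default outside). -/
def mask (V : Finset (Fin N)) (y : Fin N → A) : Fin N → A := fun i => if i ∈ V then y i else default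

omit [Fintype A] [DecidableEq A] in
lemma mask_eq_iff {V : Finset (Fin N)} {y z : Fin N → A} :
    mask V y = mask V z ↔ ∀ i ∈ V, y i = z i := by
  constructor
  · intro h i hi
    have h1 := congrFun h i
    simpa [mask, hi] using h1
  · intro h
    funext i
    by_cases hi : i ∈ V
    · simp [mask, hi, h i hi]
    · simp [mask, hi]

/-- The entries (set of `k` blocks, pattern on them) inside `R`, not inside `S`, seen by `y`. -/
def entries (k : ℕ) (S R : Finset (Fin N)) (y : Fin N → A) :
    Finset (Finset (Fin N) × (Fin N → A)) :=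
  ((R.powersetCard k).filter (fun V => ¬ V ⊆ S)).image (fun V => (V, mask V y))

/-- The blocks outside `S` on which `y` and `y'` agree. -/
def agr (S : Finset (Fin N)) (y y' : Fin N → A) : Finset (Fin N) :=
  Finset.univ.filter (fun i => i ∉ S ∧ y' i = y i)

/-- `Y` is dense outside `S` (at rate `d` bits per block). -/
def Dense (d : ℕ) (Y : Finset (Fin N → A)) (S : Finset (Fin N)) : Prop :=
  ∀ I : Finset (Fin N), Disjoint I S → ∀ τ : Fin N → A,
    (Y.filter (fun y => ∀ i ∈ I, y i = τ i)).card * 2 ^ (d * I.card) ≤ Y.card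

lemma card_contain_le (k N1 : ℕ) (R : Finset (Fin N)) (hR : R.card ≤ N1) (i : Fin N) (hk : 1 ≤ k) :
    ((R.powersetCard k).filter (fun V => i ∈ V)).card ≤ (N1 - 1).choose (k - 1) := by
  by_cases hi : i ∈ R
  · have h1 : ((R.powersetCard k).filter (fun V => i ∈ V)).card
        ≤ ((R.erase i).powersetCard (k - 1)).card := by
      apply Finset.card_le_card_of_injOn (fun V => V.erase i)
      · intro V hV
        have hV' := Finset.mem_filter.1 (Finset.mem_coe.1 hV)
        obtain ⟨hV1, hV2⟩ := hV'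
        rw [Finset.mem_powersetCard] at hV1
        rw [Finset.mem_coe, Finset.mem_powersetCard]
        refine ⟨Finset.erase_subset_erase _ hV1.1, ?_⟩
        rw [Finset.card_erase_of_mem hV2, hV1.2]
      · intro V hV W hW hVW
        have hV' := (Finset.mem_filter.1 (Finset.mem_coe.1 hV)).2
        have hW' := (Finset.mem_filter.1 (Finset.mem_coe.1 hW)).2
        dsimp only at hVW
        rw [← Finset.insert_erase hV', ← Finset.insert_erase hW', hVW]
    refine h1.trans ?_
    rw [Finset.card_powersetCard, Finset.card_erase_of_mem hi]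
    exact Nat.choose_le_choose _ (by omega)
  · have h2 : (R.powersetCard k).filter (fun V => i ∈ V) = ∅ := by
      apply Finset.filter_false_of_mem
      intro V hV hiV
      exact hi ((Finset.mem_powersetCard.1 hV).1 hiV)
    rw [h2]; simp

lemma entries_inter_card (k N1 : ℕ) (hk : 1 ≤ k) (S R R' : Finset (Fin N)) (hR : R.card ≤ N1)
    (y y' : Fin N → A) :
    (entries k S R y ∩ entries k S R' y').card ≤ (agr S y y').card * (N1 - 1).choose (k - 1) := by
  classical
  have hsub : entries k S R y ∩ entries k S R' y' ⊆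
      (agr S y y').biUnion (fun i =>
        ((R.powersetCard k).filter (fun V => i ∈ V)).image (fun V => (V, mask V y))) := by
    intro e he
    obtain ⟨h1, h2⟩ := Finset.mem_inter.1 he
    unfold entries at h1 h2
    obtain ⟨V, hV, rfl⟩ := Finset.mem_image.1 h1
    obtain ⟨W, hW, hWV⟩ := Finset.mem_image.1 h2
    simp only [Prod.mk.injEq] at hWV
    obtain ⟨rfl, hm⟩ := hWV
    obtain ⟨hV1, hV2⟩ := Finset.mem_filter.1 hV
    obtain ⟨i, hiV, hiS⟩ := Finset.not_subset.1 hV2
    rw [Finset.mem_biUnion]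
    refine ⟨i, ?_, ?_⟩
    · unfold agr
      simp only [Finset.mem_filter, Finset.mem_univ, true_and]
      exact ⟨hiS, mask_eq_iff.1 hm i hiV⟩
    · exact Finset.mem_image.2 ⟨W, Finset.mem_filter.2 ⟨hV1, hiV⟩, rfl⟩
  refine (Finset.card_le_card hsub).trans ?_
  apply Finset.card_biUnion_le_card_mul
  intro i _
  exact Finset.card_image_le.trans (card_contain_le k N1 R hR i hk)

lemma agr_nonempty_of_not_disjoint (k : ℕ) (S R R' : Finset (Fin N)) (y y' : Fin N → A)
    (h : ¬ Disjoint (entries k S R y) (entries k S R' y')) : (agr S y y').Nonempty := by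
  rw [Finset.not_disjoint_iff] at h
  obtain ⟨e, h1, h2⟩ := h
  unfold entries at h1 h2
  obtain ⟨V, hV, rfl⟩ := Finset.mem_image.1 h1
  obtain ⟨W, hW, hWV⟩ := Finset.mem_image.1 h2
  simp only [Prod.mk.injEq] at hWV
  obtain ⟨rfl, hm⟩ := hWV
  obtain ⟨hV1, hV2⟩ := Finset.mem_filter.1 hV
  obtain ⟨i, hiV, hiS⟩ := Finset.not_subset.1 hV2
  refine ⟨i, ?_⟩
  unfold agr
  simp only [Finset.mem_filter, Finset.mem_univ, true_and]
  exact ⟨hiS, mask_eq_iff.1 hm i hiV⟩

lemma entries_card_le (k N1 : ℕ) (hk : 1 ≤ k) (S R : Finset (Fin N)) (hR : R.card ≤ N1)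
    (y : Fin N → A) :
    (entries k S R y).card ≤ (R \ S).card * (N1 - 1).choose (k - 1) := by
  classical
  have hsub : entries k S R y ⊆
      (R \ S).biUnion (fun i =>
        ((R.powersetCard k).filter (fun V => i ∈ V)).image (fun V => (V, mask V y))) := by
    intro e he
    unfold entries at he
    obtain ⟨V, hV, rfl⟩ := Finset.mem_image.1 he
    obtain ⟨hV1, hV2⟩ := Finset.mem_filter.1 hV
    obtain ⟨i, hiV, hiS⟩ := Finset.not_subset.1 hV2
    rw [Finset.mem_biUnion]
    refine ⟨i, ?_, ?_⟩
    · exact Finset.mem_sdiff.2 ⟨(Finset.mem_powersetCard.1 hV1).1 hiV, hiS⟩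
    · exact Finset.mem_image.2 ⟨V, Finset.mem_filter.2 ⟨hV1, hiV⟩, rfl⟩
  refine (Finset.card_le_card hsub).trans ?_
  apply Finset.card_biUnion_le_card_mul
  intro i _
  exact Finset.card_image_le.trans (card_contain_le k N1 R hR i hk)

/-- Sum over `y' ∈ Y` of `ρ ^ |agr|` over those with nonempty agreement set. -/
lemma sum_agr_le (d : ℕ) (Y : Finset (Fin N → A)) (S : Finset (Fin N)) (hD : Dense d Y S)
    (ρ : ℝ) (hρ : 0 ≤ ρ) (y : Fin N → A) :
    ∑ y' ∈ Y, (if (agr S y y').Nonempty then ρ ^ (agr S y y').card else 0)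
      ≤ (Y.card : ℝ) * ((1 + ρ / 2 ^ d) ^ N - 1) := by
  classical
  have step1 : ∀ y' ∈ Y, (if (agr S y y').Nonempty then ρ ^ (agr S y y').card else 0)
      ≤ ∑ I ∈ (Sᶜ.powerset.erase ∅), (if ∀ i ∈ I, y' i = y i then ρ ^ I.card else 0) := by
    intro y' _
    split_ifs with hne
    · have hmem : agr S y y' ∈ Sᶜ.powerset.erase ∅ := by
        rw [Finset.mem_erase, Finset.mem_powerset]
        refine ⟨hne.ne_empty, ?_⟩
        intro i hi
        unfold agr at hi
        simp only [Finset.mem_filter, Finset.mem_univ, true_and] at hi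
        simpa using hi.1
      have hval : ρ ^ (agr S y y').card
          = (if ∀ i ∈ agr S y y', y' i = y i then ρ ^ (agr S y y').card else 0) := by
        rw [if_pos]
        intro i hi
        unfold agr at hi
        simp only [Finset.mem_filter, Finset.mem_univ, true_and] at hi
        exact hi.2
      rw [hval]
      apply Finset.single_le_sum (f := fun I : Finset (Fin N) =>
        (if ∀ i ∈ I, y' i = y i then ρ ^ I.card else 0)) _ hmem
      intro I _
      split_ifs
      · positivity
      · exact le_rfl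
    · apply Finset.sum_nonneg
      intro I _
      split_ifs
      · positivity
      · exact le_rfl
  refine (Finset.sum_le_sum step1).trans ?_
  rw [Finset.sum_comm]
  have step2 : ∀ I ∈ Sᶜ.powerset.erase ∅,
      ∑ y' ∈ Y, (if ∀ i ∈ I, y' i = y i then ρ ^ I.card else 0)
        ≤ (Y.card : ℝ) * (ρ / 2 ^ d) ^ I.card := by
    intro I hI
    rw [Finset.mem_erase, Finset.mem_powerset] at hI
    have hdis : Disjoint I S := by
      rw [Finset.disjoint_left]
      intro i hi hiS
      have := hI.2 hi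
      simp at this
      exact this hiS
    have hd := hD I hdis y
    rw [← Finset.sum_filter, Finset.sum_const, nsmul_eq_mul]
    have h2 : (0 : ℝ) < 2 ^ (d * I.card) := by positivity
    have h3 : ((Y.filter (fun y' => ∀ i ∈ I, y' i = y i)).card : ℝ) * 2 ^ (d * I.card)
        ≤ (Y.card : ℝ) := by exact_mod_cast hd
    have h4 : (ρ / 2 ^ d) ^ I.card = ρ ^ I.card / 2 ^ (d * I.card) := by
      rw [div_pow, ← pow_mul]
    rw [h4, mul_div_assoc', le_div_iff₀ h2]
    have h5 : 0 ≤ ρ ^ I.card := pow_nonneg hρ _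
    calc ((Y.filter (fun y' => ∀ i ∈ I, y' i = y i)).card : ℝ) * ρ ^ I.card * 2 ^ (d * I.card)
        = (((Y.filter (fun y' => ∀ i ∈ I, y' i = y i)).card : ℝ) * 2 ^ (d * I.card))
            * ρ ^ I.card := by ring
      _ ≤ (Y.card : ℝ) * ρ ^ I.card := mul_le_mul_of_nonneg_right h3 h5
  refine (Finset.sum_le_sum step2).trans ?_
  rw [← Finset.mul_sum]
  apply mul_le_mul_of_nonneg_left _ (Nat.cast_nonneg _)
  set x : ℝ := ρ / 2 ^ d with hx
  have hx0 : 0 ≤ x := by positivity
  have hsum : ∑ I ∈ Sᶜ.powerset, x ^ I.card = (x + 1) ^ (Sᶜ.card) := by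
    have h := Finset.sum_pow_mul_eq_add_pow x (1 : ℝ) Sᶜ
    simpa using h
  have herase : ∑ I ∈ Sᶜ.powerset.erase ∅, x ^ I.card = (x + 1) ^ (Sᶜ.card) - 1 := by
    rw [← hsum, ← Finset.add_sum_erase _ _ (Finset.empty_mem_powerset Sᶜ)]
    simp
  rw [herase]
  have hc : Sᶜ.card ≤ N := by
    have := Finset.card_le_univ Sᶜ
    simpa using this
  have : (x + 1) ^ (Sᶜ.card) ≤ (1 + x) ^ N := by
    rw [add_comm x 1]
    exact pow_le_pow_right₀ (by linarith) hc
  linarith

/-- The main probabilistic lemma. -/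
theorem prob_lemma {p : ℝ} (hp0 : 0 < p) (hp1 : p ≤ 1) (d k N1 : ℕ) (hk : 1 ≤ k) (hN : 1 ≤ N)
    (Y Y' : Finset (Fin N → A)) (S : Finset (Fin N)) (hD : Dense d Y S)
    (hYY : Y' ⊆ Y) (R : (Fin N → A) → Finset (Fin N))
    (hR : ∀ y ∈ Y', (R y).card ≤ N1) (hRS : ∀ y ∈ Y', ¬ R y ⊆ S)
    (x : ℝ) (hx : x = (p ^ (N1 - 1).choose (k - 1))⁻¹ / 2 ^ d) (hx1 : x ≤ 1) :
    ex p (fun F : (Finset (Fin N) × (Fin N → A)) → Bool =>
        if ∀ y ∈ Y', ∃ e ∈ entries k S (R y) y, F e = true then 1 else 0)
      ≤ Real.exp (-((Y'.card : ℝ) / (Y.card * (4 * ((1 + x) ^ N - 1))))) := by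
  classical
  rcases Y'.eq_empty_or_nonempty with hE | hNE
  · subst hE
    simp [ex_one]
  set K := (N1 - 1).choose (k - 1) with hK
  set ρ : ℝ := (p ^ K)⁻¹ with hρ
  have hpK : 0 < p ^ K := pow_pos hp0 _
  have hρ0 : 0 < ρ := inv_pos.2 hpK
  have hρ1 : 1 ≤ ρ := by
    rw [hρ]
    exact (one_le_inv₀ hpK).2 (pow_le_one₀ hp0.le hp1)
  have hx0 : 0 < x := by rw [hx]; positivity
  set η : ℝ := (1 + x) ^ N - 1 with hη
  have hηx : x ≤ η := by
    have h1 := one_add_mul_le_pow (by linarith : (-2 : ℝ) ≤ x) N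
    have h2 : (1 : ℝ) ≤ N := by exact_mod_cast hN
    have h3 : x ≤ N * x := by nlinarith
    rw [hη]; linarith
  have hη0 : 0 < η := lt_of_lt_of_le hx0 hηx
  have hYne : Y.Nonempty := hNE.mono hYY
  have hYc : (0 : ℝ) < Y.card := by exact_mod_cast hYne.card_pos
  set s : ℝ := 1 / (2 * Y.card * η) with hs
  have hs0 : 0 < s := by rw [hs]; positivity
  set Es : (Fin N → A) → Finset (Finset (Fin N) × (Fin N → A)) :=
    fun y => entries k S (R y) y with hEs
  set w : (Fin N → A) → ℝ := fun y => (p ^ (Es y).card)⁻¹ with hw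
  have hw0 : ∀ y, 0 < w y := fun y => inv_pos.2 (pow_pos hp0 _)
  have hwbound : ∀ y ∈ Y', w y ≤ x * Y.card := by
    intro y hy
    have ht : 1 ≤ (R y \ S).card := by
      rw [Nat.one_le_iff_ne_zero, Finset.card_ne_zero, Finset.sdiff_nonempty]
      exact hRS y hy
    have h1 : (Es y).card ≤ (R y \ S).card * K := entries_card_le k N1 hk S (R y) (hR y hy) y
    have h2 : w y ≤ ρ ^ (R y \ S).card := by
      rw [hw, hρ]
      dsimp only
      rw [inv_pow, ← pow_mul]
      apply inv_anti₀ (pow_pos hp0 _)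
      apply pow_le_pow_of_le_one hp0.le hp1
      rw [mul_comm]; exact h1
    have hd := hD (R y \ S) Finset.sdiff_disjoint y
    have hpos : 1 ≤ (Y.filter (fun y' => ∀ i ∈ R y \ S, y' i = y i)).card := by
      rw [Nat.one_le_iff_ne_zero, Finset.card_ne_zero]
      exact ⟨y, Finset.mem_filter.2 ⟨hYY hy, fun _ _ => rfl⟩⟩
    have h3 : (2 : ℝ) ^ (d * (R y \ S).card) ≤ Y.card := by
      have : 2 ^ (d * (R y \ S).card) ≤ Y.card := by
        calc 2 ^ (d * (R y \ S).card) = 1 * 2 ^ (d * (R y \ S).card) := by ring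
          _ ≤ _ := Nat.mul_le_mul_right _ hpos
          _ ≤ _ := hd
      exact_mod_cast this
    have h4 : ρ ^ (R y \ S).card = x ^ (R y \ S).card * 2 ^ (d * (R y \ S).card) := by
      rw [hx, div_pow, ← pow_mul, div_mul_cancel₀]
      positivity
    calc w y ≤ ρ ^ (R y \ S).card := h2
      _ = x ^ (R y \ S).card * 2 ^ (d * (R y \ S).card) := h4
      _ ≤ x ^ (R y \ S).card * Y.card := mul_le_mul_of_nonneg_left h3 (by positivity)
      _ ≤ x * Y.card := by
          apply mul_le_mul_of_nonneg_right _ hYc.le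
          calc x ^ (R y \ S).card ≤ x ^ 1 := pow_le_pow_of_le_one hx0.le hx1 ht
            _ = x := pow_one x
  have hsw1 : ∀ y ∈ Y', s * w y ≤ 1 := by
    intro y hy
    have h1 := hwbound y hy
    rw [hs, one_div, inv_mul_le_iff₀ (by positivity)]
    have h2 : x * Y.card ≤ η * Y.card := mul_le_mul_of_nonneg_right hηx hYc.le
    nlinarith
  have hjan := janson hp0 hp1 Y' Es (fun y => s * w y)
    (fun y _ => (mul_pos hs0 (hw0 y)).le) hsw1
  have hle : ex p (fun F : (Finset (Fin N) × (Fin N → A)) → Bool =>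
        if ∀ y ∈ Y', ∃ e ∈ entries k S (R y) y, F e = true then 1 else 0)
      ≤ ex p (fun F => ∏ y ∈ Y', (1 - s * w y * ind (Es y) F)) := by
    apply ex_mono hp0.le hp1
    intro F
    split_ifs with hF
    · apply le_of_eq
      symm
      apply Finset.prod_eq_one
      intro y hy
      have : ind (Es y) F = 0 := by
        unfold ind
        rw [if_neg]
        intro hcon
        obtain ⟨e, he, hFe⟩ := hF y hy
        rw [hcon e he] at hFe
        exact absurd hFe (by simp)
      rw [this]; ring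
    · exact prod_sub_ind_nonneg Y' Es (fun y => s * w y)
        (fun y _ => (mul_pos hs0 (hw0 y)).le) hsw1 F
  refine hle.trans (hjan.trans ?_)
  apply Real.exp_le_exp.2
  have hfirst : ∑ i ∈ Y', s * w i * p ^ (Es i).card = s * Y'.card := by
    have : ∀ i ∈ Y', s * w i * p ^ (Es i).card = s := by
      intro i _
      rw [hw]
      dsimp only
      rw [mul_assoc, inv_mul_cancel₀ (pow_pos hp0 _).ne', mul_one]
    rw [Finset.sum_congr rfl this, Finset.sum_const, nsmul_eq_mul]
    ring
  have hsecond : ∑ i ∈ Y', ∑ j ∈ Y', (if Disjoint (Es i) (Es j) then 0 else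
      s * w i * (s * w j) * p ^ (Es i ∪ Es j).card) ≤ s ^ 2 * (Y'.card * (Y.card * η)) := by
    have hinner : ∀ i ∈ Y', ∑ j ∈ Y', (if Disjoint (Es i) (Es j) then 0 else
        s * w i * (s * w j) * p ^ (Es i ∪ Es j).card) ≤ s ^ 2 * (Y.card * η) := by
      intro i hi
      have hterm : ∀ j ∈ Y', (if Disjoint (Es i) (Es j) then 0 else
          s * w i * (s * w j) * p ^ (Es i ∪ Es j).card)
          ≤ s ^ 2 * (if (agr S i j).Nonempty then ρ ^ (agr S i j).card else 0) := by
        intro j hj
        split_ifs with hdis hne hne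
        · positivity
        · simp
        · have h1 : w i * w j * p ^ (Es i ∪ Es j).card = (p ^ (Es i ∩ Es j).card)⁻¹ := by
            have h2 := Finset.card_union_add_card_inter (Es i) (Es j)
            have h3 : p ^ (Es i ∪ Es j).card * p ^ (Es i ∩ Es j).card
                = p ^ (Es i).card * p ^ (Es j).card := by
              rw [← pow_add, ← pow_add, h2]
            rw [hw]
            dsimp only
            rw [← mul_inv, ← h3, mul_inv, mul_assoc, mul_comm (p ^ (Es i ∩ Es j).card)⁻¹,
              ← mul_assoc, inv_mul_cancel₀ (pow_pos hp0 _).ne', one_mul]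
          have h4 : (p ^ (Es i ∩ Es j).card)⁻¹ ≤ ρ ^ (agr S i j).card := by
            rw [hρ, inv_pow, ← pow_mul]
            apply inv_anti₀ (pow_pos hp0 _)
            apply pow_le_pow_of_le_one hp0.le hp1
            rw [mul_comm]
            exact entries_inter_card k N1 hk S (R i) (R j) (hR i hi) i j
          calc s * w i * (s * w j) * p ^ (Es i ∪ Es j).card
              = s ^ 2 * (w i * w j * p ^ (Es i ∪ Es j).card) := by ring
            _ = s ^ 2 * (p ^ (Es i ∩ Es j).card)⁻¹ := by rw [h1]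
            _ ≤ s ^ 2 * ρ ^ (agr S i j).card := mul_le_mul_of_nonneg_left h4 (by positivity)
        · exact absurd (agr_nonempty_of_not_disjoint k S (R i) (R j) i j hdis) hne
      refine (Finset.sum_le_sum hterm).trans ?_
      rw [← Finset.mul_sum]
      apply mul_le_mul_of_nonneg_left _ (by positivity)
      have h5 : ∑ j ∈ Y', (if (agr S i j).Nonempty then ρ ^ (agr S i j).card else 0)
          ≤ ∑ j ∈ Y, (if (agr S i j).Nonempty then ρ ^ (agr S i j).card else 0) := by
        apply Finset.sum_le_sum_of_subset_of_nonneg hYY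
        intro j _ _
        split_ifs
        · positivity
        · exact le_rfl
      refine h5.trans ?_
      have h6 := sum_agr_le d Y S hD ρ hρ0.le i
      rw [← hx] at h6
      exact h6
    refine (Finset.sum_le_sum hinner).trans ?_
    rw [Finset.sum_const, nsmul_eq_mul]
    apply le_of_eq; ring
  rw [hfirst]
  have hval : -(s * Y'.card) + s ^ 2 * (Y'.card * (Y.card * η))
      = -((Y'.card : ℝ) / (Y.card * (4 * η))) := by
    rw [hs]
    field_simp
    ring
  linarith

end Blocks

end Pool.Agent.T9h20
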