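import Mathlib
import Pool.Agent.T9h20.Blocks

/-!
Density-restoring peeling of a set of block assignments.
-/

namespace Pool.Agent.T9h20

open Finset

set_option linter.unusedSectionVars false
set_option linter.unusedVariables false

section Peel

variable {N : ℕ} {A : Type} [Fintype A] [DecidableEq A] [Inhabited A]

/-- Elements of `Z` that agree with `y` on `T`. -/
def agreeOn (Z : Finset (Fin N → A)) (T : Finset (Fin N)) (y : Fin N → A) :
    Finset (Fin N → A) := Z.filter (fun x => ∀ i ∈ T, x i = y i)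

/-- A pattern `(T, y|_T)` with `T` outside `S` that is heavy in `Z`. -/
def Heavy (d : ℕ) (S : Finset (Fin N)) (Z : Finset (Fin N → A))
    (q : Finset (Fin N) × (Fin N → A)) : Prop :=
  Disjoint q.1 S ∧ q.2 ∈ Z ∧ Z.card ≤ (agreeOn Z q.1 q.2).card * 2 ^ (d * q.1.card)

lemma exists_heavy_max (d : ℕ) (S : Finset (Fin N)) (Z : Finset (Fin N → A)) (hZ : Z.Nonempty) :
    ∃ q, Heavy d S Z q ∧ ∀ q', Heavy d S Z q' → q'.1.card ≤ q.1.card := by
  classical
  obtain ⟨z, hz⟩ := hZ
  have hne : (Finset.univ.filter (fun q : Finset (Fin N) × (Fin N → A) => Heavy d S Z q)).Nonempty := by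
    refine ⟨(∅, z), Finset.mem_filter.2 ⟨Finset.mem_univ _, ?_, hz, ?_⟩⟩
    · simp
    · simp [agreeOn]
  obtain ⟨q, hq, hmax⟩ := Finset.exists_max_image _ (fun q => q.1.card) hne
  refine ⟨q, (Finset.mem_filter.1 hq).2, ?_⟩
  intro q' hq'
  exact hmax q' (Finset.mem_filter.2 ⟨Finset.mem_univ _, hq'⟩)

/-- A canonical maximal heavy pattern. -/
noncomputable def pick (d : ℕ) (S : Finset (Fin N)) (Z : Finset (Fin N → A)) :
    Finset (Fin N) × (Fin N → A) :=
  open Classical in
  if h : Z.Nonempty then (exists_heavy_max d S Z h).choose else (∅, fun _ => default)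

/-- The set of blocks of the canonical maximal heavy pattern. -/
noncomputable def pickT (d : ℕ) (S : Finset (Fin N)) (Z : Finset (Fin N → A)) : Finset (Fin N) :=
  (pick d S Z).1

/-- The part of `Z` cut out by the canonical maximal heavy pattern. -/
noncomputable def cell (d : ℕ) (S : Finset (Fin N)) (Z : Finset (Fin N → A)) :
    Finset (Fin N → A) := agreeOn Z (pick d S Z).1 (pick d S Z).2

lemma pick_spec (d : ℕ) (S : Finset (Fin N)) (Z : Finset (Fin N → A)) (hZ : Z.Nonempty) :
    Heavy d S Z (pick d S Z) ∧ ∀ q', Heavy d S Z q' → q'.1.card ≤ (pick d S Z).1.card := by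
  unfold pick
  rw [dif_pos hZ]
  exact (exists_heavy_max d S Z hZ).choose_spec

lemma cell_subset (d : ℕ) (S : Finset (Fin N)) (Z : Finset (Fin N → A)) : cell d S Z ⊆ Z :=
  Finset.filter_subset _ _

lemma cell_nonempty (d : ℕ) (S : Finset (Fin N)) (Z : Finset (Fin N → A)) (hZ : Z.Nonempty) :
    (cell d S Z).Nonempty := by
  obtain ⟨⟨_, h2, _⟩, _⟩ := pick_spec d S Z hZ
  exact ⟨_, Finset.mem_filter.2 ⟨h2, fun _ _ => rfl⟩⟩

lemma cell_heavy (d : ℕ) (S : Finset (Fin N)) (Z : Finset (Fin N → A)) :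
    Z.card ≤ (cell d S Z).card * 2 ^ (d * (pickT d S Z).card) := by
  rcases Z.eq_empty_or_nonempty with rfl | hZ
  · simp
  · exact (pick_spec d S Z hZ).1.2.2

lemma pickT_disjoint (d : ℕ) (S : Finset (Fin N)) (Z : Finset (Fin N → A)) (hZ : Z.Nonempty) :
    Disjoint (pickT d S Z) S := (pick_spec d S Z hZ).1.1

lemma cell_const (d : ℕ) (S : Finset (Fin N)) (Z : Finset (Fin N → A)) {x y : Fin N → A}
    (hx : x ∈ cell d S Z) (hy : y ∈ cell d S Z) {i : Fin N} (hi : i ∈ pickT d S Z) : x i = y i := by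
  have h1 := (Finset.mem_filter.1 hx).2 i hi
  have h2 := (Finset.mem_filter.1 hy).2 i hi
  rw [h1, h2]

lemma cell_dense (d : ℕ) (S : Finset (Fin N)) (Z : Finset (Fin N → A)) (hZ : Z.Nonempty) :
    Dense d (cell d S Z) (S ∪ pickT d S Z) := by
  intro I hI τ
  have hIS : Disjoint I S := Disjoint.mono_right Finset.subset_union_left hI
  have hIT : Disjoint I (pickT d S Z) := Disjoint.mono_right Finset.subset_union_right hI
  obtain ⟨⟨hq1, hq2, hq3⟩, hmax⟩ := pick_spec d S Z hZ
  rcases I.eq_empty_or_nonempty with rfl | hIne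
  · simp
  rcases ((cell d S Z).filter (fun y => ∀ i ∈ I, y i = τ i)).eq_empty_or_nonempty with hE | hNE
  · rw [hE]; simp
  obtain ⟨x, hx⟩ := hNE
  obtain ⟨hx1, hx2⟩ := Finset.mem_filter.1 hx
  have hfe : (cell d S Z).filter (fun y => ∀ i ∈ I, y i = τ i)
      = agreeOn Z (pickT d S Z ∪ I) x := by
    ext y
    unfold cell agreeOn
    simp only [Finset.mem_filter]
    constructor
    · rintro ⟨⟨h1, h2⟩, h3⟩
      refine ⟨h1, ?_⟩
      intro i hi
      rcases Finset.mem_union.1 hi with h | h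
      · rw [h2 i h, (Finset.mem_filter.1 hx1).2 i h]
      · rw [h3 i h, hx2 i h]
    · rintro ⟨h1, h2⟩
      refine ⟨⟨h1, ?_⟩, ?_⟩
      · intro i hi
        rw [h2 i (Finset.mem_union_left _ hi), (Finset.mem_filter.1 hx1).2 i hi]
      · intro i hi
        rw [h2 i (Finset.mem_union_right _ hi), hx2 i hi]
  rw [hfe]
  by_contra hcon
  push Not at hcon
  have hheavy : Heavy d S Z (pickT d S Z ∪ I, x) := by
    refine ⟨?_, cell_subset d S Z hx1, ?_⟩
    · rw [Finset.disjoint_union_left]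
      exact ⟨hq1, hIS⟩
    · dsimp only
      have hcard : (pickT d S Z ∪ I).card = (pickT d S Z).card + I.card :=
        Finset.card_union_of_disjoint hIT.symm
      rw [hcard, mul_add, pow_add]
      calc Z.card ≤ (cell d S Z).card * 2 ^ (d * (pickT d S Z).card) := cell_heavy d S Z
        _ ≤ ((agreeOn Z (pickT d S Z ∪ I) x).card * 2 ^ (d * I.card))
              * 2 ^ (d * (pickT d S Z).card) := Nat.mul_le_mul_right _ hcon.le
        _ = _ := by ring
  have h5 := hmax _ hheavy
  dsimp only at h5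
  have hcard : (pickT d S Z ∪ I).card = (pickT d S Z).card + I.card :=
    Finset.card_union_of_disjoint hIT.symm
  rw [hcard] at h5
  have h6 : 0 < I.card := hIne.card_pos
  unfold pickT at h5
  omega

/-- Iterated peeling. -/
noncomputable def pe (d : ℕ) (S : Finset (Fin N)) (Z : Finset (Fin N → A)) : ℕ → Finset (Fin N → A)
  | 0 => Z
  | j + 1 => pe d S Z j \ cell d S (pe d S Z j)

lemma pe_succ_subset (d : ℕ) (S : Finset (Fin N)) (Z : Finset (Fin N → A)) (j : ℕ) :
    pe d S Z (j + 1) ⊆ pe d S Z j := Finset.sdiff_subset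

lemma pe_anti (d : ℕ) (S : Finset (Fin N)) (Z : Finset (Fin N → A)) {i j : ℕ} (h : i ≤ j) :
    pe d S Z j ⊆ pe d S Z i := by
  induction j, h using Nat.le_induction with
  | base => exact Finset.Subset.refl _
  | succ n _ ih => exact (pe_succ_subset d S Z n).trans ih

lemma pe_subset (d : ℕ) (S : Finset (Fin N)) (Z : Finset (Fin N → A)) (j : ℕ) :
    pe d S Z j ⊆ Z := pe_anti d S Z (Nat.zero_le j)

lemma pe_card (d : ℕ) (S : Finset (Fin N)) (Z : Finset (Fin N → A)) (j : ℕ) :
    (pe d S Z j).card ≤ Z.card - j := by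
  induction j with
  | zero => simp [pe]
  | succ j ih =>
    rcases (pe d S Z j).eq_empty_or_nonempty with hE | hne
    · have : pe d S Z (j + 1) = ∅ := by
        rw [pe, hE]; simp
      rw [this]; simp
    · have h1 := cell_nonempty d S (pe d S Z j) hne
      have h2 := cell_subset d S (pe d S Z j)
      have h3 : (pe d S Z (j + 1)).card = (pe d S Z j).card - (cell d S (pe d S Z j)).card := by
        rw [pe, Finset.card_sdiff_of_subset h2]
      have h4 := h1.card_pos
      omega

lemma pe_eventually_empty (d : ℕ) (S : Finset (Fin N)) (Z : Finset (Fin N → A)) {j : ℕ}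
    (h : Z.card ≤ j) : pe d S Z j = ∅ := by
  have := pe_card d S Z j
  rw [← Finset.card_eq_zero]
  omega

lemma exists_cell_of_mem_sdiff (d : ℕ) (S : Finset (Fin N)) (Z : Finset (Fin N → A)) (J : ℕ)
    {y : Fin N → A} (hy : y ∈ Z \ pe d S Z J) : ∃ j < J, y ∈ cell d S (pe d S Z j) := by
  induction J with
  | zero => simp [pe] at hy
  | succ J ih =>
    rw [Finset.mem_sdiff] at hy
    by_cases h : y ∈ pe d S Z J
    · refine ⟨J, Nat.lt_succ_self _, ?_⟩
      by_contra hcon
      apply hy.2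
      rw [pe, Finset.mem_sdiff]
      exact ⟨h, hcon⟩
    · obtain ⟨j, hj, hj2⟩ := ih (Finset.mem_sdiff.2 ⟨hy.1, h⟩)
      exact ⟨j, hj.trans (Nat.lt_succ_self _), hj2⟩

/-- The block set of the part of the peeling that contains `y`. -/
noncomputable def Rf (d : ℕ) (S : Finset (Fin N)) (Z : Finset (Fin N → A)) (y : Fin N → A) :
    Finset (Fin N) :=
  open Classical in
  if h : ∃ j, y ∈ cell d S (pe d S Z j) then S ∪ pickT d S (pe d S Z (Nat.find h)) else S

lemma Rf_spec (d : ℕ) (S : Finset (Fin N)) (Z : Finset (Fin N → A)) (J : ℕ)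
    {y : Fin N → A} (hy : y ∈ Z \ pe d S Z J) :
    ∃ j < J, y ∈ cell d S (pe d S Z j) ∧ Rf d S Z y = S ∪ pickT d S (pe d S Z j) := by
  classical
  obtain ⟨j, hj, hj2⟩ := exists_cell_of_mem_sdiff d S Z J hy
  have h : ∃ j, y ∈ cell d S (pe d S Z j) := ⟨j, hj2⟩
  refine ⟨Nat.find h, lt_of_le_of_lt (Nat.find_le hj2) hj, Nat.find_spec h, ?_⟩
  unfold Rf
  rw [dif_pos h]

end Peel

end Pool.Agent.T9h20
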