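import Mathlib
import Pool.Agent.T9h20.Peel

/-!
Existence of a block predicate system that is unsatisfiable and satisfies the
interface property for all configurations of a given family.
-/

namespace Pool.Agent.T9h20

open Finset

set_option linter.unusedSectionVars false
set_option linter.unusedVariables false

section Exist

variable {N : ℕ} {A : Type} [Fintype A] [DecidableEq A] [Inhabited A]

/-- A configuration `(Y, S, S', Z, J)`. -/
abbrev Config (N : ℕ) (A : Type) :=
  Finset (Fin N → A) × Finset (Fin N) × Finset (Fin N) × Finset (Fin N → A) × ℕ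

/-- The interface property of a predicate system `F` for a configuration. -/
def SatFor (d k N1 : ℕ) (θ : ℝ) (F : (Finset (Fin N) × (Fin N → A)) → Bool) (c : Config N A) :
    Prop :=
  Dense d c.1 c.2.1 → c.1.Nonempty →
    θ * (c.1.card : ℝ) ≤ ((c.1 ∩ (c.2.2.2.1 \ pe d c.2.2.1 c.2.2.2.1 c.2.2.2.2)).card : ℝ) →
    (∀ j < c.2.2.2.2, (c.2.2.1 ∪ pickT d c.2.2.1 (pe d c.2.2.1 c.2.2.2.1 j)).card ≤ N1) →
    ∃ j < c.2.2.2.2, ∃ y ∈ c.1, y ∈ cell d c.2.2.1 (pe d c.2.2.1 c.2.2.2.1 j) ∧
      ∀ e ∈ entries k c.2.1 (c.2.2.1 ∪ pickT d c.2.2.1 (pe d c.2.2.1 c.2.2.2.1 j)) y, F e = false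

open Classical in
lemma satFor_prob {p : ℝ} (hp0 : 0 < p) (hp1 : p ≤ 1) (d k N1 : ℕ) (hk : 1 ≤ k) (hN : 1 ≤ N)
    (θ : ℝ) (hθ : 0 < θ) (x : ℝ) (hx : x = (p ^ (N1 - 1).choose (k - 1))⁻¹ / 2 ^ d) (hx1 : x ≤ 1)
    (c : Config N A) :
    ex p (fun F : (Finset (Fin N) × (Fin N → A)) → Bool =>
        if SatFor d k N1 θ F c then 0 else 1) ≤ Real.exp (-(θ / (4 * ((1 + x) ^ N - 1)))) := by
  obtain ⟨Y, S, S', Z, J⟩ := c
  have hx0 : 0 < x := by
    rw [hx]
    have : 0 < p ^ (N1 - 1).choose (k - 1) := pow_pos hp0 _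
    positivity
  have hηx : x ≤ (1 + x) ^ N - 1 := by
    have h1 := one_add_mul_le_pow (by linarith : (-2 : ℝ) ≤ x) N
    have h2 : (1 : ℝ) ≤ N := by exact_mod_cast hN
    have h3 : x ≤ N * x := by nlinarith
    linarith
  have hη0 : 0 < (1 + x) ^ N - 1 := lt_of_lt_of_le hx0 hηx
  by_cases hyp : Dense d Y S ∧ Y.Nonempty ∧
      θ * (Y.card : ℝ) ≤ ((Y ∩ (Z \ pe d S' Z J)).card : ℝ) ∧
      (∀ j < J, (S' ∪ pickT d S' (pe d S' Z j)).card ≤ N1)
  · obtain ⟨hD, hYne, hmass, hcard⟩ := hyp
    set Y' := Y ∩ (Z \ pe d S' Z J) with hY'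
    have hmem : ∀ y ∈ Y', y ∈ Z \ pe d S' Z J := fun y hy => (Finset.mem_inter.1 hy).2
    by_cases htriv : ∃ y ∈ Y', Rf d S' Z y ⊆ S
    · obtain ⟨y, hy, hsub⟩ := htriv
      have hall : ∀ F : (Finset (Fin N) × (Fin N → A)) → Bool,
          SatFor d k N1 θ F (Y, S, S', Z, J) := by
        intro F _ _ _ _
        obtain ⟨j, hj, hcell, hRf⟩ := Rf_spec d S' Z J (hmem y hy)
        refine ⟨j, hj, y, (Finset.mem_inter.1 hy).1, hcell, ?_⟩
        intro e he
        exfalso
        unfold entries at he
        obtain ⟨V, hV, _⟩ := Finset.mem_image.1 he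
        obtain ⟨hV1, hV2⟩ := Finset.mem_filter.1 hV
        apply hV2
        refine (Finset.mem_powersetCard.1 hV1).1.trans ?_
        dsimp only
        rw [← hRf]
        exact hsub
      have hz : ex p (fun F : (Finset (Fin N) × (Fin N → A)) → Bool =>
          if SatFor d k N1 θ F (Y, S, S', Z, J) then (0 : ℝ) else 1) = 0 := by
        unfold ex
        apply Finset.sum_eq_zero
        intro F _
        dsimp only
        rw [if_pos (hall F), mul_zero]
      rw [hz]
      exact (Real.exp_pos _).le
    · push Not at htriv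
      have hR : ∀ y ∈ Y', (Rf d S' Z y).card ≤ N1 := by
        intro y hy
        obtain ⟨j, hj, _, hRf⟩ := Rf_spec d S' Z J (hmem y hy)
        rw [hRf]
        exact hcard j hj
      have hpl := prob_lemma hp0 hp1 d k N1 hk hN Y Y' S hD Finset.inter_subset_left
        (Rf d S' Z) hR htriv x hx hx1
      have hle : ex p (fun F : (Finset (Fin N) × (Fin N → A)) → Bool =>
          if SatFor d k N1 θ F (Y, S, S', Z, J) then (0 : ℝ) else 1)
          ≤ ex p (fun F : (Finset (Fin N) × (Fin N → A)) → Bool =>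
        if ∀ y ∈ Y', ∃ e ∈ entries k S (Rf d S' Z y) y, F e = true then 1 else 0) := by
        apply ex_mono hp0.le hp1
        intro F
        by_cases hs : SatFor d k N1 θ F (Y, S, S', Z, J)
        · rw [if_pos hs]
          split_ifs <;> norm_num
        · rw [if_neg hs]
          rw [if_pos]
          intro y hy
          by_contra hcon
          push Not at hcon
          apply hs
          intro _ _ _ _
          obtain ⟨j, hj, hcell, hRf⟩ := Rf_spec d S' Z J (hmem y hy)
          refine ⟨j, hj, y, (Finset.mem_inter.1 hy).1, hcell, ?_⟩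
          intro e he
          dsimp only at he
          rw [← hRf] at he
          have := hcon e he
          simpa using this
      refine hle.trans (hpl.trans ?_)
      apply Real.exp_le_exp.2
      apply neg_le_neg
      have hYc : (0 : ℝ) < Y.card := by exact_mod_cast hYne.card_pos
      rw [div_le_div_iff₀ (by positivity) (by positivity)]
      nlinarith
  · have hall : ∀ F : (Finset (Fin N) × (Fin N → A)) → Bool,
        SatFor d k N1 θ F (Y, S, S', Z, J) := by
      intro F h1 h2 h3 h4
      exact absurd ⟨h1, h2, h3, h4⟩ hyp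
    have hz : ex p (fun F : (Finset (Fin N) × (Fin N → A)) → Bool =>
        if SatFor d k N1 θ F (Y, S, S', Z, J) then (0 : ℝ) else 1) = 0 := by
      unfold ex
      apply Finset.sum_eq_zero
      intro F _
      dsimp only
      rw [if_pos (hall F), mul_zero]
    rw [hz]
    exact (Real.exp_pos _).le

/-- All entries seen by the assignment `y`. -/
def allEntries (k : ℕ) (y : Fin N → A) : Finset (Finset (Fin N) × (Fin N → A)) :=
  ((Finset.univ : Finset (Fin N)).powersetCard k).image (fun V => (V, mask V y))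

lemma allEntries_card (k : ℕ) (y : Fin N → A) : (allEntries k y).card = N.choose k := by
  unfold allEntries
  rw [Finset.card_image_of_injective, Finset.card_powersetCard, Finset.card_univ, Fintype.card_fin]
  intro V W h
  exact (Prod.mk.inj h).1

open Classical in
/-- Union bound. -/
theorem exists_F {p : ℝ} (hp0 : 0 < p) (hp1 : p ≤ 1) (d k N1 : ℕ) (hk : 1 ≤ k) (hN : 1 ≤ N)
    (θ : ℝ) (hθ : 0 < θ) (x : ℝ) (hx : x = (p ^ (N1 - 1).choose (k - 1))⁻¹ / 2 ^ d) (hx1 : x ≤ 1)
    (C : Finset (Config N A))
    (hsum : (Fintype.card (Fin N → A) : ℝ) * p ^ (N.choose k)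
      + C.card * Real.exp (-(θ / (4 * ((1 + x) ^ N - 1)))) < 1) :
    ∃ F : (Finset (Fin N) × (Fin N → A)) → Bool,
      (∀ y : Fin N → A, ∃ V : Finset (Fin N), V.card = k ∧ F (V, mask V y) = true) ∧
      ∀ c ∈ C, SatFor d k N1 θ F c := by
  set G : ((Finset (Fin N) × (Fin N → A)) → Bool) → ℝ := fun F =>
    ∑ y : Fin N → A, ind (allEntries k y) F + ∑ c ∈ C, (if SatFor d k N1 θ F c then 0 else 1)
    with hG
  have hexG : ex p G < 1 := by
    have h1 : ex p G = ∑ y : Fin N → A, ex p (ind (allEntries k y))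
        + ∑ c ∈ C, ex p (fun F => if SatFor d k N1 θ F c then (0 : ℝ) else 1) := by
      rw [hG, ex_add, ex_sum, ex_sum]
    rw [h1]
    have h2 : ∑ y : Fin N → A, ex p (ind (allEntries k y))
        = (Fintype.card (Fin N → A) : ℝ) * p ^ (N.choose k) := by
      simp_rw [ex_ind, allEntries_card]
      rw [Finset.sum_const, nsmul_eq_mul, Finset.card_univ]
    have h3 : ∑ c ∈ C, ex p (fun F => if SatFor d k N1 θ F c then (0 : ℝ) else 1)
        ≤ C.card * Real.exp (-(θ / (4 * ((1 + x) ^ N - 1)))) := by
      rw [← nsmul_eq_mul]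
      apply Finset.sum_le_card_nsmul
      intro c _
      exact satFor_prob hp0 hp1 d k N1 hk hN θ hθ x hx hx1 c
    rw [h2]
    linarith
  have hex : ∃ F, G F < 1 := by
    by_contra hcon
    push Not at hcon
    have : ex p (fun _ => (1 : ℝ)) ≤ ex p G := ex_mono hp0.le hp1 hcon
    rw [ex_one] at this
    linarith
  obtain ⟨F, hF⟩ := hex
  have hn1 : ∀ y : Fin N → A, 0 ≤ ind (allEntries k y) F := fun y => ind_nonneg _ _
  have hn2 : ∀ c ∈ C, (0 : ℝ) ≤ (if SatFor d k N1 θ F c then 0 else 1) := by
    intro c _; split_ifs <;> norm_num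
  have hs1 : ∑ y : Fin N → A, ind (allEntries k y) F < 1 := by
    have := Finset.sum_nonneg hn2
    rw [hG] at hF
    dsimp only at hF
    linarith
  have hs2 : ∑ c ∈ C, (if SatFor d k N1 θ F c then (0 : ℝ) else 1) < 1 := by
    have := Finset.sum_nonneg (fun y (_ : y ∈ (Finset.univ : Finset (Fin N → A))) => hn1 y)
    rw [hG] at hF
    dsimp only at hF
    linarith
  refine ⟨F, ?_, ?_⟩
  · intro y
    have h1 : ind (allEntries k y) F < 1 :=
      lt_of_le_of_lt (Finset.single_le_sum (fun z _ => hn1 z) (Finset.mem_univ y)) hs1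
    unfold ind at h1
    split_ifs at h1 with h2
    · exact absurd h1 (lt_irrefl _)
    · push Not at h2
      obtain ⟨e, he, hFe⟩ := h2
      unfold allEntries at he
      obtain ⟨V, hV, rfl⟩ := Finset.mem_image.1 he
      refine ⟨V, (Finset.mem_powersetCard.1 hV).2, ?_⟩
      simpa using hFe
  · intro c hc
    by_contra hcon
    have h1 := Finset.single_le_sum hn2 hc
    rw [if_neg hcon] at h1
    linarith

/-- A state: a set of assignments together with a set of fixed blocks. -/
abbrev State (N : ℕ) (A : Type) := Finset (Fin N → A) × Finset (Fin N)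

/-- The `j`-th part of the peeling of `Z` with base `S`, as a state. -/
noncomputable def partSt (d : ℕ) (S : Finset (Fin N)) (Z : Finset (Fin N → A)) (j : ℕ) :
    State N A := (cell d S (pe d S Z j), S ∪ pickT d S (pe d S Z j))

/-- Elements of a state's set on which the test `Q` evaluates to `a`. -/
def splitY (Y : Finset (Fin N → A)) (Q : (Fin N → A) → Bool) (a : Bool) : Finset (Fin N → A) :=
  Y.filter (fun y => Q y = a)

/-- The states reachable in `t` steps. -/
noncomputable def states (d : ℕ) (L : Finset ((Fin N → A) → Bool)) : ℕ → Finset (State N A)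
  | 0 => insert (Finset.univ, ∅) ((L ×ˢ Finset.range (Fintype.card (Fin N → A) + 1)).image
      (fun q => partSt d ∅ (splitY Finset.univ q.1 true) q.2))
  | t + 1 => ((states d L t) ×ˢ (L ×ˢ ((Finset.univ : Finset Bool) ×ˢ
      Finset.range (Fintype.card (Fin N → A) + 1)))).image
      (fun q => partSt d q.1.2 (splitY q.1.1 q.2.1 q.2.2.1) q.2.2.2)

open Classical in
/-- The configurations needed for `t ≤ D` steps. -/
noncomputable def configs (d : ℕ) (L : Finset ((Fin N → A) → Bool)) (D : ℕ) :
    Finset (Config N A) :=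
  (Finset.range (D + 1)).biUnion (fun t =>
    ((states d L t) ×ˢ (L ×ˢ ((Finset.univ : Finset Bool) ×ˢ
      Finset.range (Fintype.card (Fin N → A) + 1)))).image
      (fun q => (q.1.1, q.1.2, q.1.2, splitY q.1.1 q.2.1 q.2.2.1, q.2.2.2))
    ∪ ((states d L t) ×ˢ (L ×ˢ Finset.range (Fintype.card (Fin N → A) + 1))).image
      (fun q => (q.1.1, q.1.2, ∅, splitY Finset.univ q.2.1 true, q.2.2)))

lemma states_card (d : ℕ) (L : Finset ((Fin N → A) → Bool)) (t : ℕ) :
    (states d L t).card ≤ (2 * L.card * (Fintype.card (Fin N → A) + 1) + 1) ^ (t + 1) := by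
  induction t with
  | zero =>
    unfold states
    refine (Finset.card_insert_le _ _).trans ?_
    have h := Finset.card_image_le (s := L ×ˢ Finset.range (Fintype.card (Fin N → A) + 1))
      (f := fun q : ((Fin N → A) → Bool) × ℕ => partSt d ∅ (splitY Finset.univ q.1 true) q.2)
    rw [Finset.card_product, Finset.card_range] at h
    rw [zero_add, pow_one]
    nlinarith
  | succ t ih =>
    rw [states]
    refine Finset.card_image_le.trans ?_
    rw [Finset.card_product, Finset.card_product, Finset.card_product, Finset.card_range,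
      Finset.card_univ, Fintype.card_bool, pow_succ]
    apply Nat.mul_le_mul ih
    nlinarith

open Classical in
lemma configs_card (d : ℕ) (L : Finset ((Fin N → A) → Bool)) (D : ℕ) :
    (configs d L D).card ≤
      (D + 1) * (2 * (2 * L.card * (Fintype.card (Fin N → A) + 1) + 1) ^ (D + 2)) := by
  unfold configs
  set B := 2 * L.card * (Fintype.card (Fin N → A) + 1) + 1 with hB
  have h1 := Finset.card_biUnion_le_card_mul (Finset.range (D + 1)) (fun t =>
    ((states d L t) ×ˢ (L ×ˢ ((Finset.univ : Finset Bool) ×ˢ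
      Finset.range (Fintype.card (Fin N → A) + 1)))).image
      (fun q => ((q.1.1, q.1.2, q.1.2, splitY q.1.1 q.2.1 q.2.2.1, q.2.2.2) : Config N A))
    ∪ ((states d L t) ×ˢ (L ×ˢ Finset.range (Fintype.card (Fin N → A) + 1))).image
      (fun q => (q.1.1, q.1.2, ∅, splitY Finset.univ q.2.1 true, q.2.2)))
    (2 * B ^ (D + 2)) ?_
  · rw [Finset.card_range] at h1
    exact h1
  · intro t ht
    have ht' : t + 1 ≤ D + 1 := by
      have := Finset.mem_range.1 ht
      omega
    refine (Finset.card_union_le _ _).trans ?_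
    have hst := states_card d L t
    rw [← hB] at hst
    have hB1 : 1 ≤ B := by omega
    have hst2 : (states d L t).card ≤ B ^ (D + 1) :=
      hst.trans (Nat.pow_le_pow_right hB1 ht')
    have e1 : (((states d L t) ×ˢ (L ×ˢ ((Finset.univ : Finset Bool) ×ˢ
      Finset.range (Fintype.card (Fin N → A) + 1)))).image
      (fun q => ((q.1.1, q.1.2, q.1.2, splitY q.1.1 q.2.1 q.2.2.1, q.2.2.2) : Config N A))).card
        ≤ B ^ (D + 1) * B := by
      refine Finset.card_image_le.trans ?_
      rw [Finset.card_product, Finset.card_product, Finset.card_product, Finset.card_range,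
        Finset.card_univ, Fintype.card_bool]
      apply Nat.mul_le_mul hst2
      rw [hB]
      nlinarith
    have e2 : (((states d L t) ×ˢ (L ×ˢ Finset.range (Fintype.card (Fin N → A) + 1))).image
      (fun q => ((q.1.1, q.1.2, ∅, splitY Finset.univ q.2.1 true, q.2.2) : Config N A))).card
        ≤ B ^ (D + 1) * B := by
      refine Finset.card_image_le.trans ?_
      rw [Finset.card_product, Finset.card_product, Finset.card_range]
      apply Nat.mul_le_mul hst2
      rw [hB]
      nlinarith
    calc _ ≤ B ^ (D + 1) * B + B ^ (D + 1) * B := Nat.add_le_add e1 e2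
      _ = 2 * B ^ (D + 2) := by ring

end Exist

end Pool.Agent.T9h20
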