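import Mathlib
import Pool.Agent.T9h20.Exist

/-!
Exponential moments of weighted sums of independent indicators, and the total mass of the parts of
a peeling that contain a forbidden entry.
-/

namespace Pool.Agent.T9h20

open Finset

set_option linter.unusedSectionVars false
set_option linter.unusedVariables false

section Moment

variable {E : Type*} [Fintype E] [DecidableEq E] {p : ℝ}

lemma exp_le_one_add_two_mul {t : ℝ} (h0 : 0 ≤ t) (h1 : t ≤ 1) : Real.exp t ≤ 1 + 2 * t := by
  have h := Real.abs_exp_sub_one_sub_id_le (x := t) (by rw [abs_of_nonneg h0]; exact h1)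
  have h2 := (abs_le.1 h).2
  nlinarith

/-- Exponential moment of a weighted sum. -/
lemma ex_exp_sum (h0 : 0 ≤ p) (h1 : p ≤ 1) (w : E → ℝ) (hw0 : ∀ e, 0 ≤ w e) (hw1 : ∀ e, w e ≤ 1) :
    ex p (fun F => Real.exp (∑ e, (if F e = true then w e else 0)))
      ≤ Real.exp (2 * (1 - p) * ∑ e, w e) := by
  have hprod : ex p (fun F => Real.exp (∑ e, (if F e = true then w e else 0)))
      = ∏ e : E, (p + (1 - p) * Real.exp (w e)) := by
    unfold ex wt
    have h := Finset.prod_univ_sum (R := ℝ) (ι := E) (κ := fun _ => Bool)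
      (fun _ => (Finset.univ : Finset Bool))
      (fun e b => if b = true then (1 - p) * Real.exp (w e) else p)
    rw [Fintype.piFinset_univ] at h
    have h2 : ∏ e : E, (p + (1 - p) * Real.exp (w e)) =
        ∏ e : E, ∑ b : Bool, (if b = true then (1 - p) * Real.exp (w e) else p) := by
      apply Finset.prod_congr rfl
      intro e _
      simp [add_comm]
    rw [h2, h]
    apply Finset.sum_congr rfl
    intro F _
    dsimp only
    rw [Real.exp_sum, ← Finset.prod_mul_distrib]
    apply Finset.prod_congr rfl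
    intro e _
    by_cases hF : F e = true
    · simp [hF]
    · simp [hF]
  rw [hprod, Finset.mul_sum, Real.exp_sum]
  apply Finset.prod_le_prod
  · intro e _
    have := (Real.exp_pos (w e)).le
    have h3 : 0 ≤ (1 - p) * Real.exp (w e) := mul_nonneg (by linarith) this
    linarith
  · intro e _
    have h3 := exp_le_one_add_two_mul (hw0 e) (hw1 e)
    have h4 : (1 - p) * Real.exp (w e) ≤ (1 - p) * (1 + 2 * w e) :=
      mul_le_mul_of_nonneg_left h3 (by linarith)
    have h5 := Real.add_one_le_exp (2 * (1 - p) * w e)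
    nlinarith

end Moment

section Few

variable {N : ℕ} {A : Type} [Fintype A] [DecidableEq A] [Inhabited A]

/-- A reduced configuration `(Y, S, S', Z)`. -/
abbrev Cfg (N : ℕ) (A : Type) :=
  Finset (Fin N → A) × Finset (Fin N) × Finset (Fin N) × Finset (Fin N → A)

open Classical in
/-- The elements of `Y ∩ Z` whose part in the peeling of `Z` with base `S'` has at most `N1` blocks
and contains a forbidden entry not inside `S`. -/
noncomputable def badSet (d k N1 : ℕ) (F : (Finset (Fin N) × (Fin N → A)) → Bool)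
    (c : Cfg N A) : Finset (Fin N → A) :=
  (c.1 ∩ c.2.2.2).filter (fun y => (Rf d c.2.2.1 c.2.2.2 y).card ≤ N1 ∧
    ∃ e ∈ entries k c.2.1 (Rf d c.2.2.1 c.2.2.2 y) y, F e = true)

/-- Few elements of `Y` lie in bad parts. -/
def FewBad (d k N1 : ℕ) (θ : ℝ) (F : (Finset (Fin N) × (Fin N → A)) → Bool) (c : Cfg N A) : Prop :=
  Dense d c.1 c.2.1 → c.1.Nonempty → ((badSet d k N1 F c).card : ℝ) ≤ θ * c.1.card

open Classical in
lemma fewBad_prob {p : ℝ} (hp0 : 0 < p) (hp1 : p ≤ 1) (d k N1 : ℕ) (θ : ℝ) (hθ : 0 ≤ θ)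
    (c : Cfg N A) :
    ex p (fun F : (Finset (Fin N) × (Fin N → A)) → Bool =>
        if FewBad d k N1 θ F c then 0 else 1)
      ≤ Real.exp (2 ^ d * (2 * (1 - p) * N1.choose k - θ)) := by
  obtain ⟨Y, S, S', Z⟩ := c
  by_cases hyp : Dense d Y S ∧ Y.Nonempty
  swap
  · have hz : ex p (fun F : (Finset (Fin N) × (Fin N → A)) → Bool =>
        if FewBad d k N1 θ F (Y, S, S', Z) then (0 : ℝ) else 1) = 0 := by
      have : (fun F : (Finset (Fin N) × (Fin N → A)) → Bool =>
        if FewBad d k N1 θ F (Y, S, S', Z) then (0 : ℝ) else 1) = fun _ => 0 := by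
        funext F
        rw [if_pos]
        intro h1 h2
        exact absurd ⟨h1, h2⟩ hyp
      rw [this]
      unfold ex
      simp
    rw [hz]
    exact (Real.exp_pos _).le
  obtain ⟨hD, hY⟩ := hyp
  have hYc : (0 : ℝ) < Y.card := by exact_mod_cast hY.card_pos
  obtain ⟨Y', hY'⟩ : ∃ Y', Y' = (Y ∩ Z).filter (fun y => (Rf d S' Z y).card ≤ N1) := ⟨_, rfl⟩
  have hY'sub : Y' ⊆ Y := by
    rw [hY']
    exact (Finset.filter_subset _ _).trans Finset.inter_subset_left
  -- number of elements seeing an entry
  obtain ⟨cnt, hcnt⟩ : ∃ cnt : (Finset (Fin N) × (Fin N → A)) → ℕ, cnt = fun e =>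
    (Y'.filter (fun y => e ∈ entries k S (Rf d S' Z y) y)).card := ⟨_, rfl⟩
  have hcnt_le : ∀ e, cnt e * 2 ^ d ≤ Y.card := by
    intro e
    by_cases hne : (Y'.filter (fun y => e ∈ entries k S (Rf d S' Z y) y)).Nonempty
    swap
    · rw [Finset.not_nonempty_iff_eq_empty] at hne
      rw [hcnt]
      dsimp only
      rw [hne]
      simp
    obtain ⟨y0, hy0⟩ := hne
    obtain ⟨_, he0⟩ := Finset.mem_filter.1 hy0
    unfold entries at he0
    obtain ⟨V, hV, hVe⟩ := Finset.mem_image.1 he0
    obtain ⟨_, hVS⟩ := Finset.mem_filter.1 hV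
    obtain ⟨i, hi, hiS⟩ := Finset.not_subset.1 hVS
    have hdn := hD {i} (by simpa using hiS) e.2
    rw [Finset.card_singleton, mul_one] at hdn
    refine le_trans (Nat.mul_le_mul_right _ ?_) hdn
    rw [hcnt]
    dsimp only
    apply Finset.card_le_card
    intro y hy
    obtain ⟨h1, h2⟩ := Finset.mem_filter.1 hy
    refine Finset.mem_filter.2 ⟨hY'sub h1, ?_⟩
    intro j hj
    rw [Finset.mem_singleton] at hj
    subst hj
    unfold entries at h2
    obtain ⟨W, hW, hWe⟩ := Finset.mem_image.1 h2
    have hVW : W = V := by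
      have e1 := congrArg Prod.fst hVe
      have e2 := congrArg Prod.fst hWe
      dsimp only at e1 e2
      rw [e1, e2]
    subst hVW
    have e3 := congrArg Prod.snd hWe
    dsimp only at e3
    rw [← e3]
    simp [mask, hi]
  have hsumcnt : ∑ e, cnt e ≤ Y.card * N1.choose k := by
    rw [hcnt]
    dsimp only
    have h1 : ∑ e : (Finset (Fin N) × (Fin N → A)),
        (Y'.filter (fun y => e ∈ entries k S (Rf d S' Z y) y)).card
        = ∑ y ∈ Y', (entries k S (Rf d S' Z y) y).card := by
      simp_rw [Finset.card_filter]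
      rw [Finset.sum_comm]
      apply Finset.sum_congr rfl
      intro y _
      rw [← Finset.card_filter]
      congr 1
      ext e
      simp
    rw [h1]
    calc ∑ y ∈ Y', (entries k S (Rf d S' Z y) y).card ≤ ∑ y ∈ Y', N1.choose k := by
          apply Finset.sum_le_sum
          intro y hy
          rw [hY'] at hy
          have hR := (Finset.mem_filter.1 hy).2
          unfold entries
          refine Finset.card_image_le.trans ((Finset.card_filter_le _ _).trans ?_)
          rw [Finset.card_powersetCard]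
          exact Nat.choose_le_choose k hR
      _ = Y'.card * N1.choose k := by rw [Finset.sum_const, smul_eq_mul]
      _ ≤ _ := Nat.mul_le_mul_right _ (Finset.card_le_card hY'sub)
  -- the number of bad elements is at most the weighted sum
  have hbad : ∀ F : (Finset (Fin N) × (Fin N → A)) → Bool,
      ((badSet d k N1 F (Y, S, S', Z)).card : ℝ) ≤ ∑ e, (if F e = true then (cnt e : ℝ) else 0) := by
    intro F
    have hsub : badSet d k N1 F (Y, S, S', Z) ⊆ (Finset.univ.filter (fun e => F e = true)).biUnion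
        (fun e => Y'.filter (fun y => e ∈ entries k S (Rf d S' Z y) y)) := by
      intro y hy
      unfold badSet at hy
      obtain ⟨h1, h2, e, he, hF⟩ := Finset.mem_filter.1 hy
      dsimp only at h1 h2 he
      rw [Finset.mem_biUnion]
      refine ⟨e, Finset.mem_filter.2 ⟨Finset.mem_univ _, hF⟩, Finset.mem_filter.2 ⟨?_, he⟩⟩
      rw [hY']
      exact Finset.mem_filter.2 ⟨h1, h2⟩
    have h3 := (Finset.card_le_card hsub).trans Finset.card_biUnion_le
    rw [← Finset.sum_filter]
    have h4 : (∑ e ∈ Finset.univ.filter (fun e => F e = true), (cnt e : ℝ))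
        = ((∑ e ∈ Finset.univ.filter (fun e => F e = true), cnt e : ℕ) : ℝ) := by push_cast; rfl
    rw [h4, hcnt]
    exact_mod_cast h3
  obtain ⟨lam, hlam⟩ : ∃ lam : ℝ, lam = 2 ^ d / Y.card := ⟨_, rfl⟩
  have hlam0 : 0 < lam := by rw [hlam]; positivity
  obtain ⟨w, hw⟩ : ∃ w : (Finset (Fin N) × (Fin N → A)) → ℝ, w = fun e => lam * cnt e := ⟨_, rfl⟩
  have hw0 : ∀ e, 0 ≤ w e := by
    intro e
    rw [hw]
    positivity
  have hw1 : ∀ e, w e ≤ 1 := by
    intro e
    rw [hw, hlam]
    dsimp only
    rw [div_mul_eq_mul_div, div_le_one hYc]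
    have := hcnt_le e
    rw [mul_comm]
    exact_mod_cast this
  have hmom := ex_exp_sum hp0.le hp1 w hw0 hw1
  have hsumw : ∑ e, w e ≤ 2 ^ d * N1.choose k := by
    rw [hw, ← Finset.mul_sum]
    have h1 : (∑ e, (cnt e : ℝ)) ≤ Y.card * N1.choose k := by exact_mod_cast hsumcnt
    calc lam * ∑ e, (cnt e : ℝ) ≤ lam * (Y.card * N1.choose k) :=
          mul_le_mul_of_nonneg_left h1 hlam0.le
      _ = 2 ^ d * N1.choose k := by
          rw [hlam]
          field_simp
  have hind : ∀ F : (Finset (Fin N) × (Fin N → A)) → Bool,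
      (if FewBad d k N1 θ F (Y, S, S', Z) then (0 : ℝ) else 1)
        ≤ Real.exp (-(2 ^ d * θ)) * Real.exp (∑ e, (if F e = true then w e else 0)) := by
    intro F
    by_cases hF : FewBad d k N1 θ F (Y, S, S', Z)
    · rw [if_pos hF]
      positivity
    · rw [if_neg hF, ← Real.exp_add]
      apply Real.one_le_exp
      have h1 : θ * Y.card < (badSet d k N1 F (Y, S, S', Z)).card := by
        by_contra hcon
        push Not at hcon
        exact hF (fun _ _ => hcon)
      have h2 := hbad F
      have h3 : ∑ e, (if F e = true then w e else 0)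
          = lam * ∑ e, (if F e = true then (cnt e : ℝ) else 0) := by
        rw [Finset.mul_sum]
        apply Finset.sum_congr rfl
        intro e _
        split_ifs
        · rw [hw]
        · ring
      rw [h3]
      have h4 : lam * (θ * Y.card) ≤ lam * ∑ e, (if F e = true then (cnt e : ℝ) else 0) :=
        mul_le_mul_of_nonneg_left (h1.le.trans h2) hlam0.le
      have h5 : lam * (θ * Y.card) = 2 ^ d * θ := by
        rw [hlam]
        field_simp
      linarith
  calc ex p (fun F : (Finset (Fin N) × (Fin N → A)) → Bool =>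
        if FewBad d k N1 θ F (Y, S, S', Z) then (0 : ℝ) else 1)
      ≤ ex p (fun F => Real.exp (-(2 ^ d * θ)) *
          Real.exp (∑ e, (if F e = true then w e else 0))) := ex_mono hp0.le hp1 hind
    _ = Real.exp (-(2 ^ d * θ)) * ex p (fun F => Real.exp (∑ e, (if F e = true then w e else 0))) :=
        ex_mul_left _ _
    _ ≤ Real.exp (-(2 ^ d * θ)) * Real.exp (2 * (1 - p) * ∑ e, w e) :=
        mul_le_mul_of_nonneg_left hmom (Real.exp_pos _).le
    _ ≤ Real.exp (-(2 ^ d * θ)) * Real.exp (2 * (1 - p) * (2 ^ d * N1.choose k)) := by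
        apply mul_le_mul_of_nonneg_left _ (Real.exp_pos _).le
        apply Real.exp_le_exp.2
        exact mul_le_mul_of_nonneg_left hsumw (by linarith)
    _ = Real.exp (2 ^ d * (2 * (1 - p) * N1.choose k - θ)) := by
        rw [← Real.exp_add]
        congr 1
        ring

open Classical in
/-- Union bound for the second interface property. -/
theorem exists_F2 {p : ℝ} (hp0 : 0 < p) (hp1 : p ≤ 1) (d k N1 : ℕ) (θ : ℝ) (hθ : 0 ≤ θ)
    (C : Finset (Cfg N A))
    (hsum : (Fintype.card (Fin N → A) : ℝ) * p ^ (N.choose k)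
      + C.card * Real.exp (2 ^ d * (2 * (1 - p) * N1.choose k - θ)) < 1) :
    ∃ F : (Finset (Fin N) × (Fin N → A)) → Bool,
      (∀ y : Fin N → A, ∃ V : Finset (Fin N), V.card = k ∧ F (V, mask V y) = true) ∧
      ∀ c ∈ C, FewBad d k N1 θ F c := by
  set G : ((Finset (Fin N) × (Fin N → A)) → Bool) → ℝ := fun F =>
    ∑ y : Fin N → A, ind (allEntries k y) F + ∑ c ∈ C, (if FewBad d k N1 θ F c then 0 else 1)
    with hG
  have hexG : ex p G < 1 := by
    have h1 : ex p G = ∑ y : Fin N → A, ex p (ind (allEntries k y))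
        + ∑ c ∈ C, ex p (fun F => if FewBad d k N1 θ F c then (0 : ℝ) else 1) := by
      rw [hG, ex_add, ex_sum, ex_sum]
    rw [h1]
    have h2 : ∑ y : Fin N → A, ex p (ind (allEntries k y))
        = (Fintype.card (Fin N → A) : ℝ) * p ^ (N.choose k) := by
      simp_rw [ex_ind, allEntries_card]
      rw [Finset.sum_const, nsmul_eq_mul, Finset.card_univ]
    have h3 : ∑ c ∈ C, ex p (fun F => if FewBad d k N1 θ F c then (0 : ℝ) else 1)
        ≤ C.card * Real.exp (2 ^ d * (2 * (1 - p) * N1.choose k - θ)) := by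
      rw [← nsmul_eq_mul]
      apply Finset.sum_le_card_nsmul
      intro c _
      exact fewBad_prob hp0 hp1 d k N1 θ hθ c
    rw [h2]
    linarith
  have hex : ∃ F, G F < 1 := by
    by_contra hcon
    push Not at hcon
    have : ex p (fun _ => (1 : ℝ)) ≤ ex p G := ex_mono hp0.le hp1 hcon
    rw [ex_one] at this
    linarith
  obtain ⟨F, hF⟩ := hex
  have hn1 : ∀ y : Fin N → A, 0 ≤ ind (allEntries k y) F := fun y => ind_nonneg _ _
  have hn2 : ∀ c ∈ C, (0 : ℝ) ≤ (if FewBad d k N1 θ F c then 0 else 1) := by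
    intro c _; split_ifs <;> norm_num
  have hs1 : ∑ y : Fin N → A, ind (allEntries k y) F < 1 := by
    have := Finset.sum_nonneg hn2
    rw [hG] at hF
    dsimp only at hF
    linarith
  have hs2 : ∑ c ∈ C, (if FewBad d k N1 θ F c then (0 : ℝ) else 1) < 1 := by
    have := Finset.sum_nonneg (fun y (_ : y ∈ (Finset.univ : Finset (Fin N → A))) => hn1 y)
    rw [hG] at hF
    dsimp only at hF
    linarith
  refine ⟨F, ?_, ?_⟩
  · intro y
    have h1 : ind (allEntries k y) F < 1 :=
      lt_of_le_of_lt (Finset.single_le_sum (fun z _ => hn1 z) (Finset.mem_univ y)) hs1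
    unfold ind at h1
    split_ifs at h1 with h2
    · exact absurd h1 (lt_irrefl _)
    · push Not at h2
      obtain ⟨e, he, hFe⟩ := h2
      unfold allEntries at he
      obtain ⟨V, hV, rfl⟩ := Finset.mem_image.1 he
      refine ⟨V, (Finset.mem_powersetCard.1 hV).2, ?_⟩
      simpa using hFe
  · intro c hc
    by_contra hcon
    have h1 := Finset.single_le_sum hn2 hc
    rw [if_neg hcon] at h1
    linarith

end Few

end Pool.Agent.T9h20
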