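import Mathlib

/-!
CNF formulas, search (decision) trees with arbitrary tests, and semantic refutations.
These are the definitions used in the statements of the hand-ins for `MP_c62aed_lc`.
-/

namespace Pool.Agent.T9h20

/-- A literal over the variables `v_0, …, v_{n-1}`: a variable together with the truth value
that makes the literal true (`(i, true)` is `v_i`, `(i, false)` is the negation of `v_i`). -/
abbrev Literal (n : ℕ) : Type := Fin n × Bool

/-- A clause: a finite set of literals, read as their disjunction. -/
abbrev Clause (n : ℕ) : Type := Finset (Literal n)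

/-- A CNF formula: a finite set of clauses, read as their conjunction. -/
abbrev CNF (n : ℕ) : Type := Finset (Clause n)

/-- The assignment `x` falsifies the clause `C`: every literal of `C` is false under `x`. -/
def Falsifies {n : ℕ} (x : Fin n → Bool) (C : Clause n) : Prop := ∀ l ∈ C, x l.1 ≠ l.2

/-- `φ` is unsatisfiable: every assignment falsifies some clause of `φ`. -/
def Unsat {n : ℕ} (φ : CNF n) : Prop := ∀ x : Fin n → Bool, ∃ C ∈ φ, Falsifies x C

/-- Decision trees on inputs from `Ω` with arbitrary Boolean tests at the inner nodes and
labels from `Λ` at the leaves. -/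
inductive DTree (Ω : Type) (Λ : Type) : Type where
  /-- a leaf with its label -/
  | leaf (c : Λ) : DTree Ω Λ
  /-- an inner node testing `Q`: continue in `t0` if `Q x = false`, in `t1` if `Q x = true` -/
  | node (Q : Ω → Bool) (t0 t1 : DTree Ω Λ) : DTree Ω Λ

namespace DTree

variable {Ω Λ : Type}

/-- Number of leaves. -/
def leaves : DTree Ω Λ → ℕ
  | leaf _ => 1
  | node _ t0 t1 => t0.leaves + t1.leaves

/-- Depth: the maximum number of tests on a branch. -/
def depth : DTree Ω Λ → ℕ
  | leaf _ => 0
  | node _ t0 t1 => max t0.depth t1.depth + 1

/-- The label of the leaf reached on input `x`. -/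
def run : DTree Ω Λ → Ω → Λ
  | leaf c, _ => c
  | node Q t0 t1, x => if Q x = true then t1.run x else t0.run x

/-- All tests belong to the set `L`. -/
def TestsIn (L : Set (Ω → Bool)) : DTree Ω Λ → Prop
  | leaf _ => True
  | node Q t0 t1 => Q ∈ L ∧ t0.TestsIn L ∧ t1.TestsIn L

open Classical in
/-- The number of informative tests made on input `x`, when the inputs reaching the root are
those of `Y`: a test counts only if both answers occur among the inputs that reach its node. -/
noncomputable def infoCount : DTree Ω Λ → Set Ω → Ω → ℕ
  | leaf _, _, _ => 0
  | node Q t0 t1, Y, x =>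
    (if (∃ y ∈ Y, Q y = true) ∧ (∃ y ∈ Y, Q y = false) then 1 else 0) +
    (if Q x = true then t1.infoCount {y ∈ Y | Q y = true} x
      else t0.infoCount {y ∈ Y | Q y = false} x)

lemma one_le_leaves (T : DTree Ω Λ) : 1 ≤ T.leaves := by
  induction T with
  | leaf c => exact le_rfl
  | node Q t0 t1 ih0 ih1 => unfold leaves; omega

end DTree

/-- A semantic refutation of `φ` whose lines are Boolean functions from `𝓛` (`true` = the line
holds). Every line is semantically implied by at most `s` clauses of `φ`, or by two lines of
smaller rank; the line `root` is identically false. The rank function witnesses that the refutation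
is acyclic; a refutation in which every branch uses at most `D` binary inference steps has such a
rank function with `rank root = D`. -/
structure SemRefutation {n : ℕ} (φ : CNF n) (s : ℕ) (𝓛 : Set ((Fin n → Bool) → Bool)) where
  /-- number of lines -/
  size : ℕ
  /-- the lines -/
  line : Fin size → ((Fin n → Bool) → Bool)
  /-- height of a line in the refutation -/
  rank : Fin size → ℕ
  /-- the final line -/
  root : Fin size
  line_mem : ∀ i, line i ∈ 𝓛
  root_false : ∀ x, line root x = false
  sound : ∀ i, (∃ ψ : CNF n, ψ ⊆ φ ∧ ψ.card ≤ s ∧ ∀ x, line i x = false → ∃ C ∈ ψ, Falsifies x C) ∨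
    ∃ j k, rank j < rank i ∧ rank k < rank i ∧
      ∀ x, line i x = false → line j x = false ∨ line k x = false

/-- The tree `T` refutes `φ` with at most `s` clauses on each branch: for every assignment `x` the
leaf reached by `x` is labelled by a set of at most `s` clauses one of which is a clause of `φ`
falsified by `x`. (For `s = 1` the tree solves the falsified-clause search problem of `φ`.) -/
def SolvesSearch {n : ℕ} (φ : CNF n) (s : ℕ) (T : DTree (Fin n → Bool) (CNF n)) : Prop :=
  ∀ x : Fin n → Bool, (T.run x).card ≤ s ∧ ∃ C ∈ T.run x, C ∈ φ ∧ Falsifies x C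

end Pool.Agent.T9h20
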