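import Mathlib
import Pool.Agent.T9h20.Exist
import Pool.Agent.T9h20.Defs

/-!
The adversary arguments for search trees and for semantic refutation DAGs, in block space.
-/

namespace Pool.Agent.T9h20

open Finset

set_option linter.unusedSectionVars false
set_option linter.unusedVariables false

section Core

variable {N : ℕ} {A : Type} [Fintype A] [DecidableEq A] [Inhabited A]

/-- No forbidden entry of `y` inside `S`. -/
def GoodOn (k : ℕ) (F : (Finset (Fin N) × (Fin N → A)) → Bool) (S : Finset (Fin N))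
    (y : Fin N → A) : Prop :=
  ∀ V : Finset (Fin N), V ⊆ S → V.card = k → F (V, mask V y) = false

/-- The invariant of the adversary. -/
structure Inv (d k N1 : ℕ) (F : (Finset (Fin N) × (Fin N → A)) → Bool) (Y : Finset (Fin N → A))
    (S : Finset (Fin N)) : Prop where
  ne : Y.Nonempty
  dense : Dense d Y S
  card : S.card ≤ N1
  const : ∀ y ∈ Y, ∀ y' ∈ Y, ∀ i ∈ S, y i = y' i
  good : ∀ y ∈ Y, GoodOn k F S y

lemma card_le_of_const (Y : Finset (Fin N → A)) (R : Finset (Fin N))
    (h : ∀ y ∈ Y, ∀ y' ∈ Y, ∀ i ∈ R, y i = y' i) :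
    Y.card ≤ (Fintype.card A) ^ (N - R.card) := by
  classical
  have h1 : Y.card ≤ (Finset.univ : Finset ({i : Fin N // i ∉ R} → A)).card := by
    apply Finset.card_le_card_of_injOn (fun y => fun i : {i : Fin N // i ∉ R} => y i.1)
    · intro y _
      exact Finset.mem_coe.2 (Finset.mem_univ _)
    · intro y hy y' hy' hyy
      funext i
      by_cases hi : i ∈ R
      · exact h y hy y' hy' i hi
      · exact congrFun hyy ⟨i, hi⟩
  refine h1.trans (le_of_eq ?_)
  rw [Finset.card_univ, Fintype.card_fun]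
  congr 1
  rw [Fintype.card_subtype_compl]
  simp

/-- The bound `E` on exhausted cells. -/
noncomputable def EE (N N1 : ℕ) (A : Type) [Fintype A] : ℝ := (Fintype.card A : ℝ) ^ (N - N1)

lemma EE_one_le (N N1 : ℕ) : 1 ≤ EE N N1 A := by
  unfold EE
  apply one_le_pow₀
  exact_mod_cast Fintype.card_pos

lemma cell_card_le_EE (N1 : ℕ) (Y : Finset (Fin N → A)) (R : Finset (Fin N))
    (h : ∀ y ∈ Y, ∀ y' ∈ Y, ∀ i ∈ R, y i = y' i) (hR : N1 < R.card) :
    (Y.card : ℝ) ≤ EE N N1 A := by
  have h1 := card_le_of_const Y R h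
  have h2 : (Fintype.card A) ^ (N - R.card) ≤ (Fintype.card A) ^ (N - N1) :=
    Nat.pow_le_pow_right Fintype.card_pos (by omega)
  unfold EE
  exact_mod_cast h1.trans h2

lemma partSt_inv {d k N1 : ℕ} {F : (Finset (Fin N) × (Fin N → A)) → Bool}
    {Y : Finset (Fin N → A)} {S S' : Finset (Fin N)} {Z : Finset (Fin N → A)} {j : ℕ}
    (hI : Inv d k N1 F Y S)
    (hS' : ∀ z ∈ Z, ∀ z' ∈ Z, ∀ i ∈ S', z i = z' i)
    (hne : (pe d S' Z j).Nonempty)
    (hcard : (S' ∪ pickT d S' (pe d S' Z j)).card ≤ N1)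
    {y : Fin N → A} (hyY : y ∈ Y) (hyc : y ∈ cell d S' (pe d S' Z j))
    (hent : ∀ e ∈ entries k S (S' ∪ pickT d S' (pe d S' Z j)) y, F e = false) :
    Inv d k N1 F (partSt d S' Z j).1 (partSt d S' Z j).2 := by
  have hconst : ∀ z ∈ (partSt d S' Z j).1, ∀ z' ∈ (partSt d S' Z j).1,
      ∀ i ∈ (partSt d S' Z j).2, z i = z' i := by
    intro z hz z' hz' i hi
    unfold partSt at hz hz' hi
    dsimp only at hz hz' hi
    rcases Finset.mem_union.1 hi with h | h
    · exact hS' z (pe_subset d S' Z j (cell_subset d S' _ hz)) z'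
        (pe_subset d S' Z j (cell_subset d S' _ hz')) i h
    · exact cell_const d S' _ hz hz' h
  refine ⟨cell_nonempty d S' _ hne, cell_dense d S' _ hne, hcard, hconst, ?_⟩
  intro z hz V hV hVk
  have hmask : mask V z = mask V y := by
    rw [mask_eq_iff]
    intro i hi
    exact hconst z hz y hyc i (hV hi)
  rw [hmask]
  by_cases hVS : V ⊆ S
  · exact hI.good y hyY V hVS hVk
  · apply hent
    unfold entries
    refine Finset.mem_image.2 ⟨V, Finset.mem_filter.2 ⟨Finset.mem_powersetCard.2 ⟨hV, hVk⟩, hVS⟩, rfl⟩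

lemma leaf_false {d k N1 : ℕ} {F : (Finset (Fin N) × (Fin N → A)) → Bool}
    {Y : Finset (Fin N → A)} {S : Finset (Fin N)} (hI : Inv d k N1 F Y S)
    (E : Finset (Finset (Fin N) × (Fin N → A))) (hE : E.card < 2 ^ d)
    (hEk : ∀ e ∈ E, e.1.card = k ∧ F e = true)
    (hY : ∀ y ∈ Y, ∃ e ∈ E, mask e.1 y = e.2) : False := by
  classical
  have hsub : Y ⊆ E.biUnion (fun e => Y.filter (fun y => mask e.1 y = e.2)) := by
    intro y hy
    obtain ⟨e, he, hm⟩ := hY y hy
    exact Finset.mem_biUnion.2 ⟨e, he, Finset.mem_filter.2 ⟨hy, hm⟩⟩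
  have hone : ∀ e ∈ E, (Y.filter (fun y => mask e.1 y = e.2)).card * 2 ^ d ≤ Y.card := by
    intro e he
    obtain ⟨hk, hF⟩ := hEk e he
    by_cases hVS : e.1 ⊆ S
    · have hempty : Y.filter (fun y => mask e.1 y = e.2) = ∅ := by
        rw [Finset.filter_eq_empty_iff]
        intro y hy hm
        have h1 := hI.good y hy e.1 hVS hk
        rw [hm] at h1
        have h2 : ((e.1, e.2) : Finset (Fin N) × (Fin N → A)) = e := rfl
        rw [h2, hF] at h1
        exact absurd h1 (by simp)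
      rw [hempty]
      simp
    · obtain ⟨i, hi, hiS⟩ := Finset.not_subset.1 hVS
      have hdn := hI.dense {i} (by simpa using hiS) e.2
      rw [Finset.card_singleton, mul_one] at hdn
      refine le_trans (Nat.mul_le_mul_right _ (Finset.card_le_card ?_)) hdn
      intro y hy
      obtain ⟨h1, h2⟩ := Finset.mem_filter.1 hy
      refine Finset.mem_filter.2 ⟨h1, ?_⟩
      intro j hj
      rw [Finset.mem_singleton] at hj
      subst hj
      rw [← h2]
      simp [mask, hi]
  have hpos := hI.ne.card_pos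
  have h1 : Y.card ≤ ∑ e ∈ E, (Y.filter (fun y => mask e.1 y = e.2)).card :=
    (Finset.card_le_card hsub).trans Finset.card_biUnion_le
  have h2 : Y.card * 2 ^ d ≤ E.card * Y.card := by
    calc Y.card * 2 ^ d ≤ (∑ e ∈ E, (Y.filter (fun y => mask e.1 y = e.2)).card) * 2 ^ d :=
          Nat.mul_le_mul_right _ h1
      _ = ∑ e ∈ E, (Y.filter (fun y => mask e.1 y = e.2)).card * 2 ^ d := Finset.sum_mul _ _ _
      _ ≤ E.card • Y.card := Finset.sum_le_card_nsmul _ _ _ hone
      _ = E.card * Y.card := by rw [smul_eq_mul]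
  have h3 : E.card * Y.card < 2 ^ d * Y.card := Nat.mul_lt_mul_of_pos_right hE hpos
  rw [mul_comm (2 ^ d)] at h3
  omega

/-- The splitting step. -/
lemma split_step {d k N1 D : ℕ} {θ : ℝ} (hθ : 0 < θ)
    {F : (Finset (Fin N) × (Fin N → A)) → Bool} {L : Finset ((Fin N → A) → Bool)}
    (hsat : ∀ c ∈ configs d L D, SatFor d k N1 θ F c)
    {t : ℕ} (ht : t ≤ D) {Y : Finset (Fin N → A)} {S : Finset (Fin N)}
    (hst : (Y, S) ∈ states d L t) (hI : Inv d k N1 F Y S)
    {Q : (Fin N → A) → Bool} (hQ : Q ∈ L) (a : Bool) :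
    ((splitY Y Q a).card : ℝ) ≤ θ * Y.card ∨
    ((splitY Y Q a).card : ℝ) - θ * Y.card ≤ EE N N1 A * 2 ^ (d * (N - S.card)) ∨
    ∃ P : Finset (Fin N → A), ∃ R : Finset (Fin N), (P, R) ∈ states d L (t + 1) ∧
      Inv d k N1 F P R ∧ P ⊆ splitY Y Q a ∧ S.card ≤ R.card ∧
      ((splitY Y Q a).card : ℝ) - θ * Y.card ≤ P.card * 2 ^ (d * (R.card - S.card)) := by
  classical
  by_cases hsmall : ((splitY Y Q a).card : ℝ) ≤ θ * Y.card
  · exact Or.inl hsmall
  right
  push Not at hsmall
  set Z := splitY Y Q a with hZ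
  have hZY : Z ⊆ Y := Finset.filter_subset _ _
  have hYc : (0 : ℝ) < Y.card := by exact_mod_cast hI.ne.card_pos
  have hex : ∃ J : ℕ, θ * (Y.card : ℝ) ≤ ((Y ∩ (Z \ pe d S Z J)).card : ℝ) := by
    refine ⟨Z.card, ?_⟩
    rw [pe_eventually_empty d S Z le_rfl, Finset.sdiff_empty, Finset.inter_eq_right.2 hZY]
    exact hsmall.le
  set J := Nat.find hex with hJ
  have hJspec : θ * (Y.card : ℝ) ≤ ((Y ∩ (Z \ pe d S Z J)).card : ℝ) := Nat.find_spec hex
  have hJle : J ≤ Fintype.card (Fin N → A) := by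
    have h1 : J ≤ Z.card := by
      apply Nat.find_le
      rw [pe_eventually_empty d S Z le_rfl, Finset.sdiff_empty, Finset.inter_eq_right.2 hZY]
      exact hsmall.le
    exact h1.trans (Finset.card_le_univ Z)
  have hbefore : ∀ j < J, (Z.card : ℝ) - θ * Y.card < (pe d S Z j).card := by
    intro j hj
    have h1 := Nat.find_min hex hj
    push Not at h1
    have h2 : Y ∩ (Z \ pe d S Z j) = Z \ pe d S Z j :=
      Finset.inter_eq_right.2 (Finset.sdiff_subset.trans hZY)
    rw [h2, Finset.card_sdiff_of_subset (pe_subset d S Z j)] at h1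
    have h3 : (pe d S Z j).card ≤ Z.card := Finset.card_le_card (pe_subset d S Z j)
    rw [Nat.cast_sub h3] at h1
    linarith
  have hbefore_ne : ∀ j < J, (pe d S Z j).Nonempty := by
    intro j hj
    have h1 := hbefore j hj
    rw [← Finset.card_pos]
    have : (0 : ℝ) < (pe d S Z j).card := by linarith
    exact_mod_cast this
  have hSconst : ∀ z ∈ Z, ∀ z' ∈ Z, ∀ i ∈ S, z i = z' i :=
    fun z hz z' hz' i hi => hI.const z (hZY hz) z' (hZY hz') i hi
  by_cases hbig : ∃ j < J, N1 < (S ∪ pickT d S (pe d S Z j)).card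
  · left
    obtain ⟨j, hj, hN1⟩ := hbig
    have h1 := hbefore j hj
    have h2 : ((pe d S Z j).card : ℝ) ≤
        ((cell d S (pe d S Z j)).card : ℝ) * 2 ^ (d * (pickT d S (pe d S Z j)).card) := by
      exact_mod_cast cell_heavy d S (pe d S Z j)
    have h3 : ((cell d S (pe d S Z j)).card : ℝ) ≤ EE N N1 A := by
      apply cell_card_le_EE N1 _ (S ∪ pickT d S (pe d S Z j)) _ hN1
      intro z hz z' hz' i hi
      rcases Finset.mem_union.1 hi with h | h
      · exact hSconst z (pe_subset d S Z j (cell_subset d S _ hz)) z'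
          (pe_subset d S Z j (cell_subset d S _ hz')) i h
      · exact cell_const d S _ hz hz' h
    have h4 : (pickT d S (pe d S Z j)).card ≤ N - S.card := by
      have hdis := pickT_disjoint d S _ (hbefore_ne j hj)
      have h5 := Finset.card_le_univ (pickT d S (pe d S Z j) ∪ S)
      rw [Finset.card_union_of_disjoint hdis, Fintype.card_fin] at h5
      omega
    have h5 : (2 : ℝ) ^ (d * (pickT d S (pe d S Z j)).card) ≤ 2 ^ (d * (N - S.card)) :=
      pow_le_pow_right₀ (by norm_num) (Nat.mul_le_mul_left d h4)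
    have h6 : (0 : ℝ) ≤ EE N N1 A := by linarith [EE_one_le (A := A) N N1]
    calc (Z.card : ℝ) - θ * Y.card ≤ (pe d S Z j).card := h1.le
      _ ≤ ((cell d S (pe d S Z j)).card : ℝ) * 2 ^ (d * (pickT d S (pe d S Z j)).card) := h2
      _ ≤ EE N N1 A * 2 ^ (d * (pickT d S (pe d S Z j)).card) :=
          mul_le_mul_of_nonneg_right h3 (by positivity)
      _ ≤ EE N N1 A * 2 ^ (d * (N - S.card)) := mul_le_mul_of_nonneg_left h5 h6
  · right
    push Not at hbig
    have hcfg : ((Y, S, S, Z, J) : Config N A) ∈ configs d L D := by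
      unfold configs
      rw [Finset.mem_biUnion]
      refine ⟨t, Finset.mem_range.2 (by omega), ?_⟩
      rw [Finset.mem_union]
      left
      rw [Finset.mem_image]
      refine ⟨((Y, S), (Q, (a, J))), ?_, rfl⟩
      simp only [Finset.mem_product, Finset.mem_univ, Finset.mem_range, true_and]
      exact ⟨hst, hQ, by omega⟩
    obtain ⟨j, hj, y, hyY, hyc, hent⟩ := hsat _ hcfg hI.dense hI.ne hJspec hbig
    dsimp only at hj hyY hyc hent
    have hinv := partSt_inv (S' := S) (Z := Z) (j := j) hI hSconst (hbefore_ne j hj)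
      (hbig j hj) hyY hyc hent
    refine ⟨(partSt d S Z j).1, (partSt d S Z j).2, ?_, hinv, ?_, ?_, ?_⟩
    · rw [states, Finset.mem_image]
      refine ⟨((Y, S), (Q, (a, j))), ?_, rfl⟩
      simp only [Finset.mem_product, Finset.mem_univ, Finset.mem_range, true_and]
      exact ⟨hst, hQ, by omega⟩
    · exact (cell_subset d S _).trans (pe_subset d S Z j)
    · exact Finset.card_le_card Finset.subset_union_left
    · have hdis := pickT_disjoint d S _ (hbefore_ne j hj)
      have h2 : ((pe d S Z j).card : ℝ) ≤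
        ((cell d S (pe d S Z j)).card : ℝ) * 2 ^ (d * (pickT d S (pe d S Z j)).card) := by
        exact_mod_cast cell_heavy d S (pe d S Z j)
      have h3 : (partSt d S Z j).2.card - S.card = (pickT d S (pe d S Z j)).card := by
        unfold partSt
        dsimp only
        rw [Finset.card_union_of_disjoint hdis.symm]
        omega
      rw [h3]
      exact (hbefore j hj).le.trans h2

/-- The tree lower bound in block space. -/
theorem tree_core {d k N1 D : ℕ} {θ : ℝ} (hd : 1 ≤ d) (hθ : 0 < θ) (hθ2 : θ ≤ 1 / 2)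
    {F : (Finset (Fin N) × (Fin N → A)) → Bool} {L : Finset ((Fin N → A) → Bool)}
    (hsat : ∀ c ∈ configs d L D, SatFor d k N1 θ F c) {Λ : Type}
    (Fals : Λ → (Fin N → A) → Prop)
    (hFals : ∀ c, ∃ E : Finset (Finset (Fin N) × (Fin N → A)), E.card < 2 ^ d ∧
      (∀ e ∈ E, e.1.card = k ∧ F e = true) ∧ ∀ y, Fals c y → ∃ e ∈ E, mask e.1 y = e.2)
    (T : DTree (Fin N → A) Λ) :
    ∀ (t : ℕ) (Y : Finset (Fin N → A)) (S : Finset (Fin N)), t + T.depth ≤ D →
      (Y, S) ∈ states d L t → Inv d k N1 F Y S → T.TestsIn (L : Set ((Fin N → A) → Bool)) →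
      (∀ y ∈ Y, Fals (T.run y) y) →
      (Y.card : ℝ) * (1 - 2 * θ) ^ T.depth ≤ T.leaves * EE N N1 A * 2 ^ (d * (N - S.card)) := by
  induction T with
  | leaf c =>
    intro t Y S _ _ hI _ hrun
    exfalso
    obtain ⟨E, hE1, hE2, hE3⟩ := hFals c
    exact leaf_false hI E hE1 hE2 (fun y hy => hE3 y (hrun y hy))
  | node Q t0 t1 ih0 ih1 =>
    intro t Y S htD hst hI htests hrun
    obtain ⟨hQ, ht0, ht1⟩ := htests
    have hQ' : Q ∈ L := hQ
    have hc0 : (0 : ℝ) ≤ 1 - 2 * θ := by linarith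
    have hc1 : (1 : ℝ) - 2 * θ ≤ 1 := by linarith
    have hYc : (0 : ℝ) < Y.card := by exact_mod_cast hI.ne.card_pos
    have hE0 : (0 : ℝ) ≤ EE N N1 A := by linarith [EE_one_le (A := A) N N1]
    have hdepth : DTree.depth (DTree.node Q t0 t1) = max t0.depth t1.depth + 1 := rfl
    rw [hdepth] at htD
    -- bound for one child
    have key : ∀ (a : Bool) (ta : DTree (Fin N → A) Λ), ta.depth ≤ max t0.depth t1.depth →
        ta.TestsIn (L : Set ((Fin N → A) → Bool)) → (∀ y ∈ splitY Y Q a, Fals (ta.run y) y) →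
        (∀ (t : ℕ) (Y : Finset (Fin N → A)) (S : Finset (Fin N)), t + ta.depth ≤ D →
          (Y, S) ∈ states d L t → Inv d k N1 F Y S →
          ta.TestsIn (L : Set ((Fin N → A) → Bool)) → (∀ y ∈ Y, Fals (ta.run y) y) →
          (Y.card : ℝ) * (1 - 2 * θ) ^ ta.depth
            ≤ ta.leaves * EE N N1 A * 2 ^ (d * (N - S.card))) →
        (((splitY Y Q a).card : ℝ) - θ * Y.card) * (1 - 2 * θ) ^ (max t0.depth t1.depth)
          ≤ ta.leaves * EE N N1 A * 2 ^ (d * (N - S.card)) := by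
      intro a ta hta htt hr ih
      have hpow0 : (0 : ℝ) ≤ (1 - 2 * θ) ^ (max t0.depth t1.depth) := pow_nonneg hc0 _
      have hpow1 : (1 - 2 * θ) ^ (max t0.depth t1.depth) ≤ 1 := pow_le_one₀ hc0 hc1
      have hlv : (1 : ℝ) ≤ ta.leaves := by exact_mod_cast DTree.one_le_leaves ta
      have hrhs : (0 : ℝ) ≤ EE N N1 A * 2 ^ (d * (N - S.card)) := by positivity
      rcases split_step (L := L) hθ hsat (by omega : t ≤ D) hst hI hQ' a with h | h | h
      · have : (((splitY Y Q a).card : ℝ) - θ * Y.card) * (1 - 2 * θ) ^ (max t0.depth t1.depth)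
            ≤ 0 := mul_nonpos_of_nonpos_of_nonneg (by linarith) hpow0
        refine this.trans ?_
        positivity
      · by_cases hpos : 0 ≤ ((splitY Y Q a).card : ℝ) - θ * Y.card
        · calc (((splitY Y Q a).card : ℝ) - θ * Y.card) * (1 - 2 * θ) ^ (max t0.depth t1.depth)
              ≤ (((splitY Y Q a).card : ℝ) - θ * Y.card) * 1 :=
                mul_le_mul_of_nonneg_left hpow1 hpos
            _ ≤ EE N N1 A * 2 ^ (d * (N - S.card)) := by linarith
            _ ≤ ta.leaves * (EE N N1 A * 2 ^ (d * (N - S.card))) :=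
                le_mul_of_one_le_left hrhs hlv
            _ = _ := by ring
        · push Not at hpos
          have : (((splitY Y Q a).card : ℝ) - θ * Y.card) * (1 - 2 * θ) ^ (max t0.depth t1.depth)
              ≤ 0 := mul_nonpos_of_nonpos_of_nonneg hpos.le hpow0
          refine this.trans ?_
          positivity
      · obtain ⟨P, R, hPst, hPI, hPsub, hSR, hmass⟩ := h
        have h1 := ih (t + 1) P R (by omega) hPst hPI htt (fun y hy => hr y (hPsub hy))
        have h2 : (1 - 2 * θ) ^ (max t0.depth t1.depth) ≤ (1 - 2 * θ) ^ ta.depth :=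
          pow_le_pow_of_le_one hc0 hc1 hta
        have hRN : R.card ≤ N := by
          have := Finset.card_le_univ R
          simpa using this
        calc (((splitY Y Q a).card : ℝ) - θ * Y.card) * (1 - 2 * θ) ^ (max t0.depth t1.depth)
            ≤ (P.card * 2 ^ (d * (R.card - S.card))) * (1 - 2 * θ) ^ (max t0.depth t1.depth) :=
              mul_le_mul_of_nonneg_right hmass hpow0
          _ ≤ (P.card * 2 ^ (d * (R.card - S.card))) * (1 - 2 * θ) ^ ta.depth :=
              mul_le_mul_of_nonneg_left h2 (by positivity)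
          _ = (P.card * (1 - 2 * θ) ^ ta.depth) * 2 ^ (d * (R.card - S.card)) := by ring
          _ ≤ (ta.leaves * EE N N1 A * 2 ^ (d * (N - R.card))) * 2 ^ (d * (R.card - S.card)) :=
              mul_le_mul_of_nonneg_right h1 (by positivity)
          _ = ta.leaves * EE N N1 A * 2 ^ (d * (N - S.card)) := by
              rw [mul_assoc _ ((2 : ℝ) ^ (d * (N - R.card))), ← pow_add, ← mul_add]
              congr 3
              omega
    have k1 := key true t1 (le_max_right _ _) ht1 (by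
      intro y hy
      have hy' := Finset.mem_filter.1 hy
      have := hrun y hy'.1
      unfold DTree.run at this
      rw [if_pos hy'.2] at this
      exact this) ih1
    have k0 := key false t0 (le_max_left _ _) ht0 (by
      intro y hy
      have hy' := Finset.mem_filter.1 hy
      have := hrun y hy'.1
      unfold DTree.run at this
      rw [if_neg (by rw [hy'.2]; simp)] at this
      exact this) ih0
    have hsum : ((splitY Y Q true).card : ℝ) + (splitY Y Q false).card = Y.card := by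
      have h1 : (splitY Y Q true).card + (splitY Y Q false).card = Y.card := by
        unfold splitY
        rw [← Finset.card_filter_add_card_filter_not (s := Y) (fun y => Q y = true)]
        congr 2
        ext y
        simp
      exact_mod_cast h1
    have hlv : ((DTree.node Q t0 t1).leaves : ℝ) = t0.leaves + t1.leaves := by
      have h1 : (DTree.node Q t0 t1).leaves = t0.leaves + t1.leaves := rfl
      rw [h1]
      push_cast
      ring
    rw [hdepth, hlv, pow_succ]
    calc (Y.card : ℝ) * ((1 - 2 * θ) ^ (max t0.depth t1.depth) * (1 - 2 * θ))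
        = (((splitY Y Q true).card : ℝ) - θ * Y.card) * (1 - 2 * θ) ^ (max t0.depth t1.depth)
          + (((splitY Y Q false).card : ℝ) - θ * Y.card) * (1 - 2 * θ) ^ (max t0.depth t1.depth) := by
          rw [← hsum]; ring
      _ ≤ t1.leaves * EE N N1 A * 2 ^ (d * (N - S.card))
          + t0.leaves * EE N N1 A * 2 ^ (d * (N - S.card)) := add_le_add k1 k0
      _ = _ := by ring

/-! ### Semantic refutation DAGs -/

/-- A DAG of falsity sets in block space: every node is either covered by the falsity sets of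
fewer than `2 ^ d` forbidden entries, or covered by two nodes of smaller rank. -/
structure DagOK (d k : ℕ) (F : (Finset (Fin N) × (Fin N → A)) → Bool) {ι : Type}
    (X : ι → (Fin N → A) → Bool) (rank : ι → ℕ) : Prop where
  step : ∀ v, (∃ E : Finset (Finset (Fin N) × (Fin N → A)), E.card < 2 ^ d ∧
      (∀ e ∈ E, e.1.card = k ∧ F e = true) ∧ ∀ y, X v y = true → ∃ e ∈ E, mask e.1 y = e.2) ∨
    ∃ u w, rank u < rank v ∧ rank w < rank v ∧ ∀ y, X v y = true → X u y = true ∨ X w y = true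

/-- General DAG claim with an additive measure `μ Y = ∑ y ∈ Y, m y`. -/
theorem dag_claim {d k N1 D : ℕ} {θ : ℝ} (hd : 1 ≤ d) (hθ : 0 < θ) (hθ2 : θ ≤ 1 / 2)
    {F : (Finset (Fin N) × (Fin N → A)) → Bool} {L : Finset ((Fin N → A) → Bool)}
    (hsat : ∀ c ∈ configs d L D, SatFor d k N1 θ F c) {ι : Type}
    (X : ι → (Fin N → A) → Bool) (hXL : ∀ v, X v ∈ L) (rank : ι → ℕ)
    (hdag : DagOK d k F X rank) (m : (Fin N → A) → ℝ) (hm : ∀ y, 0 ≤ m y) (h : ℕ) :
    ∀ (u : ι) (t : ℕ) (Y : Finset (Fin N → A)) (S : Finset (Fin N)), t + h ≤ D →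
      (Y, S) ∈ states d L t → Inv d k N1 F Y S → (∀ y ∈ Y, X u y = true) →
      (∀ v, rank v + h ≤ rank u → ∀ t' ≤ D, ∀ (Y' : Finset (Fin N → A)) (S' : Finset (Fin N)),
        (Y', S') ∈ states d L t' → Inv d k N1 F Y' S' → (∀ y ∈ Y', X v y = true) →
        (1 - θ) * (Y'.card : ℝ) ≤ ∑ y ∈ Y', m y) →
      (Y.card : ℝ) * ((1 - 2 * θ) ^ h * (1 - θ))
        ≤ (∑ y ∈ Y, m y + 2 ^ h * EE N N1 A) * 2 ^ (d * (N - S.card)) := by
  induction h with
  | zero =>
    intro u t Y S htD hst hI hX hterm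
    have h1 := hterm u (by omega) t (by omega) Y S hst hI hX
    have hE0 : (0 : ℝ) ≤ EE N N1 A := by linarith [EE_one_le (A := A) N N1]
    have h2 : (1 : ℝ) ≤ 2 ^ (d * (N - S.card)) := one_le_pow₀ (by norm_num)
    have h3 : 0 ≤ ∑ y ∈ Y, m y := Finset.sum_nonneg (fun y _ => hm y)
    calc (Y.card : ℝ) * ((1 - 2 * θ) ^ 0 * (1 - θ)) = (1 - θ) * (Y.card : ℝ) := by ring
      _ ≤ ∑ y ∈ Y, m y := h1
      _ ≤ ∑ y ∈ Y, m y + 2 ^ 0 * EE N N1 A := by linarith
      _ ≤ (∑ y ∈ Y, m y + 2 ^ 0 * EE N N1 A) * 2 ^ (d * (N - S.card)) :=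
          le_mul_of_one_le_right (by linarith) h2
  | succ h ih =>
    intro u t Y S htD hst hI hX hterm
    rcases hdag.step u with ⟨E, hE1, hE2, hE3⟩ | ⟨c1, c0, hr1, hr0, hcov⟩
    · exact absurd (leaf_false hI E hE1 hE2 (fun y hy => hE3 y (hX y hy))) id
    have hc0 : (0 : ℝ) ≤ 1 - 2 * θ := by linarith
    have hc1 : (1 : ℝ) - 2 * θ ≤ 1 := by linarith
    have hYc : (0 : ℝ) < Y.card := by exact_mod_cast hI.ne.card_pos
    have hE0 : (0 : ℝ) ≤ EE N N1 A := by linarith [EE_one_le (A := A) N N1]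
    have h1θ : (0 : ℝ) ≤ 1 - θ := by linarith
    have key : ∀ (a : Bool) (c : ι), rank c < rank u →
        (∀ y ∈ splitY Y (X c1) a, X c y = true) →
        (((splitY Y (X c1) a).card : ℝ) - θ * Y.card) * ((1 - 2 * θ) ^ h * (1 - θ))
          ≤ (∑ y ∈ splitY Y (X c1) a, m y + 2 ^ h * EE N N1 A) * 2 ^ (d * (N - S.card)) := by
      intro a c hc hXc
      have hms : 0 ≤ ∑ y ∈ splitY Y (X c1) a, m y := Finset.sum_nonneg (fun y _ => hm y)
      have hpow0 : (0 : ℝ) ≤ (1 - 2 * θ) ^ h * (1 - θ) := mul_nonneg (pow_nonneg hc0 _) h1θ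
      have hpow1 : (1 - 2 * θ) ^ h * (1 - θ) ≤ 1 := by
        calc (1 - 2 * θ) ^ h * (1 - θ) ≤ 1 * 1 :=
              mul_le_mul (pow_le_one₀ hc0 hc1) (by linarith) h1θ (by norm_num)
          _ = 1 := by norm_num
      have h2h : (1 : ℝ) ≤ 2 ^ h := one_le_pow₀ (by norm_num)
      have hrhs : (0 : ℝ) ≤ (∑ y ∈ splitY Y (X c1) a, m y + 2 ^ h * EE N N1 A)
          * 2 ^ (d * (N - S.card)) := by positivity
      rcases split_step (L := L) hθ hsat (by omega : t ≤ D) hst hI (hXL c1) a with h' | h' | h'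
      · exact (mul_nonpos_of_nonpos_of_nonneg (by linarith) hpow0).trans hrhs
      · by_cases hpos : 0 ≤ ((splitY Y (X c1) a).card : ℝ) - θ * Y.card
        · calc (((splitY Y (X c1) a).card : ℝ) - θ * Y.card) * ((1 - 2 * θ) ^ h * (1 - θ))
              ≤ (((splitY Y (X c1) a).card : ℝ) - θ * Y.card) * 1 :=
                mul_le_mul_of_nonneg_left hpow1 hpos
            _ ≤ EE N N1 A * 2 ^ (d * (N - S.card)) := by linarith
            _ ≤ (∑ y ∈ splitY Y (X c1) a, m y + 2 ^ h * EE N N1 A) * 2 ^ (d * (N - S.card)) := by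
                apply mul_le_mul_of_nonneg_right _ (by positivity)
                nlinarith
        · push Not at hpos
          exact (mul_nonpos_of_nonpos_of_nonneg hpos.le hpow0).trans hrhs
      · obtain ⟨P, R, hPst, hPI, hPsub, hSR, hmass⟩ := h'
        have h1 := ih c (t + 1) P R (by omega) hPst hPI (fun y hy => hXc y (hPsub hy))
          (fun v hv => hterm v (by omega))
        have hRN : R.card ≤ N := by
          have := Finset.card_le_univ R
          simpa using this
        have h3 : ∑ y ∈ P, m y ≤ ∑ y ∈ splitY Y (X c1) a, m y :=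
          Finset.sum_le_sum_of_subset_of_nonneg hPsub (fun y _ _ => hm y)
        calc (((splitY Y (X c1) a).card : ℝ) - θ * Y.card) * ((1 - 2 * θ) ^ h * (1 - θ))
            ≤ (P.card * 2 ^ (d * (R.card - S.card))) * ((1 - 2 * θ) ^ h * (1 - θ)) :=
              mul_le_mul_of_nonneg_right hmass hpow0
          _ = (P.card * ((1 - 2 * θ) ^ h * (1 - θ))) * 2 ^ (d * (R.card - S.card)) := by ring
          _ ≤ ((∑ y ∈ P, m y + 2 ^ h * EE N N1 A) * 2 ^ (d * (N - R.card)))
                * 2 ^ (d * (R.card - S.card)) :=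
              mul_le_mul_of_nonneg_right h1 (by positivity)
          _ = (∑ y ∈ P, m y + 2 ^ h * EE N N1 A) * 2 ^ (d * (N - S.card)) := by
              rw [mul_assoc, ← pow_add, ← mul_add]
              congr 3
              omega
          _ ≤ (∑ y ∈ splitY Y (X c1) a, m y + 2 ^ h * EE N N1 A) * 2 ^ (d * (N - S.card)) := by
              apply mul_le_mul_of_nonneg_right _ (by positivity)
              linarith
    have k1 := key true c1 hr1 (by
      intro y hy
      exact (Finset.mem_filter.1 hy).2)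
    have k0 := key false c0 hr0 (by
      intro y hy
      obtain ⟨hy1, hy2⟩ := Finset.mem_filter.1 hy
      rcases hcov y (hX y hy1) with h2 | h2
      · rw [h2] at hy2; exact absurd hy2 (by simp)
      · exact h2)
    have hfilt : ∀ g : (Fin N → A) → ℝ, ∑ y ∈ splitY Y (X c1) true, g y
        + ∑ y ∈ splitY Y (X c1) false, g y = ∑ y ∈ Y, g y := by
      intro g
      unfold splitY
      rw [← Finset.sum_filter_add_sum_filter_not Y (fun y => X c1 y = true)]
      congr 2
      ext y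
      simp
    have hsum : ((splitY Y (X c1) true).card : ℝ) + (splitY Y (X c1) false).card = Y.card := by
      have := hfilt (fun _ => 1)
      simpa using this
    have hsm := hfilt m
    calc (Y.card : ℝ) * ((1 - 2 * θ) ^ (h + 1) * (1 - θ))
        = (((splitY Y (X c1) true).card : ℝ) - θ * Y.card) * ((1 - 2 * θ) ^ h * (1 - θ))
          + (((splitY Y (X c1) false).card : ℝ) - θ * Y.card) * ((1 - 2 * θ) ^ h * (1 - θ)) := by
          rw [pow_succ, ← hsum]; ring
      _ ≤ (∑ y ∈ splitY Y (X c1) true, m y + 2 ^ h * EE N N1 A) * 2 ^ (d * (N - S.card))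
          + (∑ y ∈ splitY Y (X c1) false, m y + 2 ^ h * EE N N1 A) * 2 ^ (d * (N - S.card)) :=
          add_le_add k1 k0
      _ = (∑ y ∈ Y, m y + 2 ^ (h + 1) * EE N N1 A) * 2 ^ (d * (N - S.card)) := by
          rw [← hsm, pow_succ]; ring

/-- Node falsity set `X` is rich: it contains a good dense part obtained at a time when the
remaining set still had at least `m` elements. -/
def Rich (d k N1 : ℕ) (F : (Finset (Fin N) × (Fin N → A)) → Bool)
    (L : Finset ((Fin N → A) → Bool)) (X : (Fin N → A) → Bool) (m : ℝ) : Prop :=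
  ∃ (Y : Finset (Fin N → A)) (S : Finset (Fin N)), (Y, S) ∈ states d L 0 ∧ Inv d k N1 F Y S ∧
    (∀ y ∈ Y, X y = true) ∧ m ≤ Y.card * 2 ^ (d * S.card)

/-- If `X` is not rich then every good dense state inside `X` is mostly inside the small
remainder of the peeling of `X`. -/
lemma exists_rem {d k N1 D : ℕ} {θ : ℝ} (hθ : 0 < θ)
    {F : (Finset (Fin N) × (Fin N → A)) → Bool} {L : Finset ((Fin N → A) → Bool)}
    (hsat : ∀ c ∈ configs d L D, SatFor d k N1 θ F c)
    (X : (Fin N → A) → Bool) (hXL : X ∈ L) (m : ℝ)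
    (hmE : EE N N1 A * 2 ^ (d * N) < m) (hnr : ¬ Rich d k N1 F L X m) :
    ∃ Rm : Finset (Fin N → A), (Rm.card : ℝ) < m ∧
      ∀ t ≤ D, ∀ (Y : Finset (Fin N → A)) (S : Finset (Fin N)),
        (Y, S) ∈ states d L t → Inv d k N1 F Y S → (∀ y ∈ Y, X y = true) →
        (1 - θ) * (Y.card : ℝ) ≤ ((Y ∩ Rm).card : ℝ) := by
  classical
  set Z := splitY (Finset.univ : Finset (Fin N → A)) X true with hZ
  have hE1 : (1 : ℝ) ≤ EE N N1 A := EE_one_le (A := A) N N1
  have hmpos : 0 < m := lt_trans (by positivity) hmE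
  have hex : ∃ J : ℕ, ((pe d ∅ Z J).card : ℝ) < m := by
    refine ⟨Z.card, ?_⟩
    rw [pe_eventually_empty d ∅ Z le_rfl]
    simpa using hmpos
  set J := Nat.find hex with hJ
  have hJspec : ((pe d ∅ Z J).card : ℝ) < m := Nat.find_spec hex
  have hJle : J ≤ Fintype.card (Fin N → A) := by
    have h1 : J ≤ Z.card := by
      apply Nat.find_le
      rw [pe_eventually_empty d ∅ Z le_rfl]
      simpa using hmpos
    exact h1.trans (Finset.card_le_univ Z)
  have hbefore : ∀ j < J, m ≤ (pe d ∅ Z j).card := by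
    intro j hj
    have h1 := Nat.find_min hex hj
    push Not at h1
    exact h1
  have hbefore_ne : ∀ j < J, (pe d ∅ Z j).Nonempty := by
    intro j hj
    have h1 := hbefore j hj
    rw [← Finset.card_pos]
    have : (0 : ℝ) < (pe d ∅ Z j).card := by linarith
    exact_mod_cast this
  refine ⟨pe d ∅ Z J, hJspec, ?_⟩
  intro t ht Y S hst hI hX
  have hYZ : Y ⊆ Z := by
    intro y hy
    exact Finset.mem_filter.2 ⟨Finset.mem_univ _, hX y hy⟩
  by_contra hcon
  push Not at hcon
  have hmass : θ * (Y.card : ℝ) ≤ ((Y ∩ (Z \ pe d ∅ Z J)).card : ℝ) := by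
    have h1 : (Y ∩ (Z \ pe d ∅ Z J)).card + (Y ∩ pe d ∅ Z J).card = Y.card := by
      have h2 : Y ∩ (Z \ pe d ∅ Z J) = Y \ (Y ∩ pe d ∅ Z J) := by
        ext y
        simp only [Finset.mem_inter, Finset.mem_sdiff]
        constructor
        · rintro ⟨h1, h2, h3⟩
          exact ⟨h1, fun h4 => h3 h4.2⟩
        · rintro ⟨h1, h2⟩
          exact ⟨h1, hYZ h1, fun h3 => h2 ⟨h1, h3⟩⟩
      rw [h2, Finset.card_sdiff_of_subset Finset.inter_subset_left]
      have := Finset.card_le_card (Finset.inter_subset_left : Y ∩ pe d ∅ Z J ⊆ Y)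
      omega
    have h3 : ((Y ∩ (Z \ pe d ∅ Z J)).card : ℝ) + (Y ∩ pe d ∅ Z J).card = Y.card := by
      exact_mod_cast h1
    linarith
  have hbig : ∀ j < J, (∅ ∪ pickT d ∅ (pe d ∅ Z j)).card ≤ N1 := by
    intro j hj
    by_contra hcon2
    push Not at hcon2
    have h1 := hbefore j hj
    have h2 : ((pe d ∅ Z j).card : ℝ) ≤
        ((cell d ∅ (pe d ∅ Z j)).card : ℝ) * 2 ^ (d * (pickT d ∅ (pe d ∅ Z j)).card) := by
      exact_mod_cast cell_heavy d ∅ (pe d ∅ Z j)
    have h3 : ((cell d ∅ (pe d ∅ Z j)).card : ℝ) ≤ EE N N1 A := by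
      apply cell_card_le_EE N1 _ (∅ ∪ pickT d ∅ (pe d ∅ Z j)) _ hcon2
      intro z hz z' hz' i hi
      rw [Finset.empty_union] at hi
      exact cell_const d ∅ _ hz hz' hi
    have h4 : (pickT d ∅ (pe d ∅ Z j)).card ≤ N := by
      have := Finset.card_le_univ (pickT d ∅ (pe d ∅ Z j))
      simpa using this
    have h5 : (2 : ℝ) ^ (d * (pickT d ∅ (pe d ∅ Z j)).card) ≤ 2 ^ (d * N) :=
      pow_le_pow_right₀ (by norm_num) (Nat.mul_le_mul_left d h4)
    have h6 : ((pe d ∅ Z j).card : ℝ) ≤ EE N N1 A * 2 ^ (d * N) :=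
      h2.trans (mul_le_mul h3 h5 (by positivity) (by linarith))
    linarith
  have hcfg : ((Y, S, ∅, Z, J) : Config N A) ∈ configs d L D := by
    unfold configs
    rw [Finset.mem_biUnion]
    refine ⟨t, Finset.mem_range.2 (by omega), ?_⟩
    rw [Finset.mem_union]
    right
    rw [Finset.mem_image]
    refine ⟨((Y, S), (X, J)), ?_, rfl⟩
    simp only [Finset.mem_product, Finset.mem_range]
    exact ⟨hst, hXL, by omega⟩
  obtain ⟨j, hj, y, hyY, hyc, hent⟩ := hsat _ hcfg hI.dense hI.ne hmass hbig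
  dsimp only at hj hyY hyc hent
  have hinv := partSt_inv (S' := ∅) (Z := Z) (j := j) hI (by simp) (hbefore_ne j hj)
    (hbig j hj) hyY hyc hent
  apply hnr
  refine ⟨(partSt d ∅ Z j).1, (partSt d ∅ Z j).2, ?_, hinv, ?_, ?_⟩
  · rw [states, Finset.mem_insert]
    right
    rw [Finset.mem_image]
    refine ⟨(X, j), ?_, rfl⟩
    simp only [Finset.mem_product, Finset.mem_range]
    exact ⟨hXL, by omega⟩
  · intro z hz
    have h1 : z ∈ Z := pe_subset d ∅ Z j (cell_subset d ∅ _ hz)
    exact (Finset.mem_filter.1 h1).2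
  · have h2 : ((pe d ∅ Z j).card : ℝ) ≤
        ((cell d ∅ (pe d ∅ Z j)).card : ℝ) * 2 ^ (d * (pickT d ∅ (pe d ∅ Z j)).card) := by
      exact_mod_cast cell_heavy d ∅ (pe d ∅ Z j)
    have h3 : (partSt d ∅ Z j).2 = pickT d ∅ (pe d ∅ Z j) := by
      unfold partSt
      simp
    rw [h3]
    exact (hbefore j hj).trans h2

/-- One phase of the DAG argument. -/
theorem dag_phase {d k N1 D : ℕ} {θ : ℝ} (hd : 1 ≤ d) (hθ : 0 < θ) (hθ2 : θ ≤ 1 / 2)
    {F : (Finset (Fin N) × (Fin N → A)) → Bool} {L : Finset ((Fin N → A) → Bool)}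
    (hsat : ∀ c ∈ configs d L D, SatFor d k N1 θ F c) {ι : Type} [Fintype ι]
    (X : ι → (Fin N → A) → Bool) (hXL : ∀ v, X v ∈ L) (rank : ι → ℕ)
    (hdag : DagOK d k F X rank) (u : ι) (m0 m1 : ℝ) (h : ℕ) (hhD : h ≤ D)
    (hrich : Rich d k N1 F L (X u) m0) (hm1 : EE N N1 A * 2 ^ (d * N) < m1)
    (hbig : ((Fintype.card ι : ℝ) * m1 + 2 ^ h * EE N N1 A) * 2 ^ (d * N)
      < m0 * ((1 - 2 * θ) ^ h * (1 - θ))) :
    ∃ v, rank v + h ≤ rank u ∧ Rich d k N1 F L (X v) m1 := by
  classical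
  by_contra hcon
  push Not at hcon
  obtain ⟨Y, S, hst, hI, hX, hm0⟩ := hrich
  have hE0 : (0 : ℝ) ≤ EE N N1 A := by linarith [EE_one_le (A := A) N N1]
  have hm1pos : 0 < m1 := lt_of_le_of_lt (by positivity) hm1
  have hc0 : (0 : ℝ) ≤ 1 - 2 * θ := by linarith
  have h1θ : (0 : ℝ) ≤ 1 - θ := by linarith
  set Rm : ι → Finset (Fin N → A) := fun v =>
    if hv : rank v + h ≤ rank u then
      (exists_rem hθ hsat (X v) (hXL v) m1 hm1 (hcon v hv)).choose else ∅ with hRm
  have hRm1 : ∀ v, ((Rm v).card : ℝ) ≤ m1 := by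
    intro v
    rw [hRm]
    dsimp only
    split_ifs with hv
    · exact (exists_rem hθ hsat (X v) (hXL v) m1 hm1 (hcon v hv)).choose_spec.1.le
    · simpa using hm1pos.le
  set m : (Fin N → A) → ℝ := fun y => ∑ v : ι, (if y ∈ Rm v then 1 else 0) with hm
  have hmn : ∀ y, 0 ≤ m y := by
    intro y
    apply Finset.sum_nonneg
    intro v _
    split_ifs <;> norm_num
  have hmsum : ∀ Y' : Finset (Fin N → A), ∑ y ∈ Y', m y = ∑ v : ι, ((Y' ∩ Rm v).card : ℝ) := by
    intro Y'
    rw [hm]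
    dsimp only
    rw [Finset.sum_comm]
    apply Finset.sum_congr rfl
    intro v _
    rw [← Finset.sum_filter, Finset.sum_const, nsmul_eq_mul, mul_one, Finset.filter_mem_eq_inter]
  have hcl := dag_claim hd hθ hθ2 hsat X hXL rank hdag m hmn h u 0 Y S (by omega) hst hI hX (by
    intro v hv t' ht' Y' S' hst' hI' hX'
    have h1 := (exists_rem hθ hsat (X v) (hXL v) m1 hm1 (hcon v hv)).choose_spec.2 t' ht' Y' S'
      hst' hI' hX'
    have h2 : Rm v = (exists_rem hθ hsat (X v) (hXL v) m1 hm1 (hcon v hv)).choose := by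
      rw [hRm]
      dsimp only
      rw [dif_pos hv]
    rw [← h2] at h1
    refine h1.trans ?_
    rw [hmsum]
    exact Finset.single_le_sum (f := fun v => ((Y' ∩ Rm v).card : ℝ))
      (fun v _ => Nat.cast_nonneg _) (Finset.mem_univ v))
  have hμ : ∑ y ∈ Y, m y ≤ (Fintype.card ι : ℝ) * m1 := by
    rw [hmsum, ← Finset.card_univ, ← nsmul_eq_mul]
    apply Finset.sum_le_card_nsmul
    intro v _
    refine le_trans ?_ (hRm1 v)
    exact_mod_cast Finset.card_le_card Finset.inter_subset_right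
  have hSN : S.card ≤ N := by
    have := Finset.card_le_univ S
    simpa using this
  have hfin : m0 * ((1 - 2 * θ) ^ h * (1 - θ))
      ≤ ((Fintype.card ι : ℝ) * m1 + 2 ^ h * EE N N1 A) * 2 ^ (d * N) := by
    have hp0 : (0 : ℝ) ≤ (1 - 2 * θ) ^ h * (1 - θ) := mul_nonneg (pow_nonneg hc0 _) h1θ
    calc m0 * ((1 - 2 * θ) ^ h * (1 - θ))
        ≤ (Y.card * 2 ^ (d * S.card)) * ((1 - 2 * θ) ^ h * (1 - θ)) :=
          mul_le_mul_of_nonneg_right hm0 hp0
      _ = (Y.card * ((1 - 2 * θ) ^ h * (1 - θ))) * 2 ^ (d * S.card) := by ring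
      _ ≤ ((∑ y ∈ Y, m y + 2 ^ h * EE N N1 A) * 2 ^ (d * (N - S.card))) * 2 ^ (d * S.card) :=
          mul_le_mul_of_nonneg_right hcl (by positivity)
      _ = (∑ y ∈ Y, m y + 2 ^ h * EE N N1 A) * 2 ^ (d * N) := by
          rw [mul_assoc, ← pow_add, ← mul_add]
          congr 3
          omega
      _ ≤ _ := by
          apply mul_le_mul_of_nonneg_right _ (by positivity)
          linarith
  linarith

/-- Survival: a rich node has large rank. -/
theorem dag_survive {d k N1 D : ℕ} {θ : ℝ} (hd : 1 ≤ d) (hθ : 0 < θ) (hθ2 : θ ≤ 1 / 2)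
    {F : (Finset (Fin N) × (Fin N → A)) → Bool} {L : Finset ((Fin N → A) → Bool)}
    (hsat : ∀ c ∈ configs d L D, SatFor d k N1 θ F c) {ι : Type}
    (X : ι → (Fin N → A) → Bool) (hXL : ∀ v, X v ∈ L) (rank : ι → ℕ)
    (hdag : DagOK d k F X rank) (u : ι) (m0 : ℝ) (h : ℕ) (hhD : h ≤ D)
    (hrich : Rich d k N1 F L (X u) m0)
    (hbig : 2 ^ h * EE N N1 A * 2 ^ (d * N) < m0 * ((1 - 2 * θ) ^ h * (1 - θ))) :
    h ≤ rank u := by
  by_contra hcon
  push Not at hcon
  obtain ⟨Y, S, hst, hI, hX, hm0⟩ := hrich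
  have hE0 : (0 : ℝ) ≤ EE N N1 A := by linarith [EE_one_le (A := A) N N1]
  have hc0 : (0 : ℝ) ≤ 1 - 2 * θ := by linarith
  have h1θ : (0 : ℝ) ≤ 1 - θ := by linarith
  have hcl := dag_claim hd hθ hθ2 hsat X hXL rank hdag (fun _ => 0) (fun _ => le_rfl) h u 0 Y S
    (by omega) hst hI hX (by
      intro v hv
      exfalso
      omega)
  have hSN : S.card ≤ N := by
    have := Finset.card_le_univ S
    simpa using this
  have hfin : m0 * ((1 - 2 * θ) ^ h * (1 - θ)) ≤ 2 ^ h * EE N N1 A * 2 ^ (d * N) := by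
    have hp0 : (0 : ℝ) ≤ (1 - 2 * θ) ^ h * (1 - θ) := mul_nonneg (pow_nonneg hc0 _) h1θ
    calc m0 * ((1 - 2 * θ) ^ h * (1 - θ))
        ≤ (Y.card * 2 ^ (d * S.card)) * ((1 - 2 * θ) ^ h * (1 - θ)) :=
          mul_le_mul_of_nonneg_right hm0 hp0
      _ = (Y.card * ((1 - 2 * θ) ^ h * (1 - θ))) * 2 ^ (d * S.card) := by ring
      _ ≤ ((∑ y ∈ Y, (0 : ℝ) + 2 ^ h * EE N N1 A) * 2 ^ (d * (N - S.card)))
            * 2 ^ (d * S.card) :=
          mul_le_mul_of_nonneg_right hcl (by positivity)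
      _ = 2 ^ h * EE N N1 A * 2 ^ (d * N) := by
          rw [Finset.sum_const_zero, zero_add, mul_assoc, ← pow_add, ← mul_add]
          congr 3
          omega
  linarith

end Core

end Pool.Agent.T9h20
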