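import Mathlib
import Pool.Agent.T9h20.Chern
import Pool.Agent.T9h20.Core

/-!
Following all parts of the peelings at once: the average-case bound for trees and the size-depth
trade-off for all depths.
-/

namespace Pool.Agent.T9h20

open Finset

set_option linter.unusedSectionVars false
set_option linter.unusedVariables false

section Peeling

variable {N : ℕ} {A : Type} [Fintype A] [DecidableEq A] [Inhabited A]

/-- Harmonic numbers as reals. -/
noncomputable def Hf (m : ℕ) : ℝ := ∑ i ∈ Finset.range m, 1 / ((i : ℝ) + 1)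

lemma Hf_mono {a b : ℕ} (h : a ≤ b) : Hf a ≤ Hf b := by
  unfold Hf
  apply Finset.sum_le_sum_of_subset_of_nonneg
  · exact Finset.range_subset_range.2 h
  · intro i _ _
    positivity

lemma Hf_nonneg (m : ℕ) : 0 ≤ Hf m := by
  unfold Hf
  apply Finset.sum_nonneg
  intro i _
  positivity

lemma Hf_diff {a b : ℕ} (h : b ≤ a) (ha : 0 < a) : ((a : ℝ) - b) / a ≤ Hf a - Hf b := by
  unfold Hf
  rw [← Finset.sum_range_add_sum_Ico _ h, add_sub_cancel_left]
  have h1 : ∑ i ∈ Finset.Ico b a, (1 / (a : ℝ)) ≤ ∑ i ∈ Finset.Ico b a, 1 / ((i : ℝ) + 1) := by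
    apply Finset.sum_le_sum
    intro i hi
    have h2 := (Finset.mem_Ico.1 hi).2
    apply one_div_le_one_div_of_le (by positivity)
    exact_mod_cast h2
  rw [Finset.sum_const, Nat.card_Ico, nsmul_eq_mul, Nat.cast_sub h] at h1
  calc ((a : ℝ) - b) / a = (a - b) * (1 / a) := by ring
    _ ≤ _ := h1

lemma Hf_pow_two (t : ℕ) : Hf (2 ^ t) ≤ t + 1 := by
  induction t with
  | zero => simp [Hf]
  | succ t ih =>
    have h1 : Hf (2 ^ (t + 1)) ≤ Hf (2 ^ t) + 1 := by
      unfold Hf
      rw [← Finset.sum_range_add_sum_Ico _ (Nat.pow_le_pow_right (by norm_num) (Nat.le_succ t) :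
        2 ^ t ≤ 2 ^ (t + 1))]
      have h2 : ∑ i ∈ Finset.Ico (2 ^ t : ℕ) (2 ^ (t + 1) : ℕ), 1 / ((i : ℝ) + 1)
          ≤ ∑ i ∈ Finset.Ico (2 ^ t : ℕ) (2 ^ (t + 1) : ℕ), (1 / (2 : ℝ) ^ t) := by
        apply Finset.sum_le_sum
        intro i hi
        have h3 := (Finset.mem_Ico.1 hi).1
        apply one_div_le_one_div_of_le (by positivity)
        have h4 : ((2 : ℝ) ^ t) ≤ i := by exact_mod_cast h3
        linarith
      rw [Finset.sum_const, Nat.card_Ico, nsmul_eq_mul] at h2
      have h5 : ((2 ^ (t + 1) - 2 ^ t : ℕ) : ℝ) * (1 / 2 ^ t) = 1 := by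
        have : 2 ^ (t + 1) - 2 ^ t = 2 ^ t := by rw [pow_succ]; omega
        rw [this]
        push_cast
        field_simp
      linarith
    push_cast
    linarith

/-- Splitting a sum over `Z` along the peeling. -/
lemma sum_cells (d : ℕ) (S : Finset (Fin N)) (Z : Finset (Fin N → A)) (g : (Fin N → A) → ℝ)
    (J : ℕ) : ∑ y ∈ Z, g y = ∑ j ∈ Finset.range J, ∑ y ∈ cell d S (pe d S Z j), g y
      + ∑ y ∈ pe d S Z J, g y := by
  induction J with
  | zero => simp [pe]
  | succ J ih =>
    rw [ih, Finset.sum_range_succ]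
    have h1 : ∑ y ∈ pe d S Z J, g y = ∑ y ∈ pe d S Z (J + 1), g y
        + ∑ y ∈ cell d S (pe d S Z J), g y := by
      rw [pe]
      exact (Finset.sum_sdiff (cell_subset d S _)).symm
    rw [h1]
    ring

lemma cell_empty (d : ℕ) (S : Finset (Fin N)) :
    cell d S (∅ : Finset (Fin N → A)) = ∅ := by
  have := cell_subset d S (∅ : Finset (Fin N → A))
  exact Finset.subset_empty.1 this

lemma pe_succ_card (d : ℕ) (S : Finset (Fin N)) (Z : Finset (Fin N → A)) (j : ℕ) :
    (pe d S Z (j + 1)).card + (cell d S (pe d S Z j)).card = (pe d S Z j).card := by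
  rw [pe, Finset.card_sdiff_of_subset (cell_subset d S _)]
  have := Finset.card_le_card (cell_subset d S (pe d S Z j))
  omega

lemma not_mem_cell_of_lt (d : ℕ) (S : Finset (Fin N)) (Z : Finset (Fin N → A)) {i j : ℕ}
    (h : i < j) {y : Fin N → A} (hy : y ∈ pe d S Z j) : y ∉ cell d S (pe d S Z i) := by
  intro hc
  have h1 : y ∈ pe d S Z (i + 1) := pe_anti d S Z h hy
  rw [pe, Finset.mem_sdiff] at h1
  exact h1.2 hc

lemma Rf_cell (d : ℕ) (S : Finset (Fin N)) (Z : Finset (Fin N → A)) (j : ℕ)
    {y : Fin N → A} (hy : y ∈ cell d S (pe d S Z j)) :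
    Rf d S Z y = S ∪ pickT d S (pe d S Z j) := by
  classical
  have h : ∃ j, y ∈ cell d S (pe d S Z j) := ⟨j, hy⟩
  unfold Rf
  rw [dif_pos h]
  have h1 : Nat.find h = j := by
    rw [Nat.find_eq_iff]
    refine ⟨hy, ?_⟩
    intro i hi
    exact not_mem_cell_of_lt d S Z hi (cell_subset d S _ hy)
  rw [h1]

/-- Weight of the `j`-th part. -/
noncomputable def wgt (d : ℕ) (c : ℝ) (S : Finset (Fin N)) (Z : Finset (Fin N → A)) (j : ℕ) : ℝ :=
  open Classical in
  if (pe d S Z j).Nonempty then (c * 2 ^ d) ^ (N - (S ∪ pickT d S (pe d S Z j)).card) else 0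

open Classical in
/-- The weights of all parts. -/
lemma sum_wgt_aux (d : ℕ) (c : ℝ) (hc : 1 ≤ c) (S : Finset (Fin N)) (Z : Finset (Fin N → A))
    (J : ℕ) : ∑ j ∈ Finset.range J, wgt d c S Z j ≤ (c * 2 ^ d) ^ (N - S.card) *
      ((if pe d S Z J = ∅ then 1 else 0) + 1 / c * (Hf Z.card - Hf (pe d S Z J).card)) := by
  have hc0 : 0 < c := by linarith
  have hG1 : 1 ≤ c * 2 ^ d := by
    have : (1 : ℝ) ≤ 2 ^ d := one_le_pow₀ (by norm_num)
    nlinarith
  have hG0 : 0 < c * 2 ^ d := by linarith
  induction J with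
  | zero =>
    rw [Finset.range_zero, Finset.sum_empty]
    apply mul_nonneg (by positivity)
    have h1 : Hf Z.card - Hf (pe d S Z 0).card = 0 := by
      have hpe0 : pe d S Z 0 = Z := rfl
      rw [hpe0]; ring
    rw [h1, mul_zero, add_zero]
    split_ifs <;> norm_num
  | succ J ih =>
    rw [Finset.sum_range_succ]
    have hmono : Hf (pe d S Z (J + 1)).card ≤ Hf (pe d S Z J).card :=
      Hf_mono (Finset.card_le_card (pe_succ_subset d S Z J))
    by_cases hne : (pe d S Z J).Nonempty
    swap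
    · have he : pe d S Z J = ∅ := Finset.not_nonempty_iff_eq_empty.1 hne
      have he2 : pe d S Z (J + 1) = ∅ := by
        rw [pe, he]; simp
      have hw : wgt d c S Z J = 0 := by
        unfold wgt; rw [if_neg hne]
      rw [hw, he2]
      rw [he] at ih
      simpa using ih
    have hnE : pe d S Z J ≠ ∅ := hne.ne_empty
    rw [if_neg hnE] at ih
    have hw : wgt d c S Z J = (c * 2 ^ d) ^ (N - (S ∪ pickT d S (pe d S Z J)).card) := by
      unfold wgt; rw [if_pos hne]
    rw [hw]
    have hdis := pickT_disjoint d S _ hne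
    have hcardU : (S ∪ pickT d S (pe d S Z J)).card = S.card + (pickT d S (pe d S Z J)).card :=
      Finset.card_union_of_disjoint hdis.symm
    have hleN : (S ∪ pickT d S (pe d S Z J)).card ≤ N := by
      have := Finset.card_le_univ (S ∪ pickT d S (pe d S Z J))
      simpa using this
    have hdiff : 0 ≤ 1 / c * (Hf (pe d S Z J).card - Hf (pe d S Z (J + 1)).card) :=
      mul_nonneg (by positivity) (by linarith)
    have hGp : 0 ≤ (c * 2 ^ d) ^ (N - S.card) := by positivity
    by_cases hT : pickT d S (pe d S Z J) = ∅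
    · have hcell : cell d S (pe d S Z J) = pe d S Z J := by
        unfold cell agreeOn
        unfold pickT at hT
        rw [hT]
        simp
      have hE : pe d S Z (J + 1) = ∅ := by
        rw [pe, hcell]; simp
      rw [hT, Finset.union_empty, if_pos hE]
      rw [hE] at hdiff ⊢
      have hH0 : Hf (∅ : Finset (Fin N → A)).card = 0 := by simp [Hf]
      rw [hH0] at hdiff ⊢
      have h2 : (c * 2 ^ d) ^ (N - S.card) * (0 + 1 / c * (Hf Z.card - Hf (pe d S Z J).card))
          + (c * 2 ^ d) ^ (N - S.card) ≤ (c * 2 ^ d) ^ (N - S.card) *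
            (1 + 1 / c * (Hf Z.card - 0)) := by
        have h3 : (c * 2 ^ d) ^ (N - S.card) * (1 + 1 / c * (Hf Z.card - 0))
          = (c * 2 ^ d) ^ (N - S.card) * (0 + 1 / c * (Hf Z.card - Hf (pe d S Z J).card))
          + (c * 2 ^ d) ^ (N - S.card) + (c * 2 ^ d) ^ (N - S.card) *
            (1 / c * (Hf (pe d S Z J).card - 0)) := by ring
        rw [h3]
        have := mul_nonneg hGp hdiff
        linarith
      linarith
    · have hT1 : 1 ≤ (pickT d S (pe d S Z J)).card := by
        rw [Nat.one_le_iff_ne_zero, Ne, Finset.card_eq_zero]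
        exact hT
      obtain ⟨τ, hτ⟩ : ∃ τ, τ = (pickT d S (pe d S Z J)).card := ⟨_, rfl⟩
      rw [← hτ] at hT1 hcardU
      have hexp : N - S.card = (N - (S ∪ pickT d S (pe d S Z J)).card) + τ := by omega
      have hheavy := cell_heavy d S (pe d S Z J)
      rw [← hτ] at hheavy
      have hpc := pe_succ_card d S Z J
      have hpos : 0 < (pe d S Z J).card := hne.card_pos
      have hposr : (0 : ℝ) < (pe d S Z J).card := by exact_mod_cast hpos
      have hHd := Hf_diff (a := (pe d S Z J).card) (b := (pe d S Z (J + 1)).card) (by omega) hpos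
      have hcell_eq : ((cell d S (pe d S Z J)).card : ℝ)
          = (pe d S Z J).card - (pe d S Z (J + 1)).card := by
        have : ((pe d S Z (J + 1)).card : ℝ) + (cell d S (pe d S Z J)).card
            = (pe d S Z J).card := by exact_mod_cast hpc
        linarith
      rw [← hcell_eq] at hHd
      have hheavyr : ((pe d S Z J).card : ℝ)
          ≤ (cell d S (pe d S Z J)).card * (2 : ℝ) ^ (d * τ) := by exact_mod_cast hheavy
      have hkey : (1 : ℝ) ≤ (c * 2 ^ d) ^ τ * (1 / c * ((cell d S (pe d S Z J)).card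
          / (pe d S Z J).card)) := by
        have h1 : c ≤ c ^ τ := by
          calc c = c ^ 1 := (pow_one c).symm
            _ ≤ c ^ τ := pow_le_pow_right₀ hc hT1
        have h2 : (1 : ℝ) ≤ (cell d S (pe d S Z J)).card * (2 : ℝ) ^ (d * τ)
            / (pe d S Z J).card := by
          rw [le_div_iff₀ hposr, one_mul]
          exact hheavyr
        have h3 : (c * 2 ^ d) ^ τ * (1 / c * ((cell d S (pe d S Z J)).card
          / (pe d S Z J).card)) = (c ^ τ / c) * ((cell d S (pe d S Z J)).card *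
            (2 : ℝ) ^ (d * τ) / (pe d S Z J).card) := by
          rw [mul_pow, ← pow_mul]
          ring
        rw [h3]
        have h4 : 1 ≤ c ^ τ / c := by
          rw [le_div_iff₀ hc0, one_mul]
          exact h1
        calc (1 : ℝ) = 1 * 1 := by norm_num
          _ ≤ _ := mul_le_mul h4 h2 (by norm_num) (by positivity)
      have hstep : (c * 2 ^ d) ^ (N - (S ∪ pickT d S (pe d S Z J)).card)
          ≤ (c * 2 ^ d) ^ (N - S.card) *
            (1 / c * (Hf (pe d S Z J).card - Hf (pe d S Z (J + 1)).card)) := by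
        rw [hexp, pow_add, mul_assoc]
        have h5 : (c * 2 ^ d) ^ τ * (1 / c * ((cell d S (pe d S Z J)).card
          / (pe d S Z J).card)) ≤ (c * 2 ^ d) ^ τ *
            (1 / c * (Hf (pe d S Z J).card - Hf (pe d S Z (J + 1)).card)) := by
          apply mul_le_mul_of_nonneg_left _ (by positivity)
          exact mul_le_mul_of_nonneg_left hHd (by positivity)
        calc (c * 2 ^ d) ^ (N - (S ∪ pickT d S (pe d S Z J)).card)
            = (c * 2 ^ d) ^ (N - (S ∪ pickT d S (pe d S Z J)).card) * 1 := (mul_one _).symm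
          _ ≤ _ := mul_le_mul_of_nonneg_left (hkey.trans h5) (by positivity)
      have hfin : (c * 2 ^ d) ^ (N - S.card) * (0 + 1 / c * (Hf Z.card - Hf (pe d S Z J).card))
          + (c * 2 ^ d) ^ (N - S.card) *
            (1 / c * (Hf (pe d S Z J).card - Hf (pe d S Z (J + 1)).card))
          = (c * 2 ^ d) ^ (N - S.card) * (0 + 1 / c * (Hf Z.card - Hf (pe d S Z (J + 1)).card)) := by
        ring
      have hlast : (c * 2 ^ d) ^ (N - S.card) *
          (0 + 1 / c * (Hf Z.card - Hf (pe d S Z (J + 1)).card))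
          ≤ (c * 2 ^ d) ^ (N - S.card) * ((if pe d S Z (J + 1) = ∅ then 1 else 0)
            + 1 / c * (Hf Z.card - Hf (pe d S Z (J + 1)).card)) := by
        apply mul_le_mul_of_nonneg_left _ hGp
        split_ifs <;> linarith
      linarith

/-- The weights of all parts, final form. -/
lemma sum_wgt (d : ℕ) (c : ℝ) (hc : 1 ≤ c) (H : ℝ) (hH : Hf (Fintype.card (Fin N → A)) ≤ H)
    (S : Finset (Fin N)) (Z : Finset (Fin N → A)) (J : ℕ) :
    ∑ j ∈ Finset.range J, wgt d c S Z j ≤ (c * 2 ^ d) ^ (N - S.card) * (1 + H / c) := by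
  classical
  refine (sum_wgt_aux d c hc S Z J).trans ?_
  have hc0 : 0 < c := by linarith
  apply mul_le_mul_of_nonneg_left _ (by positivity)
  have h1 : Hf Z.card ≤ H := (Hf_mono (Finset.card_le_univ Z)).trans hH
  have h2 := Hf_nonneg (pe d S Z J).card
  have h3 : 1 / c * (Hf Z.card - Hf (pe d S Z J).card) ≤ H / c := by
    rw [div_mul_eq_mul_div, one_mul]
    apply div_le_div_of_nonneg_right _ hc0.le
    linarith
  split_ifs
  · linarith
  · linarith

end Peeling

end Pool.Agent.T9h20
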