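import Mathlib
import Pool.Agent.T9h20.AllParts

/-!
The average-case claim for trees and the all-depth claim for refutation DAGs, in block space.
-/

namespace Pool.Agent.T9h20

open Finset

set_option linter.unusedSectionVars false
set_option linter.unusedVariables false

section All

variable {N : ℕ} {A : Type} [Fintype A] [DecidableEq A] [Inhabited A]

open Classical in
/-- The reduced configurations needed for `t ≤ D` steps. -/
noncomputable def cfgs (d : ℕ) (L : Finset ((Fin N → A) → Bool)) (D : ℕ) : Finset (Cfg N A) :=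
  (configs d L D).image (fun c => (c.1, c.2.1, c.2.2.1, c.2.2.2.1))

lemma cfgs_step {d D t : ℕ} {L : Finset ((Fin N → A) → Bool)} (ht : t ≤ D)
    {Y : Finset (Fin N → A)} {S : Finset (Fin N)} (hst : (Y, S) ∈ states d L t)
    {Q : (Fin N → A) → Bool} (hQ : Q ∈ L) (a : Bool) : (Y, S, S, splitY Y Q a) ∈ cfgs d L D := by
  classical
  unfold cfgs
  refine Finset.mem_image.2 ⟨(Y, S, S, splitY Y Q a, 0), ?_, rfl⟩
  unfold configs
  rw [Finset.mem_biUnion]
  refine ⟨t, Finset.mem_range.2 (by omega), ?_⟩
  rw [Finset.mem_union]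
  left
  rw [Finset.mem_image]
  refine ⟨((Y, S), (Q, (a, 0))), ?_, rfl⟩
  simp only [Finset.mem_product, Finset.mem_univ, Finset.mem_range, true_and]
  exact ⟨hst, hQ, by omega⟩

lemma cfgs_reset {d D t : ℕ} {L : Finset ((Fin N → A) → Bool)} (ht : t ≤ D)
    {Y : Finset (Fin N → A)} {S : Finset (Fin N)} (hst : (Y, S) ∈ states d L t)
    {Q : (Fin N → A) → Bool} (hQ : Q ∈ L) : (Y, S, ∅, splitY Finset.univ Q true) ∈ cfgs d L D := by
  classical
  unfold cfgs
  refine Finset.mem_image.2 ⟨(Y, S, ∅, splitY Finset.univ Q true, 0), ?_, rfl⟩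
  unfold configs
  rw [Finset.mem_biUnion]
  refine ⟨t, Finset.mem_range.2 (by omega), ?_⟩
  rw [Finset.mem_union]
  right
  rw [Finset.mem_image]
  refine ⟨((Y, S), (Q, 0)), ?_, rfl⟩
  simp only [Finset.mem_product, Finset.mem_range]
  exact ⟨hst, hQ, by omega⟩

lemma entries_congr {k : ℕ} {S R : Finset (Fin N)} {y z : Fin N → A} (h : ∀ i ∈ R, y i = z i) :
    entries k S R y = entries k S R z := by
  unfold entries
  apply Finset.image_congr
  intro V hV
  have hV' := (Finset.mem_powersetCard.1 (Finset.mem_filter.1 (Finset.mem_coe.1 hV)).1).1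
  have : mask V y = mask V z := mask_eq_iff.2 (fun i hi => h i (hV' hi))
  dsimp only
  rw [this]

/-- Bounding a sum over one side of a test by the sums over the good parts. -/
theorem parts_bound {d k N1 D : ℕ} {θ c H : ℝ} (hc : 1 ≤ c)
    (hH : Hf (Fintype.card (Fin N → A)) ≤ H)
    {F : (Finset (Fin N) × (Fin N → A)) → Bool} {L : Finset ((Fin N → A) → Bool)}
    (hfew : ∀ c ∈ cfgs d L D, FewBad d k N1 θ F c)
    {t : ℕ} (ht : t ≤ D) {Y : Finset (Fin N → A)} {S : Finset (Fin N)}
    (hst : (Y, S) ∈ states d L t) (hI : Inv d k N1 F Y S)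
    {Q : (Fin N → A) → Bool} (hQ : Q ∈ L) (a : Bool)
    (u v : (Fin N → A) → ℝ) (hu : ∀ y, u y ≤ 1) (hv : ∀ y, 0 ≤ v y) (B : ℝ)
    (hB : EE N N1 A ≤ B)
    (hgood : ∀ (P : Finset (Fin N → A)) (R : Finset (Fin N)), (P, R) ∈ states d L (t + 1) →
      Inv d k N1 F P R → P ⊆ splitY Y Q a →
      ∑ y ∈ P, u y ≤ ∑ y ∈ P, v y + B * (c * 2 ^ d) ^ (N - R.card)) :
    ∑ y ∈ splitY Y Q a, u y ≤ θ * Y.card + ∑ y ∈ splitY Y Q a, v y
      + B * ((c * 2 ^ d) ^ (N - S.card) * (1 + H / c)) := by
  classical
  obtain ⟨Z, hZ⟩ : ∃ Z, Z = splitY Y Q a := ⟨_, rfl⟩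
  rw [← hZ] at hgood ⊢
  have hZY : Z ⊆ Y := by rw [hZ]; exact Finset.filter_subset _ _
  have hE1 : (1 : ℝ) ≤ EE N N1 A := EE_one_le N N1
  have hB0 : 0 ≤ B := by linarith
  have hcfg : (Y, S, S, Z) ∈ cfgs d L D := by rw [hZ]; exact cfgs_step ht hst hQ a
  have hbad := hfew _ hcfg hI.dense hI.ne
  obtain ⟨Bd, hBd⟩ : ∃ Bd, Bd = badSet d k N1 F (Y, S, S, Z) := ⟨_, rfl⟩
  rw [← hBd] at hbad
  dsimp only at hbad
  have hG1 : 1 ≤ c * 2 ^ d := by
    have : (1 : ℝ) ≤ 2 ^ d := one_le_pow₀ (by norm_num)
    nlinarith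
  have hempty : pe d S Z Z.card = ∅ := pe_eventually_empty d S Z le_rfl
  have hSconst : ∀ z ∈ Z, ∀ z' ∈ Z, ∀ i ∈ S, z i = z' i :=
    fun z hz z' hz' i hi => hI.const z (hZY hz) z' (hZY hz') i hi
  have hone : ∀ j ∈ Finset.range Z.card, ∑ y ∈ cell d S (pe d S Z j), u y
      ≤ ∑ y ∈ cell d S (pe d S Z j), (if y ∈ Bd then (1 : ℝ) else 0)
        + ∑ y ∈ cell d S (pe d S Z j), v y + B * wgt d c S Z j := by
    intro j hj
    have hj' : j < Z.card := Finset.mem_range.1 hj
    have hv0 : 0 ≤ ∑ y ∈ cell d S (pe d S Z j), v y := Finset.sum_nonneg (fun y _ => hv y)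
    have hb0 : 0 ≤ ∑ y ∈ cell d S (pe d S Z j), (if y ∈ Bd then (1 : ℝ) else 0) := by
      apply Finset.sum_nonneg
      intro y _
      split_ifs <;> norm_num
    have hu1 : ∑ y ∈ cell d S (pe d S Z j), u y ≤ ((cell d S (pe d S Z j)).card : ℝ) := by
      calc ∑ y ∈ cell d S (pe d S Z j), u y ≤ ∑ y ∈ cell d S (pe d S Z j), (1 : ℝ) :=
            Finset.sum_le_sum (fun y _ => hu y)
        _ = _ := by rw [Finset.sum_const, nsmul_eq_mul, mul_one]
    by_cases hne : (pe d S Z j).Nonempty
    swap
    · have he : pe d S Z j = ∅ := Finset.not_nonempty_iff_eq_empty.1 hne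
      have hw : wgt d c S Z j = 0 := by unfold wgt; rw [if_neg hne]
      rw [hw, he, cell_empty]
      simp
    have hw : wgt d c S Z j = (c * 2 ^ d) ^ (N - (S ∪ pickT d S (pe d S Z j)).card) := by
      unfold wgt; rw [if_pos hne]
    have hw1 : 1 ≤ wgt d c S Z j := by rw [hw]; exact one_le_pow₀ hG1
    have hcellconst : ∀ z ∈ cell d S (pe d S Z j), ∀ z' ∈ cell d S (pe d S Z j),
        ∀ i ∈ S ∪ pickT d S (pe d S Z j), z i = z' i := by
      intro z hz z' hz' i hi
      rcases Finset.mem_union.1 hi with h | h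
      · exact hSconst z (pe_subset d S Z j (cell_subset d S _ hz)) z'
          (pe_subset d S Z j (cell_subset d S _ hz')) i h
      · exact cell_const d S _ hz hz' h
    by_cases hbig : N1 < (S ∪ pickT d S (pe d S Z j)).card
    · have h3 : ((cell d S (pe d S Z j)).card : ℝ) ≤ EE N N1 A :=
        cell_card_le_EE N1 _ _ hcellconst hbig
      have h4 : B ≤ B * wgt d c S Z j := le_mul_of_one_le_right hB0 hw1
      linarith
    push Not at hbig
    obtain ⟨y0, hy0⟩ := cell_nonempty d S (pe d S Z j) hne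
    have hy0Z : y0 ∈ Z := pe_subset d S Z j (cell_subset d S _ hy0)
    by_cases hgd : ∀ e ∈ entries k S (S ∪ pickT d S (pe d S Z j)) y0, F e = false
    · have hinv := partSt_inv (S' := S) (Z := Z) (j := j) hI hSconst hne hbig (hZY hy0Z) hy0 hgd
      have hsubZ : (partSt d S Z j).1 ⊆ Z := (cell_subset d S _).trans (pe_subset d S Z j)
      have hmem : ((partSt d S Z j).1, (partSt d S Z j).2) ∈ states d L (t + 1) := by
        rw [states, Finset.mem_image]
        refine ⟨((Y, S), (Q, (a, j))), ?_, by rw [← hZ]⟩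
        simp only [Finset.mem_product, Finset.mem_univ, Finset.mem_range, true_and]
        have := Finset.card_le_univ Z
        exact ⟨hst, hQ, by omega⟩
      have h5 := hgood _ _ hmem hinv hsubZ
      have h6 : (partSt d S Z j).1 = cell d S (pe d S Z j) := rfl
      have h7 : (partSt d S Z j).2 = S ∪ pickT d S (pe d S Z j) := rfl
      rw [h6, h7, ← hw] at h5
      linarith
    · push Not at hgd
      obtain ⟨e, he, hFe⟩ := hgd
      have hall : ∀ y ∈ cell d S (pe d S Z j), y ∈ Bd := by
        intro y hy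
        have hyZ : y ∈ Z := pe_subset d S Z j (cell_subset d S _ hy)
        rw [hBd]
        unfold badSet
        refine Finset.mem_filter.2 ⟨Finset.mem_inter.2 ⟨hZY hyZ, hyZ⟩, ?_, e, ?_, ?_⟩
        · dsimp only
          rw [Rf_cell d S Z j hy]
          exact hbig
        · dsimp only
          rw [Rf_cell d S Z j hy, entries_congr (fun i hi => hcellconst y hy y0 hy0 i hi)]
          exact he
        · simpa using hFe
      have h8 : ∑ y ∈ cell d S (pe d S Z j), (if y ∈ Bd then (1 : ℝ) else 0)
          = ((cell d S (pe d S Z j)).card : ℝ) := by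
        rw [Finset.sum_congr rfl (fun y hy => if_pos (hall y hy)), Finset.sum_const, nsmul_eq_mul,
          mul_one]
      rw [h8]
      have h9 : 0 ≤ B * wgt d c S Z j := mul_nonneg hB0 (by linarith)
      linarith
  have hsumu := sum_cells d S Z u Z.card
  have hsumv := sum_cells d S Z v Z.card
  have hsumb := sum_cells d S Z (fun y => if y ∈ Bd then (1 : ℝ) else 0) Z.card
  rw [hempty, Finset.sum_empty, add_zero] at hsumu hsumv hsumb
  have hbadle : ∑ y ∈ Z, (if y ∈ Bd then (1 : ℝ) else 0) ≤ θ * Y.card := by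
    refine le_trans ?_ hbad
    rw [← Finset.sum_filter, Finset.sum_const, nsmul_eq_mul, mul_one]
    have : Z.filter (fun y => y ∈ Bd) ⊆ Bd := by
      intro y hy
      exact (Finset.mem_filter.1 hy).2
    exact_mod_cast Finset.card_le_card this
  have hw := sum_wgt d c hc H hH S Z Z.card
  have hsum := Finset.sum_le_sum hone
  rw [← hsumu, Finset.sum_add_distrib, Finset.sum_add_distrib, ← hsumb, ← hsumv,
    ← Finset.mul_sum] at hsum
  have h10 : B * ∑ j ∈ Finset.range Z.card, wgt d c S Z j
      ≤ B * ((c * 2 ^ d) ^ (N - S.card) * (1 + H / c)) := mul_le_mul_of_nonneg_left hw hB0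
  linarith

/-- The average-case claim for trees. -/
theorem tree_avg {d k N1 D : ℕ} {θ c H σ : ℝ} (hθ : 0 ≤ θ) (hσ : 0 ≤ σ) (hc : 1 ≤ c)
    (hH : Hf (Fintype.card (Fin N → A)) ≤ H)
    {F : (Finset (Fin N) × (Fin N → A)) → Bool} {L : Finset ((Fin N → A) → Bool)}
    (hfew : ∀ c ∈ cfgs d L D, FewBad d k N1 θ F c) {Λ : Type}
    (Suc : Λ → (Fin N → A) → Prop) [∀ l y, Decidable (Suc l y)]
    (hSuc : ∀ c Y S, Inv d k N1 F Y S → ((Y.filter (fun y => Suc c y)).card : ℝ) ≤ σ * Y.card)
    (T : DTree (Fin N → A) Λ) :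
    ∀ (t : ℕ) (Y : Finset (Fin N → A)) (S : Finset (Fin N)), t + T.depth ≤ D →
      (Y, S) ∈ states d L t → Inv d k N1 F Y S → T.TestsIn (L : Set ((Fin N → A) → Bool)) →
      ((Y.filter (fun y => Suc (T.run y) y)).card : ℝ) ≤ (2 * θ * T.depth + σ) * Y.card
        + T.leaves * EE N N1 A * (1 + H / c) ^ T.depth * (c * 2 ^ d) ^ (N - S.card) := by
  have hE1 : (1 : ℝ) ≤ EE N N1 A := EE_one_le N N1
  have hc0 : 0 < c := by linarith
  have hH0 : 0 ≤ H := le_trans (Hf_nonneg _) hH
  have hq1 : 1 ≤ 1 + H / c := by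
    have : 0 ≤ H / c := by positivity
    linarith
  have hG0 : 0 < c * 2 ^ d := by positivity
  induction T with
  | leaf l =>
    intro t Y S _ _ hI _
    have h1 := hSuc l Y S hI
    have h2 : ((Y.filter (fun y => Suc ((DTree.leaf l : DTree (Fin N → A) Λ).run y) y)).card : ℝ)
        = ((Y.filter (fun y => Suc l y)).card : ℝ) := by
      congr 2
    rw [h2]
    have h3 : (0 : ℝ) ≤ (DTree.leaf l : DTree (Fin N → A) Λ).leaves * EE N N1 A
        * (1 + H / c) ^ (DTree.leaf l : DTree (Fin N → A) Λ).depth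
        * (c * 2 ^ d) ^ (N - S.card) := by positivity
    have h4 : (0 : ℝ) ≤ 2 * θ * (DTree.leaf l : DTree (Fin N → A) Λ).depth * Y.card := by positivity
    linarith
  | node Q t0 t1 ih0 ih1 =>
    intro t Y S htD hst hI htests
    obtain ⟨hQ, ht0, ht1⟩ := htests
    have hQ' : Q ∈ L := hQ
    have hdepth : DTree.depth (DTree.node Q t0 t1) = max t0.depth t1.depth + 1 := rfl
    rw [hdepth] at htD
    obtain ⟨m, hm⟩ : ∃ m, m = max t0.depth t1.depth := ⟨_, rfl⟩
    rw [← hm] at htD
    have key : ∀ (a : Bool) (ta : DTree (Fin N → A) Λ), ta.depth ≤ m →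
        ta.TestsIn (L : Set ((Fin N → A) → Bool)) →
        (∀ (t : ℕ) (Y : Finset (Fin N → A)) (S : Finset (Fin N)), t + ta.depth ≤ D →
          (Y, S) ∈ states d L t → Inv d k N1 F Y S →
          ta.TestsIn (L : Set ((Fin N → A) → Bool)) →
          ((Y.filter (fun y => Suc (ta.run y) y)).card : ℝ) ≤ (2 * θ * ta.depth + σ) * Y.card
            + ta.leaves * EE N N1 A * (1 + H / c) ^ ta.depth * (c * 2 ^ d) ^ (N - S.card)) →
        (((splitY Y Q a).filter (fun y => Suc (ta.run y) y)).card : ℝ)
          ≤ θ * Y.card + (2 * θ * m + σ) * (splitY Y Q a).card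
            + ta.leaves * EE N N1 A * (1 + H / c) ^ (m + 1) * (c * 2 ^ d) ^ (N - S.card) := by
      intro a ta hta htt ih
      have hlv : (1 : ℝ) ≤ ta.leaves := by exact_mod_cast DTree.one_le_leaves ta
      have hqm : 1 ≤ (1 + H / c) ^ m := one_le_pow₀ hq1
      have hpb := parts_bound hc hH hfew (by omega : t ≤ D) hst hI hQ' a
        (fun y => if Suc (ta.run y) y then (1 : ℝ) else 0) (fun _ => 2 * θ * m + σ)
        (by intro y; split_ifs <;> norm_num) (by intro y; positivity)
        (ta.leaves * EE N N1 A * (1 + H / c) ^ m) (by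
          calc EE N N1 A = 1 * EE N N1 A * 1 := by ring
            _ ≤ ta.leaves * EE N N1 A * (1 + H / c) ^ m := by
                apply mul_le_mul _ hqm (by norm_num) (by positivity)
                exact mul_le_mul_of_nonneg_right hlv (by linarith)) (by
          intro P R hPst hPI hPsub
          have h1 := ih (t + 1) P R (by omega) hPst hPI htt
          rw [← Finset.sum_filter, Finset.sum_const, nsmul_eq_mul, mul_one, Finset.sum_const,
            nsmul_eq_mul]
          refine h1.trans ?_
          have hm' : (ta.depth : ℝ) ≤ m := by exact_mod_cast hta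
          have h2 : (2 * θ * ta.depth + σ) * (P.card : ℝ) ≤ P.card * (2 * θ * m + σ) := by
            rw [mul_comm (P.card : ℝ)]
            apply mul_le_mul_of_nonneg_right _ (Nat.cast_nonneg _)
            have := mul_le_mul_of_nonneg_left hm' (by positivity : 0 ≤ 2 * θ)
            linarith
          have h3 : ta.leaves * EE N N1 A * (1 + H / c) ^ ta.depth * (c * 2 ^ d) ^ (N - R.card)
              ≤ ta.leaves * EE N N1 A * (1 + H / c) ^ m * (c * 2 ^ d) ^ (N - R.card) := by
            apply mul_le_mul_of_nonneg_right _ (by positivity)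
            apply mul_le_mul_of_nonneg_left _ (by positivity)
            exact pow_le_pow_right₀ hq1 hta
          linarith)
      rw [← Finset.sum_filter, Finset.sum_const, nsmul_eq_mul, mul_one, Finset.sum_const,
        nsmul_eq_mul] at hpb
      refine hpb.trans (le_of_eq ?_)
      rw [pow_succ]
      ring
    have k1 := key true t1 (by rw [hm]; exact le_max_right _ _) ht1 ih1
    have k0 := key false t0 (by rw [hm]; exact le_max_left _ _) ht0 ih0
    have hsum : ((splitY Y Q true).card : ℝ) + (splitY Y Q false).card = Y.card := by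
      have h1 : (splitY Y Q true).card + (splitY Y Q false).card = Y.card := by
        unfold splitY
        rw [← Finset.card_filter_add_card_filter_not (s := Y) (fun y => Q y = true)]
        congr 2
        ext y
        simp
      exact_mod_cast h1
    have hsplit : ((Y.filter (fun y => Suc ((DTree.node Q t0 t1).run y) y)).card : ℝ)
        = ((splitY Y Q true).filter (fun y => Suc (t1.run y) y)).card
          + ((splitY Y Q false).filter (fun y => Suc (t0.run y) y)).card := by
      have h1 : (Y.filter (fun y => Suc ((DTree.node Q t0 t1).run y) y)).card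
        = ((splitY Y Q true).filter (fun y => Suc (t1.run y) y)).card
          + ((splitY Y Q false).filter (fun y => Suc (t0.run y) y)).card := by
        rw [← Finset.card_filter_add_card_filter_not
          (s := Y.filter (fun y => Suc ((DTree.node Q t0 t1).run y) y)) (fun y => Q y = true)]
        unfold splitY
        have er1 : ∀ y, Q y = true → (DTree.node Q t0 t1).run y = t1.run y := by
          intro y h; simp [DTree.run, h]
        have er0 : ∀ y, ¬ Q y = true → (DTree.node Q t0 t1).run y = t0.run y := by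
          intro y h; simp [DTree.run, h]
        congr 2
        · ext y
          constructor
          · intro hy
            obtain ⟨hy1, h3⟩ := Finset.mem_filter.1 hy
            obtain ⟨h1, h2⟩ := Finset.mem_filter.1 hy1
            rw [er1 y h3] at h2
            exact Finset.mem_filter.2 ⟨Finset.mem_filter.2 ⟨h1, h3⟩, h2⟩
          · intro hy
            obtain ⟨hy1, h2⟩ := Finset.mem_filter.1 hy
            obtain ⟨h1, h3⟩ := Finset.mem_filter.1 hy1
            rw [← er1 y h3] at h2
            exact Finset.mem_filter.2 ⟨Finset.mem_filter.2 ⟨h1, h2⟩, h3⟩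
        · ext y
          constructor
          · intro hy
            obtain ⟨hy1, h3⟩ := Finset.mem_filter.1 hy
            obtain ⟨h1, h2⟩ := Finset.mem_filter.1 hy1
            rw [er0 y h3] at h2
            exact Finset.mem_filter.2 ⟨Finset.mem_filter.2 ⟨h1, by simpa using h3⟩, h2⟩
          · intro hy
            obtain ⟨hy1, h2⟩ := Finset.mem_filter.1 hy
            obtain ⟨h1, h3⟩ := Finset.mem_filter.1 hy1
            have h4 : ¬ Q y = true := by rw [h3]; simp
            rw [← er0 y h4] at h2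
            exact Finset.mem_filter.2 ⟨Finset.mem_filter.2 ⟨h1, h2⟩, h4⟩
      exact_mod_cast h1
    have hlv : ((DTree.node Q t0 t1).leaves : ℝ) = t0.leaves + t1.leaves := by
      have h1 : (DTree.node Q t0 t1).leaves = t0.leaves + t1.leaves := rfl
      rw [h1]
      push_cast
      ring
    rw [hsplit, hlv, hdepth, ← hm]
    push_cast
    have hfin : θ * Y.card + (2 * θ * m + σ) * (splitY Y Q true).card
            + t1.leaves * EE N N1 A * (1 + H / c) ^ (m + 1) * (c * 2 ^ d) ^ (N - S.card)
          + (θ * Y.card + (2 * θ * m + σ) * (splitY Y Q false).card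
            + t0.leaves * EE N N1 A * (1 + H / c) ^ (m + 1) * (c * 2 ^ d) ^ (N - S.card))
        = (2 * θ * (m + 1) + σ) * Y.card + (t0.leaves + t1.leaves) * EE N N1 A
          * (1 + H / c) ^ (m + 1) * (c * 2 ^ d) ^ (N - S.card) := by
      have h5 : ((splitY Y Q true).card : ℝ) = Y.card - (splitY Y Q false).card := by linarith
      rw [h5]
      ring
    linarith

end All

end Pool.Agent.T9h20
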