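import Mathlib
import Pool.Agent.T9h20.AllMain

/-!
The all-depth claim for refutation DAGs, in block space.
-/

namespace Pool.Agent.T9h20

open Finset

set_option linter.unusedSectionVars false
set_option linter.unusedVariables false

section AllDag

variable {N : ℕ} {A : Type} [Fintype A] [DecidableEq A] [Inhabited A]

open Classical in
/-- Elements of `X` whose canonical part is clean and has at most `N1` blocks. -/
noncomputable def cleanSet (d k N1 : ℕ) (F : (Finset (Fin N) × (Fin N → A)) → Bool)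
    (X : (Fin N → A) → Bool) : Finset (Fin N → A) :=
  (splitY Finset.univ X true).filter (fun y =>
    (Rf d ∅ (splitY Finset.univ X true) y).card ≤ N1 ∧
      GoodOn k F (Rf d ∅ (splitY Finset.univ X true) y) y)

/-- Elements of `X` whose canonical part has more than `N1` blocks. -/
noncomputable def exSet (d N1 : ℕ) (X : (Fin N → A) → Bool) : Finset (Fin N → A) :=
  (splitY Finset.univ X true).filter (fun y =>
    N1 < (Rf d ∅ (splitY Finset.univ X true) y).card)

lemma exSet_card (d N1 : ℕ) (X : (Fin N → A) → Bool) {c H : ℝ} (hc : 1 ≤ c)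
    (hH : Hf (Fintype.card (Fin N → A)) ≤ H) :
    ((exSet d N1 X).card : ℝ) ≤ EE N N1 A * ((c * 2 ^ d) ^ N * (1 + H / c)) := by
  classical
  obtain ⟨Z, hZ⟩ : ∃ Z, Z = splitY (Finset.univ : Finset (Fin N → A)) X true := ⟨_, rfl⟩
  unfold exSet
  rw [← hZ]
  have hE1 : (1 : ℝ) ≤ EE N N1 A := EE_one_le N N1
  have hG1 : 1 ≤ c * 2 ^ d := by
    have : (1 : ℝ) ≤ 2 ^ d := one_le_pow₀ (by norm_num)
    nlinarith
  have hsum := sum_cells d ∅ Z (fun y => if N1 < (Rf d ∅ Z y).card then (1 : ℝ) else 0) Z.card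
  rw [pe_eventually_empty d ∅ Z le_rfl, Finset.sum_empty, add_zero, ← Finset.sum_filter,
    Finset.sum_const, nsmul_eq_mul, mul_one] at hsum
  rw [hsum]
  have hone : ∀ j ∈ Finset.range Z.card,
      ∑ y ∈ cell d ∅ (pe d ∅ Z j), (if N1 < (Rf d ∅ Z y).card then (1 : ℝ) else 0)
        ≤ EE N N1 A * wgt d c ∅ Z j := by
    intro j _
    by_cases hne : (pe d ∅ Z j).Nonempty
    swap
    · have he : pe d ∅ Z j = ∅ := Finset.not_nonempty_iff_eq_empty.1 hne
      have hw : wgt d c ∅ Z j = 0 := by unfold wgt; rw [if_neg hne]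
      rw [hw, he, cell_empty]
      simp
    have hw : wgt d c ∅ Z j = (c * 2 ^ d) ^ (N - (∅ ∪ pickT d ∅ (pe d ∅ Z j)).card) := by
      unfold wgt; rw [if_pos hne]
    have hw1 : 1 ≤ wgt d c ∅ Z j := by rw [hw]; exact one_le_pow₀ hG1
    by_cases hbig : N1 < (∅ ∪ pickT d ∅ (pe d ∅ Z j)).card
    · have h3 : ((cell d ∅ (pe d ∅ Z j)).card : ℝ) ≤ EE N N1 A := by
        apply cell_card_le_EE N1 _ _ _ hbig
        intro z hz z' hz' i hi
        rw [Finset.empty_union] at hi
        exact cell_const d ∅ _ hz hz' hi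
      have h4 : ∑ y ∈ cell d ∅ (pe d ∅ Z j), (if N1 < (Rf d ∅ Z y).card then (1 : ℝ) else 0)
          ≤ ((cell d ∅ (pe d ∅ Z j)).card : ℝ) := by
        calc _ ≤ ∑ y ∈ cell d ∅ (pe d ∅ Z j), (1 : ℝ) := by
              apply Finset.sum_le_sum
              intro y _
              split_ifs <;> norm_num
          _ = _ := by rw [Finset.sum_const, nsmul_eq_mul, mul_one]
      have h5 : EE N N1 A ≤ EE N N1 A * wgt d c ∅ Z j := le_mul_of_one_le_right (by linarith) hw1
      linarith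
    · have h6 : ∑ y ∈ cell d ∅ (pe d ∅ Z j), (if N1 < (Rf d ∅ Z y).card then (1 : ℝ) else 0)
          = 0 := by
        apply Finset.sum_eq_zero
        intro y hy
        rw [Rf_cell d ∅ Z j hy, if_neg hbig]
      rw [h6]
      positivity
  have hw := sum_wgt d c hc H hH ∅ Z Z.card
  rw [Finset.card_empty, Nat.sub_zero] at hw
  calc _ ≤ ∑ j ∈ Finset.range Z.card, EE N N1 A * wgt d c ∅ Z j := Finset.sum_le_sum hone
    _ = EE N N1 A * ∑ j ∈ Finset.range Z.card, wgt d c ∅ Z j := by rw [Finset.mul_sum]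
    _ ≤ _ := mul_le_mul_of_nonneg_left hw (by linarith)

/-- A good state inside `X` is mostly inside the clean or exhausted canonical parts of `X`. -/
lemma terminal_mass {d k N1 D : ℕ} {θ : ℝ}
    {F : (Finset (Fin N) × (Fin N → A)) → Bool} {L : Finset ((Fin N → A) → Bool)}
    (hfew : ∀ c ∈ cfgs d L D, FewBad d k N1 θ F c) {t : ℕ} (ht : t ≤ D)
    {Y : Finset (Fin N → A)} {S : Finset (Fin N)} (hst : (Y, S) ∈ states d L t)
    (hI : Inv d k N1 F Y S) (X : (Fin N → A) → Bool) (hXL : X ∈ L) (hX : ∀ y ∈ Y, X y = true) :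
    (1 - θ) * (Y.card : ℝ) ≤ ((Y ∩ (cleanSet d k N1 F X ∪ exSet d N1 X)).card : ℝ) := by
  classical
  have hbad := hfew _ (cfgs_reset ht hst hXL) hI.dense hI.ne
  dsimp only at hbad
  obtain ⟨Bd, hBd⟩ : ∃ Bd, Bd = badSet d k N1 F (Y, S, ∅, splitY Finset.univ X true) := ⟨_, rfl⟩
  rw [← hBd] at hbad
  have hsub : Y ⊆ (Y ∩ (cleanSet d k N1 F X ∪ exSet d N1 X)) ∪ Bd := by
    intro y hy
    rw [Finset.mem_union]
    have hyZ : y ∈ splitY Finset.univ X true :=
      Finset.mem_filter.2 ⟨Finset.mem_univ _, hX y hy⟩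
    by_cases hex : N1 < (Rf d ∅ (splitY Finset.univ X true) y).card
    · left
      refine Finset.mem_inter.2 ⟨hy, Finset.mem_union_right _ ?_⟩
      exact Finset.mem_filter.2 ⟨hyZ, hex⟩
    push Not at hex
    by_cases hgd : GoodOn k F (Rf d ∅ (splitY Finset.univ X true) y) y
    · left
      refine Finset.mem_inter.2 ⟨hy, Finset.mem_union_left _ ?_⟩
      exact Finset.mem_filter.2 ⟨hyZ, hex, hgd⟩
    · right
      unfold GoodOn at hgd
      push Not at hgd
      obtain ⟨V, hVR, hVk, hFV⟩ := hgd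
      have hFV' : F (V, mask V y) = true := by simpa using hFV
      have hVS : ¬ V ⊆ S := by
        intro hVS
        have := hI.good y hy V hVS hVk
        rw [hFV'] at this
        exact absurd this (by simp)
      rw [hBd]
      unfold badSet
      refine Finset.mem_filter.2 ⟨Finset.mem_inter.2 ⟨hy, hyZ⟩, hex, (V, mask V y), ?_, hFV'⟩
      unfold entries
      refine Finset.mem_image.2 ⟨V, Finset.mem_filter.2 ⟨Finset.mem_powersetCard.2 ⟨hVR, hVk⟩,
        hVS⟩, rfl⟩
  have h1 := (Finset.card_le_card hsub).trans (Finset.card_union_le _ _)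
  have h2 : (Y.card : ℝ) ≤ ((Y ∩ (cleanSet d k N1 F X ∪ exSet d N1 X)).card : ℝ) + Bd.card := by
    exact_mod_cast h1
  linarith

/-- The claim after `h` steps. -/
theorem dag_claim2 {d k N1 D : ℕ} {θ c H : ℝ} (hθ : 0 ≤ θ) (hc : 1 ≤ c)
    (hH : Hf (Fintype.card (Fin N → A)) ≤ H)
    {F : (Finset (Fin N) × (Fin N → A)) → Bool} {L : Finset ((Fin N → A) → Bool)}
    (hfew : ∀ c ∈ cfgs d L D, FewBad d k N1 θ F c) {ι : Type}
    (X : ι → (Fin N → A) → Bool) (hXL : ∀ v, X v ∈ L) (rank : ι → ℕ)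
    (hdag : DagOK d k F X rank) (m : (Fin N → A) → ℝ) (hm : ∀ y, 0 ≤ m y) (h : ℕ) :
    ∀ (u : ι) (t : ℕ) (Y : Finset (Fin N → A)) (S : Finset (Fin N)), t + h ≤ D →
      (Y, S) ∈ states d L t → Inv d k N1 F Y S → (∀ y ∈ Y, X u y = true) →
      (∀ v, rank v + h ≤ rank u → ∀ t' ≤ D, ∀ (Y' : Finset (Fin N → A)) (S' : Finset (Fin N)),
        (Y', S') ∈ states d L t' → Inv d k N1 F Y' S' → (∀ y ∈ Y', X v y = true) →
        (1 - θ) * (Y'.card : ℝ) ≤ ∑ y ∈ Y', m y) →
      (1 - θ * (2 * h + 1)) * (Y.card : ℝ)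
        ≤ ∑ y ∈ Y, m y + 2 ^ h * EE N N1 A * (1 + H / c) ^ h * (c * 2 ^ d) ^ (N - S.card) := by
  classical
  have hE1 : (1 : ℝ) ≤ EE N N1 A := EE_one_le N N1
  have hc0 : 0 < c := by linarith
  have hH0 : 0 ≤ H := le_trans (Hf_nonneg _) hH
  have hq1 : 1 ≤ 1 + H / c := by
    have : 0 ≤ H / c := by positivity
    linarith
  have hG0 : 0 < c * 2 ^ d := by positivity
  induction h with
  | zero =>
    intro u t Y S htD hst hI hX hterm
    have h1 := hterm u (by omega) t (by omega) Y S hst hI hX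
    have h2 : (0 : ℝ) ≤ 2 ^ 0 * EE N N1 A * (1 + H / c) ^ 0 * (c * 2 ^ d) ^ (N - S.card) := by
      positivity
    have h3 : (1 - θ * (2 * ((0 : ℕ) : ℝ) + 1)) * (Y.card : ℝ) = (1 - θ) * Y.card := by
      push_cast; ring
    rw [h3]
    linarith
  | succ h ih =>
    intro u t Y S htD hst hI hX hterm
    rcases hdag.step u with ⟨E, hE1', hE2', hE3'⟩ | ⟨c1, c0, hr1, hr0, hcov⟩
    · exact absurd (leaf_false hI E hE1' hE2' (fun y hy => hE3' y (hX y hy))) id
    have key : ∀ (a : Bool) (cc : ι), rank cc < rank u →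
        (∀ y ∈ splitY Y (X c1) a, X cc y = true) →
        (1 - θ * (2 * h + 1)) * ((splitY Y (X c1) a).card : ℝ) ≤ θ * Y.card
          + ∑ y ∈ splitY Y (X c1) a, m y
          + 2 ^ h * EE N N1 A * (1 + H / c) ^ h * ((c * 2 ^ d) ^ (N - S.card) * (1 + H / c)) := by
      intro a cc hcc hXc
      have hpb := parts_bound hc hH hfew (by omega : t ≤ D) hst hI (hXL c1) a
        (fun _ => 1 - θ * (2 * h + 1)) m (by
          intro y
          have : 0 ≤ θ * (2 * h + 1) := by positivity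
          linarith) hm
        (2 ^ h * EE N N1 A * (1 + H / c) ^ h) (by
          calc EE N N1 A = 1 * EE N N1 A * 1 := by ring
            _ ≤ 2 ^ h * EE N N1 A * (1 + H / c) ^ h := by
                apply mul_le_mul _ (one_le_pow₀ hq1) (by norm_num) (by positivity)
                exact mul_le_mul_of_nonneg_right (one_le_pow₀ (by norm_num)) (by linarith)) (by
          intro P R hPst hPI hPsub
          have h1 := ih cc (t + 1) P R (by omega) hPst hPI (fun y hy => hXc y (hPsub hy))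
            (fun v hv => hterm v (by omega))
          rw [Finset.sum_const, nsmul_eq_mul, mul_comm (P.card : ℝ)]
          exact h1)
      rw [Finset.sum_const, nsmul_eq_mul, mul_comm ((splitY Y (X c1) a).card : ℝ)] at hpb
      exact hpb
    have k1 := key true c1 hr1 (by
      intro y hy
      exact (Finset.mem_filter.1 hy).2)
    have k0 := key false c0 hr0 (by
      intro y hy
      obtain ⟨hy1, hy2⟩ := Finset.mem_filter.1 hy
      rcases hcov y (hX y hy1) with h2 | h2
      · rw [h2] at hy2; exact absurd hy2 (by simp)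
      · exact h2)
    have hfilt : ∀ g : (Fin N → A) → ℝ, ∑ y ∈ splitY Y (X c1) true, g y
        + ∑ y ∈ splitY Y (X c1) false, g y = ∑ y ∈ Y, g y := by
      intro g
      unfold splitY
      rw [← Finset.sum_filter_add_sum_filter_not Y (fun y => X c1 y = true)]
      congr 2
      ext y
      simp
    have hsum : ((splitY Y (X c1) true).card : ℝ) + (splitY Y (X c1) false).card = Y.card := by
      have := hfilt (fun _ => 1)
      simpa using this
    have hsm := hfilt m
    have e1 : (1 - θ * (2 * ((h + 1 : ℕ) : ℝ) + 1)) * (Y.card : ℝ)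
        = (1 - θ * (2 * h + 1)) * ((splitY Y (X c1) true).card : ℝ)
          + (1 - θ * (2 * h + 1)) * ((splitY Y (X c1) false).card : ℝ) - 2 * θ * Y.card := by
      rw [← hsum]
      push_cast
      ring
    have e2 : 2 ^ (h + 1) * EE N N1 A * (1 + H / c) ^ (h + 1) * (c * 2 ^ d) ^ (N - S.card)
        = 2 ^ h * EE N N1 A * (1 + H / c) ^ h * ((c * 2 ^ d) ^ (N - S.card) * (1 + H / c))
          + 2 ^ h * EE N N1 A * (1 + H / c) ^ h * ((c * 2 ^ d) ^ (N - S.card) * (1 + H / c)) := by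
      rw [pow_succ, pow_succ]
      ring
    rw [e1, e2, ← hsm]
    linarith

/-- Each clean canonical part is a good initial state. -/
lemma clean_parts {d k N1 : ℕ} {F : (Finset (Fin N) × (Fin N → A)) → Bool}
    {L : Finset ((Fin N → A) → Bool)} (X : (Fin N → A) → Bool) (hXL : X ∈ L) {c H : ℝ}
    (hc : 1 ≤ c) (hH : Hf (Fintype.card (Fin N → A)) ≤ H) (α B : ℝ) (hB : 0 ≤ B)
    (m : (Fin N → A) → ℝ) (hm : ∀ y, 0 ≤ m y)
    (hgood : ∀ (P : Finset (Fin N → A)) (R : Finset (Fin N)), (P, R) ∈ states d L 0 →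
      Inv d k N1 F P R → (∀ y ∈ P, X y = true) →
      α * P.card ≤ ∑ y ∈ P, m y + B * (c * 2 ^ d) ^ (N - R.card)) :
    α * ((cleanSet d k N1 F X).card : ℝ) ≤ ∑ y ∈ cleanSet d k N1 F X, m y
      + B * ((c * 2 ^ d) ^ N * (1 + H / c)) := by
  classical
  obtain ⟨Z, hZ⟩ : ∃ Z, Z = splitY (Finset.univ : Finset (Fin N → A)) X true := ⟨_, rfl⟩
  have hcs : cleanSet d k N1 F X = Z.filter (fun y => (Rf d ∅ Z y).card ≤ N1 ∧
      GoodOn k F (Rf d ∅ Z y) y) := by
    unfold cleanSet
    rw [hZ]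
  have hG1 : 1 ≤ c * 2 ^ d := by
    have : (1 : ℝ) ≤ 2 ^ d := one_le_pow₀ (by norm_num)
    nlinarith
  have hone : ∀ j ∈ Finset.range Z.card,
      ∑ y ∈ cell d ∅ (pe d ∅ Z j), (if y ∈ cleanSet d k N1 F X then α else 0)
        ≤ ∑ y ∈ cell d ∅ (pe d ∅ Z j), (if y ∈ cleanSet d k N1 F X then m y else 0)
          + B * wgt d c ∅ Z j := by
    intro j hj
    have hj' : j < Z.card := Finset.mem_range.1 hj
    by_cases hne : (pe d ∅ Z j).Nonempty
    swap
    · have he : pe d ∅ Z j = ∅ := Finset.not_nonempty_iff_eq_empty.1 hne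
      have hw : wgt d c ∅ Z j = 0 := by unfold wgt; rw [if_neg hne]
      rw [hw, he, cell_empty]
      simp
    have hw : wgt d c ∅ Z j = (c * 2 ^ d) ^ (N - (∅ ∪ pickT d ∅ (pe d ∅ Z j)).card) := by
      unfold wgt; rw [if_pos hne]
    have hw1 : 1 ≤ wgt d c ∅ Z j := by rw [hw]; exact one_le_pow₀ hG1
    have hconst : ∀ z ∈ cell d ∅ (pe d ∅ Z j), ∀ z' ∈ cell d ∅ (pe d ∅ Z j),
        ∀ i ∈ ∅ ∪ pickT d ∅ (pe d ∅ Z j), z i = z' i := by
      intro z hz z' hz' i hi
      rw [Finset.empty_union] at hi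
      exact cell_const d ∅ _ hz hz' hi
    by_cases hclean : ∃ y0 ∈ cell d ∅ (pe d ∅ Z j), y0 ∈ cleanSet d k N1 F X
    · obtain ⟨y0, hy0, hy0c⟩ := hclean
      rw [hcs] at hy0c
      obtain ⟨_, hR0, hgd0⟩ := Finset.mem_filter.1 hy0c
      rw [Rf_cell d ∅ Z j hy0] at hR0 hgd0
      have hall : ∀ y ∈ cell d ∅ (pe d ∅ Z j), y ∈ cleanSet d k N1 F X := by
        intro y hy
        rw [hcs]
        refine Finset.mem_filter.2 ⟨pe_subset d ∅ Z j (cell_subset d ∅ _ hy), ?_, ?_⟩
        · rw [Rf_cell d ∅ Z j hy]; exact hR0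
        · rw [Rf_cell d ∅ Z j hy]
          intro V hV hVk
          have hmk : mask V y = mask V y0 :=
            mask_eq_iff.2 (fun i hi => hconst y hy y0 hy0 i (hV hi))
          rw [hmk]
          exact hgd0 V hV hVk
      have hinv : Inv d k N1 F (cell d ∅ (pe d ∅ Z j)) (∅ ∪ pickT d ∅ (pe d ∅ Z j)) := by
        refine ⟨cell_nonempty d ∅ _ hne, cell_dense d ∅ _ hne, hR0, hconst, ?_⟩
        intro y hy V hV hVk
        have hmk : mask V y = mask V y0 :=
          mask_eq_iff.2 (fun i hi => hconst y hy y0 hy0 i (hV hi))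
        rw [hmk]
        exact hgd0 V hV hVk
      have hmem : (cell d ∅ (pe d ∅ Z j), ∅ ∪ pickT d ∅ (pe d ∅ Z j)) ∈ states d L 0 := by
        rw [states, Finset.mem_insert]
        right
        rw [Finset.mem_image]
        refine ⟨(X, j), ?_, by rw [← hZ]; rfl⟩
        simp only [Finset.mem_product, Finset.mem_range]
        have := Finset.card_le_univ Z
        exact ⟨hXL, by omega⟩
      have h5 := hgood _ _ hmem hinv (by
        intro y hy
        have h6 : y ∈ Z := pe_subset d ∅ Z j (cell_subset d ∅ _ hy)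
        rw [hZ] at h6
        exact (Finset.mem_filter.1 h6).2)
      rw [← hw] at h5
      rw [Finset.sum_congr rfl (fun y hy => if_pos (hall y hy)),
        Finset.sum_congr rfl (fun y hy => if_pos (hall y hy)), Finset.sum_const, nsmul_eq_mul,
        mul_comm _ α]
      exact h5
    · push Not at hclean
      rw [Finset.sum_congr rfl (fun y hy => if_neg (hclean y hy)),
        Finset.sum_congr rfl (fun y hy => if_neg (hclean y hy)), Finset.sum_const_zero, zero_add]
      positivity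
  have hsum := Finset.sum_le_sum hone
  have hs1 := sum_cells d ∅ Z (fun y => if y ∈ cleanSet d k N1 F X then α else 0) Z.card
  have hs2 := sum_cells d ∅ Z (fun y => if y ∈ cleanSet d k N1 F X then m y else 0) Z.card
  rw [pe_eventually_empty d ∅ Z le_rfl, Finset.sum_empty, add_zero] at hs1 hs2
  rw [← hs1, Finset.sum_add_distrib, ← hs2, ← Finset.mul_sum, ← Finset.sum_filter,
    ← Finset.sum_filter] at hsum
  have hfe : Z.filter (fun y => y ∈ cleanSet d k N1 F X) = cleanSet d k N1 F X := by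
    ext y
    rw [Finset.mem_filter]
    constructor
    · exact fun h => h.2
    · intro h
      refine ⟨?_, h⟩
      rw [hcs] at h
      exact (Finset.mem_filter.1 h).1
  rw [hfe, Finset.sum_const, nsmul_eq_mul, mul_comm _ α] at hsum
  have hw := sum_wgt d c hc H hH ∅ Z Z.card
  rw [Finset.card_empty, Nat.sub_zero] at hw
  have := mul_le_mul_of_nonneg_left hw hB
  linarith

/-- One phase. -/
theorem dag_phase2 {d k N1 D : ℕ} {θ c H : ℝ} (hθ : 0 ≤ θ) (hc : 1 ≤ c)
    (hH : Hf (Fintype.card (Fin N → A)) ≤ H)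
    {F : (Finset (Fin N) × (Fin N → A)) → Bool} {L : Finset ((Fin N → A) → Bool)}
    (hfew : ∀ c ∈ cfgs d L D, FewBad d k N1 θ F c) {ι : Type} [Fintype ι]
    (X : ι → (Fin N → A) → Bool) (hXL : ∀ v, X v ∈ L) (rank : ι → ℕ)
    (hdag : DagOK d k F X rank) (h : ℕ) (hh : h ≤ D) (hθh : θ * (2 * h + 1) ≤ 1 / 4)
    (u : ι) (M : ℝ) (hM0 : 0 < M) (hM : M ≤ (cleanSet d k N1 F (X u)).card)
    (hbig : 2 ^ h * (EE N N1 A * (1 + H / c) ^ (D + 1) * (c * 2 ^ d) ^ N) ≤ M / 4) :
    ∃ v, rank v + h ≤ rank u ∧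
      M / (2 * Fintype.card ι) - EE N N1 A * (1 + H / c) ^ (D + 1) * (c * 2 ^ d) ^ N
        ≤ (cleanSet d k N1 F (X v)).card := by
  classical
  have hE1 : (1 : ℝ) ≤ EE N N1 A := EE_one_le N N1
  have hc0 : 0 < c := by linarith
  have hH0 : 0 ≤ H := le_trans (Hf_nonneg _) hH
  have hq1 : 1 ≤ 1 + H / c := by
    have : 0 ≤ H / c := by positivity
    linarith
  have hG0 : 0 < c * 2 ^ d := by positivity
  obtain ⟨VV, hVV⟩ : ∃ VV : Finset ι, VV = Finset.univ.filter (fun v => rank v + h ≤ rank u) :=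
    ⟨_, rfl⟩
  obtain ⟨m, hmdef⟩ : ∃ m : (Fin N → A) → ℝ, m = fun y => ∑ v ∈ VV,
    (if y ∈ cleanSet d k N1 F (X v) ∪ exSet d N1 (X v) then (1 : ℝ) else 0) := ⟨_, rfl⟩
  have hm : ∀ y, 0 ≤ m y := by
    intro y
    rw [hmdef]
    apply Finset.sum_nonneg
    intro v _
    split_ifs <;> norm_num
  have hmsum : ∀ Y' : Finset (Fin N → A), ∑ y ∈ Y', m y
      = ∑ v ∈ VV, ((Y' ∩ (cleanSet d k N1 F (X v) ∪ exSet d N1 (X v))).card : ℝ) := by
    intro Y'
    rw [hmdef]
    dsimp only
    rw [Finset.sum_comm]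
    apply Finset.sum_congr rfl
    intro v _
    rw [← Finset.sum_filter, Finset.sum_const, nsmul_eq_mul, mul_one, Finset.filter_mem_eq_inter]
  have hcp := clean_parts (X u) (hXL u) hc hH (1 - θ * (2 * h + 1))
    (2 ^ h * EE N N1 A * (1 + H / c) ^ h) (by positivity) m hm (by
      intro P R hst hI hPX
      exact dag_claim2 hθ hc hH hfew X hXL rank hdag m hm h u 0 P R (by omega) hst hI hPX (by
        intro v hv t' ht' Y' S' hst' hI' hX'
        refine (terminal_mass hfew ht' hst' hI' (X v) (hXL v) hX').trans ?_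
        rw [hmsum]
        exact Finset.single_le_sum
          (f := fun v => ((Y' ∩ (cleanSet d k N1 F (X v) ∪ exSet d N1 (X v))).card : ℝ))
          (fun v _ => Nat.cast_nonneg _)
          (by rw [hVV]; exact Finset.mem_filter.2 ⟨Finset.mem_univ _, hv⟩)))
  have h1 : (3 / 4 : ℝ) * M ≤ (1 - θ * (2 * h + 1)) * (cleanSet d k N1 F (X u)).card :=
    mul_le_mul (by linarith) hM hM0.le (by linarith)
  have h2 : 2 ^ h * EE N N1 A * (1 + H / c) ^ h * ((c * 2 ^ d) ^ N * (1 + H / c)) ≤ M / 4 := by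
    refine le_trans ?_ hbig
    have e1 : 2 ^ h * EE N N1 A * (1 + H / c) ^ h * ((c * 2 ^ d) ^ N * (1 + H / c))
        = 2 ^ h * (EE N N1 A * (1 + H / c) ^ (h + 1) * (c * 2 ^ d) ^ N) := by
      rw [pow_succ]; ring
    rw [e1]
    apply mul_le_mul_of_nonneg_left _ (by positivity)
    apply mul_le_mul_of_nonneg_right _ (by positivity)
    apply mul_le_mul_of_nonneg_left _ (by linarith)
    exact pow_le_pow_right₀ hq1 (by omega)
  have h3 : M / 2 ≤ ∑ v ∈ VV, (((cleanSet d k N1 F (X v)).card : ℝ) + (exSet d N1 (X v)).card) := by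
    have h4 : ∑ y ∈ cleanSet d k N1 F (X u), m y
        ≤ ∑ v ∈ VV, (((cleanSet d k N1 F (X v)).card : ℝ) + (exSet d N1 (X v)).card) := by
      rw [hmsum]
      apply Finset.sum_le_sum
      intro v _
      have h5 := (Finset.card_le_card (Finset.inter_subset_right :
        cleanSet d k N1 F (X u) ∩ (cleanSet d k N1 F (X v) ∪ exSet d N1 (X v)) ⊆ _)).trans
          (Finset.card_union_le _ _)
      exact_mod_cast h5
    linarith
  have hVne : VV.Nonempty := by
    by_contra hcon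
    rw [Finset.not_nonempty_iff_eq_empty] at hcon
    rw [hcon, Finset.sum_empty] at h3
    linarith
  obtain ⟨v, hv, hvmax⟩ := Finset.exists_max_image VV
    (fun v => (((cleanSet d k N1 F (X v)).card : ℝ) + (exSet d N1 (X v)).card)) hVne
  refine ⟨v, by rw [hVV] at hv; exact (Finset.mem_filter.1 hv).2, ?_⟩
  obtain ⟨val, hval⟩ : ∃ val : ℝ, val = ((cleanSet d k N1 F (X v)).card : ℝ)
    + (exSet d N1 (X v)).card := ⟨_, rfl⟩
  have hval0 : 0 ≤ val := by rw [hval]; exact add_nonneg (Nat.cast_nonneg _) (Nat.cast_nonneg _)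
  have hvmax' : ∀ v' ∈ VV, ((cleanSet d k N1 F (X v')).card : ℝ) + (exSet d N1 (X v')).card
      ≤ val := by
    intro v' hv'
    rw [hval]
    exact hvmax v' hv'
  have h5' : ∑ v ∈ VV, (((cleanSet d k N1 F (X v)).card : ℝ) + (exSet d N1 (X v)).card)
      ≤ VV.card * val := by
    have := Finset.sum_le_card_nsmul VV _ val hvmax'
    rwa [nsmul_eq_mul] at this
  have hcardVV : (VV.card : ℝ) ≤ Fintype.card ι := by exact_mod_cast Finset.card_le_univ VV
  have h6 : M / 2 ≤ Fintype.card ι * val :=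
    h3.trans (h5'.trans (mul_le_mul_of_nonneg_right hcardVV hval0))
  have hι : (0 : ℝ) < Fintype.card ι := by
    have : 0 < Fintype.card ι := Fintype.card_pos_iff.2 ⟨v⟩
    exact_mod_cast this
  have h7 : M / (2 * Fintype.card ι) ≤ val := by
    rw [div_le_iff₀ (by positivity)]
    linarith
  have h8 : ((exSet d N1 (X v)).card : ℝ)
      ≤ EE N N1 A * (1 + H / c) ^ (D + 1) * (c * 2 ^ d) ^ N := by
    refine (exSet_card d N1 (X v) hc hH).trans ?_
    have e2 : EE N N1 A * ((c * 2 ^ d) ^ N * (1 + H / c))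
        = EE N N1 A * (1 + H / c) ^ 1 * (c * 2 ^ d) ^ N := by ring
    rw [e2]
    apply mul_le_mul_of_nonneg_right _ (by positivity)
    apply mul_le_mul_of_nonneg_left _ (by linarith)
    exact pow_le_pow_right₀ hq1 (by omega)
  rw [hval] at h7
  linarith

end AllDag

end Pool.Agent.T9h20
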