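import Mathlib
import Pool.Agent.T9h20.Exist

/-!
Choice of parameters.
-/

namespace Pool.Agent.T9h20

open Finset

set_option linter.unusedSectionVars false
set_option linter.unusedVariables false

lemma exists_k (a : ℕ) (ha : 1 ≤ a) :
    ∃ k : ℕ, 1 ≤ k ∧ (8 * a * k : ℝ) * (1 - 1 / (2 * a)) ^ (k - 1) ≤ 1 := by
  have ha' : (1 : ℝ) ≤ a := by exact_mod_cast ha
  set r : ℝ := 1 - 1 / (2 * a) with hr
  have h1 : (1 : ℝ) / (2 * a) ≤ 1 / 2 := by
    apply one_div_le_one_div_of_le (by norm_num)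
    linarith
  have h2 : (0 : ℝ) < 1 / (2 * a) := by positivity
  have hr0 : 0 < r := by rw [hr]; linarith
  have hr1 : r < 1 := by rw [hr]; linarith
  have ht := tendsto_self_mul_const_pow_of_lt_one hr0.le hr1
  have ht2 : Filter.Tendsto (fun k : ℕ => (8 * a / r) * ((k : ℝ) * r ^ k)) Filter.atTop
      (nhds ((8 * a / r) * 0)) := ht.const_mul _
  rw [mul_zero] at ht2
  have hev := (ht2.eventually (gt_mem_nhds (by norm_num : (0 : ℝ) < 1))).and
    (Filter.eventually_ge_atTop 1)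
  obtain ⟨k, hk1, hk2⟩ := hev.exists
  refine ⟨k, hk2, ?_⟩
  have hpow : r ^ k = r * r ^ (k - 1) := by
    conv_lhs => rw [show k = (k - 1) + 1 by omega]
    rw [pow_succ]; ring
  rw [hpow] at hk1
  have : (8 * a * k : ℝ) * r ^ (k - 1) = (8 * a / r) * ((k : ℝ) * (r * r ^ (k - 1))) := by
    field_simp
  rw [this]
  exact hk1.le

lemma choose_ratio (N N1 k : ℕ) (h : N1 ≤ N) : N1.choose k * N ^ k ≤ N.choose k * N1 ^ k := by
  induction k with
  | zero => simp
  | succ k ih =>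
    have e1 : N1.choose (k + 1) * (k + 1) = N1.choose k * (N1 - k) := Nat.choose_succ_right_eq N1 k
    have e2 : N.choose (k + 1) * (k + 1) = N.choose k * (N - k) := Nat.choose_succ_right_eq N k
    have h3 : (N1 - k) * N ≤ (N - k) * N1 := by
      rcases Nat.lt_or_ge N1 k with hk | hk
      · rw [Nat.sub_eq_zero_of_le hk.le]; simp
      · obtain ⟨c, rfl⟩ := Nat.exists_eq_add_of_le hk
        obtain ⟨e, rfl⟩ := Nat.exists_eq_add_of_le h
        have : k + c + e - k = c + e := by omega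
        rw [this, Nat.add_sub_cancel_left]
        nlinarith
    have h4 : (N1.choose (k + 1) * N ^ (k + 1)) * (k + 1)
        ≤ (N.choose (k + 1) * N1 ^ (k + 1)) * (k + 1) := by
      calc (N1.choose (k + 1) * N ^ (k + 1)) * (k + 1)
          = (N1.choose (k + 1) * (k + 1)) * N ^ (k + 1) := by ring
        _ = (N1.choose k * N ^ k) * ((N1 - k) * N) := by rw [e1]; ring
        _ ≤ (N.choose k * N1 ^ k) * ((N - k) * N1) := Nat.mul_le_mul ih h3
        _ = (N.choose k * (N - k)) * N1 ^ (k + 1) := by ring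
        _ = (N.choose (k + 1) * (k + 1)) * N1 ^ (k + 1) := by rw [e2]
        _ = _ := by ring
    exact Nat.le_of_mul_le_mul_right h4 (Nat.succ_pos k)

lemma K_over_M (a k N N1 : ℕ) (ha : 2 ≤ a) (hk : 1 ≤ k) (hNa : a ≤ N) (hNk : k ≤ N)
    (hN1 : N1 = N - N / a)
    (hka : (8 * a * k : ℝ) * (1 - 1 / (2 * a)) ^ (k - 1) ≤ 1) :
    (8 * a * N : ℝ) * ((N1 - 1).choose (k - 1) : ℝ) ≤ N.choose k := by
  have hNpos : 0 < N := by omega
  have hdiv1 : 1 ≤ N / a := (Nat.one_le_div_iff (by omega)).2 hNa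
  have hdiv2 : N ≤ 2 * a * (N / a) := by
    have h1 := Nat.div_add_mod N a
    have h2 := Nat.mod_lt N (by omega : a > 0)
    nlinarith
  have hdivlt : N / a ≤ N / 2 := Nat.div_le_div_left ha (by norm_num)
  have hN1pos : 1 ≤ N1 := by omega
  have hN1N : N1 ≤ N := by omega
  have e1 : N1 * (N1 - 1).choose (k - 1) = N1.choose k * k := by
    have h := Nat.add_one_mul_choose_eq (N1 - 1) (k - 1)
    have h1 : N1 - 1 + 1 = N1 := by omega
    have h2 : k - 1 + 1 = k := by omega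
    rw [h1, h2] at h
    exact h
  have e2 := choose_ratio N N1 k hN1N
  have hN0 : (0 : ℝ) < N := by exact_mod_cast hNpos
  have hN10 : (0 : ℝ) < N1 := by exact_mod_cast hN1pos
  have ha0 : (0 : ℝ) < a := by
    have : (2 : ℝ) ≤ a := by exact_mod_cast ha
    linarith
  have e1' : (N1 : ℝ) * ((N1 - 1).choose (k - 1) : ℝ) = (N1.choose k : ℝ) * k := by
    exact_mod_cast e1
  have e2' : (N1.choose k : ℝ) * (N : ℝ) ^ k ≤ (N.choose k : ℝ) * (N1 : ℝ) ^ k := by
    exact_mod_cast e2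
  have hratio : (N1 : ℝ) ≤ (1 - 1 / (2 * a)) * N := by
    have h1 : (N1 : ℝ) = N - (N / a : ℕ) := by
      rw [hN1, Nat.cast_sub (by omega)]
    have h2 : (N : ℝ) ≤ 2 * a * (N / a : ℕ) := by exact_mod_cast hdiv2
    rw [h1]
    have h3 : (N : ℝ) / (2 * a) ≤ (N / a : ℕ) := by
      rw [div_le_iff₀ (by positivity)]
      linarith
    have h4 : (1 - 1 / (2 * a)) * (N : ℝ) = N - N / (2 * a) := by
      field_simp
    rw [h4]
    linarith
  set r : ℝ := 1 - 1 / (2 * a) with hr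
  have hr0 : 0 ≤ r := by
    rw [hr]
    have h1 : (1 : ℝ) / (2 * a) ≤ 1 := by
      rw [div_le_one (by positivity)]
      have : (2 : ℝ) ≤ a := by exact_mod_cast ha
      linarith
    linarith
  -- multiply the goal by N1 * N^k
  have hpos : (0 : ℝ) < (N : ℝ) ^ k := by positivity
  have hNsplit : (N : ℝ) ^ k = N * (N : ℝ) ^ (k - 1) := by
    conv_lhs => rw [show k = (k - 1) + 1 by omega]
    rw [pow_succ]; ring
  have hN1split : (N1 : ℝ) ^ k = N1 * (N1 : ℝ) ^ (k - 1) := by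
    conv_lhs => rw [show k = (k - 1) + 1 by omega]
    rw [pow_succ]; ring
  have hM0 : (0 : ℝ) ≤ N.choose k := Nat.cast_nonneg _
  -- N1 * K * N^k ≤ k * M * N1^k
  have h5 : (N1 : ℝ) * ((N1 - 1).choose (k - 1) : ℝ) * (N : ℝ) ^ k
      ≤ k * (N.choose k : ℝ) * (N1 : ℝ) ^ k := by
    rw [e1']
    have hk0 : (0 : ℝ) ≤ k := Nat.cast_nonneg _
    nlinarith
  -- K * N^k ≤ k * M * N1^(k-1)
  have h6 : ((N1 - 1).choose (k - 1) : ℝ) * (N : ℝ) ^ k
      ≤ k * (N.choose k : ℝ) * (N1 : ℝ) ^ (k - 1) := by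
    rw [hN1split] at h5
    have : (N1 : ℝ) * (((N1 - 1).choose (k - 1) : ℝ) * (N : ℝ) ^ k)
        ≤ N1 * (k * (N.choose k : ℝ) * (N1 : ℝ) ^ (k - 1)) := by
      calc (N1 : ℝ) * (((N1 - 1).choose (k - 1) : ℝ) * (N : ℝ) ^ k)
          = (N1 : ℝ) * ((N1 - 1).choose (k - 1) : ℝ) * (N : ℝ) ^ k := by ring
        _ ≤ k * (N.choose k : ℝ) * (N1 * (N1 : ℝ) ^ (k - 1)) := h5
        _ = _ := by ring
    exact le_of_mul_le_mul_left this hN10
  have h7 : (N1 : ℝ) ^ (k - 1) ≤ r ^ (k - 1) * (N : ℝ) ^ (k - 1) := by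
    rw [← mul_pow]
    exact pow_le_pow_left₀ hN10.le hratio _
  -- K * N ≤ k M r^(k-1)
  have h8 : ((N1 - 1).choose (k - 1) : ℝ) * N ≤ k * (N.choose k : ℝ) * r ^ (k - 1) := by
    have hpos2 : (0 : ℝ) < (N : ℝ) ^ (k - 1) := by positivity
    have : (((N1 - 1).choose (k - 1) : ℝ) * N) * (N : ℝ) ^ (k - 1)
        ≤ (k * (N.choose k : ℝ) * r ^ (k - 1)) * (N : ℝ) ^ (k - 1) := by
      calc (((N1 - 1).choose (k - 1) : ℝ) * N) * (N : ℝ) ^ (k - 1)
          = ((N1 - 1).choose (k - 1) : ℝ) * (N : ℝ) ^ k := by rw [hNsplit]; ring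
        _ ≤ k * (N.choose k : ℝ) * (N1 : ℝ) ^ (k - 1) := h6
        _ ≤ k * (N.choose k : ℝ) * (r ^ (k - 1) * (N : ℝ) ^ (k - 1)) :=
            mul_le_mul_of_nonneg_left h7 (by positivity)
        _ = _ := by ring
    exact le_of_mul_le_mul_right this hpos2
  calc (8 * a * N : ℝ) * ((N1 - 1).choose (k - 1) : ℝ)
      = 8 * a * (((N1 - 1).choose (k - 1) : ℝ) * N) := by ring
    _ ≤ 8 * a * (k * (N.choose k : ℝ) * r ^ (k - 1)) :=
        mul_le_mul_of_nonneg_left h8 (by positivity)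
    _ = (8 * a * k * r ^ (k - 1)) * N.choose k := by ring
    _ ≤ 1 * N.choose k := mul_le_mul_of_nonneg_right hka hM0
    _ = N.choose k := one_mul _

/-- Existence of a good predicate system. -/
theorem setup (a k n Lb D d' d b N N1 W : ℕ) (ha : 2 ≤ a) (hk : 1 ≤ k)
    (hka : (8 * a * k : ℝ) * (1 - 1 / (2 * a)) ^ (k - 1) ≤ 1)
    (hW : W = n + Lb + D + 4) (hd' : 128 * W ^ 4 ≤ 2 ^ d') (hd : d = 2 * d') (hb : b = a * d)
    (hNb : N * b ≤ n) (hNb2 : n ≤ 2 * N * b) (hNa : a ≤ N) (hNk : k ≤ N)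
    (hN1 : N1 = N - N / a) (hn : 1 ≤ n)
    (L : Finset ((Fin N → (Fin b → Bool)) → Bool)) (hL : L.card ≤ 2 ^ Lb) :
    ∃ F : (Finset (Fin N) × (Fin N → (Fin b → Bool))) → Bool,
      (∀ y : Fin N → (Fin b → Bool), ∃ V : Finset (Fin N), V.card = k ∧ F (V, mask V y) = true) ∧
      ∀ c ∈ configs d L D, SatFor d k N1 (1 / (8 * (D + 1))) F c := by
  have hM : 1 ≤ N.choose k := Nat.choose_pos hNk
  have hM0 : (0 : ℝ) < N.choose k := by exact_mod_cast hM
  have hNpos : 1 ≤ N := by omega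
  set p : ℝ := (2 : ℝ) ^ (-(2 * n : ℝ) / (N.choose k : ℝ)) with hp
  have hp0 : 0 < p := Real.rpow_pos_of_pos (by norm_num) _
  have hp1 : p ≤ 1 := by
    apply Real.rpow_le_one_of_one_le_of_nonpos (by norm_num)
    apply div_nonpos_of_nonpos_of_nonneg _ hM0.le
    have : (0 : ℝ) ≤ n := Nat.cast_nonneg _
    linarith
  have hpM : p ^ (N.choose k) = ((2 : ℝ) ^ (2 * n))⁻¹ := by
    rw [hp, ← Real.rpow_natCast, ← Real.rpow_mul (by norm_num), div_mul_cancel₀ _ hM0.ne',
      Real.rpow_neg (by norm_num)]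
    congr 1
    rw [← Real.rpow_natCast]
    congr 1
    push_cast
    ring
  set K := (N1 - 1).choose (k - 1) with hK
  have hpK : (p ^ K)⁻¹ ≤ 2 ^ d' := by
    have hKM := K_over_M a k N N1 ha hk hNa hNk hN1 hka
    rw [← hK] at hKM
    have h1 : (p ^ K)⁻¹ = (2 : ℝ) ^ ((2 * n * K : ℝ) / (N.choose k : ℝ)) := by
      rw [hp, ← Real.rpow_natCast, ← Real.rpow_mul (by norm_num), ← Real.rpow_neg (by norm_num)]
      congr 1
      ring
    rw [h1, ← Real.rpow_natCast]
    apply Real.rpow_le_rpow_of_exponent_le (by norm_num)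
    rw [div_le_iff₀ hM0]
    have h2 : (n : ℝ) ≤ 2 * N * (a * (2 * d')) := by
      have : n ≤ 2 * N * (a * (2 * d')) := by
        rw [hb, hd] at hNb2
        exact hNb2
      exact_mod_cast this
    have hK0 : (0 : ℝ) ≤ K := Nat.cast_nonneg _
    have hd0 : (0 : ℝ) ≤ d' := Nat.cast_nonneg _
    calc (2 * n * K : ℝ) ≤ 2 * (2 * N * (a * (2 * d'))) * K := by
          apply mul_le_mul_of_nonneg_right _ hK0
          linarith
      _ = d' * ((8 * a * N : ℝ) * K) := by ring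
      _ ≤ d' * N.choose k := mul_le_mul_of_nonneg_left hKM hd0
  set x : ℝ := (p ^ K)⁻¹ / 2 ^ d with hx
  have hx0 : 0 < x := by rw [hx]; positivity
  have hxle : x ≤ 1 / 2 ^ d' := by
    rw [hx, div_le_div_iff₀ (by positivity) (by positivity)]
    calc (p ^ K)⁻¹ * 2 ^ d' ≤ 2 ^ d' * 2 ^ d' := mul_le_mul_of_nonneg_right hpK (by positivity)
      _ = 1 * 2 ^ d := by rw [hd, ← pow_add]; ring_nf
  have hW4 : 4 ≤ W := by omega
  have h2d' : (128 : ℝ) * W ^ 4 ≤ 2 ^ d' := by exact_mod_cast hd'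
  have hbpos : 1 ≤ b := by
    by_contra hcon
    have : b = 0 := by omega
    rw [this] at hNb2
    omega
  have hNn : N ≤ n := by nlinarith
  have hNW : (N : ℝ) ≤ W := by
    have : N ≤ W := by omega
    exact_mod_cast this
  have hDW : (D + 1 : ℝ) ≤ W := by
    have : D + 1 ≤ W := by omega
    exact_mod_cast this
  have hN0 : (1 : ℝ) ≤ N := by exact_mod_cast hNpos
  have hWr : (4 : ℝ) ≤ W := by exact_mod_cast hW4
  have hNx : N * x ≤ 1 / 2 := by
    calc (N : ℝ) * x ≤ N * (1 / 2 ^ d') := mul_le_mul_of_nonneg_left hxle (by linarith)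
      _ ≤ W * (1 / (128 * W ^ 4)) := by
          apply mul_le_mul hNW _ (by positivity) (by linarith)
          exact one_div_le_one_div_of_le (by positivity) h2d'
      _ ≤ 1 / 2 := by
          rw [mul_one_div, div_le_div_iff₀ (by positivity) (by norm_num)]
          nlinarith [pow_le_pow_left₀ (by norm_num : (0:ℝ) ≤ 4) hWr 3]
  have hx1 : x ≤ 1 := by nlinarith
  have hη : (1 + x) ^ N - 1 ≤ 2 * N / 2 ^ d' := by
    have h1 : (1 + x) ^ N ≤ Real.exp (N * x) := by
      have h2 : 1 + x ≤ Real.exp x := by linarith [Real.add_one_le_exp x]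
      calc (1 + x) ^ N ≤ (Real.exp x) ^ N := pow_le_pow_left₀ (by linarith) h2 N
        _ = Real.exp (N * x) := by rw [← Real.exp_nat_mul]
    have h3 : Real.exp (N * x) ≤ 1 + 2 * (N * x) := by
      have h4 : 1 - N * x ≤ Real.exp (-(N * x)) := by
        have := Real.add_one_le_exp (-(N * x))
        linarith
      have h5 : 0 < 1 - N * x := by linarith
      have h6 : Real.exp (N * x) ≤ 1 / (1 - N * x) := by
        rw [Real.exp_neg] at h4
        rw [le_div_iff₀ h5]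
        have h7 := Real.exp_pos (N * x)
        calc Real.exp (N * x) * (1 - N * x) ≤ Real.exp (N * x) * (Real.exp (N * x))⁻¹ :=
              mul_le_mul_of_nonneg_left h4 h7.le
          _ = 1 := mul_inv_cancel₀ h7.ne'
      refine h6.trans ?_
      rw [div_le_iff₀ h5]
      have h8 : 0 ≤ N * x := by positivity
      nlinarith
    have h9 : 2 * (N * x) ≤ 2 * N / 2 ^ d' := by
      calc 2 * (N * x) ≤ 2 * (N * (1 / 2 ^ d')) := by
            apply mul_le_mul_of_nonneg_left _ (by norm_num)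
            exact mul_le_mul_of_nonneg_left hxle (by linarith)
        _ = _ := by ring
    linarith
  have hηpos : 0 < (1 + x) ^ N - 1 := by
    have h1 := one_add_mul_le_pow (by linarith : (-2 : ℝ) ≤ x) N
    have : 0 < N * x := by positivity
    linarith
  have hθpos : (0 : ℝ) < 1 / (8 * (D + 1)) := by positivity
  have hexp : 2 * (W : ℝ) ^ 2 ≤ (1 / (8 * (D + 1)) : ℝ) / (4 * ((1 + x) ^ N - 1)) := by
    rw [le_div_iff₀ (by positivity)]
    calc 2 * (W : ℝ) ^ 2 * (4 * ((1 + x) ^ N - 1))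
        ≤ 2 * (W : ℝ) ^ 2 * (4 * (2 * N / 2 ^ d')) := by
          apply mul_le_mul_of_nonneg_left _ (by positivity)
          linarith
      _ ≤ 2 * (W : ℝ) ^ 2 * (4 * (2 * W / (128 * W ^ 4))) := by
          apply mul_le_mul_of_nonneg_left _ (by positivity)
          apply mul_le_mul_of_nonneg_left _ (by norm_num)
          apply div_le_div₀ (by positivity) (by linarith) (by positivity) h2d'
      _ = 1 / (8 * W) := by
          field_simp
          ring
      _ ≤ 1 / (8 * (D + 1)) := by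
          apply one_div_le_one_div_of_le (by positivity)
          linarith
  have hcfg : ((configs d L D).card : ℝ) ≤ 2 ^ (W ^ 2) := by
    have h1 := configs_card d L D
    have hΩ : Fintype.card (Fin N → (Fin b → Bool)) = 2 ^ (b * N) := by
      rw [Fintype.card_fun, Fintype.card_fun, Fintype.card_bool, Fintype.card_fin,
        Fintype.card_fin, ← pow_mul]
    rw [hΩ] at h1
    have hB : 2 * L.card * (2 ^ (b * N) + 1) + 1 ≤ 2 ^ (Lb + n + 3) := by
      have h2 : 2 ^ (b * N) ≤ 2 ^ n := Nat.pow_le_pow_right (by norm_num) (by rw [mul_comm]; exact hNb)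
      have h3 : 1 ≤ 2 ^ n := Nat.one_le_two_pow
      have h4 : 1 ≤ 2 ^ Lb := Nat.one_le_two_pow
      calc 2 * L.card * (2 ^ (b * N) + 1) + 1 ≤ 2 * 2 ^ Lb * (2 ^ n + 2 ^ n) + 2 ^ Lb * 2 ^ n * 4 := by
            have h5 : 2 * L.card * (2 ^ (b * N) + 1) ≤ 2 * 2 ^ Lb * (2 ^ n + 2 ^ n) :=
              Nat.mul_le_mul (Nat.mul_le_mul_left 2 hL) (Nat.add_le_add h2 h3)
            have h6 : 1 ≤ 2 ^ Lb * 2 ^ n * 4 := by nlinarith [Nat.mul_le_mul h4 h3]
            omega
        _ = 2 ^ (Lb + n + 3) := by rw [pow_add, pow_add]; ring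
    have h7 : (configs d L D).card ≤ (D + 1) * (2 * (2 ^ (Lb + n + 3)) ^ (D + 2)) :=
      h1.trans (Nat.mul_le_mul_left _ (Nat.mul_le_mul_left _ (Nat.pow_le_pow_left hB _)))
    have h8 : D + 1 ≤ 2 ^ (D + 1) := Nat.lt_two_pow_self.le
    have h9 : (configs d L D).card ≤ 2 ^ (W ^ 2) := by
      refine h7.trans ?_
      calc (D + 1) * (2 * (2 ^ (Lb + n + 3)) ^ (D + 2))
          ≤ 2 ^ (D + 1) * (2 * (2 ^ (Lb + n + 3)) ^ (D + 2)) := Nat.mul_le_mul_right _ h8
        _ = 2 ^ ((D + 1) + (1 + (Lb + n + 3) * (D + 2))) := by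
            rw [← pow_mul, pow_add, pow_add]; ring
        _ ≤ 2 ^ (W ^ 2) := by
            apply Nat.pow_le_pow_right (by norm_num)
            rw [hW]
            nlinarith
    exact_mod_cast h9
  apply exists_F hp0 hp1 d k N1 hk hNpos _ hθpos x hx hx1 (configs d L D)
  have hfirst : (Fintype.card (Fin N → (Fin b → Bool)) : ℝ) * p ^ (N.choose k) ≤ 1 / 2 := by
    have hΩ : (Fintype.card (Fin N → (Fin b → Bool)) : ℝ) = 2 ^ (b * N) := by
      rw [Fintype.card_fun, Fintype.card_fun, Fintype.card_bool, Fintype.card_fin,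
        Fintype.card_fin, ← pow_mul]
      push_cast
      rfl
    rw [hΩ, hpM]
    have h1 : (2 : ℝ) ^ (b * N) ≤ 2 ^ n :=
      pow_le_pow_right₀ (by norm_num) (by rw [mul_comm]; exact hNb)
    have h2 : (2 : ℝ) ^ (2 * n) = 2 ^ n * 2 ^ n := by rw [two_mul, pow_add]
    have h3 : (2 : ℝ) ≤ 2 ^ n := by
      calc (2 : ℝ) = 2 ^ 1 := by norm_num
        _ ≤ 2 ^ n := pow_le_pow_right₀ (by norm_num) hn
    rw [h2]
    calc (2 : ℝ) ^ (b * N) * (2 ^ n * 2 ^ n)⁻¹ ≤ 2 ^ n * (2 ^ n * 2 ^ n)⁻¹ :=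
          mul_le_mul_of_nonneg_right h1 (by positivity)
      _ = (2 ^ n)⁻¹ := by
          rw [mul_inv, ← mul_assoc, mul_inv_cancel₀ (by positivity), one_mul]
      _ ≤ 1 / 2 := by
          rw [one_div]
          exact inv_anti₀ (by norm_num) h3
  have hsecond : ((configs d L D).card : ℝ)
      * Real.exp (-((1 / (8 * (D + 1)) : ℝ) / (4 * ((1 + x) ^ N - 1)))) < 1 / 2 := by
    have h1 : Real.exp (-((1 / (8 * (D + 1)) : ℝ) / (4 * ((1 + x) ^ N - 1))))
        ≤ Real.exp (-(2 * (W : ℝ) ^ 2)) := Real.exp_le_exp.2 (neg_le_neg hexp)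
    have h2 : (2 : ℝ) ^ (2 * W ^ 2) ≤ Real.exp (2 * (W : ℝ) ^ 2) := by
      have h3 : (2 : ℝ) ≤ Real.exp 1 := by linarith [Real.add_one_le_exp (1 : ℝ)]
      calc (2 : ℝ) ^ (2 * W ^ 2) ≤ (Real.exp 1) ^ (2 * W ^ 2) :=
            pow_le_pow_left₀ (by norm_num) h3 _
        _ = Real.exp (2 * (W : ℝ) ^ 2) := by
            rw [← Real.exp_nat_mul]
            congr 1
            push_cast
            ring
    have h4 : Real.exp (-(2 * (W : ℝ) ^ 2)) ≤ ((2 : ℝ) ^ (2 * W ^ 2))⁻¹ := by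
      rw [Real.exp_neg]
      exact inv_anti₀ (by positivity) h2
    calc ((configs d L D).card : ℝ)
          * Real.exp (-((1 / (8 * (D + 1)) : ℝ) / (4 * ((1 + x) ^ N - 1))))
        ≤ 2 ^ (W ^ 2) * ((2 : ℝ) ^ (2 * W ^ 2))⁻¹ :=
          mul_le_mul hcfg (h1.trans h4) (Real.exp_pos _).le (by positivity)
      _ = ((2 : ℝ) ^ (W ^ 2))⁻¹ := by
          rw [two_mul, pow_add, mul_inv, ← mul_assoc, mul_inv_cancel₀ (by positivity), one_mul]
      _ < 1 / 2 := by
          rw [one_div]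
          apply inv_strictAnti₀ (by norm_num)
          calc (2 : ℝ) = 2 ^ 1 := by norm_num
            _ < 2 ^ (W ^ 2) := by
                apply pow_lt_pow_right₀ (by norm_num)
                nlinarith
  linarith

end Pool.Agent.T9h20
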