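import Mathlib
import Pool.Agent.T9h20.AllDag
import Pool.Agent.T9h20.Params

/-!
Parameters for the all-parts arguments.
-/

namespace Pool.Agent.T9h20

open Finset

set_option linter.unusedSectionVars false
set_option linter.unusedVariables false

lemma cfgs_card {N : ℕ} {A : Type} [Fintype A] [DecidableEq A] [Inhabited A] (d : ℕ)
    (L : Finset ((Fin N → A) → Bool)) (D : ℕ) : (cfgs d L D).card ≤ (configs d L D).card := by
  classical
  unfold cfgs
  exact Finset.card_image_le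

lemma configs_card_le (n Lb D d b N W : ℕ) (hW : W = n + Lb + D + 4) (hNb : N * b ≤ n)
    (L : Finset ((Fin N → (Fin b → Bool)) → Bool)) (hL : L.card ≤ 2 ^ Lb) :
    (configs d L D).card ≤ 2 ^ (W ^ 2) := by
  have h1 := configs_card d L D
  have hΩ : Fintype.card (Fin N → (Fin b → Bool)) = 2 ^ (b * N) := by
    rw [Fintype.card_fun, Fintype.card_fun, Fintype.card_bool, Fintype.card_fin,
      Fintype.card_fin, ← pow_mul]
  rw [hΩ] at h1
  have hB : 2 * L.card * (2 ^ (b * N) + 1) + 1 ≤ 2 ^ (Lb + n + 3) := by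
    have h2 : 2 ^ (b * N) ≤ 2 ^ n := Nat.pow_le_pow_right (by norm_num) (by rw [mul_comm]; exact hNb)
    have h3 : 1 ≤ 2 ^ n := Nat.one_le_two_pow
    have h4 : 1 ≤ 2 ^ Lb := Nat.one_le_two_pow
    calc 2 * L.card * (2 ^ (b * N) + 1) + 1 ≤ 2 * 2 ^ Lb * (2 ^ n + 2 ^ n) + 2 ^ Lb * 2 ^ n * 4 := by
          have h5 : 2 * L.card * (2 ^ (b * N) + 1) ≤ 2 * 2 ^ Lb * (2 ^ n + 2 ^ n) :=
            Nat.mul_le_mul (Nat.mul_le_mul_left 2 hL) (Nat.add_le_add h2 h3)
          have h6 : 1 ≤ 2 ^ Lb * 2 ^ n * 4 := by nlinarith [Nat.mul_le_mul h4 h3]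
          omega
      _ = 2 ^ (Lb + n + 3) := by rw [pow_add, pow_add]; ring
  have h7 : (configs d L D).card ≤ (D + 1) * (2 * (2 ^ (Lb + n + 3)) ^ (D + 2)) :=
    h1.trans (Nat.mul_le_mul_left _ (Nat.mul_le_mul_left _ (Nat.pow_le_pow_left hB _)))
  have h8 : D + 1 ≤ 2 ^ (D + 1) := Nat.lt_two_pow_self.le
  refine h7.trans ?_
  calc (D + 1) * (2 * (2 ^ (Lb + n + 3)) ^ (D + 2))
      ≤ 2 ^ (D + 1) * (2 * (2 ^ (Lb + n + 3)) ^ (D + 2)) := Nat.mul_le_mul_right _ h8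
    _ = 2 ^ ((D + 1) + (1 + (Lb + n + 3) * (D + 2))) := by
        rw [← pow_mul, pow_add, pow_add]; ring
    _ ≤ 2 ^ (W ^ 2) := by
        apply Nat.pow_le_pow_right (by norm_num)
        rw [hW]
        nlinarith

/-- The ratio of the numbers of `k`-sets. -/
lemma choose_ratio_exp (a κ N N1 : ℕ) (ha : 1 ≤ a) (haN : a ≤ N) (hN1 : N1 = N - N / a) :
    ((N1.choose (2 * a * κ) : ℕ) : ℝ) * 2 ^ κ ≤ (N.choose (2 * a * κ) : ℕ) := by
  obtain ⟨k, hk⟩ : ∃ k, k = 2 * a * κ := ⟨_, rfl⟩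
  rw [← hk]
  have hNpos : 0 < N := by omega
  have hN0 : (0 : ℝ) < N := by exact_mod_cast hNpos
  have hdiv1 : 1 ≤ N / a := (Nat.one_le_div_iff (by omega)).2 haN
  have hdiv2 : N ≤ 2 * a * (N / a) := by
    have h1 := Nat.div_add_mod N a
    have h2 := Nat.mod_lt N (by omega : a > 0)
    nlinarith
  have hN1N : N1 ≤ N := by omega
  have e2 := choose_ratio N N1 k hN1N
  have e2' : (N1.choose k : ℝ) * (N : ℝ) ^ k ≤ (N.choose k : ℝ) * (N1 : ℝ) ^ k := by
    exact_mod_cast e2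
  have ha0 : (0 : ℝ) < a := by exact_mod_cast (by omega : 0 < a)
  have hN1r : (N1 : ℝ) ≤ N * (1 - 1 / (2 * a)) := by
    have h3 : (N1 : ℝ) = N - (N / a : ℕ) := by
      rw [hN1, Nat.cast_sub (Nat.div_le_self N a)]
    have h4 : (N : ℝ) ≤ 2 * a * (N / a : ℕ) := by exact_mod_cast hdiv2
    have h5 : (N : ℝ) / (2 * a) ≤ (N / a : ℕ) := by
      rw [div_le_iff₀ (by positivity)]
      linarith
    rw [h3]
    have h6 : (N : ℝ) * (1 - 1 / (2 * a)) = N - N / (2 * a) := by ring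
    rw [h6]
    linarith
  have hr0 : (0 : ℝ) ≤ 1 - 1 / (2 * a) := by
    have : (1 : ℝ) / (2 * a) ≤ 1 := by
      rw [div_le_one (by positivity)]
      have : (1 : ℝ) ≤ a := by exact_mod_cast ha
      linarith
    linarith
  have hpow : (N1 : ℝ) ^ k * 2 ^ κ ≤ (N : ℝ) ^ k := by
    have h7 : (N1 : ℝ) ^ k ≤ (N : ℝ) ^ k * (1 - 1 / (2 * a)) ^ k := by
      rw [← mul_pow]
      exact pow_le_pow_left₀ (Nat.cast_nonneg _) hN1r k
    have h8 : (1 - 1 / (2 * a) : ℝ) ^ k * 2 ^ κ ≤ 1 := by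
      have h9 : (1 - 1 / (2 * a) : ℝ) ^ (2 * a) * 2 ≤ 1 := by
        have h10 : (1 - 1 / (2 * a) : ℝ) ≤ Real.exp (-(1 / (2 * a))) := by
          have := Real.add_one_le_exp (-(1 / (2 * a : ℝ)))
          linarith
        have h11 : (1 - 1 / (2 * a) : ℝ) ^ (2 * a) ≤ Real.exp (-1) := by
          calc (1 - 1 / (2 * a) : ℝ) ^ (2 * a) ≤ (Real.exp (-(1 / (2 * a)))) ^ (2 * a) :=
                pow_le_pow_left₀ hr0 h10 _
            _ = Real.exp (-1) := by
                rw [← Real.exp_nat_mul]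
                congr 1
                push_cast
                field_simp
        have h12 : Real.exp (-1) * 2 ≤ 1 := by
          have h13 : (2 : ℝ) ≤ Real.exp 1 := by linarith [Real.add_one_le_exp (1 : ℝ)]
          have h14 : Real.exp (-1) * Real.exp 1 = 1 := by rw [← Real.exp_add]; simp
          nlinarith [Real.exp_pos (-1)]
        nlinarith [Real.exp_pos (-1)]
      rw [hk, pow_mul, ← mul_pow]
      exact pow_le_one₀ (mul_nonneg (pow_nonneg hr0 _) (by norm_num)) h9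
    calc (N1 : ℝ) ^ k * 2 ^ κ ≤ ((N : ℝ) ^ k * (1 - 1 / (2 * a)) ^ k) * 2 ^ κ :=
          mul_le_mul_of_nonneg_right h7 (by positivity)
      _ = (N : ℝ) ^ k * ((1 - 1 / (2 * a)) ^ k * 2 ^ κ) := by ring
      _ ≤ (N : ℝ) ^ k * 1 := mul_le_mul_of_nonneg_left h8 (by positivity)
      _ = _ := mul_one _
  have hNk : (0 : ℝ) < (N : ℝ) ^ k := by positivity
  have h15 : ((N1.choose k : ℝ) * 2 ^ κ) * (N : ℝ) ^ k ≤ (N.choose k : ℝ) * (N : ℝ) ^ k := by
    calc ((N1.choose k : ℝ) * 2 ^ κ) * (N : ℝ) ^ k = ((N1.choose k : ℝ) * (N : ℝ) ^ k) * 2 ^ κ := by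
          ring
      _ ≤ ((N.choose k : ℝ) * (N1 : ℝ) ^ k) * 2 ^ κ :=
          mul_le_mul_of_nonneg_right e2' (by positivity)
      _ = (N.choose k : ℝ) * ((N1 : ℝ) ^ k * 2 ^ κ) := by ring
      _ ≤ _ := mul_le_mul_of_nonneg_left hpow (Nat.cast_nonneg _)
  exact le_of_mul_le_mul_right h15 hNk

/-- Existence of a predicate system all of whose relevant parts are mostly clean. -/
theorem setup2 (a k n Lb D d b N N1 W : ℕ) (ha : 1 ≤ a) (hk : k = 2 * a * d)
    (hW : W = n + Lb + D + 4) (hd : 128 * W ^ 4 ≤ 2 ^ d)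
    (hNb : N * b ≤ n) (hNa : a ≤ N) (hNk : k ≤ N)
    (hN1 : N1 = N - N / a) (hn : 1 ≤ n)
    (L : Finset ((Fin N → (Fin b → Bool)) → Bool)) (hL : L.card ≤ 2 ^ Lb) :
    ∃ F : (Finset (Fin N) × (Fin N → (Fin b → Bool))) → Bool,
      (∀ y : Fin N → (Fin b → Bool), ∃ V : Finset (Fin N), V.card = k ∧ F (V, mask V y) = true) ∧
      ∀ c ∈ cfgs d L D, FewBad d k N1 (1 / (8 * (D + 1) ^ 2)) F c := by
  have hM : 1 ≤ N.choose k := Nat.choose_pos hNk
  have hM0 : (0 : ℝ) < N.choose k := by exact_mod_cast hM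
  have hNpos : 1 ≤ N := by omega
  have hn0 : (0 : ℝ) ≤ n := Nat.cast_nonneg _
  obtain ⟨p, hp⟩ : ∃ p : ℝ, p = (2 : ℝ) ^ (-(2 * n : ℝ) / (N.choose k : ℝ)) := ⟨_, rfl⟩
  have hp0 : 0 < p := by rw [hp]; exact Real.rpow_pos_of_pos (by norm_num) _
  have hp1 : p ≤ 1 := by
    rw [hp]
    apply Real.rpow_le_one_of_one_le_of_nonpos (by norm_num)
    apply div_nonpos_of_nonpos_of_nonneg _ hM0.le
    linarith
  have hpM : p ^ (N.choose k) = ((2 : ℝ) ^ (2 * n))⁻¹ := by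
    rw [hp, ← Real.rpow_natCast, ← Real.rpow_mul (by norm_num), div_mul_cancel₀ _ hM0.ne',
      Real.rpow_neg (by norm_num)]
    congr 1
    rw [← Real.rpow_natCast]
    congr 1
    push_cast
    ring
  have h1p : 1 - p ≤ 2 * n / (N.choose k : ℝ) := by
    have h1 : p = Real.exp (Real.log 2 * (-(2 * n : ℝ) / (N.choose k : ℝ))) := by
      rw [hp, Real.rpow_def_of_pos (by norm_num)]
    have h2 := Real.add_one_le_exp (Real.log 2 * (-(2 * n : ℝ) / (N.choose k : ℝ)))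
    rw [← h1] at h2
    have h3 : Real.log 2 ≤ 1 := by
      have := Real.log_two_lt_d9
      linarith
    have h4 : (0 : ℝ) ≤ 2 * n / (N.choose k : ℝ) := by positivity
    have h5 : Real.log 2 * (-(2 * n : ℝ) / (N.choose k : ℝ))
        = -(Real.log 2 * (2 * n / (N.choose k : ℝ))) := by ring
    rw [h5] at h2
    have h6 : Real.log 2 * (2 * n / (N.choose k : ℝ)) ≤ 1 * (2 * n / (N.choose k : ℝ)) :=
      mul_le_mul_of_nonneg_right h3 h4
    linarith
  have hratio := choose_ratio_exp a d N N1 ha hNa hN1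
  rw [← hk] at hratio
  have hW4 : 4 ≤ W := by omega
  have hWr : (4 : ℝ) ≤ W := by exact_mod_cast hW4
  have h2d : (128 : ℝ) * W ^ 4 ≤ 2 ^ d := by exact_mod_cast hd
  have hDW : (D + 1 : ℝ) ≤ W := by
    have : D + 1 ≤ W := by omega
    exact_mod_cast this
  have hnW : (n : ℝ) ≤ W := by
    have : n ≤ W := by omega
    exact_mod_cast this
  have hD0 : (0 : ℝ) < D + 1 := by positivity
  obtain ⟨θ, hθ⟩ : ∃ θ : ℝ, θ = 1 / (8 * (D + 1) ^ 2) := ⟨_, rfl⟩
  have hθ0 : 0 < θ := by rw [hθ]; positivity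
  have hsmall : 2 * (1 - p) * N1.choose k ≤ θ / 2 := by
    have h1 : 2 * (1 - p) * (N1.choose k : ℝ) ≤ 2 * (2 * n / (N.choose k : ℝ)) * N1.choose k :=
      mul_le_mul_of_nonneg_right (by linarith) (Nat.cast_nonneg _)
    have h2 : 2 * (2 * n / (N.choose k : ℝ)) * (N1.choose k : ℝ) ≤ 4 * n / 2 ^ d := by
      rw [le_div_iff₀ (by positivity)]
      calc 2 * (2 * n / (N.choose k : ℝ)) * (N1.choose k : ℝ) * 2 ^ d
          = 4 * n * (((N1.choose k : ℝ) * 2 ^ d) / (N.choose k : ℝ)) := by ring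
        _ ≤ 4 * n * 1 := by
            apply mul_le_mul_of_nonneg_left _ (by positivity)
            rw [div_le_one hM0]
            exact hratio
        _ = _ := mul_one _
    have h3 : 4 * n / 2 ^ d ≤ θ / 2 := by
      rw [hθ, div_le_div_iff₀ (by positivity) (by norm_num)]
      have h4 : (4 : ℝ) * n * 2 * (8 * (D + 1) ^ 2) ≤ 2 ^ d := by
        calc (4 : ℝ) * n * 2 * (8 * (D + 1) ^ 2) = 64 * ((n : ℝ) * ((D : ℝ) + 1) ^ 2) := by ring
          _ ≤ 64 * ((W : ℝ) * (W : ℝ) ^ 2) := by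
              apply mul_le_mul_of_nonneg_left _ (by norm_num)
              apply mul_le_mul hnW _ (by positivity) (by linarith)
              exact pow_le_pow_left₀ hD0.le hDW 2
          _ ≤ 128 * (W : ℝ) ^ 4 := by
              have h5 : (W : ℝ) * W ^ 2 ≤ W ^ 4 := by
                have : (W : ℝ) ^ 4 = W * (W * W ^ 2) := by ring
                rw [this]
                have h6 : (0 : ℝ) ≤ W * W ^ 2 := by positivity
                nlinarith
              nlinarith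
          _ ≤ 2 ^ d := h2d
      rw [div_mul_eq_mul_div, one_mul, le_div_iff₀ (by positivity)]
      exact h4
    linarith
  rw [← hθ]
  apply exists_F2 hp0 hp1 d k N1 θ hθ0.le (cfgs d L D)
  have hfirst : (Fintype.card (Fin N → (Fin b → Bool)) : ℝ) * p ^ (N.choose k) ≤ 1 / 2 := by
    have hΩ : (Fintype.card (Fin N → (Fin b → Bool)) : ℝ) = 2 ^ (b * N) := by
      rw [Fintype.card_fun, Fintype.card_fun, Fintype.card_bool, Fintype.card_fin,
        Fintype.card_fin, ← pow_mul]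
      push_cast
      rfl
    rw [hΩ, hpM]
    have h1 : (2 : ℝ) ^ (b * N) ≤ 2 ^ n :=
      pow_le_pow_right₀ (by norm_num) (by rw [mul_comm]; exact hNb)
    have h2 : (2 : ℝ) ^ (2 * n) = 2 ^ n * 2 ^ n := by rw [two_mul, pow_add]
    have h3 : (2 : ℝ) ≤ 2 ^ n := by
      calc (2 : ℝ) = 2 ^ 1 := by norm_num
        _ ≤ 2 ^ n := pow_le_pow_right₀ (by norm_num) hn
    rw [h2]
    calc (2 : ℝ) ^ (b * N) * (2 ^ n * 2 ^ n)⁻¹ ≤ 2 ^ n * (2 ^ n * 2 ^ n)⁻¹ :=
          mul_le_mul_of_nonneg_right h1 (by positivity)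
      _ = (2 ^ n)⁻¹ := by
          rw [mul_inv, ← mul_assoc, mul_inv_cancel₀ (by positivity), one_mul]
      _ ≤ 1 / 2 := by
          rw [one_div]
          exact inv_anti₀ (by norm_num) h3
  have hcfg : ((cfgs d L D).card : ℝ) ≤ 2 ^ (W ^ 2) := by
    exact_mod_cast (cfgs_card d L D).trans (configs_card_le n Lb D d b N W hW hNb L hL)
  have hexp : (2 : ℝ) ^ d * (2 * (1 - p) * N1.choose k - θ) ≤ -(2 * (W : ℝ) ^ 2) := by
    have h1 : (2 : ℝ) ^ d * (2 * (1 - p) * N1.choose k - θ) ≤ 2 ^ d * (-(θ / 2)) := by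
      apply mul_le_mul_of_nonneg_left _ (by positivity)
      linarith
    have h2 : 2 * (W : ℝ) ^ 2 ≤ 2 ^ d * (θ / 2) := by
      rw [hθ]
      have h3 : (2 : ℝ) ^ d * (1 / (8 * (D + 1) ^ 2) / 2) = 2 ^ d / (16 * (D + 1) ^ 2) := by
        field_simp
        ring
      rw [h3, le_div_iff₀ (by positivity)]
      calc 2 * (W : ℝ) ^ 2 * (16 * ((D : ℝ) + 1) ^ 2) ≤ 2 * (W : ℝ) ^ 2 * (16 * (W : ℝ) ^ 2) := by
            apply mul_le_mul_of_nonneg_left _ (by positivity)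
            apply mul_le_mul_of_nonneg_left _ (by norm_num)
            exact pow_le_pow_left₀ hD0.le hDW 2
        _ = 32 * (W : ℝ) ^ 4 := by ring
        _ ≤ 128 * (W : ℝ) ^ 4 := by
            have : (0 : ℝ) ≤ (W : ℝ) ^ 4 := by positivity
            linarith
        _ ≤ 2 ^ d := h2d
    linarith
  have hsecond : ((cfgs d L D).card : ℝ)
      * Real.exp (2 ^ d * (2 * (1 - p) * N1.choose k - θ)) < 1 / 2 := by
    have h1 : Real.exp (2 ^ d * (2 * (1 - p) * N1.choose k - θ))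
        ≤ Real.exp (-(2 * (W : ℝ) ^ 2)) := Real.exp_le_exp.2 hexp
    have h2 : (2 : ℝ) ^ (2 * W ^ 2) ≤ Real.exp (2 * (W : ℝ) ^ 2) := by
      have h3 : (2 : ℝ) ≤ Real.exp 1 := by linarith [Real.add_one_le_exp (1 : ℝ)]
      calc (2 : ℝ) ^ (2 * W ^ 2) ≤ (Real.exp 1) ^ (2 * W ^ 2) :=
            pow_le_pow_left₀ (by norm_num) h3 _
        _ = Real.exp (2 * (W : ℝ) ^ 2) := by
            rw [← Real.exp_nat_mul]
            congr 1
            push_cast
            ring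
    have h4 : Real.exp (-(2 * (W : ℝ) ^ 2)) ≤ ((2 : ℝ) ^ (2 * W ^ 2))⁻¹ := by
      rw [Real.exp_neg]
      exact inv_anti₀ (by positivity) h2
    calc ((cfgs d L D).card : ℝ)
          * Real.exp (2 ^ d * (2 * (1 - p) * N1.choose k - θ))
        ≤ 2 ^ (W ^ 2) * ((2 : ℝ) ^ (2 * W ^ 2))⁻¹ :=
          mul_le_mul hcfg (h1.trans h4) (Real.exp_pos _).le (by positivity)
      _ = ((2 : ℝ) ^ (W ^ 2))⁻¹ := by
          rw [two_mul, pow_add, mul_inv, ← mul_assoc, mul_inv_cancel₀ (by positivity), one_mul]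
      _ < 1 / 2 := by
          rw [one_div]
          apply inv_strictAnti₀ (by norm_num)
          calc (2 : ℝ) = 2 ^ 1 := by norm_num
            _ < 2 ^ (W ^ 2) := by
                apply pow_lt_pow_right₀ (by norm_num)
                nlinarith
  linarith

end Pool.Agent.T9h20
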