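import Mathlib
import Pool.Agent.T9h20.Core
import Pool.Agent.T9h20.Params

/-!
From block predicate systems to CNF formulas.
-/

namespace Pool.Agent.T9h20

open Finset

set_option linter.unusedSectionVars false
set_option linter.unusedVariables false

section Transfer

variable {n N b : ℕ}

/-- The variable holding bit `j` of block `i`. -/
def bitIdx (h : N * b ≤ n) (i : Fin N) (j : Fin b) : Fin n :=
  Fin.castLE h (finProdFinEquiv (i, j))

/-- The assignment to `n` variables given by a block assignment (`false` on leftover variables). -/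
def emb (n : ℕ) (y : Fin N → (Fin b → Bool)) (t : Fin n) : Bool :=
  if h : t.1 < N * b then
    y (finProdFinEquiv.symm (⟨t.1, h⟩ : Fin (N * b))).1
      (finProdFinEquiv.symm (⟨t.1, h⟩ : Fin (N * b))).2
  else false

lemma emb_bitIdx (h : N * b ≤ n) (y : Fin N → (Fin b → Bool)) (i : Fin N) (j : Fin b) :
    emb n y (bitIdx h i j) = y i j := by
  unfold emb
  have h1 : (bitIdx h i j).1 < N * b := by
    unfold bitIdx
    exact (finProdFinEquiv (i, j)).2
  rw [dif_pos h1]
  have h2 : (⟨(bitIdx h i j).1, h1⟩ : Fin (N * b)) = finProdFinEquiv (i, j) := by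
    apply Fin.ext
    rfl
  rw [h2, Equiv.symm_apply_apply]

/-- The clause excluding the pattern `z` on the blocks in `V`. -/
def entryClause (h : N * b ≤ n) (V : Finset (Fin N)) (z : Fin N → (Fin b → Bool)) : Clause n :=
  (V ×ˢ (Finset.univ : Finset (Fin b))).image (fun q => (bitIdx h q.1 q.2, !(z q.1 q.2)))

lemma entryClause_card (h : N * b ≤ n) (V : Finset (Fin N)) (z : Fin N → (Fin b → Bool)) :
    (entryClause h V z).card ≤ V.card * b := by
  unfold entryClause
  refine Finset.card_image_le.trans ?_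
  rw [Finset.card_product, Finset.card_univ, Fintype.card_fin]

lemma falsifies_entryClause (h : N * b ≤ n) (V : Finset (Fin N)) (z : Fin N → (Fin b → Bool))
    (x : Fin n → Bool) :
    Falsifies x (entryClause h V z) ↔ ∀ i ∈ V, ∀ j, x (bitIdx h i j) = z i j := by
  unfold Falsifies entryClause
  constructor
  · intro H i hi j
    have h1 := H (bitIdx h i j, !(z i j)) (Finset.mem_image.2
      ⟨(i, j), Finset.mem_product.2 ⟨hi, Finset.mem_univ _⟩, rfl⟩)
    dsimp only at h1
    cases hx : x (bitIdx h i j) <;> cases hz : z i j <;> simp_all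
  · intro H l hl
    obtain ⟨⟨i, j⟩, hq, rfl⟩ := Finset.mem_image.1 hl
    have h1 := H i (Finset.mem_product.1 hq).1 j
    dsimp only
    rw [h1]
    cases z i j <;> simp

/-- The set of forbidden entries of `F`. -/
def forbidden (k : ℕ) (F : (Finset (Fin N) × (Fin N → (Fin b → Bool))) → Bool) :
    Finset (Finset (Fin N) × (Fin N → (Fin b → Bool))) :=
  Finset.univ.filter (fun e => e.1.card = k ∧ F e = true ∧ mask e.1 e.2 = e.2)

lemma forbidden_card (k : ℕ) (hk : k ≤ N)
    (F : (Finset (Fin N) × (Fin N → (Fin b → Bool))) → Bool) :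
    (forbidden k F).card ≤ N ^ k * 2 ^ (b * k) := by
  classical
  have hsub : forbidden k F ⊆ ((Finset.univ : Finset (Fin N)).powersetCard k).biUnion
      (fun V => (Finset.univ.filter (fun z : Fin N → (Fin b → Bool) => mask V z = z)).image
        (fun z => (V, z))) := by
    intro e he
    obtain ⟨h1, h2, h3⟩ := (Finset.mem_filter.1 he).2
    rw [Finset.mem_biUnion]
    refine ⟨e.1, Finset.mem_powersetCard.2 ⟨Finset.subset_univ _, h1⟩, ?_⟩
    exact Finset.mem_image.2 ⟨e.2, Finset.mem_filter.2 ⟨Finset.mem_univ _, h3⟩, rfl⟩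
  refine (Finset.card_le_card hsub).trans ?_
  have hb := Finset.card_biUnion_le_card_mul ((Finset.univ : Finset (Fin N)).powersetCard k)
    (fun V => (Finset.univ.filter (fun z : Fin N → (Fin b → Bool) => mask V z = z)).image
        (fun z => (V, z))) (2 ^ (b * k)) (by
      intro V hV
      refine Finset.card_image_le.trans ?_
      have h1 := card_le_of_const (Finset.univ.filter
        (fun z : Fin N → (Fin b → Bool) => mask V z = z)) Vᶜ (by
          intro y hy y' hy' i hi
          have e1 := congrFun (Finset.mem_filter.1 hy).2 i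
          have e2 := congrFun (Finset.mem_filter.1 hy').2 i
          have hiV : i ∉ V := by simpa using hi
          rw [← e1, ← e2]
          simp [mask, hiV])
      have hVc := (Finset.mem_powersetCard.1 hV).2
      have h2 : N - Vᶜ.card = k := by
        rw [Finset.card_compl, Fintype.card_fin, hVc]
        omega
      rw [h2, Fintype.card_fun, Fintype.card_bool, Fintype.card_fin, ← pow_mul] at h1
      exact h1)
  refine hb.trans ?_
  apply Nat.mul_le_mul_right
  rw [Finset.card_powersetCard, Finset.card_univ, Fintype.card_fin]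
  exact Nat.choose_le_pow N k

/-- The CNF formula of a predicate system. -/
def cnfOf (h : N * b ≤ n) (k : ℕ) (F : (Finset (Fin N) × (Fin N → (Fin b → Bool))) → Bool) :
    CNF n := (forbidden k F).image (fun e => entryClause h e.1 e.2)

lemma cnfOf_card (h : N * b ≤ n) (k : ℕ) (hk : k ≤ N)
    (F : (Finset (Fin N) × (Fin N → (Fin b → Bool))) → Bool) :
    (cnfOf h k F).card ≤ N ^ k * 2 ^ (b * k) :=
  Finset.card_image_le.trans (forbidden_card k hk F)

lemma cnfOf_width (h : N * b ≤ n) (k : ℕ)
    (F : (Finset (Fin N) × (Fin N → (Fin b → Bool))) → Bool) :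
    ∀ C ∈ cnfOf h k F, C.card ≤ k * b := by
  intro C hC
  unfold cnfOf at hC
  obtain ⟨e, he, rfl⟩ := Finset.mem_image.1 hC
  have h1 := (Finset.mem_filter.1 he).2.1
  rw [← h1]
  exact entryClause_card h e.1 e.2

lemma mask_idem {A : Type} [Inhabited A] (V : Finset (Fin N)) (y : Fin N → A) :
    mask V (mask V y) = mask V y := by
  funext i
  by_cases hi : i ∈ V <;> simp [mask, hi]

lemma cnfOf_unsat (h : N * b ≤ n) (k : ℕ)
    (F : (Finset (Fin N) × (Fin N → (Fin b → Bool))) → Bool)
    (hF : ∀ y : Fin N → (Fin b → Bool), ∃ V : Finset (Fin N), V.card = k ∧ F (V, mask V y) = true) :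
    Unsat (cnfOf h k F) := by
  intro x
  set y : Fin N → (Fin b → Bool) := fun i j => x (bitIdx h i j) with hy
  obtain ⟨V, hV, hFV⟩ := hF y
  refine ⟨entryClause h V (mask V y), ?_, ?_⟩
  · unfold cnfOf
    refine Finset.mem_image.2 ⟨(V, mask V y), ?_, rfl⟩
    exact Finset.mem_filter.2 ⟨Finset.mem_univ _, hV, hFV, mask_idem V y⟩
  · rw [falsifies_entryClause]
    intro i hi j
    simp [mask, hi, hy]

/-- Falsity of clauses of `cnfOf` in block space. -/
lemma cnfOf_fals (h : N * b ≤ n) (k : ℕ)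
    (F : (Finset (Fin N) × (Fin N → (Fin b → Bool))) → Bool) (C : Clause n)
    (hC : C ∈ cnfOf h k F) :
    ∃ V : Finset (Fin N), ∃ z, V.card = k ∧ F (V, z) = true ∧
      ∀ y : Fin N → (Fin b → Bool), Falsifies (emb n y) C → mask V y = z := by
  unfold cnfOf at hC
  obtain ⟨e, he, rfl⟩ := Finset.mem_image.1 hC
  obtain ⟨h1, h2, h3⟩ := (Finset.mem_filter.1 he).2
  refine ⟨e.1, e.2, h1, h2, ?_⟩
  intro y hy
  rw [falsifies_entryClause] at hy
  rw [← h3, mask_eq_iff]
  intro i hi
  funext j
  rw [← hy i hi j, emb_bitIdx]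

end Transfer

/-! ### Pulling back and pruning trees -/

namespace DTree

variable {Ω Ω' Λ : Type}

/-- Pull back a tree along a map of inputs. -/
def comap (e : Ω' → Ω) : DTree Ω Λ → DTree Ω' Λ
  | leaf c => leaf c
  | node Q t0 t1 => node (fun y => Q (e y)) (t0.comap e) (t1.comap e)

lemma comap_leaves (e : Ω' → Ω) (T : DTree Ω Λ) : (T.comap e).leaves = T.leaves := by
  induction T with
  | leaf c => rfl
  | node Q t0 t1 ih0 ih1 => simp [comap, leaves, ih0, ih1]

lemma comap_run (e : Ω' → Ω) (T : DTree Ω Λ) (y : Ω') : (T.comap e).run y = T.run (e y) := by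
  induction T with
  | leaf c => rfl
  | node Q t0 t1 ih0 ih1 => simp [comap, run, ih0, ih1]

lemma comap_testsIn (e : Ω' → Ω) (T : DTree Ω Λ) (L : Set (Ω → Bool)) (hT : T.TestsIn L) :
    (T.comap e).TestsIn ((fun f : Ω → Bool => fun y => f (e y)) '' L) := by
  induction T with
  | leaf c => trivial
  | node Q t0 t1 ih0 ih1 =>
    obtain ⟨h1, h2, h3⟩ := hT
    exact ⟨⟨Q, h1, rfl⟩, ih0 h2, ih1 h3⟩

/-- The list of tests evaluated on input `x`, from the root to the leaf reached. -/
def testsOn : DTree Ω Λ → Ω → List (Ω → Bool)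
  | leaf _, _ => []
  | node Q t0 t1, x => Q :: (if Q x = true then t1.testsOn x else t0.testsOn x)

lemma comap_infoCount (e : Ω' → Ω) (T : DTree Ω Λ) : ∀ (Y' : Set Ω') (Y : Set Ω),
    (∀ y ∈ Y', e y ∈ Y) → ∀ y : Ω', (T.comap e).infoCount Y' y ≤ T.infoCount Y (e y) := by
  induction T with
  | leaf c => intro Y' Y _ y; simp [comap, infoCount]
  | node Q t0 t1 ih0 ih1 =>
    intro Y' Y hYY y
    simp only [comap, infoCount]
    apply Nat.add_le_add
    · by_cases h : (∃ y ∈ Y', Q (e y) = true) ∧ (∃ y ∈ Y', Q (e y) = false)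
      · obtain ⟨⟨u, hu, hu'⟩, ⟨w, hw, hw'⟩⟩ := h
        rw [if_pos ⟨⟨u, hu, hu'⟩, ⟨w, hw, hw'⟩⟩,
          if_pos ⟨⟨e u, hYY u hu, hu'⟩, ⟨e w, hYY w hw, hw'⟩⟩]
      · rw [if_neg h]
        exact Nat.zero_le _
    · by_cases h : Q (e y) = true
      · rw [if_pos h, if_pos h]
        exact ih1 {z ∈ Y' | Q (e z) = true} {z ∈ Y | Q z = true}
          (fun z hz => ⟨hYY z hz.1, hz.2⟩) y
      · rw [if_neg h, if_neg h]
        exact ih0 {z ∈ Y' | Q (e z) = false} {z ∈ Y | Q z = false}
          (fun z hz => ⟨hYY z hz.1, hz.2⟩) y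

/-- Prune a tree relative to a set `Y` of inputs: remove tests that are constant on the inputs of
`Y` reaching them. -/
noncomputable def prune (Y : Set Ω) : DTree Ω Λ → DTree Ω Λ
  | leaf c => leaf c
  | node Q t0 t1 =>
    open Classical in
    if ∀ y ∈ Y, Q y = true then t1.prune Y
    else if ∀ y ∈ Y, Q y = false then t0.prune Y
    else node Q (t0.prune {y ∈ Y | Q y = false}) (t1.prune {y ∈ Y | Q y = true})

lemma prune_leaves (T : DTree Ω Λ) : ∀ Y : Set Ω, (T.prune Y).leaves ≤ T.leaves := by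
  induction T with
  | leaf c => intro Y; exact le_rfl
  | node Q t0 t1 ih0 ih1 =>
    intro Y
    unfold prune
    split_ifs with h1 h2
    · have := ih1 Y
      have h3 : (node Q t0 t1).leaves = t0.leaves + t1.leaves := rfl
      omega
    · have := ih0 Y
      have h3 : (node Q t0 t1).leaves = t0.leaves + t1.leaves := rfl
      omega
    · exact Nat.add_le_add (ih0 _) (ih1 _)

lemma prune_testsIn (T : DTree Ω Λ) (L : Set (Ω → Bool)) :
    T.TestsIn L → ∀ Y : Set Ω, (T.prune Y).TestsIn L := by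
  induction T with
  | leaf c => intro _ Y; trivial
  | node Q t0 t1 ih0 ih1 =>
    rintro ⟨h1, h2, h3⟩ Y
    unfold prune
    split_ifs with h4 h5
    · exact ih1 h3 Y
    · exact ih0 h2 Y
    · exact ⟨h1, ih0 h2 _, ih1 h3 _⟩

lemma prune_run (T : DTree Ω Λ) : ∀ (Y : Set Ω) (y : Ω), y ∈ Y → (T.prune Y).run y = T.run y := by
  induction T with
  | leaf c => intro Y y _; rfl
  | node Q t0 t1 ih0 ih1 =>
    intro Y y hy
    unfold prune
    split_ifs with h4 h5
    · rw [ih1 Y y hy]
      simp [run, h4 y hy]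
    · rw [ih0 Y y hy]
      simp [run, h5 y hy]
    · by_cases hQ : Q y = true
      · simp only [run, hQ, if_true]
        exact ih1 _ y ⟨hy, hQ⟩
      · have hQ' : Q y = false := by simpa using hQ
        simp only [run, hQ']
        exact ih0 _ y ⟨hy, hQ'⟩

/-- On inputs of `Y` the pruned tree makes pairwise distinct tests, all made by the original tree,
and none constant on `Y`. -/
lemma prune_testsOn (T : DTree Ω Λ) : ∀ (Y : Set Ω) (y : Ω), y ∈ Y →
    ((T.prune Y).testsOn y).Nodup ∧ (∀ Q ∈ (T.prune Y).testsOn y, Q ∈ T.testsOn y ∧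
      (∃ z ∈ Y, Q z = true) ∧ (∃ z ∈ Y, Q z = false)) := by
  induction T with
  | leaf c => intro Y y _; simp [prune, testsOn]
  | node Q t0 t1 ih0 ih1 =>
    intro Y y hy
    unfold prune
    split_ifs with h4 h5
    · obtain ⟨a1, a2⟩ := ih1 Y y hy
      refine ⟨a1, fun Q' hQ' => ?_⟩
      obtain ⟨b1, b2⟩ := a2 Q' hQ'
      refine ⟨?_, b2⟩
      simp only [testsOn, h4 y hy, if_true]
      exact List.mem_cons_of_mem _ b1
    · obtain ⟨a1, a2⟩ := ih0 Y y hy
      refine ⟨a1, fun Q' hQ' => ?_⟩
      obtain ⟨b1, b2⟩ := a2 Q' hQ'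
      refine ⟨?_, b2⟩
      simp only [testsOn, h5 y hy]
      exact List.mem_cons_of_mem _ b1
    · push Not at h4 h5
      obtain ⟨z0, hz0, hz0'⟩ := h4
      obtain ⟨z1, hz1, hz1'⟩ := h5
      have hz0f : Q z0 = false := by simpa using hz0'
      have hz1t : Q z1 = true := by simpa using hz1'
      by_cases hQ : Q y = true
      · obtain ⟨a1, a2⟩ := ih1 {y ∈ Y | Q y = true} y ⟨hy, hQ⟩
        simp only [testsOn, hQ, if_true]
        refine ⟨?_, ?_⟩
        · rw [List.nodup_cons]
          refine ⟨?_, a1⟩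
          intro hmem
          obtain ⟨_, _, z, hz, hzf⟩ := a2 Q hmem
          rw [hz.2] at hzf
          exact absurd hzf (by simp)
        · intro Q' hQ'
          rcases List.mem_cons.1 hQ' with rfl | h
          · exact ⟨List.mem_cons_self, ⟨z1, hz1, hz1t⟩, ⟨z0, hz0, hz0f⟩⟩
          · obtain ⟨b1, ⟨z, hz, hzt⟩, ⟨w, hw, hwf⟩⟩ := a2 Q' h
            exact ⟨List.mem_cons_of_mem _ b1, ⟨z, hz.1, hzt⟩, ⟨w, hw.1, hwf⟩⟩
      · have hQ' : Q y = false := by simpa using hQ
        obtain ⟨a1, a2⟩ := ih0 {y ∈ Y | Q y = false} y ⟨hy, hQ'⟩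
        simp only [testsOn, hQ']
        refine ⟨?_, ?_⟩
        · rw [if_neg (by simp), List.nodup_cons]
          refine ⟨?_, a1⟩
          intro hmem
          obtain ⟨_, ⟨z, hz, hzt⟩, _⟩ := a2 Q hmem
          rw [hz.2] at hzt
          exact absurd hzt (by simp)
        · intro Q' hQ''
          rw [if_neg (by simp)] at hQ''
          rw [if_neg (by simp)]
          rcases List.mem_cons.1 hQ'' with rfl | h
          · exact ⟨List.mem_cons_self, ⟨z1, hz1, hz1t⟩, ⟨z0, hz0, hz0f⟩⟩
          · obtain ⟨b1, ⟨z, hz, hzt⟩, ⟨w, hw, hwf⟩⟩ := a2 Q' h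
            exact ⟨List.mem_cons_of_mem _ b1, ⟨z, hz.1, hzt⟩, ⟨w, hw.1, hwf⟩⟩

/-- Some input of `Y` follows a longest branch of the pruned tree. -/
lemma prune_depth (T : DTree Ω Λ) : ∀ (Y : Set Ω), Y.Nonempty →
    ∃ y ∈ Y, ((T.prune Y).testsOn y).length = (T.prune Y).depth := by
  induction T with
  | leaf c => rintro Y ⟨y, hy⟩; exact ⟨y, hy, rfl⟩
  | node Q t0 t1 ih0 ih1 =>
    intro Y hY
    unfold prune
    split_ifs with h4 h5
    · exact ih1 Y hY
    · exact ih0 Y hY
    · push Not at h4 h5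
      obtain ⟨z0, hz0, hz0'⟩ := h4
      obtain ⟨z1, hz1, hz1'⟩ := h5
      have hz0f : Q z0 = false := by simpa using hz0'
      have hz1t : Q z1 = true := by simpa using hz1'
      obtain ⟨y0, hy0, hl0⟩ := ih0 {y ∈ Y | Q y = false} ⟨z0, hz0, hz0f⟩
      obtain ⟨y1, hy1, hl1⟩ := ih1 {y ∈ Y | Q y = true} ⟨z1, hz1, hz1t⟩
      simp only [depth]
      rcases le_total (t0.prune {y ∈ Y | Q y = false}).depth
        (t1.prune {y ∈ Y | Q y = true}).depth with hle | hle
      · refine ⟨y1, hy1.1, ?_⟩
        rw [max_eq_right hle]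
        simp only [testsOn, hy1.2, if_true, List.length_cons]
        rw [hl1]
      · refine ⟨y0, hy0.1, ?_⟩
        rw [max_eq_left hle]
        simp only [testsOn, hy0.2, List.length_cons]
        rw [if_neg (by simp), hl0]

/-- The number of tests made by the pruned tree is the number of informative tests. -/
lemma prune_testsOn_length (T : DTree Ω Λ) : ∀ (Y : Set Ω) (y : Ω), y ∈ Y →
    ((T.prune Y).testsOn y).length = T.infoCount Y y := by
  induction T with
  | leaf c => intro Y y _; simp [prune, testsOn, infoCount]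
  | node Q t0 t1 ih0 ih1 =>
    intro Y y hy
    by_cases h4 : ∀ y ∈ Y, Q y = true
    · have hYeq : {y ∈ Y | Q y = true} = Y := by
        ext z
        exact ⟨fun h => h.1, fun h => ⟨h, h4 z h⟩⟩
      have hn : ¬ ((∃ y ∈ Y, Q y = true) ∧ (∃ y ∈ Y, Q y = false)) := by
        rintro ⟨_, z, hz, hzf⟩
        rw [h4 z hz] at hzf
        exact absurd hzf (by simp)
      unfold prune infoCount
      rw [if_pos h4, if_neg hn, if_pos (h4 y hy), hYeq, zero_add]
      exact ih1 Y y hy
    · by_cases h5 : ∀ y ∈ Y, Q y = false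
      · have hYeq : {y ∈ Y | Q y = false} = Y := by
          ext z
          exact ⟨fun h => h.1, fun h => ⟨h, h5 z h⟩⟩
        have hn : ¬ ((∃ y ∈ Y, Q y = true) ∧ (∃ y ∈ Y, Q y = false)) := by
          rintro ⟨⟨z, hz, hzt⟩, _⟩
          rw [h5 z hz] at hzt
          exact absurd hzt (by simp)
        have hQy : ¬ Q y = true := by rw [h5 y hy]; simp
        unfold prune infoCount
        rw [if_neg h4, if_pos h5, if_neg hn, if_neg hQy, hYeq, zero_add]
        exact ih0 Y y hy
      · have hp : (∃ y ∈ Y, Q y = true) ∧ (∃ y ∈ Y, Q y = false) := by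
          have h4' := h4
          have h5' := h5
          push Not at h4' h5'
          obtain ⟨z0, hz0, hz0'⟩ := h4'
          obtain ⟨z1, hz1, hz1'⟩ := h5'
          exact ⟨⟨z1, hz1, by simpa using hz1'⟩, ⟨z0, hz0, by simpa using hz0'⟩⟩
        unfold prune infoCount
        rw [if_neg h4, if_neg h5, if_pos hp]
        by_cases hQ : Q y = true
        · rw [if_pos hQ]
          simp only [testsOn, hQ, if_true, List.length_cons]
          rw [ih1 {y ∈ Y | Q y = true} y ⟨hy, hQ⟩]
          ring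
        · rw [if_neg hQ]
          have hQ' : Q y = false := by simpa using hQ
          simp only [testsOn, List.length_cons]
          rw [if_neg hQ, ih0 {y ∈ Y | Q y = false} y ⟨hy, hQ'⟩]
          ring

/-- If on every input of `Y` at most `L` informative tests are made, the pruned tree has depth
at most `L`. -/
lemma prune_depth_le (T : DTree Ω Λ) (Y : Set Ω) (hY : Y.Nonempty) (L : ℕ)
    (hT : ∀ y ∈ Y, T.infoCount Y y ≤ L) : (T.prune Y).depth ≤ L := by
  obtain ⟨y, hy, hl⟩ := T.prune_depth Y hY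
  rw [← hl, prune_testsOn_length T Y y hy]
  exact hT y hy

end DTree

end Pool.Agent.T9h20
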