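import Mathlib
import Pool.Agent.T9h20.Transfer

/-!
The search-tree theorem.
-/

namespace Pool.Agent.T9h20

open Finset

set_option linter.unusedSectionVars false
set_option linter.unusedVariables false

/-- The clause falsified exactly by `x`. -/
def pointClause {n : ℕ} (x : Fin n → Bool) : Clause n :=
  (Finset.univ : Finset (Fin n)).image (fun i => (i, !(x i)))

lemma falsifies_pointClause {n : ℕ} (x y : Fin n → Bool) :
    Falsifies y (pointClause x) ↔ y = x := by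
  unfold Falsifies pointClause
  constructor
  · intro h
    funext i
    have h1 := h (i, !(x i)) (Finset.mem_image.2 ⟨i, Finset.mem_univ _, rfl⟩)
    dsimp only at h1
    cases hy : y i <;> cases hx : x i <;> simp_all
  · rintro rfl l hl
    obtain ⟨i, _, rfl⟩ := Finset.mem_image.1 hl
    dsimp only
    cases y i <;> simp

/-- The CNF formula with all `2 ^ n` clauses of width `n`. -/
def fullCNF (n : ℕ) : CNF n := (Finset.univ : Finset (Fin n → Bool)).image pointClause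

lemma fullCNF_unsat (n : ℕ) : Unsat (fullCNF n) := by
  intro x
  exact ⟨pointClause x, Finset.mem_image.2 ⟨x, Finset.mem_univ _, rfl⟩,
    (falsifies_pointClause x x).2 rfl⟩

lemma fullCNF_card (n : ℕ) : (fullCNF n).card ≤ 2 ^ n := by
  unfold fullCNF
  refine Finset.card_image_le.trans ?_
  rw [Finset.card_univ, Fintype.card_fun, Fintype.card_bool, Fintype.card_fin]

lemma fullCNF_width (n : ℕ) : ∀ C ∈ fullCNF n, C.card ≤ n := by
  intro C hC
  obtain ⟨x, _, rfl⟩ := Finset.mem_image.1 hC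
  unfold pointClause
  refine Finset.card_image_le.trans ?_
  rw [Finset.card_univ, Fintype.card_fin]

lemma DTree.card_image_run {Ω Λ : Type} [Fintype Ω] [DecidableEq Λ] (T : DTree Ω Λ)
    (Y : Finset Ω) : (Y.image T.run).card ≤ T.leaves := by
  classical
  induction T generalizing Y with
  | leaf c =>
    have : Y.image (DTree.leaf c : DTree Ω Λ).run ⊆ {c} := by
      intro d hd
      obtain ⟨y, _, rfl⟩ := Finset.mem_image.1 hd
      simp [run]
    exact (Finset.card_le_card this).trans (by simp [leaves])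
  | node Q t0 t1 ih0 ih1 =>
    have hsub : Y.image (DTree.node Q t0 t1).run ⊆ Y.image t0.run ∪ Y.image t1.run := by
      intro d hd
      obtain ⟨y, hy, rfl⟩ := Finset.mem_image.1 hd
      rw [Finset.mem_union]
      unfold run
      by_cases h : Q y = true
      · right; rw [if_pos h]; exact Finset.mem_image_of_mem _ hy
      · left; rw [if_neg h]; exact Finset.mem_image_of_mem _ hy
    refine (Finset.card_le_card hsub).trans ((Finset.card_union_le _ _).trans ?_)
    exact Nat.add_le_add (ih0 Y) (ih1 Y)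

/-- The entries of the clauses of `cnfOf` in a given set of clauses. -/
lemma entries_of_clauses {n N b : ℕ} (h : N * b ≤ n) (k : ℕ)
    (F : (Finset (Fin N) × (Fin N → (Fin b → Bool))) → Bool) (ψ : CNF n) :
    ∃ E : Finset (Finset (Fin N) × (Fin N → (Fin b → Bool))), E.card ≤ ψ.card ∧
      (∀ e ∈ E, e.1.card = k ∧ F e = true) ∧
      ∀ y : Fin N → (Fin b → Bool), (∃ C ∈ ψ, C ∈ cnfOf h k F ∧ Falsifies (emb n y) C) →
        ∃ e ∈ E, mask e.1 y = e.2 := by
  classical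
  refine ⟨(ψ.filter (fun C => C ∈ cnfOf h k F)).attach.image (fun C =>
    ((cnfOf_fals h k F C.1 (Finset.mem_filter.1 C.2).2).choose,
      (cnfOf_fals h k F C.1 (Finset.mem_filter.1 C.2).2).choose_spec.choose)), ?_, ?_, ?_⟩
  · refine Finset.card_image_le.trans ?_
    rw [Finset.card_attach]
    exact Finset.card_filter_le _ _
  · intro e he
    obtain ⟨C, _, rfl⟩ := Finset.mem_image.1 he
    obtain ⟨h1, h2, _⟩ := (cnfOf_fals h k F C.1 (Finset.mem_filter.1 C.2).2).choose_spec.choose_spec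
    exact ⟨h1, h2⟩
  · rintro y ⟨C, hC, hCF, hCy⟩
    obtain ⟨_, _, h3⟩ := (cnfOf_fals h k F C hCF).choose_spec.choose_spec
    refine ⟨_, Finset.mem_image.2 ⟨⟨C, Finset.mem_filter.2 ⟨hC, hCF⟩⟩, Finset.mem_attach _ _, rfl⟩, ?_⟩
    exact h3 y hCy

/-- Arithmetic of the parameter `d'`. -/
lemma dprime_spec (W B : ℕ) (hW : 2 ≤ W) (hB : 2 ≤ B) (hWB : W ≤ B ^ 3) :
    128 * W ^ 4 ≤ 2 ^ (4 * Nat.clog 2 W + 7) ∧ 2 ^ (4 * Nat.clog 2 W + 7) ≤ B ^ 23 := by
  constructor
  · have h1 : W ≤ 2 ^ Nat.clog 2 W := Nat.le_pow_clog (by norm_num) W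
    calc 128 * W ^ 4 ≤ 128 * (2 ^ Nat.clog 2 W) ^ 4 :=
          Nat.mul_le_mul_left _ (Nat.pow_le_pow_left h1 4)
      _ = 2 ^ (4 * Nat.clog 2 W + 7) := by rw [← pow_mul, pow_add]; ring
  · have h2 : 2 ^ (Nat.clog 2 W - 1) < W := by
      have := Nat.pow_pred_clog_lt_self (b := 2) (by norm_num) (by omega : 1 < W)
      simpa using this
    have h3 : 1 ≤ Nat.clog 2 W := Nat.clog_pos (by norm_num) hW
    have h4 : 2 ^ Nat.clog 2 W ≤ 2 * W := by
      have : 2 ^ Nat.clog 2 W = 2 * 2 ^ (Nat.clog 2 W - 1) := by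
        rw [← pow_succ']
        congr 1
        omega
      rw [this]
      omega
    calc 2 ^ (4 * Nat.clog 2 W + 7) = 128 * (2 ^ Nat.clog 2 W) ^ 4 := by
          rw [← pow_mul, pow_add]; ring
      _ ≤ 128 * (2 * W) ^ 4 := Nat.mul_le_mul_left _ (Nat.pow_le_pow_left h4 4)
      _ = 2 ^ 11 * W ^ 4 := by ring
      _ ≤ B ^ 11 * (B ^ 3) ^ 4 :=
          Nat.mul_le_mul (Nat.pow_le_pow_left hB 11) (Nat.pow_le_pow_left hWB 4)
      _ = B ^ 23 := by ring

lemma univ_inv {N b d k N1 : ℕ} (hdb : d ≤ b) (hk : 1 ≤ k)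
    (F : (Finset (Fin N) × (Fin N → (Fin b → Bool))) → Bool) :
    Inv d k N1 F (Finset.univ : Finset (Fin N → (Fin b → Bool))) ∅ := by
  refine ⟨⟨fun _ => default, Finset.mem_univ _⟩, ?_, by simp, by simp, ?_⟩
  · intro I _ τ
    have h1 := card_le_of_const ((Finset.univ : Finset (Fin N → (Fin b → Bool))).filter
      (fun y => ∀ i ∈ I, y i = τ i)) I (by
        intro y hy y' hy' i hi
        rw [(Finset.mem_filter.1 hy).2 i hi, (Finset.mem_filter.1 hy').2 i hi])
    have hI : I.card ≤ N := by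
      have := Finset.card_le_univ I
      simpa using this
    rw [Fintype.card_fun, Fintype.card_bool, Fintype.card_fin, ← pow_mul] at h1
    rw [Finset.card_univ, Fintype.card_fun, Fintype.card_fun, Fintype.card_bool,
      Fintype.card_fin, Fintype.card_fin, ← pow_mul]
    calc _ ≤ 2 ^ (b * (N - I.card)) * 2 ^ (d * I.card) := Nat.mul_le_mul_right _ h1
      _ = 2 ^ (b * (N - I.card) + d * I.card) := by rw [pow_add]
      _ ≤ 2 ^ (b * N) := by
          apply Nat.pow_le_pow_right (by norm_num)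
          have h5 : b * (N - I.card) + b * I.card = b * N := by
            rw [← mul_add, Nat.sub_add_cancel hI]
          have := Nat.mul_le_mul_right I.card hdb
          omega
  · intro y _ V hV hVk
    exfalso
    rw [Finset.subset_empty.1 hV] at hVk
    simp at hVk
    omega

lemma half_le_pow (D h : ℕ) (hh : h ≤ D) :
    (3 : ℝ) / 4 ≤ (1 - 2 * (1 / (8 * (D + 1)))) ^ h := by
  have hD : (0 : ℝ) ≤ D := Nat.cast_nonneg _
  have h1 := one_add_mul_le_pow (a := -(2 * (1 / (8 * ((D : ℝ) + 1))))) (by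
    have : (1 : ℝ) / (8 * (D + 1)) ≤ 1 / 8 := by
      apply one_div_le_one_div_of_le (by norm_num)
      linarith
    linarith) h
  have h2 : (1 : ℝ) - 2 * (1 / (8 * (D + 1))) = 1 + -(2 * (1 / (8 * ((D : ℝ) + 1)))) := by ring
  rw [h2]
  refine le_trans ?_ h1
  have h3 : (h : ℝ) * (2 * (1 / (8 * ((D : ℝ) + 1)))) ≤ 1 / 4 := by
    have h4 : (h : ℝ) ≤ D := by exact_mod_cast hh
    have h5 : (2 * (1 / (8 * ((D : ℝ) + 1)))) = 1 / (4 * (D + 1)) := by
      field_simp; ring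
    rw [h5, mul_one_div, div_le_iff₀ (by positivity)]
    linarith
  linarith

/-- The exponent arithmetic shared by the theorems. -/
lemma exp_arith (ε : ℝ) (a d b n N : ℕ) (hεa : 8 ≤ ε * a) (ha3 : 3 ≤ a) (hb : b = a * d)
    (hd : 14 ≤ d) (hnlt : n ≤ (N + 1) * b) (hN : 2 * a ≤ N) :
    (1 - ε) * n + (1 + d * N + d * N : ℝ) ≤ b * N := by
  have e2 : (b : ℝ) = a * d := by rw [hb]; push_cast; ring
  have e3 : (n : ℝ) ≤ (N + 1) * b := by exact_mod_cast hnlt
  have e4 : (14 : ℝ) ≤ d := by exact_mod_cast hd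
  have e5 : (2 * a : ℝ) ≤ N := by exact_mod_cast hN
  have e6 : (3 : ℝ) ≤ a := by exact_mod_cast ha3
  have e7 : (0 : ℝ) ≤ n := Nat.cast_nonneg _
  have hdN : (14 * 6 : ℝ) ≤ d * N := by nlinarith
  by_cases hε1 : 1 ≤ ε
  · have h1 : (1 - ε) * n ≤ 0 := mul_nonpos_of_nonpos_of_nonneg (by linarith) e7
    have h2 : 3 * (d * N : ℝ) ≤ b * N := by
      rw [e2]
      have : (0 : ℝ) ≤ d * N := by positivity
      nlinarith
    linarith
  · push Not at hε1
    have h1 : (1 - ε) * n ≤ (1 - ε) * ((N + 1) * b) :=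
      mul_le_mul_of_nonneg_left e3 (by linarith)
    have h2 : ε * ((N + 1) * b) ≥ 8 * ((N + 1) * d) := by
      rw [e2]
      have : (0 : ℝ) ≤ (N + 1) * d := by positivity
      calc ε * ((N + 1) * (a * d)) = (ε * a) * ((N + 1) * d) := by ring
        _ ≥ 8 * ((N + 1) * d) := mul_le_mul_of_nonneg_right hεa this
    have h3 : (b : ℝ) ≤ d * N / 2 := by
      rw [e2]
      nlinarith
    have h4 : (1 - ε) * ((N + 1) * b) = N * b + b - ε * ((N + 1) * b) := by ring
    nlinarith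

/-- The main regime of the tree theorem. -/
lemma tree_regime (ε : ℝ) (hε : 0 < ε) (a k n L d' d b N N1 : ℕ) (hεa : 8 ≤ ε * a) (ha3 : 3 ≤ a)
    (hk : 1 ≤ k) (hd : d = 2 * d') (hb : b = a * d) (hd14 : 14 ≤ d)
    (hNb : N * b ≤ n) (hnlt : n ≤ (N + 1) * b) (hm0N : k + 2 * a ≤ N) (hN1 : N1 = N - N / a)
    (hLd : L < 2 ^ d) (𝓛 : Finset ((Fin n → Bool) → Bool))
    (F : (Finset (Fin N) × (Fin N → (Fin b → Bool))) → Bool)
    (hF2 : ∀ c ∈ configs d (𝓛.image (fun f => fun y : Fin N → (Fin b → Bool) => f (emb n y))) L,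
      SatFor d k N1 (1 / (8 * (L + 1))) F c)
    (T : DTree (Fin n → Bool) (CNF n)) (hTin : T.TestsIn (𝓛 : Set ((Fin n → Bool) → Bool)))
    (hTtests : ∀ x, T.infoCount Set.univ x ≤ L) (hTsolve : SolvesSearch (cnfOf hNb k F) L T) :
    (2 : ℝ) ^ ((1 - ε) * n) ≤ T.leaves := by
  classical
  have hdb : d ≤ b := by
    rw [hb]
    nlinarith
  obtain ⟨T', hT'⟩ : ∃ T', T' = (T.comap (emb n (N := N) (b := b))).prune Set.univ := ⟨_, rfl⟩
  have hdepth : T'.depth ≤ L := by
    rw [hT']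
    apply DTree.prune_depth_le _ _ ⟨fun _ => default, Set.mem_univ _⟩
    intro y _
    exact (DTree.comap_infoCount _ T Set.univ Set.univ (fun _ _ => Set.mem_univ _) y).trans
      (hTtests (emb n y))
  have hleaves : T'.leaves ≤ T.leaves := by
    rw [← DTree.comap_leaves (emb n (N := N) (b := b)) T, hT']
    exact DTree.prune_leaves _ _
  have hin : T'.TestsIn ((𝓛.image (fun f => fun y : Fin N → (Fin b → Bool) => f (emb n y)) :
      Finset _) : Set ((Fin N → (Fin b → Bool)) → Bool)) := by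
    have h1 := DTree.prune_testsIn _ _ (DTree.comap_testsIn (emb n (N := N) (b := b)) T _ hTin)
      Set.univ
    rw [Finset.coe_image, hT']
    exact h1
  have hθ : (0 : ℝ) < 1 / (8 * (L + 1)) := by positivity
  have hθ2 : (1 : ℝ) / (8 * (L + 1)) ≤ 1 / 2 := by
    apply one_div_le_one_div_of_le (by norm_num)
    have : (0 : ℝ) ≤ L := Nat.cast_nonneg _
    linarith
  have hcore := tree_core (by omega : 1 ≤ d) hθ hθ2 hF2
    (fun (ψ : CNF n) y => ψ.card ≤ L ∧ ∃ C ∈ ψ, C ∈ cnfOf hNb k F ∧ Falsifies (emb n y) C)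
    (by
      intro ψ
      by_cases hψ : ψ.card ≤ L
      · obtain ⟨E, h1, h2, h3⟩ := entries_of_clauses hNb k F ψ
        exact ⟨E, by omega, h2, fun y hy => h3 y hy.2⟩
      · exact ⟨∅, by simp, by simp, fun y hy => absurd hy.1 hψ⟩)
    T' 0 Finset.univ ∅ (by omega) (by
      rw [states]; exact Finset.mem_insert_self _ _) (univ_inv hdb hk F) hin
    (by
      intro y _
      rw [hT', DTree.prune_run _ _ _ (Set.mem_univ y), DTree.comap_run]
      exact hTsolve (emb n y))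
  have hpw := half_le_pow L T'.depth hdepth
  have hΩ : ((Finset.univ : Finset (Fin N → (Fin b → Bool))).card : ℝ) = 2 ^ (b * N) := by
    rw [Finset.card_univ, Fintype.card_fun, Fintype.card_fun, Fintype.card_bool,
      Fintype.card_fin, Fintype.card_fin, ← pow_mul]
    push_cast
    rfl
  have hbNa : b * (N / a) ≤ d * N := by
    have h1 : a * (N / a) ≤ N := Nat.mul_div_le N a
    calc b * (N / a) = d * (a * (N / a)) := by rw [hb]; ring
      _ ≤ d * N := Nat.mul_le_mul_left d h1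
  have hE : EE N N1 (Fin b → Bool) ≤ 2 ^ (d * N) := by
    unfold EE
    have h1 : N - N1 = N / a := by
      rw [hN1, Nat.sub_sub_self (Nat.div_le_self N a)]
    rw [h1, Fintype.card_fun, Fintype.card_bool, Fintype.card_fin]
    push_cast
    rw [← pow_mul]
    exact pow_le_pow_right₀ (by norm_num) hbNa
  rw [hΩ, Finset.card_empty, Nat.sub_zero] at hcore
  have hlv : (T'.leaves : ℝ) ≤ T.leaves := by exact_mod_cast hleaves
  have hbound : (2 : ℝ) ^ (b * N) ≤ T.leaves * 2 ^ (1 + d * N + d * N) := by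
    have h1 : (2 : ℝ) ^ (b * N) * (3 / 4) ≤ T.leaves * 2 ^ (d * N) * 2 ^ (d * N) := by
      calc (2 : ℝ) ^ (b * N) * (3 / 4)
          ≤ 2 ^ (b * N) * (1 - 2 * (1 / (8 * ((L : ℝ) + 1)))) ^ T'.depth :=
            mul_le_mul_of_nonneg_left hpw (by positivity)
        _ ≤ T'.leaves * EE N N1 (Fin b → Bool) * 2 ^ (d * N) := hcore
        _ ≤ T.leaves * 2 ^ (d * N) * 2 ^ (d * N) := by
            apply mul_le_mul_of_nonneg_right _ (by positivity)
            exact mul_le_mul hlv hE (by linarith [EE_one_le (A := Fin b → Bool) N N1])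
              (by positivity)
    calc (2 : ℝ) ^ (b * N) ≤ 2 * (2 ^ (b * N) * (3 / 4)) := by
          have : (0 : ℝ) < 2 ^ (b * N) := by positivity
          linarith
      _ ≤ 2 * (T.leaves * 2 ^ (d * N) * 2 ^ (d * N)) :=
          mul_le_mul_of_nonneg_left h1 (by norm_num)
      _ = _ := by rw [pow_add, pow_add]; ring
  have hexp := exp_arith ε a d b n N hεa ha3 hb hd14 hnlt (by omega)
  have hfin : (2 : ℝ) ^ ((1 - ε) * n) * 2 ^ (1 + d * N + d * N)
      ≤ T.leaves * 2 ^ (1 + d * N + d * N) := by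
    refine le_trans ?_ hbound
    rw [← Real.rpow_natCast 2 (1 + d * N + d * N), ← Real.rpow_add (by norm_num),
      ← Real.rpow_natCast 2 (b * N)]
    apply Real.rpow_le_rpow_of_exponent_le (by norm_num)
    push_cast
    exact hexp
  exact le_of_mul_le_mul_right hfin (by positivity)

/-- Size bounds. -/
lemma size_bounds (a k n B L d' d b N : ℕ) (hd : d = 2 * d') (hb : b = a * d)
    (hd2 : 2 ^ d' ≤ B ^ 23) (hB : 1 ≤ B) (hNB : N ≤ B) :
    N ^ k * 2 ^ (b * k) ≤ B ^ (46 * a * (k + 2 * a) + k) ∧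
    2 ^ (k * b) ≤ B ^ (46 * a * (k + 2 * a) + k) ∧
    (n ≤ (k + 2 * a) * b → 2 ^ n ≤ B ^ (46 * a * (k + 2 * a) + k)) := by
  have hpow : ∀ e : ℕ, (2 ^ d') ^ (2 * a * e) ≤ B ^ (46 * a * e) := by
    intro e
    calc (2 ^ d') ^ (2 * a * e) ≤ (B ^ 23) ^ (2 * a * e) := Nat.pow_le_pow_left hd2 _
      _ = B ^ (46 * a * e) := by rw [← pow_mul]; congr 1; ring
  have hk1 : 2 ^ (k * b) ≤ B ^ (46 * a * k) := by
    calc 2 ^ (k * b) = (2 ^ d') ^ (2 * a * k) := by
          rw [← pow_mul, hb, hd]; congr 1; ring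
      _ ≤ B ^ (46 * a * k) := hpow k
  refine ⟨?_, ?_, ?_⟩
  · calc N ^ k * 2 ^ (b * k) ≤ B ^ k * B ^ (46 * a * k) := by
          apply Nat.mul_le_mul (Nat.pow_le_pow_left hNB k)
          rw [mul_comm b k]
          exact hk1
      _ = B ^ (k + 46 * a * k) := by rw [pow_add]
      _ ≤ B ^ (46 * a * (k + 2 * a) + k) := by
          apply Nat.pow_le_pow_right hB
          nlinarith
  · refine hk1.trans ?_
    apply Nat.pow_le_pow_right hB
    nlinarith
  · intro hreg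
    calc 2 ^ n ≤ 2 ^ ((k + 2 * a) * b) := Nat.pow_le_pow_right (by norm_num) hreg
      _ = (2 ^ d') ^ (2 * a * (k + 2 * a)) := by
          rw [← pow_mul, hb, hd]; congr 1; ring
      _ ≤ B ^ (46 * a * (k + 2 * a)) := hpow _
      _ ≤ B ^ (46 * a * (k + 2 * a) + k) := Nat.pow_le_pow_right hB (by omega)

/-- **Search trees.** -/
theorem search_tree_main (ε : ℝ) (hε : 0 < ε) : ∃ K : ℕ, ∀ n L : ℕ, 1 ≤ n → 1 ≤ L →
    (n + L) ^ K ≤ 2 ^ n → ∀ 𝓛 : Finset ((Fin n → Bool) → Bool), 𝓛.card ≤ 2 ^ L →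
    ∃ φ : CNF n, Unsat φ ∧ φ.card ≤ (n + L) ^ K ∧ (∀ C ∈ φ, 2 ^ C.card ≤ (n + L) ^ K) ∧
      ∀ T : DTree (Fin n → Bool) (CNF n), T.TestsIn (𝓛 : Set ((Fin n → Bool) → Bool)) →
        (∀ x, T.infoCount Set.univ x ≤ L) → SolvesSearch φ L T →
        (2 : ℝ) ^ ((1 - ε) * n) ≤ T.leaves := by
  obtain ⟨a, ha3, hεa⟩ : ∃ a : ℕ, 3 ≤ a ∧ 8 ≤ ε * a := by
    refine ⟨⌈8 / ε⌉₊ + 2, ?_, ?_⟩
    · have : 0 < ⌈8 / ε⌉₊ := Nat.ceil_pos.2 (by positivity)
      omega
    · have h1 := Nat.le_ceil (8 / ε)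
      have h2 : 8 / ε ≤ ((⌈8 / ε⌉₊ + 2 : ℕ) : ℝ) := by push_cast; linarith
      rw [div_le_iff₀ hε] at h2
      linarith
  obtain ⟨k, hk, hka⟩ := exists_k a (by omega)
  refine ⟨46 * a * (k + 2 * a) + k + 1, ?_⟩
  intro n L hn hL hnL 𝓛 h𝓛
  obtain ⟨B, hB⟩ : ∃ B, B = n + L := ⟨_, rfl⟩
  rw [← hB] at hnL ⊢
  obtain ⟨W, hW⟩ : ∃ W, W = n + L + L + 4 := ⟨_, rfl⟩
  have hB2 : 2 ≤ B := by omega
  have hWB : W ≤ B ^ 3 := by
    have h1 : B ^ 3 = B * B * B := by ring
    have h2 : 4 * B ≤ B * B * B := by nlinarith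
    omega
  obtain ⟨hd1, hd2⟩ := dprime_spec W B (by omega) hB2 hWB
  obtain ⟨d', hd'⟩ : ∃ d', d' = 4 * Nat.clog 2 W + 7 := ⟨_, rfl⟩
  rw [← hd'] at hd1 hd2
  obtain ⟨d, hd⟩ : ∃ d, d = 2 * d' := ⟨_, rfl⟩
  obtain ⟨b, hb⟩ : ∃ b, b = a * d := ⟨_, rfl⟩
  have hdpos : 14 ≤ d := by omega
  have hbpos : 0 < b := by
    rw [hb]
    positivity
  obtain ⟨N, hN⟩ : ∃ N, N = n / b := ⟨_, rfl⟩
  have hNb : N * b ≤ n := by rw [hN]; exact Nat.div_mul_le_self n b
  have hNn : N ≤ n := by nlinarith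
  have hLd : L < 2 ^ d := by
    have h1 : 2 ^ d' ≤ 2 ^ d := Nat.pow_le_pow_right (by norm_num) (by omega)
    have h2 : W ≤ W ^ 4 := Nat.le_self_pow (by norm_num) W
    omega
  obtain ⟨sb1, sb2, sb3⟩ := size_bounds a k n B L d' d b N hd hb hd2 (by omega) (by omega)
  have hKlt : B ^ (46 * a * (k + 2 * a) + k) < B ^ (46 * a * (k + 2 * a) + k + 1) :=
    Nat.pow_lt_pow_right (by omega) (by omega)
  have hreg : (k + 2 * a) * b ≤ n := by
    by_contra hreg
    push Not at hreg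
    have h2n := sb3 hreg.le
    omega
  have hm0N : k + 2 * a ≤ N := by rw [hN]; exact (Nat.le_div_iff_mul_le hbpos).2 hreg
  have hnlt : n ≤ (N + 1) * b := by
    have h1 := Nat.div_add_mod n b
    have h2 := Nat.mod_lt n hbpos
    rw [← hN] at h1
    nlinarith
  have hNb2 : n ≤ 2 * N * b := by nlinarith
  classical
  obtain ⟨F, hF1, hF2⟩ := setup a k n L L d' d b N (N - N / a) W (by omega) hk hka hW hd1 hd hb
    hNb hNb2 (by omega) (by omega) rfl hn
    (𝓛.image (fun f => fun y : Fin N → (Fin b → Bool) => f (emb n y)))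
    (Finset.card_image_le.trans h𝓛)
  refine ⟨cnfOf hNb k F, cnfOf_unsat hNb k F hF1,
    ((cnfOf_card hNb k (by omega) F).trans sb1).trans hKlt.le, ?_, ?_⟩
  · intro C hC
    exact ((Nat.pow_le_pow_right (by norm_num) (cnfOf_width hNb k F C hC)).trans sb2).trans hKlt.le
  · intro T hTin hTtests hTsolve
    exact tree_regime ε hε a k n L d' d b N (N - N / a) hεa ha3 hk hd hb hdpos hNb hnlt hm0N rfl
      hLd 𝓛 F hF2 T hTin hTtests hTsolve

end Pool.Agent.T9h20
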