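import Mathlib
import Pool.Agent.T9h20.Params2
import Pool.Agent.T9h20.TreeMain

/-!
The average-case theorem for search trees.
-/

namespace Pool.Agent.T9h20

open Finset

set_option linter.unusedSectionVars false
set_option linter.unusedVariables false

section Emb

variable {n N b : ℕ}

/-- The assignment given by a block assignment on the block variables and by `ρ` elsewhere. -/
def embR (ρ : Fin n → Bool) (y : Fin N → (Fin b → Bool)) (t : Fin n) : Bool :=
  if h : t.1 < N * b then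
    y (finProdFinEquiv.symm (⟨t.1, h⟩ : Fin (N * b))).1
      (finProdFinEquiv.symm (⟨t.1, h⟩ : Fin (N * b))).2
  else ρ t

lemma embR_bitIdx (h : N * b ≤ n) (ρ : Fin n → Bool) (y : Fin N → (Fin b → Bool)) (i : Fin N)
    (j : Fin b) : embR ρ y (bitIdx h i j) = y i j := by
  unfold embR
  have h1 : (bitIdx h i j).1 < N * b := by
    unfold bitIdx
    exact (finProdFinEquiv (i, j)).2
  rw [dif_pos h1]
  have h2 : (⟨(bitIdx h i j).1, h1⟩ : Fin (N * b)) = finProdFinEquiv (i, j) := by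
    apply Fin.ext
    rfl
  rw [h2, Equiv.symm_apply_apply]

/-- The blocks of an assignment. -/
def blk (h : N * b ≤ n) (x : Fin n → Bool) : Fin N → (Fin b → Bool) :=
  fun i j => x (bitIdx h i j)

lemma embR_blk (h : N * b ≤ n) (x : Fin n → Bool) (z : Fin N → (Fin b → Bool)) :
    embR (embR x z) (blk h x) = x := by
  funext t
  by_cases ht : t.1 < N * b
  · unfold embR
    rw [dif_pos ht]
    unfold blk bitIdx
    congr 1
    apply Fin.ext
    simp [Nat.mod_add_div]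
  · unfold embR
    rw [dif_neg ht, dif_neg ht]

lemma blk_embR (h : N * b ≤ n) (ρ : Fin n → Bool) (z : Fin N → (Fin b → Bool)) :
    blk h (embR ρ z) = z := by
  funext i j
  unfold blk
  exact embR_bitIdx h ρ z i j

/-- Averaging over the embeddings. -/
lemma average_embR (h : N * b ≤ n) (P : (Fin n → Bool) → Prop) [DecidablePred P] (B : ℝ)
    (hB : ∀ ρ : Fin n → Bool, (((Finset.univ : Finset (Fin N → (Fin b → Bool))).filter
      (fun y => P (embR ρ y))).card : ℝ) ≤ B) :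
    (((Finset.univ : Finset (Fin n → Bool)).filter P).card : ℝ) * 2 ^ (b * N) ≤ 2 ^ n * B := by
  classical
  have hΩ : (Finset.univ : Finset (Fin N → (Fin b → Bool))).card = 2 ^ (b * N) := by
    rw [Finset.card_univ, Fintype.card_fun, Fintype.card_fun, Fintype.card_bool, Fintype.card_fin,
      Fintype.card_fin, ← pow_mul]
  have h1 : (((Finset.univ : Finset (Fin n → Bool)).filter P) ×ˢ
      (Finset.univ : Finset (Fin N → (Fin b → Bool)))).card
      ≤ ((Finset.univ : Finset (Fin n → Bool)).sigma (fun ρ =>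
        (Finset.univ : Finset (Fin N → (Fin b → Bool))).filter (fun y => P (embR ρ y)))).card := by
    apply Finset.card_le_card_of_injOn (fun q => ⟨embR q.1 q.2, blk h q.1⟩)
    · rintro ⟨x, z⟩ hq
      have hx := (Finset.mem_filter.1 (Finset.mem_product.1 (Finset.mem_coe.1 hq)).1).2
      rw [Finset.mem_coe, Finset.mem_sigma]
      refine ⟨Finset.mem_univ _, Finset.mem_filter.2 ⟨Finset.mem_univ _, ?_⟩⟩
      dsimp only
      rw [embR_blk]
      exact hx
    · rintro ⟨x, z⟩ _ ⟨x', z'⟩ _ hxx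
      simp only [Sigma.mk.injEq, heq_eq_eq] at hxx
      obtain ⟨e1, e2⟩ := hxx
      have e3 : x = x' := by
        rw [← embR_blk h x z, ← embR_blk h x' z', e1, e2]
      have e4 : z = z' := by
        rw [← blk_embR h x z, ← blk_embR h x' z', e1]
      rw [e3, e4]
  rw [Finset.card_product, hΩ, Finset.card_sigma] at h1
  have h2 : ((((Finset.univ : Finset (Fin n → Bool)).filter P).card * 2 ^ (b * N) : ℕ) : ℝ)
      ≤ ∑ ρ : Fin n → Bool, (((Finset.univ : Finset (Fin N → (Fin b → Bool))).filter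
        (fun y => P (embR ρ y))).card : ℝ) := by exact_mod_cast h1
  push_cast at h2
  refine h2.trans ?_
  refine (Finset.sum_le_card_nsmul _ _ B (fun ρ _ => hB ρ)).trans ?_
  rw [nsmul_eq_mul, Finset.card_univ, Fintype.card_fun, Fintype.card_bool, Fintype.card_fin]
  push_cast
  exact le_rfl

/-- Falsity of clauses of `cnfOf` in block space, for a general embedding. -/
lemma cnfOf_falsR (h : N * b ≤ n) (k : ℕ)
    (F : (Finset (Fin N) × (Fin N → (Fin b → Bool))) → Bool) (C : Clause n)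
    (hC : C ∈ cnfOf h k F) :
    ∃ V : Finset (Fin N), ∃ z, V.card = k ∧ F (V, z) = true ∧
      ∀ (ρ : Fin n → Bool) (y : Fin N → (Fin b → Bool)), Falsifies (embR ρ y) C →
        mask V y = z := by
  unfold cnfOf at hC
  obtain ⟨e, he, rfl⟩ := Finset.mem_image.1 hC
  obtain ⟨h1, h2, h3⟩ := (Finset.mem_filter.1 he).2
  refine ⟨e.1, e.2, h1, h2, ?_⟩
  intro ρ y hy
  rw [falsifies_entryClause] at hy
  rw [← h3, mask_eq_iff]
  intro i hi
  funext j
  rw [← hy i hi j, embR_bitIdx]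

end Emb

/-- Few elements of a good state falsify one of few clauses. -/
lemma leaf_few {N : ℕ} {A : Type} [Fintype A] [DecidableEq A] [Inhabited A] {d k N1 : ℕ}
    {F : (Finset (Fin N) × (Fin N → A)) → Bool}
    {Y : Finset (Fin N → A)} {S : Finset (Fin N)} (hI : Inv d k N1 F Y S)
    (E : Finset (Finset (Fin N) × (Fin N → A)))
    (hEk : ∀ e ∈ E, e.1.card = k ∧ F e = true) (Y' : Finset (Fin N → A)) (hYY : Y' ⊆ Y)
    (hY : ∀ y ∈ Y', ∃ e ∈ E, mask e.1 y = e.2) :
    Y'.card * 2 ^ d ≤ E.card * Y.card := by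
  classical
  have hsub : Y' ⊆ E.biUnion (fun e => Y.filter (fun y => mask e.1 y = e.2)) := by
    intro y hy
    obtain ⟨e, he, hm⟩ := hY y hy
    exact Finset.mem_biUnion.2 ⟨e, he, Finset.mem_filter.2 ⟨hYY hy, hm⟩⟩
  have hone : ∀ e ∈ E, (Y.filter (fun y => mask e.1 y = e.2)).card * 2 ^ d ≤ Y.card := by
    intro e he
    obtain ⟨hk, hF⟩ := hEk e he
    by_cases hVS : e.1 ⊆ S
    · have hempty : Y.filter (fun y => mask e.1 y = e.2) = ∅ := by
        rw [Finset.filter_eq_empty_iff]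
        intro y hy hm
        have h1 := hI.good y hy e.1 hVS hk
        rw [hm] at h1
        have h2 : ((e.1, e.2) : Finset (Fin N) × (Fin N → A)) = e := rfl
        rw [h2, hF] at h1
        exact absurd h1 (by simp)
      rw [hempty]
      simp
    · obtain ⟨i, hi, hiS⟩ := Finset.not_subset.1 hVS
      have hdn := hI.dense {i} (by simpa using hiS) e.2
      rw [Finset.card_singleton, mul_one] at hdn
      refine le_trans (Nat.mul_le_mul_right _ (Finset.card_le_card ?_)) hdn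
      intro y hy
      obtain ⟨h1, h2⟩ := Finset.mem_filter.1 hy
      refine Finset.mem_filter.2 ⟨h1, ?_⟩
      intro j hj
      rw [Finset.mem_singleton] at hj
      subst hj
      rw [← h2]
      simp [mask, hi]
  have h1 : Y'.card ≤ ∑ e ∈ E, (Y.filter (fun y => mask e.1 y = e.2)).card :=
    (Finset.card_le_card hsub).trans Finset.card_biUnion_le
  calc Y'.card * 2 ^ d ≤ (∑ e ∈ E, (Y.filter (fun y => mask e.1 y = e.2)).card) * 2 ^ d :=
        Nat.mul_le_mul_right _ h1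
    _ = ∑ e ∈ E, (Y.filter (fun y => mask e.1 y = e.2)).card * 2 ^ d := Finset.sum_mul _ _ _
    _ ≤ E.card • Y.card := Finset.sum_le_card_nsmul _ _ _ hone
    _ = E.card * Y.card := by rw [smul_eq_mul]

/-- The entries of the clauses of `cnfOf` in a given set of clauses, for a general embedding. -/
lemma entries_of_clausesR {n N b : ℕ} (h : N * b ≤ n) (k : ℕ)
    (F : (Finset (Fin N) × (Fin N → (Fin b → Bool))) → Bool) (ψ : CNF n) :
    ∃ E : Finset (Finset (Fin N) × (Fin N → (Fin b → Bool))), E.card ≤ ψ.card ∧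
      (∀ e ∈ E, e.1.card = k ∧ F e = true) ∧
      ∀ (ρ : Fin n → Bool) (y : Fin N → (Fin b → Bool)),
        (∃ C ∈ ψ, C ∈ cnfOf h k F ∧ Falsifies (embR ρ y) C) → ∃ e ∈ E, mask e.1 y = e.2 := by
  classical
  refine ⟨(ψ.filter (fun C => C ∈ cnfOf h k F)).attach.image (fun C =>
    ((cnfOf_falsR h k F C.1 (Finset.mem_filter.1 C.2).2).choose,
      (cnfOf_falsR h k F C.1 (Finset.mem_filter.1 C.2).2).choose_spec.choose)), ?_, ?_, ?_⟩
  · refine Finset.card_image_le.trans ?_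
    rw [Finset.card_attach]
    exact Finset.card_filter_le _ _
  · intro e he
    obtain ⟨C, _, rfl⟩ := Finset.mem_image.1 he
    obtain ⟨h1, h2, _⟩ := (cnfOf_falsR h k F C.1 (Finset.mem_filter.1 C.2).2).choose_spec.choose_spec
    exact ⟨h1, h2⟩
  · rintro ρ y ⟨C, hC, hCF, hCy⟩
    obtain ⟨_, _, h3⟩ := (cnfOf_falsR h k F C hCF).choose_spec.choose_spec
    refine ⟨_, Finset.mem_image.2 ⟨⟨C, Finset.mem_filter.2 ⟨hC, hCF⟩⟩, Finset.mem_attach _ _, rfl⟩, ?_⟩
    exact h3 ρ y hCy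

/-- `(1 + H / 2 ^ d) ^ h ≤ 4`. -/
lemma q_pow_le (d D h n W : ℕ) (hh : h ≤ D + 1) (hd : 128 * W ^ 4 ≤ 2 ^ d)
    (hW : n + D + 4 ≤ W) : (1 + ((n : ℝ) + 1) / 2 ^ d) ^ h ≤ 4 := by
  have h1 : (1 + ((n : ℝ) + 1) / 2 ^ d) ≤ Real.exp (((n : ℝ) + 1) / 2 ^ d) := by
    have := Real.add_one_le_exp (((n : ℝ) + 1) / 2 ^ d)
    linarith
  have hW1 : 1 ≤ W := by omega
  have h2 : (1 + ((n : ℝ) + 1) / 2 ^ d) ^ h ≤ Real.exp (h * (((n : ℝ) + 1) / 2 ^ d)) := by
    rw [Real.exp_nat_mul]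
    exact pow_le_pow_left₀ (by positivity) h1 h
  have h3 : (h : ℝ) * (((n : ℝ) + 1) / 2 ^ d) ≤ 1 := by
    rw [← mul_div_assoc, div_le_one (by positivity)]
    have h4 : h * (n + 1) ≤ 2 ^ d := by
      have h5 : h ≤ W := by omega
      have h6 : n + 1 ≤ W := by omega
      have h7 : W * W ≤ W ^ 4 := by
        have : W ^ 4 = W * W * (W * W) := by ring
        rw [this]
        exact Nat.le_mul_of_pos_right _ (by positivity)
      calc h * (n + 1) ≤ W * W := Nat.mul_le_mul h5 h6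
        _ ≤ W ^ 4 := h7
        _ ≤ 128 * W ^ 4 := by omega
        _ ≤ 2 ^ d := hd
    have h8 : ((h * (n + 1) : ℕ) : ℝ) ≤ ((2 ^ d : ℕ) : ℝ) := by exact_mod_cast h4
    push_cast at h8
    exact h8
  have h9 : Real.exp 1 ≤ 4 := by
    have := Real.exp_one_lt_d9
    linarith
  exact h2.trans ((Real.exp_le_exp.2 h3).trans h9)

open Classical in
/-- The main regime of the average-case theorem. -/
lemma avg_regime (M k n L d b N W : ℕ) (hM : 1 ≤ M) (hL : 1 ≤ L) (hk1 : 1 ≤ k)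
    (hb : b = 8 * M * d) (hd14 : 7 ≤ d) (hd : 128 * W ^ 4 ≤ 2 ^ d) (hW : n + L + 4 ≤ W)
    (hNb : N * b ≤ n) (hnlt : n ≤ (N + 1) * b) (hNM : 2 * M + 2 ≤ N)
    (𝓛 : Finset ((Fin n → Bool) → Bool))
    (F : (Finset (Fin N) × (Fin N → (Fin b → Bool))) → Bool)
    (hF2 : ∀ c ∈ cfgs d ((𝓛 ×ˢ (Finset.univ : Finset (Fin n → Bool))).image
      (fun q => fun y : Fin N → (Fin b → Bool) => q.1 (embR q.2 y))) L,
      FewBad d k (N - N / (4 * M)) (1 / (8 * (L + 1) ^ 2)) F c)
    (T : DTree (Fin n → Bool) (CNF n)) (hTin : T.TestsIn (𝓛 : Set ((Fin n → Bool) → Bool)))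
    (hTtests : ∀ x, T.infoCount Set.univ x ≤ L) (hTcard : ∀ x, (T.run x).card ≤ L) :
    (((Finset.univ : Finset (Fin n → Bool)).filter
      (fun x => ∃ C ∈ T.run x, C ∈ cnfOf hNb k F ∧ Falsifies x C)).card : ℝ)
      ≤ 2 ^ n / L + T.leaves * (2 : ℝ) ^ ((n : ℝ) / M) := by
  have hdb : d < b := by
    rw [hb]
    nlinarith
  have hLr : (1 : ℝ) ≤ L := by exact_mod_cast hL
  have hL0 : (0 : ℝ) < L := by linarith
  obtain ⟨N1, hN1⟩ : ∃ N1, N1 = N - N / (4 * M) := ⟨_, rfl⟩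
  rw [← hN1] at hF2
  have hΩ : ((Finset.univ : Finset (Fin N → (Fin b → Bool))).card : ℝ) = 2 ^ (b * N) := by
    rw [Finset.card_univ, Fintype.card_fun, Fintype.card_fun, Fintype.card_bool,
      Fintype.card_fin, Fintype.card_fin, ← pow_mul]
    push_cast
    rfl
  have hbN : b * N ≤ n := by rw [mul_comm]; exact hNb
  have hH : Hf (Fintype.card (Fin N → (Fin b → Bool))) ≤ (n : ℝ) + 1 := by
    have h1 : Fintype.card (Fin N → (Fin b → Bool)) = 2 ^ (b * N) := by
      rw [Fintype.card_fun, Fintype.card_fun, Fintype.card_bool, Fintype.card_fin,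
        Fintype.card_fin, ← pow_mul]
    rw [h1]
    refine (Hf_pow_two _).trans ?_
    have : ((b * N : ℕ) : ℝ) ≤ n := by exact_mod_cast hbN
    linarith
  have hc : (1 : ℝ) ≤ 2 ^ d := one_le_pow₀ (by norm_num)
  have hWr : (L : ℝ) + 1 ≤ W := by
    have : L + 1 ≤ W := by omega
    exact_mod_cast this
  have h2d : (128 : ℝ) * W ^ 4 ≤ 2 ^ d := by exact_mod_cast hd
  obtain ⟨E0, hE0⟩ : ∃ E0 : ℝ, E0 = 2 ^ (2 * d * N) := ⟨_, rfl⟩
  have hE : EE N N1 (Fin b → Bool) ≤ 2 ^ (2 * d * N) := by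
    unfold EE
    have h1 : N - N1 = N / (4 * M) := by
      rw [hN1, Nat.sub_sub_self (Nat.div_le_self N _)]
    rw [h1, Fintype.card_fun, Fintype.card_bool, Fintype.card_fin]
    push_cast
    rw [← pow_mul]
    apply pow_le_pow_right₀ (by norm_num)
    have h2 : 4 * M * (N / (4 * M)) ≤ N := Nat.mul_div_le N _
    calc b * (N / (4 * M)) = 2 * d * (4 * M * (N / (4 * M))) := by rw [hb]; ring
      _ ≤ 2 * d * N := Nat.mul_le_mul_left _ h2
  have hE1 : (1 : ℝ) ≤ EE N N1 (Fin b → Bool) := EE_one_le N N1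
  -- the bound for each embedding
  have hrho : ∀ ρ : Fin n → Bool, (((Finset.univ : Finset (Fin N → (Fin b → Bool))).filter
      (fun y => ∃ C ∈ T.run (embR ρ y), C ∈ cnfOf hNb k F ∧ Falsifies (embR ρ y) C)).card : ℝ)
      ≤ 1 / L * 2 ^ (b * N) + T.leaves * (2 ^ (2 * d * N) * 4 * 2 ^ (2 * d * N)) := by
    intro ρ
    obtain ⟨T', hT'⟩ : ∃ T', T' = (T.comap (embR ρ (N := N) (b := b))).prune Set.univ := ⟨_, rfl⟩
    have hdepth : T'.depth ≤ L := by
      rw [hT']
      apply DTree.prune_depth_le _ _ ⟨fun _ => default, Set.mem_univ _⟩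
      intro y _
      exact (DTree.comap_infoCount _ T Set.univ Set.univ (fun _ _ => Set.mem_univ _) y).trans
        (hTtests (embR ρ y))
    have hleaves : T'.leaves ≤ T.leaves := by
      rw [← DTree.comap_leaves (embR ρ (N := N) (b := b)) T, hT']
      exact DTree.prune_leaves _ _
    have hin : T'.TestsIn ((((𝓛 ×ˢ (Finset.univ : Finset (Fin n → Bool))).image
        (fun q => fun y : Fin N → (Fin b → Bool) => q.1 (embR q.2 y))) :
        Finset _) : Set ((Fin N → (Fin b → Bool)) → Bool)) := by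
      have h1 := DTree.prune_testsIn _ _ (DTree.comap_testsIn (embR ρ (N := N) (b := b)) T _ hTin)
        Set.univ
      rw [← hT'] at h1
      have hmono : ∀ (T0 : DTree (Fin N → (Fin b → Bool)) (CNF n)) (A1 A2 :
          Set ((Fin N → (Fin b → Bool)) → Bool)), A1 ⊆ A2 → T0.TestsIn A1 → T0.TestsIn A2 := by
        intro T0 A1 A2 hA
        induction T0 with
        | leaf c => intro _; trivial
        | node Q t0 t1 ih0 ih1 =>
          rintro ⟨g1, g2, g3⟩
          exact ⟨hA g1, ih0 g2, ih1 g3⟩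
      refine hmono T' _ _ ?_ h1
      rintro _ ⟨f, hf, rfl⟩
      rw [Finset.mem_coe]
      exact Finset.mem_image.2 ⟨(f, ρ), Finset.mem_product.2 ⟨hf, Finset.mem_univ _⟩, rfl⟩
    have hrun : ∀ y, T'.run y = T.run (embR ρ y) := by
      intro y
      rw [hT', DTree.prune_run _ _ _ (Set.mem_univ y), DTree.comap_run]
    have hmain := tree_avg (θ := 1 / (8 * ((L : ℝ) + 1) ^ 2)) (σ := L / 2 ^ d) (c := 2 ^ d)
      (H := (n : ℝ) + 1) (D := L) (by positivity) (by positivity) hc hH hF2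
      (fun (ψ : CNF n) y => ψ.card ≤ L ∧ ∃ C ∈ ψ, C ∈ cnfOf hNb k F ∧ Falsifies (embR ρ y) C)
      (by
        intro ψ Y S hI
        by_cases hψ : ψ.card ≤ L
        · obtain ⟨E, g1, g2, g3⟩ := entries_of_clausesR hNb k F ψ
          have g4 := leaf_few hI E g2 (Y.filter (fun y => ψ.card ≤ L ∧
            ∃ C ∈ ψ, C ∈ cnfOf hNb k F ∧ Falsifies (embR ρ y) C)) (Finset.filter_subset _ _)
            (fun y hy => g3 ρ y (Finset.mem_filter.1 hy).2.2)
          have g5 : (((Y.filter (fun y => ψ.card ≤ L ∧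
            ∃ C ∈ ψ, C ∈ cnfOf hNb k F ∧ Falsifies (embR ρ y) C)).card * 2 ^ d : ℕ) : ℝ)
            ≤ ((L * Y.card : ℕ) : ℝ) := by
            exact_mod_cast g4.trans (Nat.mul_le_mul_right _ (g1.trans hψ))
          push_cast at g5
          rw [div_mul_eq_mul_div, le_div_iff₀ (by positivity)]
          exact g5
        · have g6 : Y.filter (fun y => ψ.card ≤ L ∧
            ∃ C ∈ ψ, C ∈ cnfOf hNb k F ∧ Falsifies (embR ρ y) C) = ∅ := by
            rw [Finset.filter_eq_empty_iff]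
            intro y _ hy
            exact hψ hy.1
          have g7 : (((Y.filter (fun y => ψ.card ≤ L ∧
            ∃ C ∈ ψ, C ∈ cnfOf hNb k F ∧ Falsifies (embR ρ y) C)).card : ℕ) : ℝ)
              ≤ L / 2 ^ d * Y.card := by
            rw [g6, Finset.card_empty]
            push_cast
            positivity
          exact g7)
      T' 0 Finset.univ ∅ (by omega) (by
        rw [states]; exact Finset.mem_insert_self _ _) (univ_inv hdb.le hk1 F) hin
    have hfe : (Finset.univ : Finset (Fin N → (Fin b → Bool))).filter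
        (fun y => ∃ C ∈ T.run (embR ρ y), C ∈ cnfOf hNb k F ∧ Falsifies (embR ρ y) C)
        = (Finset.univ : Finset (Fin N → (Fin b → Bool))).filter
          (fun y => (T'.run y).card ≤ L ∧
            ∃ C ∈ T'.run y, C ∈ cnfOf hNb k F ∧ Falsifies (embR ρ y) C) := by
      apply Finset.filter_congr
      intro y _
      rw [hrun y]
      constructor
      · intro h; exact ⟨hTcard _, h⟩
      · intro h; exact h.2
    rw [hfe]
    have hmain' : (((Finset.univ : Finset (Fin N → (Fin b → Bool))).filter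
          (fun y => (T'.run y).card ≤ L ∧
            ∃ C ∈ T'.run y, C ∈ cnfOf hNb k F ∧ Falsifies (embR ρ y) C)).card : ℝ)
        ≤ (2 * (1 / (8 * ((L : ℝ) + 1) ^ 2)) * T'.depth + L / 2 ^ d)
            * (Finset.univ : Finset (Fin N → (Fin b → Bool))).card
          + T'.leaves * EE N N1 (Fin b → Bool) * (1 + ((n : ℝ) + 1) / 2 ^ d) ^ T'.depth
            * (2 ^ d * 2 ^ d) ^ (N - (∅ : Finset (Fin N)).card) := by
      exact hmain
    refine hmain'.trans ?_
    rw [hΩ, Finset.card_empty, Nat.sub_zero]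
    have hdep : (T'.depth : ℝ) ≤ L := by exact_mod_cast hdepth
    have hlv : (T'.leaves : ℝ) ≤ T.leaves := by exact_mod_cast hleaves
    have hfrac : 2 * (1 / (8 * ((L : ℝ) + 1) ^ 2)) * T'.depth + L / 2 ^ d ≤ 1 / L := by
      have g1 : 2 * (1 / (8 * ((L : ℝ) + 1) ^ 2)) * (T'.depth : ℝ) ≤ 1 / (4 * L) := by
        calc 2 * (1 / (8 * ((L : ℝ) + 1) ^ 2)) * (T'.depth : ℝ)
            ≤ 2 * (1 / (8 * ((L : ℝ) + 1) ^ 2)) * L :=
              mul_le_mul_of_nonneg_left hdep (by positivity)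
          _ = L / (4 * ((L : ℝ) + 1) ^ 2) := by field_simp; ring
          _ ≤ 1 / (4 * L) := by
              rw [div_le_div_iff₀ (by positivity) (by positivity)]
              nlinarith
      have g2 : (L : ℝ) / 2 ^ d ≤ 1 / (4 * L) := by
        rw [div_le_div_iff₀ (by positivity) (by positivity)]
        have g3 : (L : ℝ) * (4 * L) ≤ 128 * W ^ 4 := by
          have g4 : (1 : ℝ) ≤ W := by linarith
          have g5 : (L : ℝ) ≤ W := by linarith
          have g6 : (L : ℝ) * L ≤ W * W := mul_le_mul g5 g5 hL0.le (by linarith)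
          have g7 : (W : ℝ) * W ≤ W ^ 4 := by
            have : (W : ℝ) ^ 4 = W * W * (W * W) := by ring
            rw [this]
            have g8 : (1 : ℝ) ≤ W * W := by nlinarith
            have g9 : (0 : ℝ) ≤ W * W := by positivity
            nlinarith
          nlinarith
        linarith
      have g10 : 1 / (4 * (L : ℝ)) + 1 / (4 * L) ≤ 1 / L := by
        rw [← add_div, div_le_div_iff₀ (by positivity) hL0]
        nlinarith
      linarith
    have hq := q_pow_le d L T'.depth n W (by omega) hd hW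
    have hfirst : (2 * (1 / (8 * ((L : ℝ) + 1) ^ 2)) * T'.depth + L / 2 ^ d) * 2 ^ (b * N)
        ≤ 1 / L * 2 ^ (b * N) := mul_le_mul_of_nonneg_right hfrac (by positivity)
    have hG : ((2 : ℝ) ^ d * 2 ^ d) ^ N = 2 ^ (2 * d * N) := by
      rw [← pow_add, ← pow_mul]
      congr 1
      ring
    have hsecond : T'.leaves * EE N N1 (Fin b → Bool) * (1 + ((n : ℝ) + 1) / 2 ^ d) ^ T'.depth
        * (2 ^ d * 2 ^ d) ^ N ≤ T.leaves * (2 ^ (2 * d * N) * 4 * 2 ^ (2 * d * N)) := by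
      rw [hG]
      calc T'.leaves * EE N N1 (Fin b → Bool) * (1 + ((n : ℝ) + 1) / 2 ^ d) ^ T'.depth
          * 2 ^ (2 * d * N)
          ≤ T.leaves * 2 ^ (2 * d * N) * 4 * 2 ^ (2 * d * N) := by
            apply mul_le_mul_of_nonneg_right _ (by positivity)
            apply mul_le_mul _ hq (by positivity) (by positivity)
            exact mul_le_mul hlv hE (by linarith) (by positivity)
        _ = _ := by ring
    linarith
  have havg := average_embR hNb (fun x => ∃ C ∈ T.run x, C ∈ cnfOf hNb k F ∧ Falsifies x C) _ hrho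
  have hpos : (0 : ℝ) < 2 ^ (b * N) := by positivity
  have hfin : (((Finset.univ : Finset (Fin n → Bool)).filter
      (fun x => ∃ C ∈ T.run x, C ∈ cnfOf hNb k F ∧ Falsifies x C)).card : ℝ) * 2 ^ (b * N)
      ≤ (2 ^ n / L + T.leaves * (2 : ℝ) ^ ((n : ℝ) / M)) * 2 ^ (b * N) := by
    refine havg.trans ?_
    have e1 : (2 : ℝ) ^ n * (1 / L * 2 ^ (b * N) + T.leaves * (2 ^ (2 * d * N) * 4 * 2 ^ (2 * d * N)))
        = 2 ^ n / L * 2 ^ (b * N) + T.leaves * (2 ^ n * (2 ^ (2 * d * N) * 4 * 2 ^ (2 * d * N))) := by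
      ring
    rw [e1, add_mul]
    have e2 : (2 : ℝ) ^ n * (2 ^ (2 * d * N) * 4 * 2 ^ (2 * d * N))
        ≤ (2 : ℝ) ^ ((n : ℝ) / M) * 2 ^ (b * N) := by
      have e3 : (2 : ℝ) ^ n * (2 ^ (2 * d * N) * 4 * 2 ^ (2 * d * N))
          = (2 : ℝ) ^ ((n + 4 * d * N + 2 : ℕ) : ℝ) := by
        rw [Real.rpow_natCast, show (4 : ℝ) = 2 ^ 2 by norm_num]
        ring_nf
      rw [e3, ← Real.rpow_natCast 2 (b * N), ← Real.rpow_add (by norm_num)]
      apply Real.rpow_le_rpow_of_exponent_le (by norm_num)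
      have hMr : (1 : ℝ) ≤ M := by exact_mod_cast hM
      have hM0 : (0 : ℝ) < M := by linarith
      have e4 : (n : ℝ) ≤ b * N + b := by
        have : n ≤ b * N + b := by rw [add_mul, one_mul] at hnlt; rw [mul_comm b N]; exact hnlt
        exact_mod_cast this
      have e5 : (b : ℝ) + 4 * d * N + 2 ≤ n / M := by
        rw [le_div_iff₀ hM0]
        have e6 : (b + 4 * d * N + 2) * M ≤ b * N := by
          rw [hb]
          have e7 : 8 * M * d + 2 ≤ 4 * d * N := by nlinarith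
          nlinarith
        have e8 : (((b + 4 * d * N + 2) * M : ℕ) : ℝ) ≤ ((b * N : ℕ) : ℝ) := by exact_mod_cast e6
        push_cast at e8
        have e9 : ((b : ℝ) * N) ≤ n := by exact_mod_cast hbN
        linarith
      push_cast
      linarith
    have e10 := mul_le_mul_of_nonneg_left e2 (Nat.cast_nonneg T.leaves : (0 : ℝ) ≤ T.leaves)
    have e11 : (T.leaves : ℝ) * ((2 : ℝ) ^ ((n : ℝ) / M) * 2 ^ (b * N))
        = T.leaves * (2 : ℝ) ^ ((n : ℝ) / M) * 2 ^ (b * N) := by ring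
    linarith
  exact le_of_mul_le_mul_right hfin hpos

/-- Size arithmetic for the all-parts theorems. -/
lemma size2 (n L M D Lb W d k b N : ℕ) (hn : 1 ≤ n) (hL : 1 ≤ L) (hM : 1 ≤ M)
    (hW2 : 2 ≤ W) (hWB : W ≤ 4 * (n + L)) (hWn : n ≤ W)
    (hdd : d = 4 * Nat.clog 2 W + 7) (hk : k = 8 * M * d) (hb : b = 8 * M * d) (hN : N = n / b)
    (hbig : 40000 * (M * Nat.log 2 (n + L)) ^ 2 ≤ n) :
    k ≤ N ∧ 4 * M ≤ N ∧ 2 * M + 2 ≤ N ∧ N ^ k * 2 ^ (b * k) ≤ 2 ^ (40000 * (M * Nat.log 2 (n + L)) ^ 2)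
      ∧ k * b ≤ 40000 * (M * Nat.log 2 (n + L)) ^ 2 := by
  obtain ⟨ℓ, hℓ⟩ : ∃ ℓ, ℓ = Nat.log 2 (n + L) := ⟨_, rfl⟩
  rw [← hℓ] at hbig ⊢
  have hℓ1 : 1 ≤ ℓ := by
    rw [hℓ]
    exact Nat.log_pos (by norm_num) (by omega)
  have hclog : Nat.clog 2 W ≤ ℓ + 3 := by
    apply Nat.clog_le_of_le_pow
    have h1 : n + L < 2 ^ (ℓ + 1) := by
      rw [hℓ]
      exact Nat.lt_pow_succ_log_self (by norm_num) _
    have h2 : 2 ^ (ℓ + 3) = 4 * 2 ^ (ℓ + 1) := by rw [pow_add, pow_add]; ring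
    omega
  have hdle : d ≤ 23 * ℓ := by
    rw [hdd]
    omega
  have hdpos : 7 ≤ d := by omega
  have hbpos : 0 < b := by rw [hb]; positivity
  have hMd : (M * d) * (M * d) ≤ 529 * (M * ℓ) ^ 2 := by
    have h1 : M * d ≤ M * (23 * ℓ) := Nat.mul_le_mul_left _ hdle
    calc (M * d) * (M * d) ≤ (M * (23 * ℓ)) * (M * (23 * ℓ)) := Nat.mul_le_mul h1 h1
      _ = 529 * (M * ℓ) ^ 2 := by ring
  have hkb : k * b = 64 * ((M * d) * (M * d)) := by rw [hk, hb]; ring
  have hMd1 : 7 ≤ M * d := by nlinarith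
  have hMdM : M ≤ M * d := Nat.le_mul_of_pos_right _ (by omega)
  have hb8 : b = 8 * (M * d) := by rw [hb]; ring
  have hk8 : k = 8 * (M * d) := by rw [hk]; ring
  have hkN : k ≤ N := by
    rw [hN, Nat.le_div_iff_mul_le hbpos, hkb]
    calc 64 * ((M * d) * (M * d)) ≤ 64 * (529 * (M * ℓ) ^ 2) := Nat.mul_le_mul_left _ hMd
      _ ≤ 40000 * (M * ℓ) ^ 2 := by nlinarith
      _ ≤ n := hbig
  refine ⟨hkN, ?_, ?_, ?_, ?_⟩
  · have : 4 * M ≤ k := by rw [hk8]; omega
    omega
  · have : 2 * M + 2 ≤ k := by rw [hk8]; omega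
    omega
  · have hNW : N ≤ 2 ^ d := by
      have h1 : W ≤ 2 ^ Nat.clog 2 W := Nat.le_pow_clog (by norm_num) W
      have h2 : 2 ^ Nat.clog 2 W ≤ 2 ^ d := Nat.pow_le_pow_right (by norm_num) (by omega)
      have h3 : N ≤ n := by rw [hN]; exact Nat.div_le_self n b
      omega
    calc N ^ k * 2 ^ (b * k) ≤ (2 ^ d) ^ k * 2 ^ (b * k) :=
          Nat.mul_le_mul_right _ (Nat.pow_le_pow_left hNW k)
      _ = 2 ^ (d * k + b * k) := by rw [← pow_mul, ← pow_add]
      _ ≤ 2 ^ (40000 * (M * ℓ) ^ 2) := by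
          apply Nat.pow_le_pow_right (by norm_num)
          have h4 : d * k ≤ 8 * ((M * d) * (M * d)) := by
            rw [hk8]
            have : d ≤ M * d := Nat.le_mul_of_pos_left _ (by omega)
            calc d * (8 * (M * d)) ≤ (M * d) * (8 * (M * d)) := Nat.mul_le_mul_right _ this
              _ = 8 * ((M * d) * (M * d)) := by ring
          rw [mul_comm b k, hkb]
          have h5 : 0 ≤ (M * ℓ) ^ 2 := Nat.zero_le _
          omega
  · rw [hkb]
    omega

/-- **Average-case theorem for search trees.** -/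
theorem search_tree_average : ∃ K : ℕ, ∀ n L M : ℕ, 1 ≤ n → 1 ≤ L → 1 ≤ M →
    K * (M * Nat.log 2 (n + L)) ^ 2 ≤ n →
    ∀ 𝓛 : Finset ((Fin n → Bool) → Bool), 𝓛.card ≤ 2 ^ L →
    ∃ φ : CNF n, Unsat φ ∧ φ.card ≤ 2 ^ (K * (M * Nat.log 2 (n + L)) ^ 2) ∧
      (∀ C ∈ φ, C.card ≤ K * (M * Nat.log 2 (n + L)) ^ 2) ∧
      ∀ T : DTree (Fin n → Bool) (CNF n), T.TestsIn (𝓛 : Set ((Fin n → Bool) → Bool)) →
        (∀ x, T.infoCount Set.univ x ≤ L) → (∀ x, (T.run x).card ≤ L) →
        (Nat.card {x : Fin n → Bool // ∃ C ∈ T.run x, C ∈ φ ∧ Falsifies x C} : ℝ)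
          ≤ 2 ^ n / L + T.leaves * (2 : ℝ) ^ ((n : ℝ) / M) := by
  classical
  refine ⟨40000, ?_⟩
  intro n L M hn hL hM hbig 𝓛 h𝓛
  obtain ⟨W, hW⟩ : ∃ W, W = n + (L + n) + L + 4 := ⟨_, rfl⟩
  obtain ⟨d, hdd⟩ : ∃ d, d = 4 * Nat.clog 2 W + 7 := ⟨_, rfl⟩
  obtain ⟨b, hb⟩ : ∃ b, b = 8 * M * d := ⟨_, rfl⟩
  obtain ⟨N, hN⟩ : ∃ N, N = n / b := ⟨_, rfl⟩
  have hd7 : 7 ≤ d := by omega
  have hbpos : 0 < b := by rw [hb]; positivity
  obtain ⟨s1, s2, s3, s4, s5⟩ := size2 n L M L (L + n) W d b b N hn hL hM (by omega) (by omega)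
    (by omega) hdd hb hb hN hbig
  have hd : 128 * W ^ 4 ≤ 2 ^ d := by
    have h1 : W ≤ 2 ^ Nat.clog 2 W := Nat.le_pow_clog (by norm_num) W
    calc 128 * W ^ 4 ≤ 128 * (2 ^ Nat.clog 2 W) ^ 4 :=
          Nat.mul_le_mul_left _ (Nat.pow_le_pow_left h1 4)
      _ = 2 ^ (4 * Nat.clog 2 W + 7) := by rw [← pow_mul, pow_add]; ring
      _ = 2 ^ d := by rw [hdd]
  have hNb : N * b ≤ n := by rw [hN]; exact Nat.div_mul_le_self n b
  have hnlt : n ≤ (N + 1) * b := by
    have h1 := Nat.div_add_mod n b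
    have h2 := Nat.mod_lt n hbpos
    rw [← hN] at h1
    nlinarith
  obtain ⟨F, hF1, hF2⟩ := setup2 (4 * M) b n (L + n) L d b N (N - N / (4 * M)) W (by omega)
    (by rw [hb]; ring) hW hd hNb s2 s1 rfl hn
    ((𝓛 ×ˢ (Finset.univ : Finset (Fin n → Bool))).image
      (fun q => fun y : Fin N → (Fin b → Bool) => q.1 (embR q.2 y)))
    (by
      refine Finset.card_image_le.trans ?_
      rw [Finset.card_product, Finset.card_univ, Fintype.card_fun, Fintype.card_bool,
        Fintype.card_fin, pow_add]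
      exact Nat.mul_le_mul_right _ h𝓛)
  refine ⟨cnfOf hNb b F, cnfOf_unsat hNb b F hF1, (cnfOf_card hNb b s1 F).trans s4, ?_, ?_⟩
  · intro C hC
    exact (cnfOf_width hNb b F C hC).trans s5
  · intro T hTin hTtests hTcard
    have hmain := avg_regime M b n L d b N W hM hL (by omega) hb hd7 hd (by omega) hNb hnlt s3 𝓛 F
      hF2 T hTin hTtests hTcard
    have hcard : Nat.card {x : Fin n → Bool // ∃ C ∈ T.run x, C ∈ cnfOf hNb b F ∧ Falsifies x C}
        = ((Finset.univ : Finset (Fin n → Bool)).filter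
          (fun x => ∃ C ∈ T.run x, C ∈ cnfOf hNb b F ∧ Falsifies x C)).card := by
      rw [Nat.card_eq_fintype_card, Fintype.card_subtype]
    rw [hcard]
    convert hmain

end Pool.Agent.T9h20
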