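import Mathlib
import Pool.Agent.T9h20.TreeMain

/-!
The size-depth trade-off for semantic refutations.
-/

namespace Pool.Agent.T9h20

open Finset

set_option linter.unusedSectionVars false
set_option linter.unusedVariables false

lemma choose_two_succ (r : ℕ) : (((r + 1).choose 2 : ℕ) : ℝ) = (r.choose 2 : ℕ) + r := by
  have : (r + 1).choose 2 = r.choose 1 + r.choose 2 := Nat.choose_succ_succ r 1
  rw [this, Nat.choose_one_right]
  push_cast
  ring

/-- The multi-phase argument. -/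
theorem dag_phases {N b d k N1 n : ℕ} (hd : 1 ≤ d)
    {F : (Finset (Fin N) × (Fin N → (Fin b → Bool))) → Bool}
    {L : Finset ((Fin N → (Fin b → Bool)) → Bool)}
    (hsat : ∀ c ∈ configs d L n, SatFor d k N1 (1 / (8 * (n + 1))) F c)
    {ι : Type} [Fintype ι] [Nonempty ι]
    (X : ι → (Fin N → (Fin b → Bool)) → Bool) (hXL : ∀ v, X v ∈ L) (rank : ι → ℕ)
    (hdag : DagOK d k F X rank) (hE : EE N N1 (Fin b → Bool) ≤ 2 ^ (d * N)) (hbN : b * N ≤ n)
    (r : ℕ) : ∀ (u : ι) (m0 : ℝ), 0 < m0 → Rich d k N1 F L (X u) m0 →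
      r * Real.logb 2 m0 - (r.choose 2 : ℕ) * (Real.logb 2 (Fintype.card ι) + (d * N + 3))
        - r * (2 * (d * N) + 4) ≤ rank u := by
  have hθ : (0 : ℝ) < 1 / (8 * (n + 1)) := by positivity
  have hθ8 : (1 : ℝ) / (8 * (n + 1)) ≤ 1 / 8 := by
    apply one_div_le_one_div_of_le (by norm_num)
    have : (0 : ℝ) ≤ n := Nat.cast_nonneg _
    linarith
  have hθ2 : (1 : ℝ) / (8 * (n + 1)) ≤ 1 / 2 := by linarith
  have hE1 : (1 : ℝ) ≤ EE N N1 (Fin b → Bool) := EE_one_le N N1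
  have hs1 : (1 : ℝ) ≤ Fintype.card ι := by exact_mod_cast Fintype.card_pos
  have hlogs : 0 ≤ Real.logb 2 (Fintype.card ι) := Real.logb_nonneg (by norm_num) hs1
  have hdN : (0 : ℝ) ≤ d * N := by positivity
  induction r with
  | zero =>
    intro u m0 _ _
    simp
  | succ r ih =>
    intro u m0 hm0 hrich
    obtain ⟨lam, hlam⟩ : ∃ lam, lam = Real.logb 2 m0 := ⟨_, rfl⟩
    obtain ⟨σ, hσ⟩ : ∃ σ, σ = Real.logb 2 (Fintype.card ι) + (d * N + 3) := ⟨_, rfl⟩
    obtain ⟨G, hG⟩ : ∃ G : ℝ, G = 2 ^ (d * N) := ⟨_, rfl⟩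
    have hGpos : 0 < G := by rw [hG]; positivity
    have hG1 : 1 ≤ G := by rw [hG]; exact one_le_pow₀ (by norm_num)
    have hσ0 : 0 ≤ σ := by rw [hσ]; linarith
    rw [← hlam, ← hσ, choose_two_succ]
    have hch0 : (0 : ℝ) ≤ (r.choose 2 : ℕ) := Nat.cast_nonneg _
    have hr0 : (0 : ℝ) ≤ r := Nat.cast_nonneg _
    have hrk0 : (0 : ℝ) ≤ rank u := Nat.cast_nonneg _
    push_cast
    by_cases hsmall : lam ≤ 2 * (d * N) + 4
    · -- all terms are nonpositive
      have h1 : ((r : ℝ) + 1) * lam ≤ (r + 1) * (2 * (d * N) + 4) :=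
        mul_le_mul_of_nonneg_left hsmall (by linarith)
      have h2 : (0 : ℝ) ≤ ((r.choose 2 : ℕ) + r) * σ := by positivity
      linarith
    push Not at hsmall
    have hm0eq : m0 = (2 : ℝ) ^ lam := by
      rw [hlam, Real.rpow_logb (by norm_num) (by norm_num) hm0]
    have hGeq : G = (2 : ℝ) ^ ((d * N : ℕ) : ℝ) := by
      rw [hG, Real.rpow_natCast]
    obtain ⟨h, hh⟩ : ∃ h : ℕ, h = ⌊lam - (2 * (d * N) + 3)⌋₊ := ⟨_, rfl⟩
    have hnn : 0 ≤ lam - (2 * (d * N : ℝ) + 3) := by linarith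
    have hh1 : (h : ℝ) ≤ lam - (2 * (d * N) + 3) := by
      rw [hh]; exact Nat.floor_le hnn
    have hh2 : lam - (2 * (d * N) + 3) - 1 < h := by
      rw [hh]; exact Nat.sub_one_lt_floor _
    -- m0 is at most |Ω| G
    have hm0le : m0 ≤ 2 ^ (b * N + d * N) := by
      obtain ⟨Y, S, _, _, _, hm⟩ := hrich
      have h1 : (Y.card : ℝ) ≤ 2 ^ (b * N) := by
        have h2 := Finset.card_le_univ Y
        rw [Fintype.card_fun, Fintype.card_fun, Fintype.card_bool, Fintype.card_fin,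
          Fintype.card_fin, ← pow_mul] at h2
        exact_mod_cast h2
      have h3 : (2 : ℝ) ^ (d * S.card) ≤ 2 ^ (d * N) := by
        apply pow_le_pow_right₀ (by norm_num)
        apply Nat.mul_le_mul_left
        have := Finset.card_le_univ S
        simpa using this
      calc m0 ≤ Y.card * 2 ^ (d * S.card) := hm
        _ ≤ 2 ^ (b * N) * 2 ^ (d * N) := mul_le_mul h1 h3 (by positivity) (by positivity)
        _ = _ := by rw [pow_add]
    have hlamle : lam ≤ b * N + d * N := by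
      have h1 : (2 : ℝ) ^ lam ≤ (2 : ℝ) ^ ((b * N + d * N : ℕ) : ℝ) := by
        rw [← hm0eq, Real.rpow_natCast]
        exact hm0le
      have h2 := (Real.rpow_le_rpow_left_iff (by norm_num : (1 : ℝ) < 2)).1 h1
      push_cast at h2
      exact h2
    have hhn : h ≤ n := by
      have h1 : (h : ℝ) ≤ b * N := by linarith
      have h2 : (h : ℝ) ≤ n := by
        refine h1.trans ?_
        exact_mod_cast hbN
      exact_mod_cast h2
    have hpw := half_le_pow n h hhn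
    have hfac : (1 : ℝ) / 2 < (1 - 2 * (1 / (8 * ((n : ℝ) + 1)))) ^ h * (1 - 1 / (8 * (n + 1))) := by
      have h1 : (7 : ℝ) / 8 ≤ 1 - 1 / (8 * (n + 1)) := by linarith
      calc (1 : ℝ) / 2 < 3 / 4 * (7 / 8) := by norm_num
        _ ≤ _ := mul_le_mul hpw h1 (by norm_num) (by positivity)
    -- 2^h * G * G ≤ m0 / 8
    have h2h : (2 : ℝ) ^ h * EE N N1 (Fin b → Bool) * G ≤ m0 / 8 := by
      have h1 : (2 : ℝ) ^ h * G * G ≤ m0 / 8 := by
        rw [hGeq, hm0eq, ← Real.rpow_natCast 2 h, ← Real.rpow_add (by norm_num),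
          ← Real.rpow_add (by norm_num), le_div_iff₀ (by norm_num)]
        have h8 : (8 : ℝ) = (2 : ℝ) ^ (3 : ℝ) := by
          rw [show (3 : ℝ) = ((3 : ℕ) : ℝ) by norm_num, Real.rpow_natCast]
          norm_num
        rw [h8, ← Real.rpow_add (by norm_num)]
        apply Real.rpow_le_rpow_of_exponent_le (by norm_num)
        push_cast
        linarith
      refine le_trans ?_ h1
      apply mul_le_mul_of_nonneg_right _ hGpos.le
      apply mul_le_mul_of_nonneg_left _ (by positivity)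
      rw [hG]; exact hE
    -- the next threshold
    obtain ⟨m1, hm1⟩ : ∃ m1 : ℝ, m1 = m0 / (8 * Fintype.card ι * G) := ⟨_, rfl⟩
    have hm1pos : 0 < m1 := by rw [hm1]; positivity
    have hlogm1 : Real.logb 2 m1 = lam - σ := by
      have hspos : (0 : ℝ) < Fintype.card ι := by linarith
      rw [hm1, Real.logb_div hm0.ne' (by positivity), Real.logb_mul (by positivity) hGpos.ne',
        Real.logb_mul (by norm_num) hspos.ne', ← hlam, hσ]
      have e1 : Real.logb 2 8 = 3 := by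
        rw [show (8 : ℝ) = 2 ^ (3 : ℕ) by norm_num, Real.logb_pow, Real.logb_self_eq_one (by norm_num)]
        norm_num
      have e2 : Real.logb 2 G = d * N := by
        rw [hG, Real.logb_pow, Real.logb_self_eq_one (by norm_num)]
        push_cast
        ring
      rw [e1, e2]
      ring
    have hprod : (Fintype.card ι : ℝ) * m1 * G = m0 / 8 := by
      rw [hm1]
      have hspos : (0 : ℝ) < Fintype.card ι := by linarith
      field_simp
    by_cases hm1big : EE N N1 (Fin b → Bool) * 2 ^ (d * N) < m1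
    · obtain ⟨v, hv1, hv2⟩ := dag_phase hd hθ hθ2 hsat X hXL rank hdag u m0 m1 h hhn hrich hm1big (by
        rw [← hG, add_mul, hprod]
        calc m0 / 8 + 2 ^ h * EE N N1 (Fin b → Bool) * G ≤ m0 / 8 + m0 / 8 := by linarith
          _ < m0 * (1 / 2) := by linarith
          _ < _ := mul_lt_mul_of_pos_left hfac hm0)
      have hih := ih v m1 hm1pos hv2
      rw [hlogm1, ← hσ] at hih
      have hv1' : (rank v : ℝ) + h ≤ rank u := by exact_mod_cast hv1
      linarith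
    · push Not at hm1big
      have hsur := dag_survive hd hθ hθ2 hsat X hXL rank hdag u m0 h hhn hrich (by
        rw [← hG]
        calc 2 ^ h * EE N N1 (Fin b → Bool) * G ≤ m0 / 8 := h2h
          _ < m0 * (1 / 2) := by linarith
          _ < _ := mul_lt_mul_of_pos_left hfac hm0)
      have hsur' : (h : ℝ) ≤ rank u := by exact_mod_cast hsur
      have hle : lam - σ ≤ 2 * (d * N) := by
        rw [← hlogm1]
        have h1 : m1 ≤ 2 ^ (2 * (d * N)) := by
          refine hm1big.trans ?_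
          rw [two_mul, pow_add]
          exact mul_le_mul_of_nonneg_right hE (by positivity)
        have h2 := Real.logb_le_logb_of_le (b := 2) (by norm_num) hm1pos h1
        rw [Real.logb_pow, Real.logb_self_eq_one (by norm_num)] at h2
        push_cast at h2
        linarith
      have h3 : (r : ℝ) * (lam - σ) ≤ r * (2 * (d * N) + 4) :=
        mul_le_mul_of_nonneg_left (by linarith) hr0
      have h4 : (0 : ℝ) ≤ (r.choose 2 : ℕ) * σ := by positivity
      nlinarith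

/-- The exponent arithmetic of the DAG theorem. -/
lemma dag_arith (ε : ℝ) (hε : 0 < ε) (r a d b n N : ℕ) (hεa : ((r : ℝ) + 4) ^ 2 ≤ ε * a)
    (ha3 : 3 ≤ a) (hb : b = a * d) (hd : 14 ≤ d) (hnlt : n ≤ (N + 1) * b) (hN : 2 * a ≤ N)
    (hεr : ε < r) :
    (r - ε) * n ≤ r * (b * N) - (r.choose 2 : ℕ) * (d * N + 3) - r * (2 * (d * N) + 4) := by
  have e2 : (b : ℝ) = a * d := by rw [hb]; push_cast; ring
  have e3 : (n : ℝ) ≤ (N + 1) * b := by exact_mod_cast hnlt
  have e4 : (14 : ℝ) ≤ d := by exact_mod_cast hd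
  have e5 : (2 * a : ℝ) ≤ N := by exact_mod_cast hN
  have e6 : (3 : ℝ) ≤ a := by exact_mod_cast ha3
  have hr0 : (0 : ℝ) ≤ r := Nat.cast_nonneg _
  have hdN : (14 * 6 : ℝ) ≤ d * N := by nlinarith
  have hch : ((r.choose 2 : ℕ) : ℝ) ≤ r * r / 2 := by
    have h1 : r.choose 2 * 2 ≤ r * r := by
      rw [Nat.choose_two_right]
      have := Nat.div_mul_le_self (r * (r - 1)) 2
      exact this.trans (Nat.mul_le_mul_left r (Nat.sub_le r 1))
    have h2 : ((r.choose 2 : ℕ) : ℝ) * 2 ≤ r * r := by exact_mod_cast h1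
    linarith
  have hch0 : (0 : ℝ) ≤ (r.choose 2 : ℕ) := Nat.cast_nonneg _
  have h1 : (r - ε) * n ≤ (r - ε) * ((N + 1) * b) :=
    mul_le_mul_of_nonneg_left e3 (by linarith)
  have h2 : (r - ε) * ((N + 1) * b) = r * (b * N) + r * b - ε * ((N + 1) * b) := by ring
  have h3 : ε * ((N + 1) * b) ≥ ((r : ℝ) + 4) ^ 2 * (d * N) := by
    rw [e2]
    have hNd : (0 : ℝ) ≤ (N + 1) * d := by positivity
    calc ε * ((N + 1) * (a * d)) = (ε * a) * ((N + 1) * d) := by ring
      _ ≥ ((r : ℝ) + 4) ^ 2 * ((N + 1) * d) := mul_le_mul_of_nonneg_right hεa hNd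
      _ ≥ ((r : ℝ) + 4) ^ 2 * (d * N) := by
          apply mul_le_mul_of_nonneg_left _ (by positivity)
          nlinarith
  have h4 : (b : ℝ) ≤ d * N / 2 := by
    rw [e2]
    nlinarith
  have h5 : (r : ℝ) * b ≤ r * (d * N / 2) := mul_le_mul_of_nonneg_left h4 hr0
  have h6 : ((r.choose 2 : ℕ) : ℝ) * (d * N + 3) ≤ r * r / 2 * (2 * (d * N)) := by
    apply mul_le_mul hch (by linarith) (by linarith) (by positivity)
  have h7 : (r : ℝ) * (2 * (d * N) + 4) ≤ r * (3 * (d * N)) :=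
    mul_le_mul_of_nonneg_left (by linarith) hr0
  have h8 : (r : ℝ) * (d * N / 2) + r * r / 2 * (2 * (d * N)) + r * (3 * (d * N))
      ≤ ((r : ℝ) + 4) ^ 2 * (d * N) := by
    have h9 : (r : ℝ) * (d * N / 2) + r * r / 2 * (2 * (d * N)) + r * (3 * (d * N))
        = (r * r + 7 / 2 * r) * (d * N) := by ring
    rw [h9]
    apply mul_le_mul_of_nonneg_right _ (by linarith)
    nlinarith
  linarith

/-- The main regime of the DAG theorem. -/
lemma dag_regime (ε : ℝ) (hε : 0 < ε) (r a k n d' d b N N1 : ℕ)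
    (hεa : ((r : ℝ) + 4) ^ 2 ≤ ε * a) (ha3 : 3 ≤ a)
    (hk : 1 ≤ k) (hd : d = 2 * d') (hb : b = a * d) (hd14 : 14 ≤ d)
    (hNb : N * b ≤ n) (hnlt : n ≤ (N + 1) * b) (hm0N : k + 2 * a ≤ N) (hN1 : N1 = N - N / a)
    (Ls : ℕ) (hLd : Ls < 2 ^ d) (𝓛 : Finset ((Fin n → Bool) → Bool))
    (F : (Finset (Fin N) × (Fin N → (Fin b → Bool))) → Bool)
    (hF2 : ∀ c ∈ configs d (𝓛.image (fun f => fun y : Fin N → (Fin b → Bool) => !(f (emb n y)))) n,
      SatFor d k N1 (1 / (8 * (n + 1))) F c)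
    (π : SemRefutation (cnfOf hNb k F) Ls (𝓛 : Set ((Fin n → Bool) → Bool))) :
    (r - ε) * n ≤ π.rank π.root + (r.choose 2 : ℕ) * Real.logb 2 π.size := by
  classical
  have hs1 : 1 ≤ π.size := Nat.lt_of_le_of_lt (Nat.zero_le _) π.root.2
  have hlogs : 0 ≤ Real.logb 2 π.size := Real.logb_nonneg (by norm_num) (by exact_mod_cast hs1)
  by_cases hεr : (r : ℝ) ≤ ε
  · have h1 : ((r : ℝ) - ε) * n ≤ 0 :=
      mul_nonpos_of_nonpos_of_nonneg (by linarith) (Nat.cast_nonneg _)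
    refine h1.trans ?_
    positivity
  push Not at hεr
  have hdb : d ≤ b := by
    rw [hb]
    nlinarith
  have hbNa : b * (N / a) ≤ d * N := by
    have h1 : a * (N / a) ≤ N := Nat.mul_div_le N a
    calc b * (N / a) = d * (a * (N / a)) := by rw [hb]; ring
      _ ≤ d * N := Nat.mul_le_mul_left d h1
  have hE : EE N N1 (Fin b → Bool) ≤ 2 ^ (d * N) := by
    unfold EE
    have h1 : N - N1 = N / a := by
      rw [hN1, Nat.sub_sub_self (Nat.div_le_self N a)]
    rw [h1, Fintype.card_fun, Fintype.card_bool, Fintype.card_fin]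
    push_cast
    rw [← pow_mul]
    exact pow_le_pow_right₀ (by norm_num) hbNa
  haveI : Nonempty (Fin π.size) := ⟨π.root⟩
  have hdag : DagOK d k F (fun (i : Fin π.size) (y : Fin N → (Fin b → Bool)) =>
      !(π.line i (emb n y))) π.rank := by
    refine ⟨fun i => ?_⟩
    rcases π.sound i with ⟨ψ, hψ1, hψ2, hψ3⟩ | ⟨j, l, hj, hl, hcov⟩
    · left
      obtain ⟨E, h1, h2, h3⟩ := entries_of_clauses hNb k F ψ
      refine ⟨E, by omega, h2, ?_⟩
      intro y hy
      obtain ⟨C, hC, hCy⟩ := hψ3 (emb n y) (by simpa using hy)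
      exact h3 y ⟨C, hC, hψ1 hC, hCy⟩
    · right
      refine ⟨j, l, hj, hl, ?_⟩
      intro y hy
      rcases hcov (emb n y) (by simpa using hy) with h | h
      · left; simp [h]
      · right; simp [h]
  have hXL : ∀ i : Fin π.size, (fun (y : Fin N → (Fin b → Bool)) => !(π.line i (emb n y)))
      ∈ 𝓛.image (fun f => fun y : Fin N → (Fin b → Bool) => !(f (emb n y))) := by
    intro i
    exact Finset.mem_image.2 ⟨π.line i, Finset.mem_coe.1 (π.line_mem i), rfl⟩
  have hcardΩ : ((Finset.univ : Finset (Fin N → (Fin b → Bool))).card : ℝ) = 2 ^ (b * N) := by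
    rw [Finset.card_univ, Fintype.card_fun, Fintype.card_fun, Fintype.card_bool,
      Fintype.card_fin, Fintype.card_fin, ← pow_mul]
    push_cast
    rfl
  have hrich : Rich d k N1 F
      (𝓛.image (fun f => fun y : Fin N → (Fin b → Bool) => !(f (emb n y))))
      (fun (y : Fin N → (Fin b → Bool)) => !(π.line π.root (emb n y))) (2 ^ (b * N)) := by
    refine ⟨Finset.univ, ∅, ?_, univ_inv hdb hk F, ?_, ?_⟩
    · rw [states]; exact Finset.mem_insert_self _ _
    · intro y _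
      simp [π.root_false]
    · rw [hcardΩ]
      simp
  have hmain := dag_phases (n := n) (by omega : 1 ≤ d) hF2
    (fun (i : Fin π.size) (y : Fin N → (Fin b → Bool)) => !(π.line i (emb n y))) hXL π.rank hdag
    hE (by rw [mul_comm]; exact hNb) r π.root (2 ^ (b * N)) (by positivity) hrich
  rw [Fintype.card_fin, Real.logb_pow, Real.logb_self_eq_one (by norm_num)] at hmain
  have har := dag_arith ε hε r a d b n N hεa ha3 hb hd14 hnlt (by omega) hεr
  push_cast at hmain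
  have hch0 : (0 : ℝ) ≤ (r.choose 2 : ℕ) := Nat.cast_nonneg _
  nlinarith

/-- **Size-depth trade-off for semantic refutations.** -/
theorem sem_refutation_main (ε : ℝ) (hε : 0 < ε) (r : ℕ) : ∃ K : ℕ, ∀ n L : ℕ, 1 ≤ n → 1 ≤ L →
    (n + L) ^ K ≤ 2 ^ n → ∀ 𝓛 : Finset ((Fin n → Bool) → Bool), 𝓛.card ≤ 2 ^ L →
    ∃ φ : CNF n, Unsat φ ∧ φ.card ≤ (n + L) ^ K ∧ (∀ C ∈ φ, 2 ^ C.card ≤ (n + L) ^ K) ∧
      ∀ π : SemRefutation φ L (𝓛 : Set ((Fin n → Bool) → Bool)),
        (r - ε) * n ≤ π.rank π.root + (r.choose 2 : ℕ) * Real.logb 2 π.size := by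
  obtain ⟨a, ha3, hεa⟩ : ∃ a : ℕ, 3 ≤ a ∧ ((r : ℝ) + 4) ^ 2 ≤ ε * a := by
    refine ⟨⌈((r : ℝ) + 4) ^ 2 / ε⌉₊ + 2, ?_, ?_⟩
    · have : 0 < ⌈((r : ℝ) + 4) ^ 2 / ε⌉₊ := Nat.ceil_pos.2 (by positivity)
      omega
    · have h1 := Nat.le_ceil (((r : ℝ) + 4) ^ 2 / ε)
      have h2 : ((r : ℝ) + 4) ^ 2 / ε ≤ ((⌈((r : ℝ) + 4) ^ 2 / ε⌉₊ + 2 : ℕ) : ℝ) := by
        push_cast; linarith
      rw [div_le_iff₀ hε] at h2
      linarith
  obtain ⟨k, hk, hka⟩ := exists_k a (by omega)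
  refine ⟨46 * a * (k + 2 * a) + k + 1, ?_⟩
  intro n L hn hL hnL 𝓛 h𝓛
  obtain ⟨B, hB⟩ : ∃ B, B = n + L := ⟨_, rfl⟩
  rw [← hB] at hnL ⊢
  obtain ⟨W, hW⟩ : ∃ W, W = n + L + n + 4 := ⟨_, rfl⟩
  have hB2 : 2 ≤ B := by omega
  have hWB : W ≤ B ^ 3 := by
    have h1 : B ^ 3 = B * B * B := by ring
    have h2 : 4 * B ≤ B * B * B := by nlinarith
    omega
  obtain ⟨hd1, hd2⟩ := dprime_spec W B (by omega) hB2 hWB
  obtain ⟨d', hd'⟩ : ∃ d', d' = 4 * Nat.clog 2 W + 7 := ⟨_, rfl⟩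
  rw [← hd'] at hd1 hd2
  obtain ⟨d, hd⟩ : ∃ d, d = 2 * d' := ⟨_, rfl⟩
  obtain ⟨b, hb⟩ : ∃ b, b = a * d := ⟨_, rfl⟩
  have hdpos : 14 ≤ d := by omega
  have hbpos : 0 < b := by
    rw [hb]
    positivity
  obtain ⟨N, hN⟩ : ∃ N, N = n / b := ⟨_, rfl⟩
  have hNb : N * b ≤ n := by rw [hN]; exact Nat.div_mul_le_self n b
  have hNn : N ≤ n := by nlinarith
  have hLd : L < 2 ^ d := by
    have h1 : 2 ^ d' ≤ 2 ^ d := Nat.pow_le_pow_right (by norm_num) (by omega)
    have h2 : W ≤ W ^ 4 := Nat.le_self_pow (by norm_num) W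
    omega
  obtain ⟨sb1, sb2, sb3⟩ := size_bounds a k n B L d' d b N hd hb hd2 (by omega) (by omega)
  have hKlt : B ^ (46 * a * (k + 2 * a) + k) < B ^ (46 * a * (k + 2 * a) + k + 1) :=
    Nat.pow_lt_pow_right (by omega) (by omega)
  have hreg : (k + 2 * a) * b ≤ n := by
    by_contra hreg
    push Not at hreg
    have h2n := sb3 hreg.le
    omega
  have hm0N : k + 2 * a ≤ N := by rw [hN]; exact (Nat.le_div_iff_mul_le hbpos).2 hreg
  have hnlt : n ≤ (N + 1) * b := by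
    have h1 := Nat.div_add_mod n b
    have h2 := Nat.mod_lt n hbpos
    rw [← hN] at h1
    nlinarith
  have hNb2 : n ≤ 2 * N * b := by nlinarith
  classical
  obtain ⟨F, hF1, hF2⟩ := setup a k n L n d' d b N (N - N / a) W (by omega) hk hka hW hd1 hd hb
    hNb hNb2 (by omega) (by omega) rfl hn
    (𝓛.image (fun f => fun y : Fin N → (Fin b → Bool) => !(f (emb n y))))
    (Finset.card_image_le.trans h𝓛)
  refine ⟨cnfOf hNb k F, cnfOf_unsat hNb k F hF1,
    ((cnfOf_card hNb k (by omega) F).trans sb1).trans hKlt.le, ?_, ?_⟩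
  · intro C hC
    exact ((Nat.pow_le_pow_right (by norm_num) (cnfOf_width hNb k F C hC)).trans sb2).trans hKlt.le
  · intro π
    exact dag_regime ε hε r a k n d' d b N (N - N / a) hεa ha3 hk hd hb hdpos hNb hnlt hm0N rfl
      L hLd 𝓛 F hF2 π

end Pool.Agent.T9h20
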