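import Mathlib
import Pool.Agent.T9h20.AvgMain
import Pool.Agent.T9h20.DagMain

/-!
The size-depth trade-off for semantic refutations, for all depths.
-/

namespace Pool.Agent.T9h20

open Finset

set_option linter.unusedSectionVars false
set_option linter.unusedVariables false

/-- The whole space is not cut by the peeling. -/
lemma pickT_univ {N b d : ℕ} (hdb : d < b) :
    pickT d ∅ (Finset.univ : Finset (Fin N → (Fin b → Bool))) = ∅ := by
  have hne : (Finset.univ : Finset (Fin N → (Fin b → Bool))).Nonempty :=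
    ⟨fun _ => default, Finset.mem_univ _⟩
  obtain ⟨⟨_, _, h3⟩, _⟩ := pick_spec d ∅ (Finset.univ : Finset (Fin N → (Fin b → Bool))) hne
  have hT : pickT d ∅ (Finset.univ : Finset (Fin N → (Fin b → Bool)))
      = (pick d ∅ (Finset.univ : Finset (Fin N → (Fin b → Bool)))).1 := rfl
  by_contra hcon
  rw [hT] at hcon
  obtain ⟨T, hTd⟩ : ∃ T, T = (pick d ∅ (Finset.univ : Finset (Fin N → (Fin b → Bool)))).1 :=
    ⟨_, rfl⟩
  rw [← hTd] at h3 hcon
  have hTpos : 1 ≤ T.card := Finset.card_pos.2 (Finset.nonempty_iff_ne_empty.2 hcon)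
  have hTN : T.card ≤ N := by
    have := Finset.card_le_univ T
    simpa using this
  have h1 := card_le_of_const (agreeOn (Finset.univ : Finset (Fin N → (Fin b → Bool))) T
    (pick d ∅ (Finset.univ : Finset (Fin N → (Fin b → Bool)))).2) T (by
      intro y hy y' hy' i hi
      rw [(Finset.mem_filter.1 hy).2 i hi, (Finset.mem_filter.1 hy').2 i hi])
  rw [Fintype.card_fun, Fintype.card_bool, Fintype.card_fin, ← pow_mul] at h1
  rw [Finset.card_univ, Fintype.card_fun, Fintype.card_fun, Fintype.card_bool,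
      Fintype.card_fin, Fintype.card_fin, ← pow_mul] at h3
  have h4 : 2 ^ (b * N) ≤ 2 ^ (b * (N - T.card) + d * T.card) := by
    rw [pow_add]
    exact h3.trans (Nat.mul_le_mul_right _ h1)
  have h5 := (Nat.pow_le_pow_iff_right (by norm_num : 1 < 2)).1 h4
  have h6 : b * (N - T.card) + b * T.card = b * N := by
    rw [← mul_add, Nat.sub_add_cancel hTN]
  have h7 : d * T.card < b * T.card := Nat.mul_lt_mul_of_pos_right hdb hTpos
  omega

lemma clean_univ {N b d k N1 : ℕ} (hdb : d < b) (hk : 1 ≤ k)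
    (F : (Finset (Fin N) × (Fin N → (Fin b → Bool))) → Bool) :
    cleanSet d k N1 F (fun _ : Fin N → (Fin b → Bool) => true) = Finset.univ := by
  classical
  have hs : splitY (Finset.univ : Finset (Fin N → (Fin b → Bool))) (fun _ => true) true
      = Finset.univ := by
    unfold splitY
    simp
  have hpe0 : pe d ∅ (Finset.univ : Finset (Fin N → (Fin b → Bool))) 0 = Finset.univ := rfl
  have hcell : cell d ∅ (Finset.univ : Finset (Fin N → (Fin b → Bool))) = Finset.univ := by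
    have hT := pickT_univ (N := N) hdb
    unfold pickT at hT
    unfold cell agreeOn
    rw [hT]
    simp
  have hR : ∀ y, Rf d ∅ (Finset.univ : Finset (Fin N → (Fin b → Bool))) y = ∅ := by
    intro y
    rw [Rf_cell d ∅ (Finset.univ : Finset (Fin N → (Fin b → Bool))) 0
      (by rw [hpe0, hcell]; exact Finset.mem_univ y), hpe0, pickT_univ hdb, Finset.union_empty]
  unfold cleanSet
  rw [hs]
  apply Finset.filter_true_of_mem
  intro y _
  rw [hR y]
  refine ⟨by simp, ?_⟩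
  intro V hV hVk
  exfalso
  rw [Finset.subset_empty.1 hV] at hVk
  simp at hVk
  omega

/-- The multi-phase argument for all depths. -/
theorem dag_phases2 {N b d k N1 D : ℕ} {c H : ℝ} (hc : 1 ≤ c)
    (hH : Hf (Fintype.card (Fin N → (Fin b → Bool))) ≤ H)
    {F : (Finset (Fin N) × (Fin N → (Fin b → Bool))) → Bool}
    {L : Finset ((Fin N → (Fin b → Bool)) → Bool)}
    (hfew : ∀ c ∈ cfgs d L D, FewBad d k N1 (1 / (8 * (D + 1) ^ 2)) F c)
    {ι : Type} [Fintype ι] [Nonempty ι]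
    (X : ι → (Fin N → (Fin b → Bool)) → Bool) (hXL : ∀ v, X v ∈ L) (rank : ι → ℕ)
    (hdag : DagOK d k F X rank) (hbN : b * N ≤ D) (X0 : ℝ) (hX0 : 1 ≤ X0)
    (hX : EE N N1 (Fin b → Bool) * (1 + H / c) ^ (D + 1) * (c * 2 ^ d) ^ N ≤ X0) (r : ℕ) :
    ∀ (u : ι) (M : ℝ), 0 < M → M ≤ (cleanSet d k N1 F (X u)).card →
      r * Real.logb 2 M - (r.choose 2 : ℕ) * Real.logb 2 (4 * Fintype.card ι)
        - r * (Real.logb 2 (4 * X0) + 1) ≤ rank u := by
  have hs1 : (1 : ℝ) ≤ Fintype.card ι := by exact_mod_cast Fintype.card_pos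
  have hσ0 : 0 ≤ Real.logb 2 (4 * Fintype.card ι) := Real.logb_nonneg (by norm_num) (by linarith)
  have hτ0 : 0 ≤ Real.logb 2 (4 * X0) := Real.logb_nonneg (by norm_num) (by linarith)
  induction r with
  | zero =>
    intro u m0 _ _
    simp
  | succ r ih =>
    intro u M hM hMc
    obtain ⟨lam, hlam⟩ : ∃ lam, lam = Real.logb 2 M := ⟨_, rfl⟩
    obtain ⟨σ, hσ⟩ : ∃ σ, σ = Real.logb 2 (4 * Fintype.card ι) := ⟨_, rfl⟩
    obtain ⟨τ, hτ⟩ : ∃ τ, τ = Real.logb 2 (4 * X0) := ⟨_, rfl⟩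
    rw [← hlam, ← hσ, ← hτ, choose_two_succ]
    rw [← hσ] at hσ0
    rw [← hτ] at hτ0
    have hch0 : (0 : ℝ) ≤ (r.choose 2 : ℕ) := Nat.cast_nonneg _
    have hr0 : (0 : ℝ) ≤ r := Nat.cast_nonneg _
    have hrk0 : (0 : ℝ) ≤ rank u := Nat.cast_nonneg _
    push_cast
    by_cases hsmall : lam ≤ τ + 1
    · have h1 : ((r : ℝ) + 1) * lam ≤ (r + 1) * (τ + 1) :=
        mul_le_mul_of_nonneg_left hsmall (by linarith)
      have h2 : (0 : ℝ) ≤ ((r.choose 2 : ℕ) + r) * σ := by positivity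
      linarith
    push Not at hsmall
    have hMeq : M = (2 : ℝ) ^ lam := by
      rw [hlam, Real.rpow_logb (by norm_num) (by norm_num) hM]
    have hXeq : 4 * X0 = (2 : ℝ) ^ τ := by
      rw [hτ, Real.rpow_logb (by norm_num) (by norm_num) (by linarith)]
    obtain ⟨h, hh⟩ : ∃ h : ℕ, h = ⌊lam - τ⌋₊ := ⟨_, rfl⟩
    have hnn : 0 ≤ lam - τ := by linarith
    have hh1 : (h : ℝ) ≤ lam - τ := by rw [hh]; exact Nat.floor_le hnn
    have hh2 : lam - τ - 1 < h := by rw [hh]; exact Nat.sub_one_lt_floor _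
    have hMle : M ≤ 2 ^ (b * N) := by
      refine hMc.trans ?_
      have h2 := Finset.card_le_univ (cleanSet d k N1 F (X u))
      rw [Fintype.card_fun, Fintype.card_fun, Fintype.card_bool, Fintype.card_fin,
        Fintype.card_fin, ← pow_mul] at h2
      exact_mod_cast h2
    have hlamle : lam ≤ b * N := by
      have h1 : (2 : ℝ) ^ lam ≤ (2 : ℝ) ^ ((b * N : ℕ) : ℝ) := by
        rw [← hMeq, Real.rpow_natCast]
        exact hMle
      have h2 := (Real.rpow_le_rpow_left_iff (by norm_num : (1 : ℝ) < 2)).1 h1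
      push_cast at h2
      exact h2
    have hhD : h ≤ D := by
      have h1 : (h : ℝ) ≤ b * N := by linarith
      have h2 : (h : ℝ) ≤ D := by
        refine h1.trans ?_
        exact_mod_cast hbN
      exact_mod_cast h2
    have hθh : (1 : ℝ) / (8 * (D + 1) ^ 2) * (2 * h + 1) ≤ 1 / 4 := by
      have h1 : (h : ℝ) ≤ D := by exact_mod_cast hhD
      have h2 : (0 : ℝ) ≤ D := Nat.cast_nonneg _
      rw [div_mul_eq_mul_div, one_mul, div_le_div_iff₀ (by positivity) (by norm_num)]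
      nlinarith
    have h2h : (2 : ℝ) ^ h * (4 * X0) ≤ M := by
      rw [hXeq, hMeq, ← Real.rpow_natCast 2 h, ← Real.rpow_add (by norm_num)]
      apply Real.rpow_le_rpow_of_exponent_le (by norm_num)
      linarith
    obtain ⟨v, hv1, hv2⟩ := dag_phase2 (by positivity) hc hH hfew X hXL rank hdag h hhD hθh u M hM
      hMc (by
        have h1 : (2 : ℝ) ^ h * (EE N N1 (Fin b → Bool) * (1 + H / c) ^ (D + 1) * (c * 2 ^ d) ^ N)
            ≤ 2 ^ h * X0 := mul_le_mul_of_nonneg_left hX (by positivity)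
        linarith)
    have hv1' : (rank v : ℝ) + h ≤ rank u := by exact_mod_cast hv1
    obtain ⟨M1, hM1⟩ : ∃ M1 : ℝ, M1 = M / (4 * Fintype.card ι) := ⟨_, rfl⟩
    have hs0 : (0 : ℝ) < Fintype.card ι := by linarith
    have hM1pos : 0 < M1 := by rw [hM1]; positivity
    have hlogM1 : Real.logb 2 M1 = lam - σ := by
      rw [hM1, Real.logb_div hM.ne' (by positivity), ← hlam, ← hσ]
    by_cases hbig : X0 ≤ M1
    · have hM1c : M1 ≤ (cleanSet d k N1 F (X v)).card := by
        refine le_trans ?_ hv2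
        have h3 : M / (2 * Fintype.card ι) = M1 + M1 := by
          rw [hM1]
          field_simp
          ring
        rw [h3]
        linarith
      have hih := ih v M1 hM1pos hM1c
      rw [hlogM1, ← hσ, ← hτ] at hih
      linarith
    · push Not at hbig
      have hle : lam - σ ≤ τ := by
        rw [← hlogM1, hτ]
        exact Real.logb_le_logb_of_le (by norm_num) hM1pos (by linarith)
      have h3 : (r : ℝ) * (lam - σ) ≤ r * (τ + 1) :=
        mul_le_mul_of_nonneg_left (by linarith) hr0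
      have h4 : (0 : ℝ) ≤ (r.choose 2 : ℕ) * σ := by positivity
      have h5 : (0 : ℝ) ≤ rank v := Nat.cast_nonneg _
      nlinarith

/-- The main regime of the all-depth theorem. -/
lemma all_dag_regime (M k n L d b N W : ℕ) (hM : 1 ≤ M) (hL : 1 ≤ L) (hk1 : 1 ≤ k)
    (hb : b = 8 * M * d) (hd14 : 7 ≤ d) (hd : 128 * W ^ 4 ≤ 2 ^ d) (hW : n + L + n + 4 ≤ W)
    (hNb : N * b ≤ n) (hnlt : n ≤ (N + 1) * b) (hNM : 2 * M + 2 ≤ N)
    (𝓛 : Finset ((Fin n → Bool) → Bool))
    (F : (Finset (Fin N) × (Fin N → (Fin b → Bool))) → Bool)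
    (hF2 : ∀ c ∈ cfgs d (𝓛.image (fun f => fun y : Fin N → (Fin b → Bool) => !(f (emb n y)))) n,
      FewBad d k (N - N / (4 * M)) (1 / (8 * (n + 1) ^ 2)) F c)
    (π : SemRefutation (cnfOf hNb k F) L (𝓛 : Set ((Fin n → Bool) → Bool))) (r : ℕ) :
    r * ((1 - 1 / (M : ℝ)) * n) ≤ π.rank π.root + (r.choose 2 : ℕ) * Real.logb 2 (4 * π.size) := by
  classical
  have hdb : d < b := by
    rw [hb]
    nlinarith
  have hs1 : 1 ≤ π.size := Nat.lt_of_le_of_lt (Nat.zero_le _) π.root.2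
  obtain ⟨N1, hN1⟩ : ∃ N1, N1 = N - N / (4 * M) := ⟨_, rfl⟩
  rw [← hN1] at hF2
  have hbN : b * N ≤ n := by rw [mul_comm]; exact hNb
  have hH : Hf (Fintype.card (Fin N → (Fin b → Bool))) ≤ (n : ℝ) + 1 := by
    have h1 : Fintype.card (Fin N → (Fin b → Bool)) = 2 ^ (b * N) := by
      rw [Fintype.card_fun, Fintype.card_fun, Fintype.card_bool, Fintype.card_fin,
        Fintype.card_fin, ← pow_mul]
    rw [h1]
    refine (Hf_pow_two _).trans ?_
    have : ((b * N : ℕ) : ℝ) ≤ n := by exact_mod_cast hbN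
    linarith
  have hc : (1 : ℝ) ≤ 2 ^ d := one_le_pow₀ (by norm_num)
  have hE : EE N N1 (Fin b → Bool) ≤ 2 ^ (2 * d * N) := by
    unfold EE
    have h1 : N - N1 = N / (4 * M) := by
      rw [hN1, Nat.sub_sub_self (Nat.div_le_self N _)]
    rw [h1, Fintype.card_fun, Fintype.card_bool, Fintype.card_fin]
    push_cast
    rw [← pow_mul]
    apply pow_le_pow_right₀ (by norm_num)
    have h2 : 4 * M * (N / (4 * M)) ≤ N := Nat.mul_div_le N _
    calc b * (N / (4 * M)) = 2 * d * (4 * M * (N / (4 * M))) := by rw [hb]; ring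
      _ ≤ 2 * d * N := Nat.mul_le_mul_left _ h2
  have hE1 : (1 : ℝ) ≤ EE N N1 (Fin b → Bool) := EE_one_le N N1
  haveI : Nonempty (Fin π.size) := ⟨π.root⟩
  have h128 : L < 2 ^ d := by
    have h1 : W ≤ W ^ 4 := Nat.le_self_pow (by norm_num) W
    omega
  have hdag : DagOK d k F (fun (i : Fin π.size) (y : Fin N → (Fin b → Bool)) =>
      !(π.line i (emb n y))) π.rank := by
    refine ⟨fun i => ?_⟩
    rcases π.sound i with ⟨ψ, hψ1, hψ2, hψ3⟩ | ⟨j, l, hj, hl, hcov⟩
    · left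
      obtain ⟨E, h1, h2, h3⟩ := entries_of_clauses hNb k F ψ
      refine ⟨E, by omega, h2, ?_⟩
      intro y hy
      obtain ⟨C, hC, hCy⟩ := hψ3 (emb n y) (by simpa using hy)
      exact h3 y ⟨C, hC, hψ1 hC, hCy⟩
    · right
      refine ⟨j, l, hj, hl, ?_⟩
      intro y hy
      rcases hcov (emb n y) (by simpa using hy) with h | h
      · left; simp [h]
      · right; simp [h]
  have hXL : ∀ i : Fin π.size, (fun (y : Fin N → (Fin b → Bool)) => !(π.line i (emb n y)))
      ∈ 𝓛.image (fun f => fun y : Fin N → (Fin b → Bool) => !(f (emb n y))) := by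
    intro i
    exact Finset.mem_image.2 ⟨π.line i, Finset.mem_coe.1 (π.line_mem i), rfl⟩
  have hroot : (fun (y : Fin N → (Fin b → Bool)) => !(π.line π.root (emb n y)))
      = (fun _ => true) := by
    funext y
    simp [π.root_false]
  have hclean : (2 : ℝ) ^ (b * N)
      ≤ ((cleanSet d k N1 F (fun (y : Fin N → (Fin b → Bool)) =>
        !(π.line π.root (emb n y)))).card : ℝ) := by
    rw [hroot, clean_univ hdb hk1 F, Finset.card_univ, Fintype.card_fun, Fintype.card_fun,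
      Fintype.card_bool, Fintype.card_fin, Fintype.card_fin, ← pow_mul]
    push_cast
    exact le_rfl
  have hq := q_pow_le d n (n + 1) n W le_rfl hd (by omega)
  have hG : ((2 : ℝ) ^ d * 2 ^ d) ^ N = 2 ^ (2 * d * N) := by
    rw [← pow_add, ← pow_mul]
    congr 1
    ring
  have hX0 : EE N N1 (Fin b → Bool) * (1 + ((n : ℝ) + 1) / 2 ^ d) ^ (n + 1) * ((2 : ℝ) ^ d * 2 ^ d) ^ N
      ≤ 2 ^ (4 * d * N + 2) := by
    rw [hG]
    calc EE N N1 (Fin b → Bool) * (1 + ((n : ℝ) + 1) / 2 ^ d) ^ (n + 1) * 2 ^ (2 * d * N)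
        ≤ 2 ^ (2 * d * N) * 4 * 2 ^ (2 * d * N) := by
          apply mul_le_mul_of_nonneg_right _ (by positivity)
          exact mul_le_mul hE hq (by positivity) (by positivity)
      _ = 2 ^ (4 * d * N + 2) := by
          rw [show (4 : ℝ) = 2 ^ 2 by norm_num]
          ring
  have hmain := dag_phases2 (c := 2 ^ d) (H := (n : ℝ) + 1) (D := n) hc hH hF2
    (fun (i : Fin π.size) (y : Fin N → (Fin b → Bool)) => !(π.line i (emb n y))) hXL π.rank hdag
    hbN (2 ^ (4 * d * N + 2)) (one_le_pow₀ (by norm_num)) hX0 r π.root (2 ^ (b * N)) (by positivity)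
    hclean
  rw [Fintype.card_fin, Real.logb_pow, Real.logb_self_eq_one (by norm_num)] at hmain
  have hlog4 : Real.logb 2 (4 * (2 : ℝ) ^ (4 * d * N + 2)) = 4 * d * N + 4 := by
    have e1 : (4 : ℝ) * 2 ^ (4 * d * N + 2) = 2 ^ (4 * d * N + 4) := by
      rw [show (4 : ℝ) = 2 ^ 2 by norm_num]
      ring
    rw [e1, Real.logb_pow, Real.logb_self_eq_one (by norm_num)]
    push_cast
    ring
  rw [hlog4] at hmain
  push_cast at hmain
  have hMr : (1 : ℝ) ≤ M := by exact_mod_cast hM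
  have hM0 : (0 : ℝ) < M := by linarith
  have e4 : (n : ℝ) ≤ b * N + b := by
    have : n ≤ b * N + b := by rw [add_mul, one_mul] at hnlt; rw [mul_comm b N]; exact hnlt
    exact_mod_cast this
  have e5 : (b : ℝ) + 4 * d * N + 5 ≤ n / M := by
    rw [le_div_iff₀ hM0]
    have e6 : (b + 4 * d * N + 5) * M ≤ b * N := by
      rw [hb]
      have e7 : 8 * M * d + 5 ≤ 4 * d * N := by nlinarith
      nlinarith
    have e8 : (((b + 4 * d * N + 5) * M : ℕ) : ℝ) ≤ ((b * N : ℕ) : ℝ) := by exact_mod_cast e6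
    push_cast at e8
    have e9 : ((b : ℝ) * N) ≤ n := by exact_mod_cast hbN
    linarith
  have e10 : (1 - 1 / (M : ℝ)) * n ≤ b * N - (4 * d * N + 4 + 1) := by
    have : (1 - 1 / (M : ℝ)) * n = n - n / M := by ring
    rw [this]
    linarith
  have e11 := mul_le_mul_of_nonneg_left e10 (Nat.cast_nonneg r : (0 : ℝ) ≤ r)
  linarith

/-- **Size-depth trade-off for semantic refutations, all depths.** -/
theorem size_depth_all : ∃ K : ℕ, ∀ n L M : ℕ, 1 ≤ n → 1 ≤ L → 1 ≤ M →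
    K * (M * Nat.log 2 (n + L)) ^ 2 ≤ n →
    ∀ 𝓛 : Finset ((Fin n → Bool) → Bool), 𝓛.card ≤ 2 ^ L →
    ∃ φ : CNF n, Unsat φ ∧ φ.card ≤ 2 ^ (K * (M * Nat.log 2 (n + L)) ^ 2) ∧
      (∀ C ∈ φ, C.card ≤ K * (M * Nat.log 2 (n + L)) ^ 2) ∧
      ∀ (π : SemRefutation φ L (𝓛 : Set ((Fin n → Bool) → Bool))) (r : ℕ),
        r * ((1 - 1 / (M : ℝ)) * n)
          ≤ π.rank π.root + (r.choose 2 : ℕ) * Real.logb 2 (4 * π.size) := by
  classical
  refine ⟨40000, ?_⟩
  intro n L M hn hL hM hbig 𝓛 h𝓛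
  obtain ⟨W, hW⟩ : ∃ W, W = n + L + n + 4 := ⟨_, rfl⟩
  obtain ⟨d, hdd⟩ : ∃ d, d = 4 * Nat.clog 2 W + 7 := ⟨_, rfl⟩
  obtain ⟨b, hb⟩ : ∃ b, b = 8 * M * d := ⟨_, rfl⟩
  obtain ⟨N, hN⟩ : ∃ N, N = n / b := ⟨_, rfl⟩
  have hd7 : 7 ≤ d := by omega
  have hbpos : 0 < b := by rw [hb]; positivity
  obtain ⟨s1, s2, s3, s4, s5⟩ := size2 n L M n (L + n) W d b b N hn hL hM (by omega) (by omega)
    (by omega) hdd hb hb hN hbig
  have hd : 128 * W ^ 4 ≤ 2 ^ d := by
    have h1 : W ≤ 2 ^ Nat.clog 2 W := Nat.le_pow_clog (by norm_num) W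
    calc 128 * W ^ 4 ≤ 128 * (2 ^ Nat.clog 2 W) ^ 4 :=
          Nat.mul_le_mul_left _ (Nat.pow_le_pow_left h1 4)
      _ = 2 ^ (4 * Nat.clog 2 W + 7) := by rw [← pow_mul, pow_add]; ring
      _ = 2 ^ d := by rw [hdd]
  have hNb : N * b ≤ n := by rw [hN]; exact Nat.div_mul_le_self n b
  have hnlt : n ≤ (N + 1) * b := by
    have h1 := Nat.div_add_mod n b
    have h2 := Nat.mod_lt n hbpos
    rw [← hN] at h1
    nlinarith
  obtain ⟨F, hF1, hF2⟩ := setup2 (4 * M) b n L n d b N (N - N / (4 * M)) W (by omega)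
    (by rw [hb]; ring) hW hd hNb s2 s1 rfl hn
    (𝓛.image (fun f => fun y : Fin N → (Fin b → Bool) => !(f (emb n y))))
    (Finset.card_image_le.trans h𝓛)
  refine ⟨cnfOf hNb b F, cnfOf_unsat hNb b F hF1, (cnfOf_card hNb b s1 F).trans s4, ?_, ?_⟩
  · intro C hC
    exact (cnfOf_width hNb b F C hC).trans s5
  · intro π r
    exact all_dag_regime M b n L d b N W hM hL (by omega) hb hd7 hd (by omega) hNb hnlt s3 𝓛 F
      hF2 π r

end Pool.Agent.T9h20
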