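import Mathlib
import Pool.Agent.T9h20.Defs

/-!
Deduction systems for refuting CNF formulas, with arbitrary lines and arbitrary rules.
These are the definitions used in the statement of the hand-in for `MP_51bb46_lc`.
-/

namespace Pool.Agent.T9h20

/-- A deduction system for CNF formulas in `n` variables. Its lines are the elements of an
arbitrary set `Item`; `ax ψ A` says that the line `A` may be written down once the set `ψ` of
clauses is given; `rule P A` says that the line `A` may be inferred from the lines in `P`
(`P = ∅` for axiom schemes); a refutation is a derivation of the line `goal`. -/
structure DedSystem (n : ℕ) where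
  /-- the lines -/
  Item : Type
  /-- the lines obtained directly from given clauses -/
  ax : Finset (Clause n) → Item → Prop
  /-- the inference rules -/
  rule : Finset Item → Item → Prop
  /-- the final line of a refutation -/
  goal : Item

/-- A derivation of the line `A` from the formula `φ`: every one of the `size` lines follows by a
rule from at most `k` lines of smaller height, or directly from at most `s` clauses of `φ`. -/
structure Derivation {n : ℕ} (D : DedSystem n) (s k : ℕ) (φ : CNF n) (A : D.Item) where
  /-- number of lines -/
  size : ℕ
  /-- the lines -/
  line : Fin size → D.Item
  /-- heights of the lines -/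
  height : Fin size → ℕ
  /-- the last line -/
  last : Fin size
  last_eq : line last = A
  just : ∀ i, (∃ ψ : CNF n, ψ ⊆ φ ∧ ψ.card ≤ s ∧ D.ax ψ (line i)) ∨
    ∃ P : Finset D.Item, P.card ≤ k ∧ D.rule P (line i) ∧
      ∀ B ∈ P, ∃ j, line j = B ∧ height j < height i

/-- The deduction system is sound: only unsatisfiable formulas have refutations. -/
def DedSystem.Sound {n : ℕ} (D : DedSystem n) (s k : ℕ) : Prop :=
  ∀ φ : CNF n, Nonempty (Derivation D s k φ D.goal) → Unsat φ

end Pool.Agent.T9h20
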