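import Mathlib
import Pool.Agent.T9h20.DedDefs
import Pool.Agent.T9h20.AllDagMain

/-!
From derivations in a deduction system to semantic refutations.
-/

namespace Pool.Agent.T9h20

open Finset

set_option linter.unusedSectionVars false
set_option linter.unusedVariables false

section Ded

variable {n : ℕ}

/-- Derivability, as an inductive predicate. -/
inductive DDer (D : DedSystem n) (s k : ℕ) (φ : CNF n) : D.Item → Prop where
  | ax (ψ : CNF n) (A : D.Item) (h1 : ψ ⊆ φ) (h2 : ψ.card ≤ s) (h3 : D.ax ψ A) : DDer D s k φ A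
  | rule (P : Finset D.Item) (A : D.Item) (h1 : P.card ≤ k) (h2 : D.rule P A)
      (h3 : ∀ B ∈ P, DDer D s k φ B) : DDer D s k φ A

/-- Derivable lines have derivations. -/
lemma exists_derivation (D : DedSystem n) (s k : ℕ) (φ : CNF n) (A : D.Item)
    (h : DDer D s k φ A) : Nonempty (Derivation D s k φ A) := by
  classical
  induction h with
  | ax ψ A h1 h2 h3 =>
    exact ⟨⟨1, fun _ => A, fun _ => 0, 0, rfl, fun _ => Or.inl ⟨ψ, h1, h2, h3⟩⟩⟩
  | rule P A h1 h2 h3 ih =>
    -- the disjoint union of the derivations of the premises, and one more line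
    let π : (B : {B // B ∈ P}) → Derivation D s k φ B.1 := fun B => (ih B.1 B.2).some
    let ι : Type := Σ B : {B // B ∈ P}, Fin (π B).size
    have e : Fin (Fintype.card (Option ι)) ≃ Option ι := (Fintype.equivFin (Option ι)).symm
    let hmax : ℕ := Finset.univ.sup (fun q : ι => (π q.1).height q.2) + 1
    let ln : Option ι → D.Item := fun q => q.elim A (fun q => (π q.1).line q.2)
    let ht : Option ι → ℕ := fun q => q.elim hmax (fun q => (π q.1).height q.2)
    refine ⟨⟨Fintype.card (Option ι), fun i => ln (e i), fun i => ht (e i), e.symm none, ?_, ?_⟩⟩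
    · rw [Equiv.apply_symm_apply]
      rfl
    · intro i
      rcases hi : e i with _ | q
      · right
        refine ⟨P, h1, h2, ?_⟩
        intro B hB
        refine ⟨e.symm (some ⟨⟨B, hB⟩, (π ⟨B, hB⟩).last⟩), ?_, ?_⟩
        · rw [Equiv.apply_symm_apply]
          exact (π ⟨B, hB⟩).last_eq
        · rw [Equiv.apply_symm_apply]
          have h4 : (π ⟨B, hB⟩).height (π ⟨B, hB⟩).last
              ≤ Finset.univ.sup (fun q : ι => (π q.1).height q.2) :=
            Finset.le_sup (f := fun q : ι => (π q.1).height q.2)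
              (Finset.mem_univ (⟨⟨B, hB⟩, (π ⟨B, hB⟩).last⟩ : ι))
          exact Nat.lt_succ_of_le h4
      · rcases (π q.1).just q.2 with ⟨ψ, g1, g2, g3⟩ | ⟨P', g1, g2, g3⟩
        · left
          exact ⟨ψ, g1, g2, g3⟩
        · right
          refine ⟨P', g1, g2, ?_⟩
          intro B hB
          obtain ⟨j, hj1, hj2⟩ := g3 B hB
          refine ⟨e.symm (some ⟨q.1, j⟩), ?_, ?_⟩
          · rw [Equiv.apply_symm_apply]
            exact hj1
          · rw [Equiv.apply_symm_apply]
            exact hj2

/-- The lines of a derivation are derivable. -/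
lemma derivation_der {D : DedSystem n} {s k : ℕ} {φ : CNF n} {A : D.Item}
    (π : Derivation D s k φ A) : ∀ (h : ℕ) (i : Fin π.size), π.height i < h →
      DDer D s k φ (π.line i) := by
  intro h
  induction h with
  | zero => intro i hi; omega
  | succ h ih =>
    intro i hi
    rcases π.just i with ⟨ψ, g1, g2, g3⟩ | ⟨P, g1, g2, g3⟩
    · exact DDer.ax ψ _ g1 g2 g3
    · refine DDer.rule P _ g1 g2 ?_
      intro B hB
      obtain ⟨j, hj1, hj2⟩ := g3 B hB
      rw [← hj1]
      exact ih j (by omega)

open Classical in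
/-- The clauses satisfied by `x`. -/
noncomputable def satClauses (x : Fin n → Bool) : CNF n :=
  Finset.univ.filter (fun C => ¬ Falsifies x C)

lemma mem_satClauses {x : Fin n → Bool} {C : Clause n} :
    C ∈ satClauses x ↔ ¬ Falsifies x C := by
  classical
  unfold satClauses
  simp

open Classical in
/-- The meaning of a line. -/
noncomputable def meaning (D : DedSystem n) (s k : ℕ) (A : D.Item) (x : Fin n → Bool) : Bool :=
  decide (DDer D s k (satClauses x) A)

lemma meaning_true {D : DedSystem n} {s k : ℕ} {A : D.Item} {x : Fin n → Bool} :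
    meaning D s k A x = true ↔ DDer D s k (satClauses x) A := by
  unfold meaning
  simp

lemma meaning_goal {D : DedSystem n} {s k : ℕ} (hD : D.Sound s k) (x : Fin n → Bool) :
    meaning D s k D.goal x = false := by
  rw [← Bool.not_eq_true, meaning_true]
  intro h
  obtain ⟨C, hC, hCx⟩ := hD (satClauses x) (exists_derivation D s k _ _ h) x
  exact (mem_satClauses.1 hC) hCx

lemma meaning_ax {D : DedSystem n} {s k : ℕ} {A : D.Item} {x : Fin n → Bool} (ψ : CNF n)
    (h2 : ψ.card ≤ s) (h3 : D.ax ψ A) (hA : meaning D s k A x = false) :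
    ∃ C ∈ ψ, Falsifies x C := by
  by_contra hcon
  push Not at hcon
  have h : DDer D s k (satClauses x) A := by
    refine DDer.ax ψ A ?_ h2 h3
    intro C hC
    exact mem_satClauses.2 (hcon C hC)
  rw [← meaning_true] at h
  rw [h] at hA
  exact absurd hA (by simp)

lemma meaning_rule {D : DedSystem n} {s k : ℕ} {A : D.Item} {x : Fin n → Bool}
    (P : Finset D.Item) (h1 : P.card ≤ k) (h2 : D.rule P A) (hA : meaning D s k A x = false) :
    ∃ B ∈ P, meaning D s k B x = false := by
  by_contra hcon
  push Not at hcon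
  have h : DDer D s k (satClauses x) A := by
    refine DDer.rule P A h1 h2 ?_
    intro B hB
    rw [← meaning_true]
    simpa using hcon B hB
  rw [← meaning_true] at h
  rw [h] at hA
  exact absurd hA (by simp)

open Classical in
/-- Conjunctions of the meanings of at most `k` lines. -/
noncomputable def conjs (D : DedSystem n) [Fintype D.Item] (s k m : ℕ) :
    Finset ((Fin n → Bool) → Bool) :=
  (Finset.univ : Finset (Fin m → Option D.Item)).image (fun g x =>
    decide (∀ t, ∀ B, g t = some B → meaning D s k B x = true))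

lemma conjs_card (D : DedSystem n) [Fintype D.Item] (s k m L : ℕ)
    (hL : Fintype.card D.Item ≤ 2 ^ L) : (conjs D s k m).card ≤ 2 ^ ((L + 1) * m) := by
  classical
  unfold conjs
  refine Finset.card_image_le.trans ?_
  rw [Finset.card_univ, Fintype.card_fun, Fintype.card_option, Fintype.card_fin, pow_mul]
  apply Nat.pow_le_pow_left
  have : 1 ≤ 2 ^ L := Nat.one_le_two_pow
  rw [pow_succ]
  omega

/-- A nonempty finite set with at most `k + 1` elements is the range of a family. -/
lemma exists_family {α : Type} (P : Finset α) (hP : P.Nonempty) (k : ℕ) (hk : P.card ≤ k + 1) :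
    ∃ p : ℕ → α, (∀ t, p t ∈ P) ∧ ∀ B ∈ P, ∃ t ≤ k, p t = B := by
  classical
  obtain ⟨a, ha⟩ := hP
  let e := P.equivFin
  refine ⟨fun t => if h : t < P.card then (e.symm ⟨t, h⟩).1 else a, ?_, ?_⟩
  · intro t
    dsimp only
    split_ifs with h
    · exact (e.symm ⟨t, h⟩).2
    · exact ha
  · intro B hB
    refine ⟨(e ⟨B, hB⟩).1, ?_, ?_⟩
    · have := (e ⟨B, hB⟩).2
      omega
    · dsimp only
      rw [dif_pos (e ⟨B, hB⟩).2]
      have : (⟨(e ⟨B, hB⟩).1, (e ⟨B, hB⟩).2⟩ : Fin P.card) = e ⟨B, hB⟩ := rfl
      rw [this, Equiv.symm_apply_apply]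

/-- From a refutation in a sound deduction system with at most `k + 1` premises per rule to a
semantic refutation with binary inferences. -/
lemma sem_of_ded (D : DedSystem n) [Fintype D.Item] (s k L : ℕ) (hk : 1 ≤ k) (hsL : s ≤ L)
    (hD : D.Sound s (k + 1)) (φ : CNF n) (π : Derivation D s (k + 1) φ D.goal) :
    ∃ ρ : SemRefutation φ L ((conjs D s (k + 1) k : Finset _) : Set ((Fin n → Bool) → Bool)),
      ρ.size = k * π.size ∧ ρ.rank ρ.root = k * π.height π.last := by
  classical
  -- the premises of the lines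
  have hprem : ∀ i : Fin π.size, ∃ p : ℕ → Fin π.size,
      (∃ ψ : CNF n, ψ ⊆ φ ∧ ψ.card ≤ s ∧
        ∀ x, meaning D s (k + 1) (π.line i) x = false → ∃ C ∈ ψ, Falsifies x C) ∨
      ((∀ t, π.height (p t) < π.height i) ∧
        ∀ x, meaning D s (k + 1) (π.line i) x = false →
          ∃ t ≤ k, meaning D s (k + 1) (π.line (p t)) x = false) := by
    intro i
    rcases π.just i with ⟨ψ, g1, g2, g3⟩ | ⟨P, g1, g2, g3⟩
    · refine ⟨fun _ => i, Or.inl ⟨ψ, g1, g2, ?_⟩⟩
      intro x hx
      exact meaning_ax ψ g2 g3 hx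
    · rcases P.eq_empty_or_nonempty with hP | hP
      · refine ⟨fun _ => i, Or.inl ⟨∅, Finset.empty_subset _, by simp, ?_⟩⟩
        intro x hx
        obtain ⟨B, hB, _⟩ := meaning_rule P g1 g2 hx
        rw [hP] at hB
        exact absurd hB (Finset.notMem_empty B)
      · obtain ⟨p, hp1, hp2⟩ := exists_family P hP k g1
        choose j hj1 hj2 using fun t => g3 (p t) (hp1 t)
        refine ⟨j, Or.inr ⟨hj2, ?_⟩⟩
        intro x hx
        obtain ⟨B, hB, hBx⟩ := meaning_rule P g1 g2 hx
        obtain ⟨t, ht, rfl⟩ := hp2 B hB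
        exact ⟨t, ht, by rw [hj1 t]; exact hBx⟩
  choose p hp using hprem
  let leaf : Fin π.size → Prop := fun i => ∃ ψ : CNF n, ψ ⊆ φ ∧ ψ.card ≤ s ∧
        ∀ x, meaning D s (k + 1) (π.line i) x = false → ∃ C ∈ ψ, Falsifies x C
  let node : ℕ → Fin π.size → (Fin n → Bool) → Bool := fun t i x =>
    if t = 0 then meaning D s (k + 1) (π.line i) x
    else if leaf i then true
    else decide (∀ t', t ≤ t' → t' ≤ k → meaning D s (k + 1) (π.line (p i t')) x = true)
  let e : Fin (k * π.size) → Fin k × Fin π.size := finProdFinEquiv.symm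
  have hnode : ∀ (t : ℕ) (i : Fin π.size) (x : Fin n → Bool), ¬ leaf i → node t i x = false →
      ∃ t', t ≤ t' ∧ t' ≤ k ∧ meaning D s (k + 1) (π.line (p i t')) x = false := by
    intro t i x hl hx
    by_cases ht : t = 0
    · have hx' : meaning D s (k + 1) (π.line i) x = false := by
        simpa [node, ht] using hx
      rcases hp i with h | ⟨_, h⟩
      · exact absurd h hl
      · obtain ⟨t', ht', h'⟩ := h x hx'
        exact ⟨t', by omega, ht', h'⟩
    · have hx' : ¬ ∀ t', t ≤ t' → t' ≤ k → meaning D s (k + 1) (π.line (p i t')) x = true := by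
        simpa [node, ht, hl] using hx
      push Not at hx'
      obtain ⟨t', h1, h2, h3⟩ := hx'
      exact ⟨t', h1, h2, by simpa using h3⟩
  have hnode0 : ∀ (i : Fin π.size) (x : Fin n → Bool),
      node 0 i x = meaning D s (k + 1) (π.line i) x := by
    intro i x
    simp [node]
  have hnode1 : ∀ (t : ℕ) (i : Fin π.size) (x : Fin n → Bool), t ≠ 0 → ¬ leaf i →
      (∃ t', t ≤ t' ∧ t' ≤ k ∧ meaning D s (k + 1) (π.line (p i t')) x = false) →
      node t i x = false := by
    intro t i x ht hl ⟨t', h1, h2, h3⟩
    have : ¬ ∀ t', t ≤ t' → t' ≤ k → meaning D s (k + 1) (π.line (p i t')) x = true := by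
      intro h
      rw [h t' h1 h2] at h3
      exact absurd h3 (by simp)
    simp only [node, if_neg ht, if_neg hl]
    exact decide_eq_false this
  refine ⟨⟨k * π.size, fun q => node (e q).1 (e q).2, fun q => k * π.height (e q).2 - (e q).1,
    finProdFinEquiv (⟨0, by omega⟩, π.last), ?_, ?_, ?_⟩, rfl, ?_⟩
  · -- the lines belong to the class
    intro q
    obtain ⟨⟨t, ht⟩, i⟩ := e q
    rw [Finset.mem_coe]
    unfold conjs
    rw [Finset.mem_image]
    by_cases ht0 : t = 0
    · refine ⟨fun t' => if t'.1 = 0 then some (π.line i) else none, Finset.mem_univ _, ?_⟩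
      funext x
      subst ht0
      rw [hnode0]
      rw [Bool.eq_iff_iff, decide_eq_true_iff]
      constructor
      · intro h
        exact h ⟨0, by omega⟩ _ (by simp)
      · intro h t' B hB
        dsimp only at hB
        split_ifs at hB
        · obtain rfl := Option.some.inj hB
          exact h
    · by_cases hl : leaf i
      · refine ⟨fun _ => none, Finset.mem_univ _, ?_⟩
        funext x
        simp [node, ht0, hl]
      · refine ⟨fun t' => if t ≤ t'.1 + 1 then some (π.line (p i (t'.1 + 1))) else none,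
          Finset.mem_univ _, ?_⟩
        funext x
        simp only [node, if_neg ht0, if_neg hl]
        rw [Bool.eq_iff_iff, decide_eq_true_iff, decide_eq_true_iff]
        constructor
        · intro h t' h1 h2
          have h3 : t' - 1 + 1 = t' := by omega
          refine h ⟨t' - 1, by omega⟩ _ ?_
          rw [h3, if_pos h1]
        · intro h t' B hB
          split_ifs at hB with h1
          · obtain rfl := Option.some.inj hB
            exact h _ h1 (by have := t'.2; omega)
  · -- the last line is identically false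
    intro x
    have he : e (finProdFinEquiv (⟨0, by omega⟩, π.last)) = (⟨0, by omega⟩, π.last) :=
      finProdFinEquiv.symm_apply_apply _
    rw [he]
    dsimp only
    rw [hnode0, π.last_eq]
    exact meaning_goal hD x
  · -- the inferences
    intro q
    obtain ⟨⟨t, ht⟩, i⟩ := e q
    dsimp only
    by_cases hl : leaf i
    · left
      by_cases ht0 : t = 0
      · obtain ⟨ψ, g1, g2, g3⟩ := hl
        refine ⟨ψ, g1, g2.trans hsL, ?_⟩
        intro x hx
        subst ht0
        rw [hnode0] at hx
        exact g3 x hx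
      · refine ⟨∅, Finset.empty_subset _, by simp, ?_⟩
        intro x hx
        simp [node, ht0, hl] at hx
    · right
      have hpi : ∀ t, π.height (p i t) < π.height i := by
        rcases hp i with h | ⟨h, _⟩
        · exact absurd h hl
        · exact h
      have hmul : ∀ t, k * π.height (p i t) + k ≤ k * π.height i := by
        intro t
        have := Nat.mul_le_mul_left k (hpi t)
        rw [Nat.mul_succ] at this
        exact this
      have he : ∀ (t : Fin k) (j : Fin π.size), e (finProdFinEquiv (t, j)) = (t, j) :=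
        fun t j => finProdFinEquiv.symm_apply_apply _
      by_cases htk : t + 1 < k
      · refine ⟨finProdFinEquiv (⟨0, by omega⟩, p i t), finProdFinEquiv (⟨t + 1, htk⟩, i),
          ?_, ?_, ?_⟩
        · rw [he]
          have := hmul t
          dsimp only
          omega
        · rw [he]
          have := hmul t
          dsimp only
          omega
        · intro x hx
          rw [he, he]
          dsimp only
          obtain ⟨t', h1, h2, h3⟩ := hnode t i x hl hx
          rcases Nat.eq_or_lt_of_le h1 with h4 | h4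
          · left
            rw [hnode0, h4]
            exact h3
          · right
            exact hnode1 _ _ _ (by omega) hl ⟨t', h4, h2, h3⟩
      · refine ⟨finProdFinEquiv (⟨0, by omega⟩, p i t), finProdFinEquiv (⟨0, by omega⟩, p i k),
          ?_, ?_, ?_⟩
        · rw [he]
          have := hmul t
          dsimp only
          omega
        · rw [he]
          have := hmul k
          dsimp only
          omega
        · intro x hx
          rw [he, he]
          dsimp only
          obtain ⟨t', h1, h2, h3⟩ := hnode t i x hl hx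
          rw [hnode0, hnode0]
          rcases Nat.eq_or_lt_of_le h1 with h4 | h4
          · left
            rw [h4]
            exact h3
          · right
            have htt : t' = k := by omega
            have hpe : p i t' = p i k := congrArg (p i) htt
            rw [← hpe]
            exact h3
  · have he : e (finProdFinEquiv (⟨0, by omega⟩, π.last)) = (⟨0, by omega⟩, π.last) :=
      finProdFinEquiv.symm_apply_apply _
    change k * π.height (e (finProdFinEquiv (⟨0, by omega⟩, π.last))).2
      - (e (finProdFinEquiv (⟨0, by omega⟩, π.last))).1.1 = k * π.height π.last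
    rw [he]
    simp

/-- **Size-depth trade-off for sound deduction systems.** -/
theorem ded_main : ∃ K : ℕ, ∀ n L k M : ℕ, 1 ≤ n → 1 ≤ L → 1 ≤ k → 1 ≤ M →
    K * (M * Nat.log 2 (n + L + k)) ^ 2 ≤ n →
    ∀ D : DedSystem n, Finite D.Item → Nat.card D.Item ≤ 2 ^ L → D.Sound L (k + 1) →
    ∃ φ : CNF n, Unsat φ ∧ φ.card ≤ 2 ^ (K * (M * Nat.log 2 (n + L + k)) ^ 2) ∧
      (∀ C ∈ φ, C.card ≤ K * (M * Nat.log 2 (n + L + k)) ^ 2) ∧
      ∀ (π : Derivation D L (k + 1) φ D.goal) (r : ℕ),
        r * ((1 - 1 / (M : ℝ)) * n)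
          ≤ k * π.height π.last + (r.choose 2 : ℕ) * Real.logb 2 (4 * (k * π.size)) := by
  classical
  obtain ⟨K, hK⟩ := size_depth_all
  refine ⟨K * 16, ?_⟩
  intro n L k M hn hL hk hM hbig D hfin hcard hD
  have : Fintype D.Item := Fintype.ofFinite D.Item
  rw [Nat.card_eq_fintype_card] at hcard
  obtain ⟨L', hL'⟩ : ∃ L', L' = (L + 1) * k := ⟨_, rfl⟩
  have hLL : L ≤ L' := by rw [hL']; nlinarith
  have hlog : Nat.log 2 (n + L') ≤ 4 * Nat.log 2 (n + L + k) := by
    obtain ⟨m, hm⟩ : ∃ m, m = n + L + k := ⟨_, rfl⟩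
    rw [← hm]
    have h1 : n + L' ≤ m * m := by
      rw [hL', hm]
      nlinarith
    have hm2 : 2 ≤ m := by omega
    have hlm : 1 ≤ Nat.log 2 m := Nat.log_pos (by norm_num) hm2
    have h2 : m < 2 ^ (Nat.log 2 m + 1) := Nat.lt_pow_succ_log_self (by norm_num) m
    have h3 : n + L' < 2 ^ (4 * Nat.log 2 m + 1) := by
      calc n + L' ≤ m * m := h1
        _ < 2 ^ (Nat.log 2 m + 1) * 2 ^ (Nat.log 2 m + 1) := Nat.mul_lt_mul'' h2 h2
        _ = 2 ^ (2 * Nat.log 2 m + 2) := by rw [← pow_add]; congr 1; ring
        _ ≤ 2 ^ (4 * Nat.log 2 m + 1) := Nat.pow_le_pow_right (by norm_num) (by omega)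
    exact Nat.lt_succ_iff.1 (Nat.log_lt_of_lt_pow (by omega) h3)
  have hKK : K * (M * Nat.log 2 (n + L')) ^ 2 ≤ K * 16 * (M * Nat.log 2 (n + L + k)) ^ 2 := by
    calc K * (M * Nat.log 2 (n + L')) ^ 2 ≤ K * (M * (4 * Nat.log 2 (n + L + k))) ^ 2 := by
          apply Nat.mul_le_mul_left
          apply Nat.pow_le_pow_left
          exact Nat.mul_le_mul_left _ hlog
      _ = _ := by ring
  obtain ⟨φ, h1, h2, h3, h4⟩ := hK n L' M hn (by omega) hM (hKK.trans hbig)
    (conjs D L (k + 1) k) (by rw [hL']; exact conjs_card D L (k + 1) k L hcard)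
  refine ⟨φ, h1, h2.trans (Nat.pow_le_pow_right (by norm_num) hKK),
    fun C hC => (h3 C hC).trans hKK, ?_⟩
  intro π r
  obtain ⟨ρ, hρ1, hρ2⟩ := sem_of_ded D L k L' hk hLL hD φ π
  have h5 := h4 ρ r
  rw [hρ1, hρ2] at h5
  push_cast at h5
  exact h5

end Ded

end Pool.Agent.T9h20
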