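import Mathlib
import Pool.Agent.T9h20.Defs

/-!
Nondeterministic non-uniform machines that read CNF formulas.
These are the definitions used in the statement of the hand-in for `MP_a77cad_lc`.
-/

namespace Pool.Agent.T9h20

/-- A nondeterministic machine, with arbitrary advice, whose inputs are CNF formulas in `n`
variables. `State` is the set of configurations (contents of the memory), `step q ψ q'` says
that the machine may go from `q` to `q'` after it has found the clauses in `ψ` in the input
formula. The relation `step` is arbitrary. -/
structure NMachine (n : ℕ) where
  /-- the configurations -/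
  State : Type
  /-- the initial configuration -/
  start : State
  /-- the accepting configuration -/
  accept : State
  /-- the possible steps, with the clauses used in the step -/
  step : State → Finset (Clause n) → State → Prop

/-- The machine has an accepting run of length `T` on the formula `φ`, each step of which uses at
most `s` clauses of `φ`. -/
def NMachine.AcceptsIn {n : ℕ} (R : NMachine n) (s : ℕ) (φ : CNF n) (T : ℕ) : Prop :=
  ∃ q : ℕ → R.State, q 0 = R.start ∧ q T = R.accept ∧
    ∀ t < T, ∃ ψ : CNF n, ψ ⊆ φ ∧ ψ.card ≤ s ∧ R.step (q t) ψ (q (t + 1))

/-- The machine is sound: it accepts unsatisfiable formulas only. -/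
def NMachine.Sound {n : ℕ} (R : NMachine n) (s : ℕ) : Prop :=
  ∀ (φ : CNF n) (T : ℕ), R.AcceptsIn s φ T → Unsat φ

end Pool.Agent.T9h20
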