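import Mathlib
import Pool.Agent.T9h20.MachDefs
import Pool.Agent.T9h20.AvgMain

/-!
Machines with small memory need long runs.
-/

namespace Pool.Agent.T9h20

open Finset

set_option linter.unusedSectionVars false
set_option linter.unusedVariables false

/-- Binary search for a position where `c` changes from `true` to `false`. -/
def bsearch {Ω Λ : Type} (c : ℕ → (Ω → Bool)) (lab : ℕ → Λ) : ℕ → ℕ → ℕ → DTree Ω Λ
  | 0, a, _ => DTree.leaf (lab a)
  | j + 1, a, len => if len ≤ 1 then DTree.leaf (lab a)
      else DTree.node (c (a + len / 2)) (bsearch c lab j a (len / 2))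
        (bsearch c lab j (a + len / 2) (len - len / 2))

lemma bsearch_depth {Ω Λ : Type} (c : ℕ → (Ω → Bool)) (lab : ℕ → Λ) (j : ℕ) :
    ∀ a len, (bsearch c lab j a len).depth ≤ j := by
  induction j with
  | zero => intro a len; simp [bsearch, DTree.depth]
  | succ j ih =>
    intro a len
    unfold bsearch
    split_ifs
    · simp [DTree.depth]
    · have h1 := ih a (len / 2)
      have h2 := ih (a + len / 2) (len - len / 2)
      simp only [DTree.depth]
      omega

lemma bsearch_leaves {Ω Λ : Type} (c : ℕ → (Ω → Bool)) (lab : ℕ → Λ) (j : ℕ) :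
    ∀ a len, 1 ≤ len → (bsearch c lab j a len).leaves ≤ len := by
  induction j with
  | zero => intro a len h; simpa [bsearch, DTree.leaves] using h
  | succ j ih =>
    intro a len h
    unfold bsearch
    split_ifs with h0
    · simpa [DTree.leaves] using h
    · have h1 := ih a (len / 2) (by omega)
      have h2 := ih (a + len / 2) (len - len / 2) (by omega)
      simp only [DTree.leaves]
      omega

lemma bsearch_testsIn {Ω Λ : Type} (c : ℕ → (Ω → Bool)) (lab : ℕ → Λ) (S : Set (Ω → Bool))
    (hc : ∀ t, c t ∈ S) (j : ℕ) : ∀ a len, (bsearch c lab j a len).TestsIn S := by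
  induction j with
  | zero => intro a len; simp [bsearch, DTree.TestsIn]
  | succ j ih =>
    intro a len
    unfold bsearch
    split_ifs with h0
    · simp [DTree.TestsIn]
    · exact ⟨hc _, ih _ _, ih _ _⟩

lemma bsearch_run {Ω Λ : Type} (c : ℕ → (Ω → Bool)) (lab : ℕ → Λ) (x : Ω) (j : ℕ) :
    ∀ a len, 1 ≤ len → len ≤ 2 ^ j → c a x = true → c (a + len) x = false →
      ∃ t, a ≤ t ∧ t < a + len ∧ c t x = true ∧ c (t + 1) x = false ∧
        (bsearch c lab j a len).run x = lab t := by
  induction j with
  | zero =>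
    intro a len h1 h2 h3 h4
    have : len = 1 := by simpa using le_antisymm (by simpa using h2) h1
    subst this
    exact ⟨a, le_rfl, by omega, h3, h4, by simp [bsearch, DTree.run]⟩
  | succ j ih =>
    intro a len h1 h2 h3 h4
    unfold bsearch
    split_ifs with h0
    · have : len = 1 := by omega
      subst this
      exact ⟨a, le_rfl, by omega, h3, h4, by simp [DTree.run]⟩
    · rw [pow_succ] at h2
      by_cases hm : c (a + len / 2) x = true
      · obtain ⟨t, g1, g2, g3, g4, g5⟩ := ih (a + len / 2) (len - len / 2) (by omega) (by omega) hm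
          (by
            have : a + len / 2 + (len - len / 2) = a + len := by omega
            rw [this]; exact h4)
        refine ⟨t, by omega, by omega, g3, g4, ?_⟩
        simp only [DTree.run, if_pos hm]
        exact g5
      · obtain ⟨t, g1, g2, g3, g4, g5⟩ := ih a (len / 2) (by omega) (by omega) h3
          (by simpa using hm)
        refine ⟨t, by omega, by omega, g3, g4, ?_⟩
        simp only [DTree.run, if_neg hm]
        exact g5

lemma infoCount_le_depth {Ω Λ : Type} (T : DTree Ω Λ) :
    ∀ (Y : Set Ω) (x : Ω), T.infoCount Y x ≤ T.depth := by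
  induction T with
  | leaf c => intro Y x; simp [DTree.infoCount]
  | node Q t0 t1 ih0 ih1 =>
    intro Y x
    simp only [DTree.infoCount, DTree.depth]
    have h0 := ih0 {y ∈ Y | Q y = false} x
    have h1 := ih1 {y ∈ Y | Q y = true} x
    split_ifs <;> omega

section Mach

variable {n : ℕ}

/-- The configuration can be reached on the input `φ`. -/
def Reach (R : NMachine n) (s : ℕ) (φ : CNF n) (p : R.State) : Prop :=
  ∃ (T : ℕ) (q : ℕ → R.State), q 0 = R.start ∧ q T = p ∧
    ∀ t < T, ∃ ψ : CNF n, ψ ⊆ φ ∧ ψ.card ≤ s ∧ R.step (q t) ψ (q (t + 1))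

lemma reach_start (R : NMachine n) (s : ℕ) (φ : CNF n) : Reach R s φ R.start :=
  ⟨0, fun _ => R.start, rfl, rfl, fun t ht => by omega⟩

lemma reach_step {R : NMachine n} {s : ℕ} {φ : CNF n} {p p' : R.State} (h : Reach R s φ p)
    (ψ : CNF n) (h1 : ψ ⊆ φ) (h2 : ψ.card ≤ s) (h3 : R.step p ψ p') : Reach R s φ p' := by
  obtain ⟨T, q, g1, g2, g3⟩ := h
  refine ⟨T + 1, fun t => if t ≤ T then q t else p', ?_, ?_, ?_⟩
  · simp [g1]
  · simp
  · intro t ht
    rcases Nat.lt_succ_iff_lt_or_eq.1 ht with h | h
    · have e1 : t ≤ T := h.le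
      have e2 : t + 1 ≤ T := h
      simp only [if_pos e1, if_pos e2]
      exact g3 t h
    · subst h
      simp only [le_refl, if_true, Nat.not_succ_le_self, if_false]
      rw [g2]
      exact ⟨ψ, h1, h2, h3⟩

open Classical in
/-- The clauses satisfied by `x`. -/
noncomputable def clausesOf (x : Fin n → Bool) : CNF n :=
  Finset.univ.filter (fun C : Clause n => ¬ Falsifies x C)

lemma mem_clausesOf {x : Fin n → Bool} {C : Clause n} :
    C ∈ clausesOf x ↔ ¬ Falsifies x C := by
  unfold clausesOf
  simp

open Classical in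
/-- The meaning of a configuration. -/
noncomputable def cmean (R : NMachine n) (s : ℕ) (p : R.State) (x : Fin n → Bool) : Bool :=
  decide (Reach R s (clausesOf x) p)

/-- **Time-space trade-off for nondeterministic machines.** -/
theorem mach_main (ε : ℝ) (hε : 0 < ε) : ∃ K : ℕ, ∀ n L : ℕ, 1 ≤ n → 1 ≤ L →
    (n + L) ^ K ≤ 2 ^ n →
    ∀ R : NMachine n, Finite R.State → Nat.card R.State ≤ 2 ^ L → R.Sound L →
    ∃ φ : CNF n, Unsat φ ∧ φ.card ≤ (n + L) ^ K ∧ (∀ C ∈ φ, 2 ^ C.card ≤ (n + L) ^ K) ∧
      ∀ T : ℕ, R.AcceptsIn L φ T → (2 : ℝ) ^ ((1 - ε) * n) ≤ T := by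
  classical
  obtain ⟨K, hK⟩ := search_tree_main ε hε
  refine ⟨2 * K, ?_⟩
  intro n L hn hL hbig R hfin hcard hsound
  have : Fintype R.State := Fintype.ofFinite R.State
  rw [Nat.card_eq_fintype_card] at hcard
  have hKK : (n + (n + L)) ^ K ≤ (n + L) ^ (2 * K) := by
    rw [pow_mul]
    apply Nat.pow_le_pow_left
    nlinarith
  have h𝓛 : ((Finset.univ : Finset R.State).image (cmean R L)).card ≤ 2 ^ (n + L) := by
    refine Finset.card_image_le.trans ?_
    rw [Finset.card_univ]
    exact hcard.trans (Nat.pow_le_pow_right (by norm_num) (by omega))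
  obtain ⟨φ, h1, h2, h3, h4⟩ := hK n (n + L) hn (by omega) (hKK.trans hbig)
    ((Finset.univ : Finset R.State).image (cmean R L)) h𝓛
  refine ⟨φ, h1, h2.trans hKK, fun C hC => (h3 C hC).trans hKK, ?_⟩
  rintro T ⟨q, hq0, hqT, hq⟩
  have haccept : ∀ x, cmean R L R.accept x = false := by
    intro x
    unfold cmean
    rw [decide_eq_false_iff_not]
    rintro ⟨T', q', g1, g2, g3⟩
    obtain ⟨C, hC, hCx⟩ := hsound (clausesOf x) T' ⟨q', g1, g2, g3⟩ x
    exact mem_clausesOf.1 hC hCx
  have hstart : ∀ x, cmean R L R.start x = true := by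
    intro x
    unfold cmean
    rw [decide_eq_true_iff]
    exact reach_start R L _
  have hTpos : 1 ≤ T := by
    rcases Nat.eq_zero_or_pos T with hT0 | h
    · exfalso
      subst hT0
      have h5 := haccept (fun _ => false)
      rw [← hqT, hq0, hstart] at h5
      exact absurd h5 (by simp)
    · exact h
  by_cases hTbig : 2 ^ n < T
  · have h5 : (2 : ℝ) ^ ((1 - ε) * n) ≤ (2 : ℝ) ^ (n : ℝ) := by
      apply Real.rpow_le_rpow_of_exponent_le (by norm_num)
      have : (0 : ℝ) ≤ ε * n := by positivity
      linarith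
    rw [Real.rpow_natCast] at h5
    have h6 : ((2 : ℝ) ^ n) ≤ T := by exact_mod_cast hTbig.le
    exact h5.trans h6
  push Not at hTbig
  -- the labels
  have hψ : ∀ t, ∃ ψ : CNF n, ψ.card ≤ L ∧ (t < T → ψ ⊆ φ ∧ R.step (q t) ψ (q (t + 1))) := by
    intro t
    by_cases ht : t < T
    · obtain ⟨ψ, g1, g2, g3⟩ := hq t ht
      exact ⟨ψ, g2, fun _ => ⟨g1, g3⟩⟩
    · exact ⟨∅, by simp, fun h => absurd h ht⟩
  choose lab hlab1 hlab2 using hψ
  have hcardrun : ∀ (j a len : ℕ) (x : Fin n → Bool),
      ((bsearch (fun t => cmean R L (q t)) lab j a len).run x).card ≤ L := by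
    intro j
    induction j with
    | zero => intro a len x; simpa [bsearch, DTree.run] using hlab1 a
    | succ j ih =>
      intro a len x
      unfold bsearch
      split_ifs
      · simpa [DTree.run] using hlab1 a
      · simp only [DTree.run]
        split_ifs
        · exact ih _ _ _
        · exact ih _ _ _
  have h5 := h4 (bsearch (fun t => cmean R L (q t)) lab n 0 T) (by
      apply bsearch_testsIn
      intro t
      rw [Finset.mem_coe]
      exact Finset.mem_image.2 ⟨q t, Finset.mem_univ _, rfl⟩)
    (by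
      intro x
      refine (infoCount_le_depth _ _ x).trans ?_
      exact (bsearch_depth _ _ _ _ _).trans (by omega))
    (by
      intro x
      refine ⟨(hcardrun n 0 T x).trans (by omega), ?_⟩
      obtain ⟨t, g1, g2, g3, g4, g5⟩ := bsearch_run (fun t => cmean R L (q t)) lab x n 0 T
        hTpos hTbig (by rw [hq0]; exact hstart x) (by rw [Nat.zero_add, hqT]; exact haccept x)
      obtain ⟨e1, e2⟩ := hlab2 t (by omega)
      rw [g5]
      by_contra hcon
      push Not at hcon
      unfold cmean at g3 g4
      rw [decide_eq_true_iff] at g3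
      rw [decide_eq_false_iff_not] at g4
      apply g4
      refine reach_step g3 (lab t) ?_ (hlab1 t) e2
      intro C hC
      rw [mem_clausesOf]
      exact hcon C hC (e1 hC))
  have h6 : (((bsearch (fun t => cmean R L (q t)) lab n 0 T).leaves : ℕ) : ℝ) ≤ T := by
    exact_mod_cast bsearch_leaves _ _ n 0 T hTpos
  exact h5.trans h6

end Mach

end Pool.Agent.T9h20
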