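import Mathlib
import Pool.Agent.T9h20.Mach

/-!
Randomised nondeterministic machines with small memory.
-/

namespace Pool.Agent.T9h20

open Finset

set_option linter.unusedSectionVars false
set_option linter.unusedVariables false

section MachMA

variable {n : ℕ}

open Classical in
/-- The clauses of width at most `w` satisfied by `x`. -/
noncomputable def clausesUpTo (w : ℕ) (x : Fin n → Bool) : CNF n :=
  Finset.univ.filter (fun C : Clause n => C.card ≤ w ∧ ¬ Falsifies x C)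

lemma mem_clausesUpTo {w : ℕ} {x : Fin n → Bool} {C : Clause n} :
    C ∈ clausesUpTo w x ↔ C.card ≤ w ∧ ¬ Falsifies x C := by
  unfold clausesUpTo
  simp

open Classical in
/-- The meaning of a configuration. -/
noncomputable def cmean2 (R : NMachine n) (s w : ℕ) (p : R.State) (x : Fin n → Bool) : Bool :=
  decide (Reach R s (clausesUpTo w x) p)

/-- One machine: a fast accepting run on `φ` means that most of the satisfiable formulas
`clausesUpTo w x` are accepted. -/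
theorem mach_avg (K : ℕ) (hK : ∀ n L M : ℕ, 1 ≤ n → 1 ≤ L → 1 ≤ M →
    K * (M * Nat.log 2 (n + L)) ^ 2 ≤ n →
    ∀ 𝓛 : Finset ((Fin n → Bool) → Bool), 𝓛.card ≤ 2 ^ L →
    ∃ φ : CNF n, Unsat φ ∧ φ.card ≤ 2 ^ (K * (M * Nat.log 2 (n + L)) ^ 2) ∧
      (∀ C ∈ φ, C.card ≤ K * (M * Nat.log 2 (n + L)) ^ 2) ∧
      ∀ T : DTree (Fin n → Bool) (CNF n), T.TestsIn (𝓛 : Set ((Fin n → Bool) → Bool)) →
        (∀ x, T.infoCount Set.univ x ≤ L) → (∀ x, (T.run x).card ≤ L) →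
        (Nat.card {x : Fin n → Bool // ∃ C ∈ T.run x, C ∈ φ ∧ Falsifies x C} : ℝ)
          ≤ 2 ^ n / L + T.leaves * (2 : ℝ) ^ ((n : ℝ) / M))
    (n L M w : ℕ) (hn : 1 ≤ n) (hL : 1 ≤ L) (hM : 1 ≤ M)
    (hw : w = K * 9 * (M * Nat.log 2 (n + L)) ^ 2) (hbig : w ≤ n)
    (R : Fin (2 ^ L) → NMachine n) (hfin : ∀ ρ, Finite (R ρ).State)
    (hcard : ∀ ρ, Nat.card (R ρ).State ≤ 2 ^ L) :
    ∃ φ : CNF n, Unsat φ ∧ φ.card ≤ 2 ^ w ∧ (∀ C ∈ φ, C.card ≤ w) ∧
      ∀ (ρ : Fin (2 ^ L)) (T : ℕ), (R ρ).AcceptsIn L φ T →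
        (Nat.card {x : Fin n → Bool // ¬ ∃ T', (R ρ).AcceptsIn L (clausesUpTo w x) T'} : ℝ)
          ≤ 2 ^ n / (n + L) + T * (2 : ℝ) ^ ((n : ℝ) / M) := by
  classical
  have hft : ∀ ρ, Nonempty (Fintype (R ρ).State) := fun ρ => ⟨Fintype.ofFinite (R ρ).State⟩
  have : ∀ ρ, Fintype (R ρ).State := fun ρ => (hft ρ).some
  obtain ⟨L', hL'⟩ : ∃ L', L' = n + 2 * L := ⟨_, rfl⟩
  have hlog : Nat.log 2 (n + L') ≤ 3 * Nat.log 2 (n + L) := by
    obtain ⟨m, hm⟩ : ∃ m, m = n + L := ⟨_, rfl⟩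
    rw [← hm]
    have hm2 : 2 ≤ m := by omega
    have hlm : 1 ≤ Nat.log 2 m := Nat.log_pos (by norm_num) hm2
    have h2 : m < 2 ^ (Nat.log 2 m + 1) := Nat.lt_pow_succ_log_self (by norm_num) m
    have h3 : n + L' < 2 ^ (3 * Nat.log 2 m + 1) := by
      calc n + L' = 2 * m := by omega
        _ < 2 * 2 ^ (Nat.log 2 m + 1) := by omega
        _ = 2 ^ (Nat.log 2 m + 2) := by rw [pow_add _ _ 2, pow_add _ _ 1]; ring
        _ ≤ 2 ^ (3 * Nat.log 2 m + 1) := Nat.pow_le_pow_right (by norm_num) (by omega)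
    exact Nat.lt_succ_iff.1 (Nat.log_lt_of_lt_pow (by omega) h3)
  have hKK : K * (M * Nat.log 2 (n + L')) ^ 2 ≤ w := by
    rw [hw]
    calc K * (M * Nat.log 2 (n + L')) ^ 2 ≤ K * (M * (3 * Nat.log 2 (n + L))) ^ 2 := by
          apply Nat.mul_le_mul_left
          apply Nat.pow_le_pow_left
          exact Nat.mul_le_mul_left _ hlog
      _ = _ := by ring
  obtain ⟨𝓛, h𝓛⟩ : ∃ 𝓛 : Finset ((Fin n → Bool) → Bool), 𝓛 =
    (Finset.univ : Finset (Σ ρ : Fin (2 ^ L), (R ρ).State)).image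
      (fun q => cmean2 (R q.1) L w q.2) := ⟨_, rfl⟩
  have h𝓛c : 𝓛.card ≤ 2 ^ L' := by
    rw [h𝓛]
    refine Finset.card_image_le.trans ?_
    rw [Finset.card_univ, Fintype.card_sigma]
    calc ∑ ρ : Fin (2 ^ L), Fintype.card (R ρ).State ≤ ∑ ρ : Fin (2 ^ L), 2 ^ L := by
          apply Finset.sum_le_sum
          intro ρ _
          rw [← Nat.card_eq_fintype_card]
          exact hcard ρ
      _ = 2 ^ L * 2 ^ L := by rw [Finset.sum_const, Finset.card_univ, Fintype.card_fin, smul_eq_mul]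
      _ = 2 ^ (2 * L) := by rw [← pow_add, two_mul]
      _ ≤ 2 ^ L' := Nat.pow_le_pow_right (by norm_num) (by omega)
  obtain ⟨φ, h1, h2, h3, h4⟩ := hK n L' M hn (by omega) hM (hKK.trans hbig) 𝓛 h𝓛c
  refine ⟨φ, h1, h2.trans (Nat.pow_le_pow_right (by norm_num) hKK),
    fun C hC => (h3 C hC).trans hKK, ?_⟩
  rintro ρ T ⟨q, hq0, hqT, hq⟩
  have hnr : (1 : ℝ) ≤ n := by exact_mod_cast hn
  have hLr : (1 : ℝ) ≤ L := by exact_mod_cast hL
  have hnL0 : (0 : ℝ) < (n : ℝ) + L := by linarith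
  rcases Nat.eq_zero_or_pos T with hT0 | hTpos
  · subst hT0
    have hempty : IsEmpty {x : Fin n → Bool //
        ¬ ∃ T', (R ρ).AcceptsIn L (clausesUpTo w x) T'} :=
      ⟨fun x => x.2 ⟨0, q, hq0, hqT, fun t ht => by omega⟩⟩
    rw [Nat.card_of_isEmpty]
    push_cast
    positivity
  by_cases hTbig : 2 ^ n < T
  · have h5 : Nat.card {x : Fin n → Bool //
        ¬ ∃ T', (R ρ).AcceptsIn L (clausesUpTo w x) T'} ≤ 2 ^ n := by
      have := Nat.card_le_card_of_injective (fun x : {x : Fin n → Bool //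
        ¬ ∃ T', (R ρ).AcceptsIn L (clausesUpTo w x) T'} => x.1) Subtype.val_injective
      simpa using this
    have h6 : (Nat.card {x : Fin n → Bool //
        ¬ ∃ T', (R ρ).AcceptsIn L (clausesUpTo w x) T'} : ℝ) ≤ T := by
      exact_mod_cast h5.trans hTbig.le
    have h7 : (1 : ℝ) ≤ (2 : ℝ) ^ ((n : ℝ) / M) := by
      apply Real.one_le_rpow (by norm_num)
      positivity
    have h8 : (T : ℝ) ≤ T * (2 : ℝ) ^ ((n : ℝ) / M) :=
      le_mul_of_one_le_right (Nat.cast_nonneg _) h7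
    have h9 : (0 : ℝ) ≤ 2 ^ n / ((n : ℝ) + L) := by positivity
    linarith
  push Not at hTbig
  have hψ : ∀ t, ∃ ψ : CNF n, ψ.card ≤ L ∧
      (t < T → ψ ⊆ φ ∧ (R ρ).step (q t) ψ (q (t + 1))) := by
    intro t
    by_cases ht : t < T
    · obtain ⟨ψ, g1, g2, g3⟩ := hq t ht
      exact ⟨ψ, g2, fun _ => ⟨g1, g3⟩⟩
    · exact ⟨∅, by simp, fun h => absurd h ht⟩
  choose lab hlab1 hlab2 using hψ
  obtain ⟨Tr, hTr⟩ : ∃ Tr, Tr = bsearch (fun t => cmean2 (R ρ) L w (q t)) lab n 0 T := ⟨_, rfl⟩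
  have hcardrun : ∀ (j a len : ℕ) (x : Fin n → Bool),
      ((bsearch (fun t => cmean2 (R ρ) L w (q t)) lab j a len).run x).card ≤ L := by
    intro j
    induction j with
    | zero => intro a len x; simpa [bsearch, DTree.run] using hlab1 a
    | succ j ih =>
      intro a len x
      unfold bsearch
      split_ifs
      · simpa [DTree.run] using hlab1 a
      · simp only [DTree.run]
        split_ifs
        · exact ih _ _ _
        · exact ih _ _ _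
  have h5 := h4 Tr (by
      rw [hTr]
      apply bsearch_testsIn
      intro t
      rw [Finset.mem_coe, h𝓛]
      exact Finset.mem_image.2 ⟨⟨ρ, q t⟩, Finset.mem_univ _, rfl⟩)
    (by
      intro x
      refine (infoCount_le_depth Tr _ x).trans ?_
      rw [hTr]
      exact (bsearch_depth _ _ _ _ _).trans (by omega))
    (by
      intro x
      rw [hTr]
      exact (hcardrun n 0 T x).trans (by omega))
  have hpt : ∀ x : Fin n → Bool, (¬ ∃ T', (R ρ).AcceptsIn L (clausesUpTo w x) T') →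
      ∃ C ∈ Tr.run x, C ∈ φ ∧ Falsifies x C := by
    intro x hx
    have hc0 : cmean2 (R ρ) L w (q 0) x = true := by
      unfold cmean2
      rw [decide_eq_true_iff, hq0]
      exact reach_start (R ρ) L _
    have hcT : cmean2 (R ρ) L w (q (0 + T)) x = false := by
      unfold cmean2
      rw [decide_eq_false_iff_not, Nat.zero_add, hqT]
      rintro ⟨T', q', g1, g2, g3⟩
      exact hx ⟨T', q', g1, g2, g3⟩
    obtain ⟨t, g1, g2, g3, g4, g5⟩ := bsearch_run (fun t => cmean2 (R ρ) L w (q t)) lab x n 0 T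
      hTpos hTbig hc0 hcT
    obtain ⟨e1, e2⟩ := hlab2 t (by omega)
    rw [hTr, g5]
    by_contra hcon
    push Not at hcon
    unfold cmean2 at g3 g4
    rw [decide_eq_true_iff] at g3
    rw [decide_eq_false_iff_not] at g4
    apply g4
    refine reach_step g3 (lab t) ?_ (hlab1 t) e2
    intro C hC
    rw [mem_clausesUpTo]
    exact ⟨(h3 C (e1 hC)).trans hKK, hcon C hC (e1 hC)⟩
  have hsub : Nat.card {x : Fin n → Bool // ¬ ∃ T', (R ρ).AcceptsIn L (clausesUpTo w x) T'}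
      ≤ Nat.card {x : Fin n → Bool // ∃ C ∈ Tr.run x, C ∈ φ ∧ Falsifies x C} :=
    Nat.card_le_card_of_injective (fun x : {x : Fin n → Bool //
      ¬ ∃ T', (R ρ).AcceptsIn L (clausesUpTo w x) T'} => (⟨x.1, hpt x.1 x.2⟩ :
        {x : Fin n → Bool // ∃ C ∈ Tr.run x, C ∈ φ ∧ Falsifies x C}))
      (fun x y hxy => Subtype.ext (congrArg (fun z : {x : Fin n → Bool //
        ∃ C ∈ Tr.run x, C ∈ φ ∧ Falsifies x C} => z.1) hxy))
  have hlv : (Tr.leaves : ℝ) ≤ T := by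
    rw [hTr]
    exact_mod_cast bsearch_leaves _ _ n 0 T hTpos
  have h6 : (Nat.card {x : Fin n → Bool //
      ¬ ∃ T', (R ρ).AcceptsIn L (clausesUpTo w x) T'} : ℝ)
      ≤ Nat.card {x : Fin n → Bool // ∃ C ∈ Tr.run x, C ∈ φ ∧ Falsifies x C} := by
    exact_mod_cast hsub
  have h7 : (Tr.leaves : ℝ) * (2 : ℝ) ^ ((n : ℝ) / M) ≤ T * (2 : ℝ) ^ ((n : ℝ) / M) :=
    mul_le_mul_of_nonneg_right hlv (by positivity)
  have h8 : (2 : ℝ) ^ n / (L' : ℝ) ≤ 2 ^ n / (n + L) := by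
    apply div_le_div_of_nonneg_left (by positivity) hnL0
    rw [hL']
    push_cast
    linarith
  linarith

/-- **Randomised nondeterministic machines with small memory.** -/
theorem ma_main : ∃ K : ℕ, ∀ n L M : ℕ, 1 ≤ n → 1 ≤ L → 1 ≤ M →
    K * (M * Nat.log 2 (n + L)) ^ 2 ≤ n →
    ∀ R : Fin (2 ^ L) → NMachine n, (∀ ρ, Finite (R ρ).State) →
      (∀ ρ, Nat.card (R ρ).State ≤ 2 ^ L) → ∀ σ : ℝ,
      (∀ ψ : CNF n, (∀ C ∈ ψ, C.card ≤ K * (M * Nat.log 2 (n + L)) ^ 2) → ¬ Unsat ψ →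
        (Nat.card {ρ : Fin (2 ^ L) // ∃ T, (R ρ).AcceptsIn L ψ T} : ℝ) ≤ σ * 2 ^ L) →
    ∃ φ : CNF n, Unsat φ ∧ φ.card ≤ 2 ^ (K * (M * Nat.log 2 (n + L)) ^ 2) ∧
      (∀ C ∈ φ, C.card ≤ K * (M * Nat.log 2 (n + L)) ^ 2) ∧
      ∀ T : ℕ, (Nat.card {ρ : Fin (2 ^ L) // ∃ T' ≤ T, (R ρ).AcceptsIn L φ T'} : ℝ)
        ≤ (σ + 1 / (n + L) + T / (2 : ℝ) ^ ((1 - 1 / (M : ℝ)) * n)) * 2 ^ L := by
  classical
  obtain ⟨K, hK⟩ := search_tree_average
  refine ⟨K * 9, ?_⟩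
  intro n L M hn hL hM hbig R hfin hcard σ hσ
  obtain ⟨w, hw⟩ : ∃ w, w = K * 9 * (M * Nat.log 2 (n + L)) ^ 2 := ⟨_, rfl⟩
  rw [← hw] at hbig hσ ⊢
  obtain ⟨φ, h1, h2, h3, h4⟩ := mach_avg K hK n L M w hn hL hM hw hbig R hfin hcard
  refine ⟨φ, h1, h2, h3, ?_⟩
  intro T
  have hnr : (1 : ℝ) ≤ n := by exact_mod_cast hn
  have hLr : (1 : ℝ) ≤ L := by exact_mod_cast hL
  have hnL0 : (0 : ℝ) < (n : ℝ) + L := by linarith
  obtain ⟨G, hG⟩ : ∃ G : Finset (Fin (2 ^ L)), G = Finset.univ.filter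
    (fun ρ => ∃ T' ≤ T, (R ρ).AcceptsIn L φ T') := ⟨_, rfl⟩
  have hGc : (Nat.card {ρ : Fin (2 ^ L) // ∃ T' ≤ T, (R ρ).AcceptsIn L φ T'} : ℝ) = G.card := by
    rw [Nat.card_eq_fintype_card, Fintype.card_subtype, hG]
  rw [hGc]
  obtain ⟨δ, hδ⟩ : ∃ δ : ℝ, δ = 1 / (n + L) + T / (2 : ℝ) ^ ((1 - 1 / (M : ℝ)) * n) := ⟨_, rfl⟩
  have hδ0 : 0 ≤ δ := by rw [hδ]; positivity
  have hpow : (2 : ℝ) ^ ((n : ℝ) / M) = 2 ^ n / (2 : ℝ) ^ ((1 - 1 / (M : ℝ)) * n) := by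
    rw [← Real.rpow_natCast 2 n, ← Real.rpow_sub (by norm_num)]
    congr 1
    ring
  -- many of the formulas given by assignments are accepted
  have hlow : ∀ ρ ∈ G, (1 - δ) * 2 ^ n
      ≤ ∑ x : Fin n → Bool, (if ∃ T', (R ρ).AcceptsIn L (clausesUpTo w x) T' then (1 : ℝ) else 0) := by
    intro ρ hρ
    rw [hG] at hρ
    obtain ⟨T', hT', hacc⟩ := (Finset.mem_filter.1 hρ).2
    have h5 := h4 ρ T' hacc
    have h6 : (Nat.card {x : Fin n → Bool //
        ¬ ∃ T', (R ρ).AcceptsIn L (clausesUpTo w x) T'} : ℝ) ≤ δ * 2 ^ n := by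
      refine h5.trans ?_
      rw [hpow, hδ]
      have h7 : (T' : ℝ) ≤ T := by exact_mod_cast hT'
      have h8 : (0 : ℝ) ≤ 2 ^ n / (2 : ℝ) ^ ((1 - 1 / (M : ℝ)) * n) := by positivity
      have h9 := mul_le_mul_of_nonneg_right h7 h8
      have h10 : (1 / ((n : ℝ) + L) + T / (2 : ℝ) ^ ((1 - 1 / (M : ℝ)) * n)) * 2 ^ n
          = 2 ^ n / (n + L) + T * (2 ^ n / (2 : ℝ) ^ ((1 - 1 / (M : ℝ)) * n)) := by ring
      rw [h10]
      linarith
    rw [Nat.card_eq_fintype_card, Fintype.card_subtype] at h6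
    rw [← Finset.sum_filter, Finset.sum_const, nsmul_eq_mul, mul_one]
    have h11 := Finset.card_filter_add_card_filter_not (s := (Finset.univ : Finset (Fin n → Bool)))
      (fun x => ∃ T', (R ρ).AcceptsIn L (clausesUpTo w x) T')
    rw [Finset.card_univ, Fintype.card_fun, Fintype.card_bool, Fintype.card_fin] at h11
    have h12 : (((Finset.univ : Finset (Fin n → Bool)).filter
        (fun x => ∃ T', (R ρ).AcceptsIn L (clausesUpTo w x) T')).card : ℝ)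
        + ((Finset.univ : Finset (Fin n → Bool)).filter
          (fun x => ¬ ∃ T', (R ρ).AcceptsIn L (clausesUpTo w x) T')).card = 2 ^ n := by
      exact_mod_cast h11
    linarith
  -- few machines accept each of them
  have hup : ∀ x : Fin n → Bool, ∑ ρ ∈ G,
      (if ∃ T', (R ρ).AcceptsIn L (clausesUpTo w x) T' then (1 : ℝ) else 0) ≤ σ * 2 ^ L := by
    intro x
    have h5 := hσ (clausesUpTo w x) (fun C hC => (mem_clausesUpTo.1 hC).1) (by
      intro hun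
      obtain ⟨C, hC, hCx⟩ := hun x
      exact (mem_clausesUpTo.1 hC).2 hCx)
    refine le_trans ?_ h5
    rw [Nat.card_eq_fintype_card, Fintype.card_subtype, ← Finset.sum_filter, Finset.sum_const,
      nsmul_eq_mul, mul_one]
    have h6 : (G.filter (fun ρ => ∃ T', (R ρ).AcceptsIn L (clausesUpTo w x) T')).card
        ≤ ((Finset.univ : Finset (Fin (2 ^ L))).filter
          (fun ρ => ∃ T', (R ρ).AcceptsIn L (clausesUpTo w x) T')).card := by
      apply Finset.card_le_card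
      intro ρ hρ
      exact Finset.mem_filter.2 ⟨Finset.mem_univ _, (Finset.mem_filter.1 hρ).2⟩
    exact_mod_cast h6
  have hsum1 : (G.card : ℝ) * ((1 - δ) * 2 ^ n) ≤ ∑ ρ ∈ G, ∑ x : Fin n → Bool,
      (if ∃ T', (R ρ).AcceptsIn L (clausesUpTo w x) T' then (1 : ℝ) else 0) := by
    have := Finset.card_nsmul_le_sum G _ _ hlow
    rwa [nsmul_eq_mul] at this
  rw [Finset.sum_comm] at hsum1
  have hsum2 : ∑ x : Fin n → Bool, ∑ ρ ∈ G,
      (if ∃ T', (R ρ).AcceptsIn L (clausesUpTo w x) T' then (1 : ℝ) else 0)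
      ≤ 2 ^ n * (σ * 2 ^ L) := by
    have := Finset.sum_le_card_nsmul (Finset.univ : Finset (Fin n → Bool)) _ _ (fun x _ => hup x)
    rw [nsmul_eq_mul, Finset.card_univ, Fintype.card_fun, Fintype.card_bool, Fintype.card_fin] at this
    push_cast at this
    exact this
  have hGle : (G.card : ℝ) ≤ 2 ^ L := by
    have := Finset.card_le_univ G
    rw [Fintype.card_fin] at this
    exact_mod_cast this
  have h2n : (0 : ℝ) < 2 ^ n := by positivity
  have h13 : (G.card : ℝ) * (1 - δ) ≤ σ * 2 ^ L := by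
    have h14 : (G.card : ℝ) * (1 - δ) * 2 ^ n ≤ σ * 2 ^ L * 2 ^ n := by
      calc (G.card : ℝ) * (1 - δ) * 2 ^ n = G.card * ((1 - δ) * 2 ^ n) := by ring
        _ ≤ 2 ^ n * (σ * 2 ^ L) := hsum1.trans hsum2
        _ = _ := by ring
    exact le_of_mul_le_mul_right h14 h2n
  have h15 : (G.card : ℝ) * δ ≤ 2 ^ L * δ := mul_le_mul_of_nonneg_right hGle hδ0
  have h16 : (σ + 1 / (n + L) + T / (2 : ℝ) ^ ((1 - 1 / (M : ℝ)) * n)) * 2 ^ L
      = σ * 2 ^ L + 2 ^ L * δ := by rw [hδ]; ring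
  rw [h16]
  linarith

end MachMA

end Pool.Agent.T9h20
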