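import Mathlib
import Pool.Agent.T9h20.Defs

/-!
Monotone real circuits, circuits which read a CNF formula, and planted formulas.
-/

namespace Pool.Agent.T9h20

/-- A wire of a circuit: it carries an input bit (as a real number `0` or `1`) or the value of the
gate with the given number. -/
inductive RWire (ι : Type) : Type where
  | input (i : ι) : RWire ι
  | gate (j : ℕ) : RWire ι

/-- A gate of a monotone real circuit: an arbitrary real function of two real arguments which is
nondecreasing in both. -/
structure RGate (ι : Type) where
  /-- the wire of the first argument -/
  left : RWire ι
  /-- the wire of the second argument -/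
  right : RWire ι
  /-- the function computed by the gate -/
  op : ℝ → ℝ → ℝ
  /-- the function is nondecreasing -/
  mono : ∀ a a' b b' : ℝ, a ≤ a' → b ≤ b' → op a b ≤ op a' b'

/-- A monotone real circuit with Boolean inputs indexed by `ι`: its gates are
`gate 0, …, gate (size - 1)` (`gate j` for `j ≥ size` plays no role), and its output is the wire
`out`. -/
structure RCircuit (ι : Type) where
  /-- the number of gates -/
  size : ℕ
  /-- the gates -/
  gate : ℕ → RGate ι
  /-- the output wire -/
  out : RWire ι

variable {ι : Type}

/-- The value of a wire, given the input `x` and the values `v` of the gates. -/
noncomputable def RWire.eval (x : ι → Bool) (v : ℕ → ℝ) : RWire ι → ℝ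
  | input i => if x i = true then 1 else 0
  | gate j => v j

/-- The value of gate number `i` on input `x`. The gate reads the values of gates with smaller
numbers only (a wire from any other gate number carries the constant `0`). -/
noncomputable def RCircuit.val (M : RCircuit ι) (x : ι → Bool) : ℕ → ℝ
  | i => (M.gate i).op ((M.gate i).left.eval x (fun j => if _h : j < i then M.val x j else 0))
      ((M.gate i).right.eval x (fun j => if _h : j < i then M.val x j else 0))
termination_by i => i

/-- The value computed by the circuit on input `x`. -/
noncomputable def RCircuit.eval (M : RCircuit ι) (x : ι → Bool) : ℝ :=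
  M.out.eval x (fun j => if j < M.size then M.val x j else 0)

/-- The circuit `M` with one input for each clause over `n` variables accepts the CNF formula `φ`:
its output is at least `1` when the inputs of the clauses of `φ` are set to `true` and all the other
inputs are set to `false`. -/
def RCircuit.Accepts {n : ℕ} (M : RCircuit (Clause n)) (φ : CNF n) : Prop :=
  1 ≤ M.eval (fun C => decide (C ∈ φ))

open Classical in
/-- The formula planted at the assignment `x`: all clauses of `𝒞` which are satisfied by `x`. -/
noncomputable def planted {n : ℕ} (𝒞 : CNF n) (x : Fin n → Bool) : CNF n :=
  𝒞.filter (fun C => ¬ Falsifies x C)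

end Pool.Agent.T9h20
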