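import Mathlib
import Pool.Agent.T9h20.RealDefs

/-!
Monotone Boolean circuits (AND and OR gates of fan-in two, no negations), circuits which read a CNF
formula, and planted formulas.
-/

namespace Pool.Agent.T9h20

/-- A wire of a monotone circuit: it carries an input bit, a constant, or the value of the gate
with the given number. -/
inductive MWire (ι : Type) : Type where
  | input (i : ι) : MWire ι
  | const (b : Bool) : MWire ι
  | gate (j : ℕ) : MWire ι

/-- A gate of a monotone circuit: AND or OR of two wires. -/
inductive MGate (ι : Type) : Type where
  | and (u v : MWire ι) : MGate ι
  | or (u v : MWire ι) : MGate ι

/-- A monotone circuit with inputs indexed by `ι`: its gates are `gate 0, …, gate (size - 1)`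
(`gate j` for `j ≥ size` plays no role), and its output is the wire `out`. -/
structure MCircuit (ι : Type) where
  /-- the number of gates -/
  size : ℕ
  /-- the gates -/
  gate : ℕ → MGate ι
  /-- the output wire -/
  out : MWire ι

variable {ι : Type}

/-- The value of a wire, given the input `x` and the values `v` of the gates. -/
def MWire.eval (x : ι → Bool) (v : ℕ → Bool) : MWire ι → Bool
  | input i => x i
  | const b => b
  | gate j => v j

/-- The value of a gate, given the input `x` and the values `v` of the gates. -/
def MGate.eval (x : ι → Bool) (v : ℕ → Bool) : MGate ι → Bool
  | and a b => a.eval x v && b.eval x v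
  | or a b => a.eval x v || b.eval x v

/-- The value of gate number `i` on input `x`. The gate reads the values of gates with smaller
numbers only (a wire from any other gate number carries the constant `false`). -/
def MCircuit.val (M : MCircuit ι) (x : ι → Bool) : ℕ → Bool
  | i => (M.gate i).eval x (fun j => if _h : j < i then M.val x j else false)
termination_by i => i

/-- The value computed by the circuit on input `x`. -/
def MCircuit.eval (M : MCircuit ι) (x : ι → Bool) : Bool :=
  M.out.eval x (fun j => if j < M.size then M.val x j else false)

/-- The circuit `M` with one input for each clause over `n` variables accepts the CNF formula `φ`: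
it outputs `true` when the inputs of the clauses of `φ` are set to `true` and all the other inputs
are set to `false`. -/
def MCircuit.Accepts {n : ℕ} (M : MCircuit (Clause n)) (φ : CNF n) : Prop :=
  M.eval (fun C => decide (C ∈ φ)) = true

end Pool.Agent.T9h20
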