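import Mathlib
import Pool.Agent.T9h20.Core

/-!
The probabilistic lemma for families of terms (partial block assignments), used for monotone
circuits.
-/

namespace Pool.Agent.T9h20

open Finset

set_option linter.unusedSectionVars false
set_option linter.unusedVariables false

section MonoProb

variable {N : ℕ} {A : Type} [Fintype A] [DecidableEq A] [Inhabited A]

/-- A term: a set of blocks together with a pattern on them. -/
abbrev Term (N : ℕ) (A : Type) := Finset (Fin N) × (Fin N → A)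

/-- The blocks outside `S`, inside both `R` and `R'`, on which `z` and `z'` agree. -/
def agrR (S : Finset (Fin N)) (t t' : Term N A) : Finset (Fin N) :=
  (t.1 ∩ t'.1).filter (fun i => i ∉ S ∧ t'.2 i = t.2 i)

lemma entries_inter_cardR (k N1 : ℕ) (hk : 1 ≤ k) (S : Finset (Fin N)) (t t' : Term N A)
    (hR : t.1.card ≤ N1) :
    (entries k S t.1 t.2 ∩ entries k S t'.1 t'.2).card
      ≤ (agrR S t t').card * (N1 - 1).choose (k - 1) := by
  classical
  have hsub : entries k S t.1 t.2 ∩ entries k S t'.1 t'.2 ⊆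
      (agrR S t t').biUnion (fun i =>
        ((t.1.powersetCard k).filter (fun V => i ∈ V)).image (fun V => (V, mask V t.2))) := by
    intro e he
    obtain ⟨h1, h2⟩ := Finset.mem_inter.1 he
    unfold entries at h1 h2
    obtain ⟨V, hV, rfl⟩ := Finset.mem_image.1 h1
    obtain ⟨W, hW, hWV⟩ := Finset.mem_image.1 h2
    simp only [Prod.mk.injEq] at hWV
    obtain ⟨rfl, hm⟩ := hWV
    obtain ⟨hV1, hV2⟩ := Finset.mem_filter.1 hV
    obtain ⟨hW1, hW2⟩ := Finset.mem_filter.1 hW
    obtain ⟨i, hiV, hiS⟩ := Finset.not_subset.1 hV2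
    rw [Finset.mem_biUnion]
    refine ⟨i, ?_, ?_⟩
    · unfold agrR
      rw [Finset.mem_filter, Finset.mem_inter]
      exact ⟨⟨(Finset.mem_powersetCard.1 hV1).1 hiV, (Finset.mem_powersetCard.1 hW1).1 hiV⟩,
        hiS, mask_eq_iff.1 hm i hiV⟩
    · exact Finset.mem_image.2 ⟨W, Finset.mem_filter.2 ⟨hV1, hiV⟩, rfl⟩
  refine (Finset.card_le_card hsub).trans ?_
  apply Finset.card_biUnion_le_card_mul
  intro i _
  exact Finset.card_image_le.trans (card_contain_le k N1 t.1 hR i hk)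

lemma agrR_nonempty_of_not_disjoint (k : ℕ) (S : Finset (Fin N)) (t t' : Term N A)
    (h : ¬ Disjoint (entries k S t.1 t.2) (entries k S t'.1 t'.2)) : (agrR S t t').Nonempty := by
  rw [Finset.not_disjoint_iff] at h
  obtain ⟨e, h1, h2⟩ := h
  unfold entries at h1 h2
  obtain ⟨V, hV, rfl⟩ := Finset.mem_image.1 h1
  obtain ⟨W, hW, hWV⟩ := Finset.mem_image.1 h2
  simp only [Prod.mk.injEq] at hWV
  obtain ⟨rfl, hm⟩ := hWV
  obtain ⟨hV1, hV2⟩ := Finset.mem_filter.1 hV
  obtain ⟨hW1, hW2⟩ := Finset.mem_filter.1 hW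
  obtain ⟨i, hiV, hiS⟩ := Finset.not_subset.1 hV2
  refine ⟨i, ?_⟩
  unfold agrR
  rw [Finset.mem_filter, Finset.mem_inter]
  exact ⟨⟨(Finset.mem_powersetCard.1 hV1).1 hiV, (Finset.mem_powersetCard.1 hW1).1 hiV⟩,
    hiS, mask_eq_iff.1 hm i hiV⟩

/-- The family `T` of terms is spread outside `S` (at rate `d` bits per block). -/
def Spread (d : ℕ) (T : Finset (Term N A)) (S : Finset (Fin N)) : Prop :=
  ∀ I : Finset (Fin N), Disjoint I S → ∀ τ : Fin N → A,
    (T.filter (fun t => I ⊆ t.1 ∧ ∀ i ∈ I, t.2 i = τ i)).card * 2 ^ (d * I.card) ≤ T.card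

lemma sum_agrR_le (d : ℕ) (T : Finset (Term N A)) (S : Finset (Fin N)) (hD : Spread d T S)
    (ρ : ℝ) (hρ : 0 ≤ ρ) (t : Term N A) :
    ∑ t' ∈ T, (if (agrR S t t').Nonempty then ρ ^ (agrR S t t').card else 0)
      ≤ (T.card : ℝ) * ((1 + ρ / 2 ^ d) ^ N - 1) := by
  classical
  have step1 : ∀ t' ∈ T, (if (agrR S t t').Nonempty then ρ ^ (agrR S t t').card else 0)
      ≤ ∑ I ∈ (Sᶜ.powerset.erase ∅),
        (if I ⊆ t'.1 ∧ ∀ i ∈ I, t'.2 i = t.2 i then ρ ^ I.card else 0) := by
    intro t' _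
    split_ifs with hne
    · have hmem : agrR S t t' ∈ Sᶜ.powerset.erase ∅ := by
        rw [Finset.mem_erase, Finset.mem_powerset]
        refine ⟨hne.ne_empty, ?_⟩
        intro i hi
        unfold agrR at hi
        rw [Finset.mem_filter] at hi
        simpa using hi.2.1
      have hval : ρ ^ (agrR S t t').card
          = (if agrR S t t' ⊆ t'.1 ∧ ∀ i ∈ agrR S t t', t'.2 i = t.2 i
            then ρ ^ (agrR S t t').card else 0) := by
        rw [if_pos]
        refine ⟨?_, ?_⟩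
        · intro i hi
          unfold agrR at hi
          rw [Finset.mem_filter, Finset.mem_inter] at hi
          exact hi.1.2
        · intro i hi
          unfold agrR at hi
          rw [Finset.mem_filter] at hi
          exact hi.2.2
      rw [hval]
      apply Finset.single_le_sum (f := fun I : Finset (Fin N) =>
        (if I ⊆ t'.1 ∧ ∀ i ∈ I, t'.2 i = t.2 i then ρ ^ I.card else 0)) _ hmem
      intro I _
      split_ifs
      · positivity
      · exact le_rfl
    · apply Finset.sum_nonneg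
      intro I _
      split_ifs
      · positivity
      · exact le_rfl
  refine (Finset.sum_le_sum step1).trans ?_
  rw [Finset.sum_comm]
  have step2 : ∀ I ∈ Sᶜ.powerset.erase ∅,
      ∑ t' ∈ T, (if I ⊆ t'.1 ∧ ∀ i ∈ I, t'.2 i = t.2 i then ρ ^ I.card else 0)
        ≤ (T.card : ℝ) * (ρ / 2 ^ d) ^ I.card := by
    intro I hI
    rw [Finset.mem_erase, Finset.mem_powerset] at hI
    have hdis : Disjoint I S := by
      rw [Finset.disjoint_left]
      intro i hi hiS
      have := hI.2 hi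
      simp at this
      exact this hiS
    have hd := hD I hdis t.2
    rw [← Finset.sum_filter, Finset.sum_const, nsmul_eq_mul]
    have h2 : (0 : ℝ) < 2 ^ (d * I.card) := by positivity
    have h3 : ((T.filter (fun t' => I ⊆ t'.1 ∧ ∀ i ∈ I, t'.2 i = t.2 i)).card : ℝ)
        * 2 ^ (d * I.card) ≤ (T.card : ℝ) := by exact_mod_cast hd
    have h4 : (ρ / 2 ^ d) ^ I.card = ρ ^ I.card / 2 ^ (d * I.card) := by
      rw [div_pow, ← pow_mul]
    rw [h4, mul_div_assoc', le_div_iff₀ h2]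
    have h5 : 0 ≤ ρ ^ I.card := pow_nonneg hρ _
    calc ((T.filter (fun t' => I ⊆ t'.1 ∧ ∀ i ∈ I, t'.2 i = t.2 i)).card : ℝ)
          * ρ ^ I.card * 2 ^ (d * I.card)
        = (((T.filter (fun t' => I ⊆ t'.1 ∧ ∀ i ∈ I, t'.2 i = t.2 i)).card : ℝ)
            * 2 ^ (d * I.card)) * ρ ^ I.card := by ring
      _ ≤ (T.card : ℝ) * ρ ^ I.card := mul_le_mul_of_nonneg_right h3 h5
  refine (Finset.sum_le_sum step2).trans ?_
  rw [← Finset.mul_sum]
  apply mul_le_mul_of_nonneg_left _ (Nat.cast_nonneg _)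
  obtain ⟨x, hx⟩ : ∃ x : ℝ, x = ρ / 2 ^ d := ⟨_, rfl⟩
  rw [← hx]
  have hx0 : 0 ≤ x := by rw [hx]; positivity
  have hsum : ∑ I ∈ Sᶜ.powerset, x ^ I.card = (x + 1) ^ (Sᶜ.card) := by
    have h := Finset.sum_pow_mul_eq_add_pow x (1 : ℝ) Sᶜ
    simpa using h
  have herase : ∑ I ∈ Sᶜ.powerset.erase ∅, x ^ I.card = (x + 1) ^ (Sᶜ.card) - 1 := by
    rw [← hsum, ← Finset.add_sum_erase _ _ (Finset.empty_mem_powerset Sᶜ)]
    simp
  rw [herase]
  have hc : Sᶜ.card ≤ N := by
    have := Finset.card_le_univ Sᶜ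
    simpa using this
  have : (x + 1) ^ (Sᶜ.card) ≤ (1 + x) ^ N := by
    rw [add_comm x 1]
    exact pow_le_pow_right₀ (by linarith) hc
  linarith

/-- The probabilistic lemma for terms: in a spread family of terms, some term is clean with high
probability. -/
theorem prob_terms {p : ℝ} (hp0 : 0 < p) (hp1 : p ≤ 1) (d k N1 : ℕ) (hk : 1 ≤ k) (hN : 1 ≤ N)
    (T : Finset (Term N A)) (hTne : T.Nonempty) (S : Finset (Fin N)) (hD : Spread d T S)
    (hR : ∀ t ∈ T, t.1.card ≤ N1) (hRS : ∀ t ∈ T, ¬ t.1 ⊆ S)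
    (x : ℝ) (hx : x = (p ^ (N1 - 1).choose (k - 1))⁻¹ / 2 ^ d) (hx1 : x ≤ 1) :
    ex p (fun F : (Finset (Fin N) × (Fin N → A)) → Bool =>
        if ∀ t ∈ T, ∃ e ∈ entries k S t.1 t.2, F e = true then 1 else 0)
      ≤ Real.exp (-(1 / (4 * ((1 + x) ^ N - 1)))) := by
  classical
  obtain ⟨K, hK⟩ : ∃ K, K = (N1 - 1).choose (k - 1) := ⟨_, rfl⟩
  rw [← hK] at hx
  obtain ⟨ρ, hρ⟩ : ∃ ρ : ℝ, ρ = (p ^ K)⁻¹ := ⟨_, rfl⟩
  have hpK : 0 < p ^ K := pow_pos hp0 _
  have hρ0 : 0 < ρ := by rw [hρ]; exact inv_pos.2 hpK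
  have hρ1 : 1 ≤ ρ := by
    rw [hρ]
    exact (one_le_inv₀ hpK).2 (pow_le_one₀ hp0.le hp1)
  have hx0 : 0 < x := by rw [hx]; positivity
  obtain ⟨η, hη⟩ : ∃ η : ℝ, η = (1 + x) ^ N - 1 := ⟨_, rfl⟩
  rw [← hη]
  have hηx : x ≤ η := by
    have h1 := one_add_mul_le_pow (by linarith : (-2 : ℝ) ≤ x) N
    have h2 : (1 : ℝ) ≤ N := by exact_mod_cast hN
    have h3 : x ≤ N * x := by nlinarith
    rw [hη]; linarith
  have hη0 : 0 < η := lt_of_lt_of_le hx0 hηx
  have hYc : (0 : ℝ) < T.card := by exact_mod_cast hTne.card_pos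
  obtain ⟨s, hs⟩ : ∃ s : ℝ, s = 1 / (2 * T.card * η) := ⟨_, rfl⟩
  have hs0 : 0 < s := by rw [hs]; positivity
  obtain ⟨Es, hEs⟩ : ∃ Es : Term N A → Finset (Finset (Fin N) × (Fin N → A)),
    Es = fun t => entries k S t.1 t.2 := ⟨_, rfl⟩
  obtain ⟨w, hw⟩ : ∃ w : Term N A → ℝ, w = fun t => (p ^ (Es t).card)⁻¹ := ⟨_, rfl⟩
  have hw0 : ∀ t, 0 < w t := fun t => by rw [hw]; exact inv_pos.2 (pow_pos hp0 _)
  have hwbound : ∀ t ∈ T, w t ≤ x * T.card := by
    intro t htT
    have ht : 1 ≤ (t.1 \ S).card := by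
      rw [Nat.one_le_iff_ne_zero, Finset.card_ne_zero, Finset.sdiff_nonempty]
      exact hRS t htT
    have h1 : (Es t).card ≤ (t.1 \ S).card * K := by
      rw [hEs, hK]
      exact entries_card_le k N1 hk S t.1 (hR t htT) t.2
    have h2 : w t ≤ ρ ^ (t.1 \ S).card := by
      rw [hw, hρ]
      dsimp only
      rw [inv_pow, ← pow_mul]
      apply inv_anti₀ (pow_pos hp0 _)
      apply pow_le_pow_of_le_one hp0.le hp1
      rw [mul_comm]; exact h1
    have hd := hD (t.1 \ S) Finset.sdiff_disjoint t.2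
    have hpos : 1 ≤ (T.filter (fun t' => t.1 \ S ⊆ t'.1 ∧ ∀ i ∈ t.1 \ S, t'.2 i = t.2 i)).card := by
      rw [Nat.one_le_iff_ne_zero, Finset.card_ne_zero]
      exact ⟨t, Finset.mem_filter.2 ⟨htT, Finset.sdiff_subset, fun _ _ => rfl⟩⟩
    have h3 : (2 : ℝ) ^ (d * (t.1 \ S).card) ≤ T.card := by
      have : 2 ^ (d * (t.1 \ S).card) ≤ T.card := by
        calc 2 ^ (d * (t.1 \ S).card) = 1 * 2 ^ (d * (t.1 \ S).card) := by ring
          _ ≤ _ := Nat.mul_le_mul_right _ hpos
          _ ≤ _ := hd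
      exact_mod_cast this
    have h4 : ρ ^ (t.1 \ S).card = x ^ (t.1 \ S).card * 2 ^ (d * (t.1 \ S).card) := by
      rw [hx, ← hρ, div_pow, ← pow_mul, div_mul_cancel₀]
      positivity
    calc w t ≤ ρ ^ (t.1 \ S).card := h2
      _ = x ^ (t.1 \ S).card * 2 ^ (d * (t.1 \ S).card) := h4
      _ ≤ x ^ (t.1 \ S).card * T.card := mul_le_mul_of_nonneg_left h3 (by positivity)
      _ ≤ x * T.card := by
          apply mul_le_mul_of_nonneg_right _ hYc.le
          calc x ^ (t.1 \ S).card ≤ x ^ 1 := pow_le_pow_of_le_one hx0.le hx1 ht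
            _ = x := pow_one x
  have hsw1 : ∀ t ∈ T, s * w t ≤ 1 := by
    intro t ht
    have h1 := hwbound t ht
    rw [hs, one_div, inv_mul_le_iff₀ (by positivity)]
    have h2 : x * T.card ≤ η * T.card := mul_le_mul_of_nonneg_right hηx hYc.le
    nlinarith
  have hjan := janson hp0 hp1 T Es (fun t => s * w t)
    (fun t _ => (mul_pos hs0 (hw0 t)).le) hsw1
  have hle : ex p (fun F : (Finset (Fin N) × (Fin N → A)) → Bool =>
        if ∀ t ∈ T, ∃ e ∈ entries k S t.1 t.2, F e = true then 1 else 0)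
      ≤ ex p (fun F => ∏ t ∈ T, (1 - s * w t * ind (Es t) F)) := by
    apply ex_mono hp0.le hp1
    intro F
    split_ifs with hF
    · apply le_of_eq
      symm
      apply Finset.prod_eq_one
      intro t ht
      have : ind (Es t) F = 0 := by
        unfold ind
        rw [if_neg]
        intro hcon
        obtain ⟨e, he, hFe⟩ := hF t ht
        rw [hEs] at hcon
        rw [hcon e he] at hFe
        exact absurd hFe (by simp)
      rw [this]; ring
    · exact prod_sub_ind_nonneg T Es (fun t => s * w t)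
        (fun t _ => (mul_pos hs0 (hw0 t)).le) hsw1 F
  refine hle.trans (hjan.trans ?_)
  apply Real.exp_le_exp.2
  have hfirst : ∑ i ∈ T, s * w i * p ^ (Es i).card = s * T.card := by
    have : ∀ i ∈ T, s * w i * p ^ (Es i).card = s := by
      intro i _
      rw [hw]
      dsimp only
      rw [mul_assoc, inv_mul_cancel₀ (pow_pos hp0 _).ne', mul_one]
    rw [Finset.sum_congr rfl this, Finset.sum_const, nsmul_eq_mul]
    ring
  have hsecond : ∑ i ∈ T, ∑ j ∈ T, (if Disjoint (Es i) (Es j) then 0 else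
      s * w i * (s * w j) * p ^ (Es i ∪ Es j).card) ≤ s ^ 2 * (T.card * (T.card * η)) := by
    have hinner : ∀ i ∈ T, ∑ j ∈ T, (if Disjoint (Es i) (Es j) then 0 else
        s * w i * (s * w j) * p ^ (Es i ∪ Es j).card) ≤ s ^ 2 * (T.card * η) := by
      intro i hi
      have hterm : ∀ j ∈ T, (if Disjoint (Es i) (Es j) then 0 else
          s * w i * (s * w j) * p ^ (Es i ∪ Es j).card)
          ≤ s ^ 2 * (if (agrR S i j).Nonempty then ρ ^ (agrR S i j).card else 0) := by
        intro j hj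
        split_ifs with hdis hne hne
        · positivity
        · simp
        · have h1 : w i * w j * p ^ (Es i ∪ Es j).card = (p ^ (Es i ∩ Es j).card)⁻¹ := by
            have h2 := Finset.card_union_add_card_inter (Es i) (Es j)
            have h3 : p ^ (Es i ∪ Es j).card * p ^ (Es i ∩ Es j).card
                = p ^ (Es i).card * p ^ (Es j).card := by
              rw [← pow_add, ← pow_add, h2]
            rw [hw]
            dsimp only
            rw [← mul_inv, ← h3, mul_inv, mul_assoc, mul_comm (p ^ (Es i ∩ Es j).card)⁻¹,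
              ← mul_assoc, inv_mul_cancel₀ (pow_pos hp0 _).ne', one_mul]
          have h4 : (p ^ (Es i ∩ Es j).card)⁻¹ ≤ ρ ^ (agrR S i j).card := by
            rw [hρ, inv_pow, ← pow_mul]
            apply inv_anti₀ (pow_pos hp0 _)
            apply pow_le_pow_of_le_one hp0.le hp1
            rw [mul_comm, hK, hEs]
            exact entries_inter_cardR k N1 hk S i j (hR i hi)
          calc s * w i * (s * w j) * p ^ (Es i ∪ Es j).card
              = s ^ 2 * (w i * w j * p ^ (Es i ∪ Es j).card) := by ring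
            _ = s ^ 2 * (p ^ (Es i ∩ Es j).card)⁻¹ := by rw [h1]
            _ ≤ s ^ 2 * ρ ^ (agrR S i j).card := mul_le_mul_of_nonneg_left h4 (by positivity)
        · rw [hEs] at hdis
          exact absurd (agrR_nonempty_of_not_disjoint k S i j hdis) hne
      refine (Finset.sum_le_sum hterm).trans ?_
      rw [← Finset.mul_sum]
      apply mul_le_mul_of_nonneg_left _ (by positivity)
      have h6 := sum_agrR_le d T S hD ρ hρ0.le i
      have h7 : x = ρ / 2 ^ d := by rw [hx, hρ]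
      rw [← h7, ← hη] at h6
      exact h6
    refine (Finset.sum_le_sum hinner).trans ?_
    rw [Finset.sum_const, nsmul_eq_mul]
    apply le_of_eq; ring
  rw [hfirst]
  have hval : -(s * T.card) + s ^ 2 * (T.card * (T.card * η))
      = -(1 / (4 * η)) := by
    rw [hs]
    field_simp
    ring
  linarith

end MonoProb

end Pool.Agent.T9h20
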