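import Mathlib
import Pool.Agent.T9h20.MonoProb
import Pool.Agent.T9h20.MonoDefs

/-!
The approximation method for monotone circuits, in block space.
-/

namespace Pool.Agent.T9h20

open Finset

set_option linter.unusedSectionVars false
set_option linter.unusedVariables false

section Pr

variable {E : Type*} [Fintype E] [DecidableEq E] {p : ℝ}

open Classical in
/-- Probability of an event under `wt p`. -/
noncomputable def pr (p : ℝ) (P : (E → Bool) → Prop) : ℝ := ex p (fun F => if P F then 1 else 0)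

lemma pr_mono (h0 : 0 ≤ p) (h1 : p ≤ 1) {P Q : (E → Bool) → Prop} (h : ∀ F, P F → Q F) :
    pr p P ≤ pr p Q := by
  unfold pr
  apply ex_mono h0 h1
  intro F
  by_cases hP : P F
  · rw [if_pos hP, if_pos (h F hP)]
  · rw [if_neg hP]
    split_ifs <;> norm_num

lemma pr_nonneg (h0 : 0 ≤ p) (h1 : p ≤ 1) (P : (E → Bool) → Prop) : 0 ≤ pr p P := by
  unfold pr
  apply ex_nonneg h0 h1
  intro F
  split_ifs <;> norm_num

lemma pr_or_le (h0 : 0 ≤ p) (h1 : p ≤ 1) (P Q : (E → Bool) → Prop) :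
    pr p (fun F => P F ∨ Q F) ≤ pr p P + pr p Q := by
  unfold pr
  rw [← ex_add]
  apply ex_mono h0 h1
  intro F
  by_cases hP : P F
  · by_cases hQ : Q F
    · rw [if_pos (Or.inl hP), if_pos hP, if_pos hQ]; norm_num
    · rw [if_pos (Or.inl hP), if_pos hP, if_neg hQ]; norm_num
  · by_cases hQ : Q F
    · rw [if_pos (Or.inr hQ), if_neg hP, if_pos hQ]; norm_num
    · rw [if_neg (by tauto), if_neg hP, if_neg hQ]; norm_num

lemma pr_false : pr (E := E) p (fun _ => False) = 0 := by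
  unfold pr ex
  simp

lemma pr_eq_zero {P : (E → Bool) → Prop} (h : ∀ F, ¬ P F) : pr p P = 0 := by
  unfold pr ex
  apply Finset.sum_eq_zero
  intro F _
  dsimp only
  rw [if_neg (h F), mul_zero]

lemma pr_ind (s : Finset E) : pr p (fun F => ∀ e ∈ s, F e = false) = p ^ s.card := by
  rw [← ex_ind (p := p) s]
  unfold pr ind
  congr 1
  funext F
  by_cases h : ∀ e ∈ s, F e = false
  · rw [if_pos h, if_pos h]
  · rw [if_neg h, if_neg h]

end Pr

section MonoApprox

variable {N : ℕ} {A : Type} [Fintype A] [DecidableEq A] [Inhabited A]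

/-- The term is clean. -/
def Good (k : ℕ) (F : (Finset (Fin N) × (Fin N → A)) → Bool) (t : Term N A) : Prop :=
  GoodOn k F t.1 t.2

/-- The term covers the block assignment `y`. -/
def Cov (t : Term N A) (y : Fin N → A) : Prop := mask t.1 y = t.2

/-- Normalised terms on at most `c` blocks. -/
def terms (N : ℕ) (A : Type) [Fintype A] [DecidableEq A] [Inhabited A] (c : ℕ) :
    Finset (Term N A) :=
  Finset.univ.filter (fun t => t.1.card ≤ c ∧ mask t.1 t.2 = t.2)

/-- A closed family of terms. -/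
def ClosedF (p δ : ℝ) (k c : ℕ) (U : Finset (Term N A)) : Prop :=
  ∀ t ∈ terms N A c,
    pr p (fun F : (Finset (Fin N) × (Fin N → A)) → Bool =>
      Good k F t ∧ ∀ t' ∈ U, ¬ Good k F t') ≤ δ → t ∈ U

lemma mask_mask_of_subset {V R : Finset (Fin N)} (h : V ⊆ R) (y : Fin N → A) :
    mask V (mask R y) = mask V y := by
  rw [mask_eq_iff]
  intro i hi
  simp [mask, h hi]

lemma Good.sub {k : ℕ} {F : (Finset (Fin N) × (Fin N → A)) → Bool} {t t' : Term N A}
    (h : Good k F t') (h1 : t.1 ⊆ t'.1) (h2 : mask t.1 t'.2 = t.2) : Good k F t := by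
  intro V hV hVk
  rw [← h2, mask_mask_of_subset hV]
  exact h V (hV.trans h1) hVk

variable {p δ : ℝ} {k c : ℕ}

lemma ClosedF.up {U : Finset (Term N A)} (hU : ClosedF p δ k c U) (hδ : 0 ≤ δ)
    {t t' : Term N A} (ht : t ∈ U) (ht' : t' ∈ terms N A c) (h1 : t.1 ⊆ t'.1)
    (h2 : mask t.1 t'.2 = t.2) : t' ∈ U := by
  apply hU t' ht'
  rw [pr_eq_zero]
  · exact hδ
  · rintro F ⟨hF1, hF2⟩
    exact hF2 t ht (hF1.sub h1 h2)

lemma ClosedF.inter (h0 : 0 ≤ p) (h1 : p ≤ 1) {U U' : Finset (Term N A)}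
    (hU : ClosedF p δ k c U) (hU' : ClosedF p δ k c U') : ClosedF p δ k c (U ∩ U') := by
  intro t ht hpr
  rw [Finset.mem_inter]
  constructor
  · apply hU t ht
    refine (pr_mono h0 h1 ?_).trans hpr
    rintro F ⟨g1, g2⟩
    exact ⟨g1, fun t' ht' => g2 t' (Finset.mem_inter.1 ht').1⟩
  · apply hU' t ht
    refine (pr_mono h0 h1 ?_).trans hpr
    rintro F ⟨g1, g2⟩
    exact ⟨g1, fun t' ht' => g2 t' (Finset.mem_inter.1 ht').2⟩

lemma exists_closure (h0 : 0 ≤ p) (h1 : p ≤ 1) (hδ : 0 ≤ δ) (T : Finset (Term N A))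
    (hT : T ⊆ terms N A c) :
    ∃ U : Finset (Term N A), T ⊆ U ∧ U ⊆ terms N A c ∧ ClosedF p δ k c U ∧
      pr p (fun F : (Finset (Fin N) × (Fin N → A)) → Bool =>
        (∃ t ∈ U, Good k F t) ∧ ∀ t ∈ T, ¬ Good k F t) ≤ (terms N A c).card * δ := by
  classical
  obtain ⟨Q, hQ⟩ : ∃ Q : Finset (Finset (Term N A)), Q = (terms N A c).powerset.filter
    (fun U => T ⊆ U ∧ pr p (fun F : (Finset (Fin N) × (Fin N → A)) → Bool =>
        (∃ t ∈ U, Good k F t) ∧ ∀ t ∈ T, ¬ Good k F t) ≤ U.card * δ) := ⟨_, rfl⟩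
  have hQne : Q.Nonempty := by
    refine ⟨T, ?_⟩
    rw [hQ, Finset.mem_filter, Finset.mem_powerset]
    refine ⟨hT, Finset.Subset.refl _, ?_⟩
    rw [pr_eq_zero]
    · positivity
    · rintro F ⟨⟨t, ht, hg⟩, g2⟩
      exact g2 t ht hg
  obtain ⟨U, hUQ, hUmax⟩ := Finset.exists_max_image Q (fun U => U.card) hQne
  have hU' := hUQ
  rw [hQ, Finset.mem_filter, Finset.mem_powerset] at hU'
  obtain ⟨hU1, hU2, hU3⟩ := hU'
  refine ⟨U, hU2, hU1, ?_, ?_⟩
  · intro t ht hpr
    by_contra htU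
    have hins : insert t U ∈ Q := by
      rw [hQ, Finset.mem_filter, Finset.mem_powerset]
      refine ⟨?_, hU2.trans (Finset.subset_insert _ _), ?_⟩
      · intro s hs
        rcases Finset.mem_insert.1 hs with rfl | hs
        · exact ht
        · exact hU1 hs
      · rw [Finset.card_insert_of_notMem htU]
        have h2 : pr p (fun F : (Finset (Fin N) × (Fin N → A)) → Bool =>
            (∃ t' ∈ insert t U, Good k F t') ∧ ∀ t ∈ T, ¬ Good k F t)
            ≤ pr p (fun F : (Finset (Fin N) × (Fin N → A)) → Bool =>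
              (Good k F t ∧ ∀ t' ∈ U, ¬ Good k F t') ∨
              ((∃ t ∈ U, Good k F t) ∧ ∀ t ∈ T, ¬ Good k F t)) := by
          apply pr_mono h0 h1
          rintro F ⟨⟨s, hs, hg⟩, g2⟩
          by_cases hex : ∃ t ∈ U, Good k F t
          · exact Or.inr ⟨hex, g2⟩
          · left
            push Not at hex
            rcases Finset.mem_insert.1 hs with rfl | hs
            · exact ⟨hg, hex⟩
            · exact absurd hg (hex s hs)
        have h3 := h2.trans (pr_or_le h0 h1 _ _)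
        push_cast
        linarith
    have h4 := hUmax _ hins
    rw [Finset.card_insert_of_notMem htU] at h4
    omega
  · refine hU3.trans ?_
    apply mul_le_mul_of_nonneg_right _ hδ
    exact_mod_cast Finset.card_le_card hU1

open Classical in
/-- The minimal terms of a family. -/
noncomputable def minT (U : Finset (Term N A)) : Finset (Term N A) :=
  U.filter (fun t => ∀ t' ∈ U, t'.1 ⊆ t.1 → mask t'.1 t.2 = t'.2 → t'.1 = t.1)

lemma minT_subset (U : Finset (Term N A)) : minT U ⊆ U := by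
  unfold minT
  exact Finset.filter_subset _ _

lemma Cov.sub {t t' : Term N A} {y : Fin N → A} (h : Cov t y) (h1 : t'.1 ⊆ t.1)
    (h2 : mask t'.1 t.2 = t'.2) : Cov t' y := by
  unfold Cov at *
  rw [← h2, ← h, mask_mask_of_subset h1]

lemma exists_minT {U : Finset (Term N A)} {y : Fin N → A} (h : ∃ t ∈ U, Cov t y) :
    ∃ t ∈ minT U, Cov t y := by
  classical
  obtain ⟨t0, ht0, hc0⟩ := h
  obtain ⟨t, ht, hmin⟩ := Finset.exists_min_image (U.filter (fun t => Cov t y))
    (fun t => t.1.card) ⟨t0, Finset.mem_filter.2 ⟨ht0, hc0⟩⟩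
  obtain ⟨htU, htc⟩ := Finset.mem_filter.1 ht
  refine ⟨t, ?_, htc⟩
  unfold minT
  rw [Finset.mem_filter]
  refine ⟨htU, ?_⟩
  intro t' ht' h1 h2
  have h3 := hmin t' (Finset.mem_filter.2 ⟨ht', htc.sub h1 h2⟩)
  exact Finset.eq_of_subset_of_card_le h1 h3

/-- Plucking: a closed family has few minimal terms of each size. -/
lemma minT_card_level (h0 : 0 < p) (h1 : p ≤ 1) (d : ℕ) (hk : 1 ≤ k) (hN : 1 ≤ N)
    (x : ℝ) (hx : x = (p ^ (c - 1).choose (k - 1))⁻¹ / 2 ^ d) (hx1 : x ≤ 1)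
    (hδ : Real.exp (-(1 / (4 * ((1 + x) ^ N - 1)))) ≤ δ)
    {U : Finset (Term N A)} (hU : ClosedF p δ k c U) (hUt : U ⊆ terms N A c) (l : ℕ)
    (hl : l ≤ c) :
    ((minT U).filter (fun t => t.1.card = l)).card ≤ 2 ^ (d * l) := by
  classical
  by_contra hcon
  push Not at hcon
  obtain ⟨T, hT⟩ : ∃ T, T = (minT U).filter (fun t => t.1.card = l) := ⟨_, rfl⟩
  rw [← hT] at hcon
  have hTU : ∀ t ∈ T, t ∈ U := by
    intro t ht
    rw [hT] at ht
    exact minT_subset U (Finset.mem_filter.1 ht).1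
  have hTl : ∀ t ∈ T, t.1.card = l := by
    intro t ht
    rw [hT] at ht
    exact (Finset.mem_filter.1 ht).2
  obtain ⟨g, hg⟩ : ∃ g : Finset (Fin N) × (Fin N → A) → ℕ, g = fun q =>
    (T.filter (fun t => q.1 ⊆ t.1 ∧ ∀ i ∈ q.1, t.2 i = q.2 i)).card * 2 ^ (d * q.1.card) :=
    ⟨_, rfl⟩
  obtain ⟨⟨S, z⟩, _, hmax⟩ := Finset.exists_max_image
    (Finset.univ : Finset (Finset (Fin N) × (Fin N → A))) g ⟨(∅, default), Finset.mem_univ _⟩
  have hmax' : ∀ q, g q ≤ g (S, z) := fun q => hmax q (Finset.mem_univ _)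
  obtain ⟨LK, hLK⟩ : ∃ LK, LK = T.filter (fun t => S ⊆ t.1 ∧ ∀ i ∈ S, t.2 i = z i) := ⟨_, rfl⟩
  have hgS : g (S, z) = LK.card * 2 ^ (d * S.card) := by
    rw [hg, hLK]
  have hbig : 2 ^ (d * l) < LK.card * 2 ^ (d * S.card) := by
    rw [← hgS]
    refine lt_of_lt_of_le hcon ?_
    refine le_trans ?_ (hmax' (∅, default))
    rw [hg]
    simp
  have hLKne : LK.Nonempty := by
    rw [Finset.nonempty_iff_ne_empty]
    intro he
    rw [he] at hbig
    simp at hbig
  have hLKm : ∀ t ∈ LK, t ∈ T ∧ S ⊆ t.1 ∧ ∀ i ∈ S, t.2 i = z i := by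
    intro t ht
    rw [hLK] at ht
    exact Finset.mem_filter.1 ht
  obtain ⟨t0, ht0⟩ := hLKne
  have hSl : S.card ≤ l := by
    obtain ⟨g1, g2, _⟩ := hLKm t0 ht0
    rw [← hTl t0 g1]
    exact Finset.card_le_card g2
  have hnorm : ∀ t ∈ T, mask t.1 t.2 = t.2 := by
    intro t ht
    exact (Finset.mem_filter.1 (hUt (hTU t ht))).2.2
  have hSlt : S.card < l := by
    rcases Nat.lt_or_ge S.card l with h | h
    · exact h
    exfalso
    have hSeq : ∀ t ∈ LK, S = t.1 := by
      intro t ht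
      obtain ⟨g1, g2, _⟩ := hLKm t ht
      apply Finset.eq_of_subset_of_card_le g2
      rw [hTl t g1]
      exact h
    have hone : LK.card ≤ 1 := by
      rw [Finset.card_le_one]
      intro a ha a' ha'
      obtain ⟨g1, _, g3⟩ := hLKm a ha
      obtain ⟨g1', _, g3'⟩ := hLKm a' ha'
      apply Prod.ext
      · rw [← hSeq a ha, ← hSeq a' ha']
      · rw [← hnorm a g1, ← hnorm a' g1', ← hSeq a ha, ← hSeq a' ha', mask_eq_iff]
        intro i hi
        rw [g3 i hi, g3' i hi]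
    have hle : LK.card * 2 ^ (d * S.card) ≤ 1 * 2 ^ (d * l) :=
      Nat.mul_le_mul hone (Nat.pow_le_pow_right (by norm_num) (Nat.mul_le_mul_left d hSl))
    omega
  have hspread : Spread d LK S := by
    intro I hI τ
    have h2 := hmax' (S ∪ I, fun i => if i ∈ S then z i else τ i)
    rw [hgS, hg] at h2
    dsimp only at h2
    rw [Finset.card_union_of_disjoint hI.symm, mul_add, pow_add] at h2
    have h3 : (LK.filter (fun t => I ⊆ t.1 ∧ ∀ i ∈ I, t.2 i = τ i)).card
        ≤ (T.filter (fun t => S ∪ I ⊆ t.1 ∧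
          ∀ i ∈ S ∪ I, t.2 i = (if i ∈ S then z i else τ i))).card := by
      apply Finset.card_le_card
      intro t ht
      obtain ⟨g1, g2, g3⟩ := Finset.mem_filter.1 ht
      obtain ⟨g4, g5, g6⟩ := hLKm t g1
      refine Finset.mem_filter.2 ⟨g4, Finset.union_subset g5 g2, ?_⟩
      intro i hi
      by_cases hiS : i ∈ S
      · rw [if_pos hiS]; exact g6 i hiS
      · rw [if_neg hiS]
        rcases Finset.mem_union.1 hi with h | h
        · exact absurd h hiS
        · exact g3 i h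
    have h4 : (LK.filter (fun t => I ⊆ t.1 ∧ ∀ i ∈ I, t.2 i = τ i)).card * 2 ^ (d * I.card)
        * 2 ^ (d * S.card) ≤ LK.card * 2 ^ (d * S.card) := by
      refine le_trans ?_ h2
      rw [mul_assoc, mul_comm (2 ^ (d * I.card))]
      exact Nat.mul_le_mul_right _ h3
    exact Nat.le_of_mul_le_mul_right h4 (by positivity)
  have hprob := prob_terms h0 h1 d k c hk hN LK ⟨t0, ht0⟩ S hspread (by
      intro t ht
      rw [hTl t (hLKm t ht).1]
      exact hl) (by
      intro t ht hsub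
      have := Finset.card_le_card hsub
      rw [hTl t (hLKm t ht).1] at this
      omega) x hx hx1
  have hmem : ((S, mask S z) : Term N A) ∈ U := by
    apply hU
    · unfold terms
      rw [Finset.mem_filter]
      refine ⟨Finset.mem_univ _, ?_, mask_mask_of_subset (Finset.Subset.refl _) _⟩
      dsimp only
      omega
    · refine le_trans ?_ (hprob.trans hδ)
      unfold pr
      apply ex_mono h0.le h1
      intro F
      by_cases hev : Good k F (S, mask S z) ∧ ∀ t' ∈ U, ¬ Good k F t'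
      · rw [if_pos hev, if_pos]
        intro t ht
        obtain ⟨g1, g2, g3⟩ := hLKm t ht
        have hng := hev.2 t (hTU t g1)
        unfold Good GoodOn at hng
        push Not at hng
        obtain ⟨V, hV1, hV2, hV3⟩ := hng
        have hVS : ¬ V ⊆ S := by
          intro hVS
          have h5 := hev.1 V hVS hV2
          dsimp only at h5
          rw [mask_mask_of_subset hVS] at h5
          have h6 : mask V t.2 = mask V z := mask_eq_iff.2 (fun i hi => g3 i (hVS hi))
          rw [h6, h5] at hV3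
          exact hV3 rfl
        refine ⟨(V, mask V t.2), ?_, by simpa using hV3⟩
        unfold entries
        exact Finset.mem_image.2 ⟨V, Finset.mem_filter.2
          ⟨Finset.mem_powersetCard.2 ⟨hV1, hV2⟩, hVS⟩, rfl⟩
      · rw [if_neg hev]
        split_ifs <;> norm_num
  obtain ⟨g1, g2, g3⟩ := hLKm t0 ht0
  have hmin : t0 ∈ minT U := by
    rw [hT] at g1
    exact (Finset.mem_filter.1 g1).1
  unfold minT at hmin
  have h7 := (Finset.mem_filter.1 hmin).2 _ hmem g2 (mask_eq_iff.2 g3)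
  dsimp only at h7
  have h8 := hTl t0 g1
  rw [← h7] at h8
  omega

lemma geom_le (d m : ℕ) (hd : 1 ≤ d) : ∑ l ∈ Finset.range m, 2 ^ (d * l) ≤ 2 ^ (d * m) := by
  induction m with
  | zero => simp
  | succ m ih =>
    rw [Finset.sum_range_succ]
    have h1 : 2 ^ (d * (m + 1)) = 2 ^ (d * m) * 2 ^ d := by rw [mul_add, mul_one, pow_add]
    have h2 : 2 ^ 1 ≤ 2 ^ d := Nat.pow_le_pow_right (by norm_num) hd
    rw [h1]
    have h3 : 2 ^ (d * m) * 2 ≤ 2 ^ (d * m) * 2 ^ d := Nat.mul_le_mul_left _ (by simpa using h2)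
    omega

lemma minT_card (h0 : 0 < p) (h1 : p ≤ 1) (d : ℕ) (hd : 1 ≤ d) (hk : 1 ≤ k) (hN : 1 ≤ N)
    (x : ℝ) (hx : x = (p ^ (c - 1).choose (k - 1))⁻¹ / 2 ^ d) (hx1 : x ≤ 1)
    (hδ : Real.exp (-(1 / (4 * ((1 + x) ^ N - 1)))) ≤ δ)
    {U : Finset (Term N A)} (hU : ClosedF p δ k c U) (hUt : U ⊆ terms N A c) :
    (minT U).card ≤ 2 ^ (d * (c + 1)) := by
  classical
  have hmaps : ∀ t ∈ minT U, t.1.card ∈ Finset.range (c + 1) := by
    intro t ht
    have := (Finset.mem_filter.1 (hUt (minT_subset U ht))).2.1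
    rw [Finset.mem_range]
    omega
  rw [Finset.card_eq_sum_card_fiberwise hmaps]
  refine (Finset.sum_le_sum (fun l hl => minT_card_level h0 h1 d hk hN x hx hx1 hδ hU hUt l
    (by rw [Finset.mem_range] at hl; omega))).trans ?_
  exact geom_le d (c + 1) hd

open Classical in
/-- The assignments lost at a conjunction of two closed families. -/
noncomputable def lost (U1 U2 : Finset (Term N A)) : Finset (Fin N → A) :=
  Finset.univ.filter (fun y => (∃ t ∈ U1, Cov t y) ∧ (∃ t ∈ U2, Cov t y) ∧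
    ¬ ∃ t ∈ U1 ∩ U2, Cov t y)

lemma mem_lost {U1 U2 : Finset (Term N A)} {y : Fin N → A} :
    y ∈ lost U1 U2 ↔ (∃ t ∈ U1, Cov t y) ∧ (∃ t ∈ U2, Cov t y) ∧ ¬ ∃ t ∈ U1 ∩ U2, Cov t y := by
  classical
  unfold lost
  rw [Finset.mem_filter]
  exact ⟨fun h => h.2, fun h => ⟨Finset.mem_univ _, h⟩⟩

lemma lost_card (h0 : 0 < p) (h1 : p ≤ 1) (d : ℕ) (hd : 1 ≤ d) (hk : 1 ≤ k) (hN : 1 ≤ N)
    (x : ℝ) (hx : x = (p ^ (c - 1).choose (k - 1))⁻¹ / 2 ^ d) (hx1 : x ≤ 1)
    (hδ : Real.exp (-(1 / (4 * ((1 + x) ^ N - 1)))) ≤ δ)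
    {U1 U2 : Finset (Term N A)} (hU1 : ClosedF p δ k c U1) (hUt1 : U1 ⊆ terms N A c)
    (hU2 : ClosedF p δ k c U2) (hUt2 : U2 ⊆ terms N A c) :
    (lost U1 U2).card ≤ 2 ^ (2 * d * (c + 1)) * (Fintype.card A) ^ (N - (c + 1)) := by
  classical
  have hδ0 : 0 ≤ δ := (Real.exp_pos _).le.trans hδ
  have hsub : lost U1 U2 ⊆ (minT U1 ×ˢ minT U2).biUnion (fun q =>
      Finset.univ.filter (fun y => Cov q.1 y ∧ Cov q.2 y ∧ c < (q.1.1 ∪ q.2.1).card)) := by
    intro y hy
    unfold lost at hy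
    obtain ⟨_, g1, g2, g3⟩ := Finset.mem_filter.1 hy
    obtain ⟨t1, ht1, hc1⟩ := exists_minT g1
    obtain ⟨t2, ht2, hc2⟩ := exists_minT g2
    rw [Finset.mem_biUnion]
    refine ⟨(t1, t2), Finset.mem_product.2 ⟨ht1, ht2⟩, ?_⟩
    refine Finset.mem_filter.2 ⟨Finset.mem_univ _, hc1, hc2, ?_⟩
    dsimp only
    by_contra hcon
    push Not at hcon
    apply g3
    have hmem : ((t1.1 ∪ t2.1, mask (t1.1 ∪ t2.1) y) : Term N A) ∈ terms N A c := by
      unfold terms
      rw [Finset.mem_filter]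
      exact ⟨Finset.mem_univ _, hcon, mask_mask_of_subset (Finset.Subset.refl _) _⟩
    refine ⟨(t1.1 ∪ t2.1, mask (t1.1 ∪ t2.1) y), ?_, rfl⟩
    rw [Finset.mem_inter]
    constructor
    · apply hU1.up hδ0 (minT_subset U1 ht1) hmem Finset.subset_union_left
      dsimp only
      rw [mask_mask_of_subset Finset.subset_union_left]
      exact hc1
    · apply hU2.up hδ0 (minT_subset U2 ht2) hmem Finset.subset_union_right
      dsimp only
      rw [mask_mask_of_subset Finset.subset_union_right]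
      exact hc2
  refine (Finset.card_le_card hsub).trans ?_
  have hq : 1 ≤ Fintype.card A := Fintype.card_pos
  have h2 := Finset.card_biUnion_le_card_mul (minT U1 ×ˢ minT U2) (fun q =>
      Finset.univ.filter (fun y => Cov q.1 y ∧ Cov q.2 y ∧ c < (q.1.1 ∪ q.2.1).card))
      ((Fintype.card A) ^ (N - (c + 1))) (by
    rintro ⟨t1, t2⟩ _
    dsimp only
    by_cases hc : c < (t1.1 ∪ t2.1).card
    · refine (card_le_of_const _ (t1.1 ∪ t2.1) ?_).trans ?_
      · intro y hy y' hy' i hi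
        obtain ⟨_, a1, a2, _⟩ := Finset.mem_filter.1 hy
        obtain ⟨_, b1, b2, _⟩ := Finset.mem_filter.1 hy'
        unfold Cov at a1 a2 b1 b2
        rcases Finset.mem_union.1 hi with h | h
        · exact mask_eq_iff.1 (a1.trans b1.symm) i h
        · exact mask_eq_iff.1 (a2.trans b2.symm) i h
      · apply Nat.pow_le_pow_right hq
        omega
    · have he : Finset.univ.filter (fun y => Cov t1 y ∧ Cov t2 y ∧ c < (t1.1 ∪ t2.1).card)
          = (∅ : Finset (Fin N → A)) := by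
        apply Finset.filter_false_of_mem
        rintro y _ ⟨_, _, h⟩
        exact hc h
      rw [he]
      simp)
  refine h2.trans ?_
  apply Nat.mul_le_mul_right
  rw [Finset.card_product]
  have h3 := minT_card h0 h1 d hd hk hN x hx hx1 hδ hU1 hUt1
  have h4 := minT_card h0 h1 d hd hk hN x hx hx1 hδ hU2 hUt2
  calc (minT U1).card * (minT U2).card ≤ 2 ^ (d * (c + 1)) * 2 ^ (d * (c + 1)) :=
        Nat.mul_le_mul h3 h4
    _ = 2 ^ (2 * d * (c + 1)) := by rw [← pow_add]; congr 1; ring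

end MonoApprox

end Pool.Agent.T9h20
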