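import Mathlib
import Pool.Agent.T9h20.MonoApprox

/-!
The gate-by-gate approximation of a monotone circuit.
-/

namespace Pool.Agent.T9h20

open Finset

set_option linter.unusedSectionVars false
set_option linter.unusedVariables false

section MonoCirc

variable {N : ℕ} {A : Type} [Fintype A] [DecidableEq A] [Inhabited A]

/-- `U` approximates the pair of functions `fpos`, `fneg` outside the error sets `L`, `G`. -/
structure Approx (p δ : ℝ) (k c : ℕ) (fpos : (Fin N → A) → Bool)
    (fneg : ((Finset (Fin N) × (Fin N → A)) → Bool) → Bool) (U : Finset (Term N A))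
    (L : Finset (Fin N → A)) (G : ((Finset (Fin N) × (Fin N → A)) → Bool) → Prop) : Prop where
  sub : U ⊆ terms N A c
  closed : ClosedF p δ k c U
  pos : ∀ y, y ∉ L → fpos y = false → ∃ t ∈ U, Cov t y
  neg : ∀ F, ¬ G F → (∃ t ∈ U, Good k F t) → fneg F = false

variable {p δ : ℝ} {k c : ℕ}

lemma Approx.mono {fpos : (Fin N → A) → Bool}
    {fneg : ((Finset (Fin N) × (Fin N → A)) → Bool) → Bool} {U : Finset (Term N A)}
    {L L' : Finset (Fin N → A)} {G G' : ((Finset (Fin N) × (Fin N → A)) → Bool) → Prop}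
    (h : Approx p δ k c fpos fneg U L G) (hL : L ⊆ L') (hG : ∀ F, G F → G' F) :
    Approx p δ k c fpos fneg U L' G' :=
  ⟨h.sub, h.closed, fun y hy => h.pos y (fun hyL => hy (hL hyL)),
    fun F hF => h.neg F (fun hGF => hF (hG F hGF))⟩

lemma base_approx (h0 : 0 ≤ p) (h1 : p ≤ 1) (hδ : 0 ≤ δ) (T : Finset (Term N A))
    (hT : T ⊆ terms N A c) (fpos : (Fin N → A) → Bool)
    (fneg : ((Finset (Fin N) × (Fin N → A)) → Bool) → Bool)
    (hpos : ∀ y, fpos y = false → ∃ t ∈ T, Cov t y)
    (hneg : ∀ F, (∃ t ∈ T, Good k F t) → fneg F = false) :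
    ∃ U G, pr p G ≤ (terms N A c).card * δ ∧ Approx p δ k c fpos fneg U ∅ G := by
  obtain ⟨U, hU1, hU2, hU3, hU4⟩ := exists_closure (k := k) h0 h1 hδ T hT
  refine ⟨U, _, hU4, hU2, hU3, ?_, ?_⟩
  · intro y _ hy
    obtain ⟨t, ht, hc⟩ := hpos y hy
    exact ⟨t, hU1 ht, hc⟩
  · intro F hF hex
    by_contra hcon
    apply hF
    refine ⟨hex, ?_⟩
    intro t ht hg
    exact hcon (hneg F ⟨t, ht, hg⟩)

lemma and_approx (h0 : 0 ≤ p) (h1 : p ≤ 1) (hδ : 0 ≤ δ) {u v : (Fin N → A) → Bool}
    {u' v' : ((Finset (Fin N) × (Fin N → A)) → Bool) → Bool} {U1 U2 : Finset (Term N A)}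
    {L : Finset (Fin N → A)} {G1 G2 : ((Finset (Fin N) × (Fin N → A)) → Bool) → Prop}
    (hu : Approx p δ k c u u' U1 L G1) (hv : Approx p δ k c v v' U2 L G2) :
    ∃ U G0, pr p G0 ≤ (terms N A c).card * δ ∧
      Approx p δ k c (fun y => u y && v y) (fun F => u' F && v' F) U L
        (fun F => G1 F ∨ G2 F ∨ G0 F) := by
  obtain ⟨U, hU1, hU2, hU3, hU4⟩ := exists_closure (k := k) h0 h1 hδ (U1 ∪ U2)
    (Finset.union_subset hu.sub hv.sub)
  refine ⟨U, _, hU4, hU2, hU3, ?_, ?_⟩
  · intro y hy huv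
    rw [Bool.and_eq_false_iff] at huv
    rcases huv with h | h
    · obtain ⟨t, ht, hc⟩ := hu.pos y hy h
      exact ⟨t, hU1 (Finset.mem_union_left _ ht), hc⟩
    · obtain ⟨t, ht, hc⟩ := hv.pos y hy h
      exact ⟨t, hU1 (Finset.mem_union_right _ ht), hc⟩
  · intro F hF hex
    push Not at hF
    obtain ⟨hF1, hF2, hF3⟩ := hF
    rw [Bool.and_eq_false_iff]
    by_contra hcon
    push Not at hcon
    obtain ⟨t, ht, hg⟩ := hF3 hex
    rcases Finset.mem_union.1 ht with h | h
    · exact hcon.1 (hu.neg F hF1 ⟨t, h, hg⟩)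
    · exact hcon.2 (hv.neg F hF2 ⟨t, h, hg⟩)

lemma or_approx (h0 : 0 ≤ p) (h1 : p ≤ 1) {u v : (Fin N → A) → Bool}
    {u' v' : ((Finset (Fin N) × (Fin N → A)) → Bool) → Bool} {U1 U2 : Finset (Term N A)}
    {L : Finset (Fin N → A)} {G1 G2 : ((Finset (Fin N) × (Fin N → A)) → Bool) → Prop}
    (hu : Approx p δ k c u u' U1 L G1) (hv : Approx p δ k c v v' U2 L G2) :
    Approx p δ k c (fun y => u y || v y) (fun F => u' F || v' F) (U1 ∩ U2)
        (L ∪ lost U1 U2) (fun F => G1 F ∨ G2 F) := by
  refine ⟨fun t ht => hu.sub (Finset.mem_inter.1 ht).1, hu.closed.inter h0 h1 hv.closed, ?_, ?_⟩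
  · intro y hy huv
    rw [Finset.mem_union] at hy
    push Not at hy
    rw [Bool.or_eq_false_iff] at huv
    by_contra hcon
    exact hy.2 (mem_lost.2 ⟨hu.pos y hy.1 huv.1, hv.pos y hy.1 huv.2, hcon⟩)
  · intro F hF hex
    push Not at hF
    obtain ⟨t, ht, hg⟩ := hex
    obtain ⟨ht1, ht2⟩ := Finset.mem_inter.1 ht
    rw [Bool.or_eq_false_iff]
    exact ⟨hu.neg F hF.1 ⟨t, ht1, hg⟩, hv.neg F hF.2 ⟨t, ht2, hg⟩⟩

variable {ι : Type}

/-- Approximation of a wire. -/
lemma wire_approx (h0 : 0 ≤ p) (h1 : p ≤ 1) (hδ : 0 ≤ δ) (M : MCircuit ι)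
    (xpos : (Fin N → A) → (ι → Bool))
    (xneg : ((Finset (Fin N) × (Fin N → A)) → Bool) → (ι → Bool))
    (base : ι → Finset (Term N A)) (hbase : ∀ i, base i ⊆ terms N A c)
    (hpos : ∀ i y, xpos y i = false → ∃ t ∈ base i, Cov t y)
    (hneg : ∀ i F, (∃ t ∈ base i, Good k F t) → xneg F i = false)
    (m : ℕ) (U : ℕ → Finset (Term N A)) (L : Finset (Fin N → A))
    (G : ((Finset (Fin N) × (Fin N → A)) → Bool) → Prop)
    (hU : ∀ j < m, Approx p δ k c (fun y => M.val (xpos y) j) (fun F => M.val (xneg F) j)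
      (U j) L G) (w : MWire ι) :
    ∃ Uw G0, pr p G0 ≤ (terms N A c).card * δ ∧
      Approx p δ k c (fun y => w.eval (xpos y) (fun j => if j < m then M.val (xpos y) j else false))
        (fun F => w.eval (xneg F) (fun j => if j < m then M.val (xneg F) j else false))
        Uw L (fun F => G F ∨ G0 F) := by
  classical
  have hfalse : ∃ Uw G0, pr p G0 ≤ (terms N A c).card * δ ∧
      Approx p δ k c (fun _ : Fin N → A => false)
        (fun _ : (Finset (Fin N) × (Fin N → A)) → Bool => false) Uw L (fun F => G F ∨ G0 F) := by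
    obtain ⟨Uw, G0, hG0, hA⟩ := base_approx (k := k) (c := c) h0 h1 hδ
      {((∅, mask ∅ default) : Term N A)} (by
        intro t ht
        rw [Finset.mem_singleton] at ht
        unfold terms
        rw [Finset.mem_filter, ht]
        refine ⟨Finset.mem_univ _, by simp, ?_⟩
        exact mask_mask_of_subset (Finset.Subset.refl (∅ : Finset (Fin N))) default)
      (fun _ => false) (fun _ => false) (by
        intro y _
        refine ⟨(∅, mask ∅ default), Finset.mem_singleton_self _, ?_⟩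
        have h2 : mask (∅ : Finset (Fin N)) y = mask ∅ default :=
          mask_eq_iff.2 (fun i hi => absurd hi (Finset.notMem_empty i))
        exact h2)
      (by intro F _; rfl)
    exact ⟨Uw, G0, hG0, hA.mono (Finset.empty_subset _) (fun F hF => Or.inr hF)⟩
  cases w with
  | input i =>
    obtain ⟨Uw, G0, hG0, hA⟩ := base_approx (k := k) (c := c) h0 h1 hδ (base i) (hbase i)
      (fun y => xpos y i) (fun F => xneg F i) (hpos i) (hneg i)
    exact ⟨Uw, G0, hG0, hA.mono (Finset.empty_subset _) (fun F hF => Or.inr hF)⟩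
  | const b =>
    cases b with
    | false => exact hfalse
    | true =>
      obtain ⟨Uw, G0, hG0, hA⟩ := base_approx (k := k) (c := c) h0 h1 hδ
        (∅ : Finset (Term N A)) (Finset.empty_subset _)
        (fun _ => true) (fun _ => true) (by intro y hy; exact absurd hy (by simp)) (by
          rintro F ⟨t, ht, _⟩
          exact absurd ht (Finset.notMem_empty _))
      exact ⟨Uw, G0, hG0, hA.mono (Finset.empty_subset _) (fun F hF => Or.inr hF)⟩
  | gate j =>
    by_cases hj : j < m
    · refine ⟨U j, fun _ => False, ?_, ?_⟩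
      · rw [pr_false]
        positivity
      · have h2 := (hU j hj).mono (Finset.Subset.refl L)
          (G' := fun F => G F ∨ False) (fun F hF => Or.inl hF)
        unfold MWire.eval
        simp only [if_pos hj]
        exact h2
    · unfold MWire.eval
      simp only [if_neg hj]
      exact hfalse

/-- Approximation of all gates. -/
lemma gates_approx (h0 : 0 < p) (h1 : p ≤ 1) (d : ℕ) (hd : 1 ≤ d) (hk : 1 ≤ k) (hN : 1 ≤ N)
    (x : ℝ) (hx : x = (p ^ (c - 1).choose (k - 1))⁻¹ / 2 ^ d) (hx1 : x ≤ 1)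
    (hδ : Real.exp (-(1 / (4 * ((1 + x) ^ N - 1)))) ≤ δ) (M : MCircuit ι)
    (xpos : (Fin N → A) → (ι → Bool))
    (xneg : ((Finset (Fin N) × (Fin N → A)) → Bool) → (ι → Bool))
    (base : ι → Finset (Term N A)) (hbase : ∀ i, base i ⊆ terms N A c)
    (hpos : ∀ i y, xpos y i = false → ∃ t ∈ base i, Cov t y)
    (hneg : ∀ i F, (∃ t ∈ base i, Good k F t) → xneg F i = false) (m : ℕ) :
    ∃ (U : ℕ → Finset (Term N A)) (L : Finset (Fin N → A))
      (G : ((Finset (Fin N) × (Fin N → A)) → Bool) → Prop),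
      L.card ≤ m * (2 ^ (2 * d * (c + 1)) * (Fintype.card A) ^ (N - (c + 1))) ∧
      pr p G ≤ 3 * m * ((terms N A c).card * δ) ∧
      ∀ j < m, Approx p δ k c (fun y => M.val (xpos y) j) (fun F => M.val (xneg F) j)
        (U j) L G := by
  have hδ0 : 0 ≤ δ := (Real.exp_pos _).le.trans hδ
  induction m with
  | zero =>
    refine ⟨fun _ => ∅, ∅, fun _ => False, by simp, ?_, ?_⟩
    · rw [pr_false]
      simp
    · intro j hj
      exact absurd hj (Nat.not_lt_zero _)
  | succ m ih =>
    obtain ⟨U, L, G, hL, hG, hU⟩ := ih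
    have hval : ∀ z : ι → Bool, M.val z m
        = (M.gate m).eval z (fun j => if j < m then M.val z j else false) := by
      intro z
      rw [MCircuit.val]
      congr 1
    obtain ⟨Um, Lm, Gm, hLm, hGm, hGmono, hUm⟩ : ∃ (Um : Finset (Term N A))
        (Lm : Finset (Fin N → A)) (Gm : ((Finset (Fin N) × (Fin N → A)) → Bool) → Prop),
        Lm.card ≤ 2 ^ (2 * d * (c + 1)) * (Fintype.card A) ^ (N - (c + 1)) ∧
        pr p Gm ≤ pr p G + 3 * ((terms N A c).card * δ) ∧ (∀ F, G F → Gm F) ∧
        Approx p δ k c (fun y => M.val (xpos y) m) (fun F => M.val (xneg F) m)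
          Um (L ∪ Lm) Gm := by
      simp only [hval]
      cases hg : M.gate m with
      | and u v =>
        obtain ⟨U1, G1, hG1, hA1⟩ := wire_approx h0.le h1 hδ0 M xpos xneg base hbase hpos hneg m
          U L G hU u
        obtain ⟨U2, G2, hG2, hA2⟩ := wire_approx h0.le h1 hδ0 M xpos xneg base hbase hpos hneg m
          U L G hU v
        obtain ⟨Um, G0, hG0, hA⟩ := and_approx h0.le h1 hδ0 hA1 hA2
        refine ⟨Um, ∅, fun F => (G F ∨ G1 F) ∨ (G F ∨ G2 F) ∨ G0 F, by simp, ?_,
          fun F hF => Or.inl (Or.inl hF), ?_⟩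
        · have e1 : pr p (fun F => (G F ∨ G1 F) ∨ (G F ∨ G2 F) ∨ G0 F)
              ≤ pr p (fun F => G F ∨ (G1 F ∨ (G2 F ∨ G0 F))) :=
            pr_mono h0.le h1 (fun F hF => by tauto)
          have e2 := pr_or_le h0.le h1 G (fun F => G1 F ∨ (G2 F ∨ G0 F))
          have e3 := pr_or_le h0.le h1 G1 (fun F => G2 F ∨ G0 F)
          have e4 := pr_or_le h0.le h1 G2 G0
          linarith
        · rw [Finset.union_empty]
          exact hA
      | or u v =>
        obtain ⟨U1, G1, hG1, hA1⟩ := wire_approx h0.le h1 hδ0 M xpos xneg base hbase hpos hneg m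
          U L G hU u
        obtain ⟨U2, G2, hG2, hA2⟩ := wire_approx h0.le h1 hδ0 M xpos xneg base hbase hpos hneg m
          U L G hU v
        have hA := or_approx h0.le h1 hA1 hA2
        refine ⟨U1 ∩ U2, lost U1 U2, fun F => (G F ∨ G1 F) ∨ (G F ∨ G2 F), ?_, ?_,
          fun F hF => Or.inl (Or.inl hF), ?_⟩
        · exact lost_card h0 h1 d hd hk hN x hx hx1 hδ hA1.closed hA1.sub hA2.closed hA2.sub
        · have e1 : pr p (fun F => (G F ∨ G1 F) ∨ (G F ∨ G2 F))
              ≤ pr p (fun F => G F ∨ (G1 F ∨ G2 F)) :=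
            pr_mono h0.le h1 (fun F hF => by tauto)
          have e2 := pr_or_le h0.le h1 G (fun F => G1 F ∨ G2 F)
          have e3 := pr_or_le h0.le h1 G1 G2
          have e5 : 0 ≤ (terms N A c).card * δ := by positivity
          linarith
        · exact hA
    refine ⟨Function.update U m Um, L ∪ Lm, Gm, ?_, ?_, ?_⟩
    · refine (Finset.card_union_le _ _).trans ?_
      rw [add_mul, one_mul]
      exact Nat.add_le_add hL hLm
    · refine hGm.trans ?_
      push_cast
      linarith
    · intro j hj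
      rcases Nat.lt_succ_iff_lt_or_eq.1 hj with h | rfl
      · rw [Function.update_of_ne (Nat.ne_of_lt h)]
        exact (hU j h).mono Finset.subset_union_left hGmono
      · rw [Function.update_self]
        exact hUm

/-- **Approximation theorem.** A small monotone circuit which accepts all covering systems `F`
rejects few of the inputs `xpos y`. -/
theorem mono_core (h0 : 0 < p) (h1 : p ≤ 1) (d : ℕ) (hd : 1 ≤ d) (hk : 1 ≤ k) (hN : 1 ≤ N)
    (x : ℝ) (hx : x = (p ^ (c - 1).choose (k - 1))⁻¹ / 2 ^ d) (hx1 : x ≤ 1)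
    (hδ : Real.exp (-(1 / (4 * ((1 + x) ^ N - 1)))) ≤ δ) (M : MCircuit ι)
    (xpos : (Fin N → A) → (ι → Bool))
    (xneg : ((Finset (Fin N) × (Fin N → A)) → Bool) → (ι → Bool))
    (base : ι → Finset (Term N A)) (hbase : ∀ i, base i ⊆ terms N A c)
    (hpos : ∀ i y, xpos y i = false → ∃ t ∈ base i, Cov t y)
    (hneg : ∀ i F, (∃ t ∈ base i, Good k F t) → xneg F i = false)
    (hunsat : ∀ F : (Finset (Fin N) × (Fin N → A)) → Bool,
      (∀ y : Fin N → A, ∃ V : Finset (Fin N), V.card = k ∧ F (V, mask V y) = true) →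
      M.eval (xneg F) = true)
    (hnum : (3 * M.size + 1) * ((terms N A c).card * δ)
      + (Fintype.card (Fin N → A) : ℝ) * p ^ (N.choose k) < p ^ (c.choose k)) :
    ((Finset.univ : Finset (Fin N → A)).filter (fun y => M.eval (xpos y) = false)).card
      ≤ M.size * (2 ^ (2 * d * (c + 1)) * (Fintype.card A) ^ (N - (c + 1))) := by
  classical
  have hδ0 : 0 ≤ δ := (Real.exp_pos _).le.trans hδ
  obtain ⟨U, L, G, hL, hG, hU⟩ := gates_approx h0 h1 d hd hk hN x hx hx1 hδ M xpos xneg base hbase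
    hpos hneg M.size
  obtain ⟨Uo, Go, hGo, hA⟩ := wire_approx h0.le h1 hδ0 M xpos xneg base hbase hpos hneg M.size
    U L G hU M.out
  by_contra hcon
  push Not at hcon
  have hex : ∃ y, y ∈ ((Finset.univ : Finset (Fin N → A)).filter
      (fun y => M.eval (xpos y) = false)) ∧ y ∉ L := by
    by_contra hno
    push Not at hno
    have := Finset.card_le_card (fun y hy => hno y hy : _ ⊆ L)
    omega
  obtain ⟨y, hy1, hy2⟩ := hex
  obtain ⟨t, ht, _⟩ := hA.pos y hy2 (Finset.mem_filter.1 hy1).2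
  have htc := (Finset.mem_filter.1 (hA.sub ht)).2.1
  -- the probability that t is clean
  obtain ⟨ES, hES⟩ : ∃ ES : Finset (Finset (Fin N) × (Fin N → A)),
    ES = (t.1.powersetCard k).image (fun V => (V, mask V t.2)) := ⟨_, rfl⟩
  have hEScard : ES.card ≤ c.choose k := by
    rw [hES]
    refine Finset.card_image_le.trans ?_
    rw [Finset.card_powersetCard]
    exact Nat.choose_le_choose k htc
  have hgoodp : p ^ (c.choose k) ≤ pr p (fun F => Good k F t) := by
    calc p ^ (c.choose k) ≤ p ^ ES.card := pow_le_pow_of_le_one h0.le h1 hEScard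
      _ = pr p (fun F => ∀ e ∈ ES, F e = false) := (pr_ind ES).symm
      _ ≤ _ := by
          apply pr_mono h0.le h1
          intro F hF V hV hVk
          apply hF
          rw [hES]
          exact Finset.mem_image.2 ⟨V, Finset.mem_powersetCard.2 ⟨hV, hVk⟩, rfl⟩
  have hcover : pr p (fun F : (Finset (Fin N) × (Fin N → A)) → Bool =>
      ∃ y : Fin N → A, ∀ e ∈ allEntries k y, F e = false)
      ≤ (Fintype.card (Fin N → A) : ℝ) * p ^ (N.choose k) := by
    have e1 : pr p (fun F : (Finset (Fin N) × (Fin N → A)) → Bool =>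
        ∃ y : Fin N → A, ∀ e ∈ allEntries k y, F e = false)
        ≤ ex p (fun F => ∑ y : Fin N → A, ind (allEntries k y) F) := by
      unfold pr
      apply ex_mono h0.le h1
      intro F
      by_cases hF : ∃ y : Fin N → A, ∀ e ∈ allEntries k y, F e = false
      · rw [if_pos hF]
        obtain ⟨y, hy⟩ := hF
        have e2 : ind (allEntries k y) F = 1 := by
          unfold ind
          rw [if_pos hy]
        rw [← e2]
        exact Finset.single_le_sum (f := fun y => ind (allEntries k y) F)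
          (fun z _ => ind_nonneg _ _) (Finset.mem_univ y)
      · rw [if_neg hF]
        exact Finset.sum_nonneg (fun z _ => ind_nonneg _ _)
    refine e1.trans (le_of_eq ?_)
    rw [ex_sum]
    simp_rw [ex_ind, allEntries_card]
    rw [Finset.sum_const, nsmul_eq_mul, Finset.card_univ]
  have hbound : pr p (fun F => Good k F t) ≤ pr p (fun F : (Finset (Fin N) × (Fin N → A)) → Bool =>
      (G F ∨ Go F) ∨ ∃ y : Fin N → A, ∀ e ∈ allEntries k y, F e = false) := by
    apply pr_mono h0.le h1
    intro F hF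
    by_contra hno
    push Not at hno
    obtain ⟨hno1, hno2⟩ := hno
    have e1 := hA.neg F (by push Not; exact hno1) ⟨t, ht, hF⟩
    have e2 := hunsat F (by
      intro y
      obtain ⟨e, he, hFe⟩ := hno2 y
      unfold allEntries at he
      obtain ⟨V, hV, rfl⟩ := Finset.mem_image.1 he
      exact ⟨V, (Finset.mem_powersetCard.1 hV).2, by simpa using hFe⟩)
    unfold MCircuit.eval at e2
    rw [e1] at e2
    exact absurd e2 (by simp)
  have e3 := pr_or_le h0.le h1 (fun F => G F ∨ Go F)
    (fun F : (Finset (Fin N) × (Fin N → A)) → Bool =>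
      ∃ y : Fin N → A, ∀ e ∈ allEntries k y, F e = false)
  have e4 := pr_or_le h0.le h1 G Go
  have e5 : (3 * (M.size : ℝ) + 1) * ((terms N A c).card * δ)
      = 3 * M.size * ((terms N A c).card * δ) + (terms N A c).card * δ := by ring
  linarith

end MonoCirc

end Pool.Agent.T9h20
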