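import Mathlib
import Pool.Agent.T9h20.MonoParams
import Pool.Agent.T9h20.AvgMain

/-!
The lower bound for monotone circuits deciding unsatisfiability.
-/

namespace Pool.Agent.T9h20

open Finset

set_option linter.unusedSectionVars false
set_option linter.unusedVariables false

section MonoTransfer

variable {n N b : ℕ}

lemma bitIdx_inj (h : N * b ≤ n) {i i' : Fin N} {j j' : Fin b}
    (he : bitIdx h i j = bitIdx h i' j') : i = i' ∧ j = j' := by
  unfold bitIdx at he
  have h1 := Fin.castLE_injective h he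
  have h2 := finProdFinEquiv.injective h1
  exact ⟨(Prod.mk.inj h2).1, (Prod.mk.inj h2).2⟩

lemma mem_entryClause (h : N * b ≤ n) (V : Finset (Fin N)) (z : Fin N → (Fin b → Bool))
    (i : Fin N) (j : Fin b) (v : Bool) :
    (bitIdx h i j, v) ∈ entryClause h V z ↔ i ∈ V ∧ v = !(z i j) := by
  unfold entryClause
  constructor
  · intro hm
    obtain ⟨⟨i', j'⟩, hq, he⟩ := Finset.mem_image.1 hm
    obtain ⟨e1, e2⟩ := Prod.mk.inj he
    obtain ⟨rfl, rfl⟩ := bitIdx_inj h e1
    exact ⟨(Finset.mem_product.1 hq).1, e2.symm⟩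
  · rintro ⟨hi, rfl⟩
    exact Finset.mem_image.2 ⟨(i, j), Finset.mem_product.2 ⟨hi, Finset.mem_univ _⟩, rfl⟩

lemma entryClause_inj (h : N * b ≤ n) (hb : 0 < b) {V V' : Finset (Fin N)}
    {z z' : Fin N → (Fin b → Bool)} (hz : mask V z = z) (hz' : mask V' z' = z')
    (he : entryClause h V z = entryClause h V' z') : V = V' ∧ z = z' := by
  have hV : ∀ i, i ∈ V ↔ i ∈ V' := by
    intro i
    constructor
    · intro hi
      have h1 := (mem_entryClause h V z i ⟨0, hb⟩ _).2 ⟨hi, rfl⟩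
      rw [he] at h1
      exact ((mem_entryClause h V' z' i ⟨0, hb⟩ _).1 h1).1
    · intro hi
      have h1 := (mem_entryClause h V' z' i ⟨0, hb⟩ _).2 ⟨hi, rfl⟩
      rw [← he] at h1
      exact ((mem_entryClause h V z i ⟨0, hb⟩ _).1 h1).1
  have hVV : V = V' := Finset.ext hV
  refine ⟨hVV, ?_⟩
  subst hVV
  rw [← hz, ← hz', mask_eq_iff]
  intro i hi
  funext j
  have h1 := (mem_entryClause h V z i j _).2 ⟨hi, rfl⟩
  rw [he] at h1
  have h2 := ((mem_entryClause h V z' i j _).1 h1).2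
  cases hzi : z i j <;> cases hzi' : z' i j <;> simp_all

/-- The unit clauses on the leftover variables. -/
def leftUnits (n m : ℕ) : CNF n :=
  ((Finset.univ : Finset (Fin n × Bool)).filter (fun l => m ≤ l.1.1)).image (fun l => {l})

/-- The unit clauses on the leftover variables satisfied by `ρ`. -/
def rhoUnits (m : ℕ) (ρ : Fin n → Bool) : CNF n :=
  ((Finset.univ : Finset (Fin n)).filter (fun i => m ≤ i.1)).image (fun i => {(i, ρ i)})

lemma rhoUnits_subset (m : ℕ) (ρ : Fin n → Bool) : rhoUnits m ρ ⊆ leftUnits n m := by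
  intro C hC
  unfold rhoUnits at hC
  obtain ⟨i, hi, rfl⟩ := Finset.mem_image.1 hC
  unfold leftUnits
  exact Finset.mem_image.2 ⟨(i, ρ i), Finset.mem_filter.2 ⟨Finset.mem_univ _,
    (Finset.mem_filter.1 hi).2⟩, rfl⟩

lemma leftUnits_card (n m : ℕ) : (leftUnits n m).card ≤ 2 * n := by
  unfold leftUnits
  refine Finset.card_image_le.trans ((Finset.card_le_univ _).trans ?_)
  rw [Fintype.card_prod, Fintype.card_fin, Fintype.card_bool, mul_comm]

/-- The set of allowed clauses. -/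
def allowed (h : N * b ≤ n) (k : ℕ) : CNF n := cnfOf h k (fun _ => true) ∪ leftUnits n (N * b)

lemma cnfOf_subset_allowed (h : N * b ≤ n) (k : ℕ)
    (F : (Finset (Fin N) × (Fin N → (Fin b → Bool))) → Bool) : cnfOf h k F ⊆ allowed h k := by
  intro C hC
  unfold allowed
  apply Finset.mem_union_left
  unfold cnfOf at *
  obtain ⟨e, he, rfl⟩ := Finset.mem_image.1 hC
  refine Finset.mem_image.2 ⟨e, ?_, rfl⟩
  unfold forbidden at *
  obtain ⟨_, h1, h2, h3⟩ := Finset.mem_filter.1 he
  exact Finset.mem_filter.2 ⟨Finset.mem_univ _, h1, rfl, h3⟩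

lemma entry_mem_allowed (h : N * b ≤ n) (k : ℕ) (V : Finset (Fin N)) (z : Fin N → (Fin b → Bool))
    (hV : V.card = k) (hz : mask V z = z) : entryClause h V z ∈ allowed h k := by
  unfold allowed cnfOf forbidden
  apply Finset.mem_union_left
  exact Finset.mem_image.2 ⟨(V, z), Finset.mem_filter.2 ⟨Finset.mem_univ _, hV, rfl, hz⟩, rfl⟩

lemma falsifies_entry_embR (h : N * b ≤ n) (V : Finset (Fin N)) (z : Fin N → (Fin b → Bool))
    (hz : mask V z = z) (ρ : Fin n → Bool) (y : Fin N → (Fin b → Bool)) :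
    Falsifies (embR ρ y) (entryClause h V z) ↔ mask V y = z := by
  rw [falsifies_entryClause]
  constructor
  · intro H
    rw [← hz, mask_eq_iff]
    intro i hi
    funext j
    rw [← H i hi j, embR_bitIdx]
  · intro H i hi j
    rw [embR_bitIdx, ← H]
    simp [mask, hi]

lemma mem_planted {𝒞 : CNF n} {x : Fin n → Bool} {C : Clause n} :
    C ∈ planted 𝒞 x ↔ C ∈ 𝒞 ∧ ¬ Falsifies x C := by
  classical
  unfold planted
  rw [Finset.mem_filter]

/-- The only assignment satisfying the planted formula is the planted one. -/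
lemma planted_unique (h : N * b ≤ n) (k : ℕ) (hk : 1 ≤ k) (hkN : k ≤ N) (x y : Fin n → Bool)
    (hxy : ∀ C ∈ planted (allowed h k) x, ¬ Falsifies y C) : y = x := by
  classical
  by_contra hne
  -- a differing variable
  have hex : ∃ t, y t ≠ x t := by
    by_contra hcon
    push Not at hcon
    exact hne (funext hcon)
  obtain ⟨t, ht⟩ := hex
  by_cases htN : t.1 < N * b
  · obtain ⟨⟨i, j⟩, hij⟩ := finProdFinEquiv.surjective (⟨t.1, htN⟩ : Fin (N * b))
    have htb : bitIdx h i j = t := by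
      unfold bitIdx
      rw [hij]
      rfl
    obtain ⟨V, hiV, hV⟩ : ∃ V : Finset (Fin N), {i} ⊆ V ∧ V.card = k := by
      obtain ⟨V, h1, _, h2⟩ := Finset.exists_subsuperset_card_eq
        (Finset.subset_univ ({i} : Finset (Fin N))) (by simpa using hk) (by simpa using hkN)
      exact ⟨V, h1, h2⟩
    have hi : i ∈ V := hiV (Finset.mem_singleton_self i)
    have hmem := entry_mem_allowed h k V (mask V (blk h y)) hV
      (mask_idem V (blk h y))
    apply hxy (entryClause h V (mask V (blk h y)))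
    · rw [mem_planted]
      refine ⟨hmem, ?_⟩
      intro hf
      rw [falsifies_entryClause] at hf
      have h1 := hf i hi j
      rw [htb] at h1
      apply ht
      rw [h1]
      simp only [mask, hi, if_true]
      unfold blk
      rw [htb]
    · rw [falsifies_entryClause]
      intro i' hi' j'
      simp only [mask, hi', if_true]
      rfl
  · apply hxy {(t, x t)}
    · rw [mem_planted]
      refine ⟨?_, ?_⟩
      · unfold allowed leftUnits
        apply Finset.mem_union_right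
        exact Finset.mem_image.2 ⟨(t, x t), Finset.mem_filter.2 ⟨Finset.mem_univ _,
          Nat.le_of_not_lt htN⟩, rfl⟩
      · intro hf
        exact hf (t, x t) (Finset.mem_singleton_self _) rfl
    · intro l hl
      rw [Finset.mem_singleton] at hl
      subst hl
      exact ht

open Classical in
/-- The base term family of an input clause. -/
noncomputable def baseT (h : N * b ≤ n) (k : ℕ) (ρ : Fin n → Bool) (C : Clause n) :
    Finset (Term N (Fin b → Bool)) :=
  if C ∈ rhoUnits (N * b) ρ then ∅ else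
    if hC : ∃ e : Term N (Fin b → Bool), e.1.card = k ∧ mask e.1 e.2 = e.2 ∧
      C = entryClause h e.1 e.2 then {hC.choose} else {(∅, mask ∅ default)}

/-- The theorem for one assignment of the leftover variables. -/
lemma mono_rho (h : N * b ≤ n) (hb : 0 < b) (k c d : ℕ) (hd : 1 ≤ d) (hk : 1 ≤ k) (hN : 1 ≤ N)
    (hkc : k ≤ c) (p x : ℝ) (h0 : 0 < p) (h1 : p ≤ 1)
    (hx : x = (p ^ (c - 1).choose (k - 1))⁻¹ / 2 ^ d) (hx1 : x ≤ 1)
    (M : MCircuit (Clause n))
    (hM : ∀ φ : CNF n, φ ⊆ allowed h k → Unsat φ → M.eval (fun C => decide (C ∈ φ)) = true)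
    (hnum : (3 * M.size + 1) * ((terms N (Fin b → Bool) c).card
        * Real.exp (-(1 / (4 * ((1 + x) ^ N - 1)))))
      + (Fintype.card (Fin N → (Fin b → Bool)) : ℝ) * p ^ (N.choose k) < p ^ (c.choose k))
    (ρ : Fin n → Bool) :
    ((Finset.univ : Finset (Fin N → (Fin b → Bool))).filter
      (fun y => M.eval (fun C => decide (C ∈ planted (allowed h k) (embR ρ y))) = false)).card
      ≤ M.size * (2 ^ (2 * d * (c + 1)) * (2 ^ b) ^ (N - (c + 1))) := by
  classical
  have hcardA : Fintype.card (Fin b → Bool) = 2 ^ b := by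
    rw [Fintype.card_fun, Fintype.card_bool, Fintype.card_fin]
  have hrho : ∀ C ∈ rhoUnits (N * b) ρ, ∀ y : Fin N → (Fin b → Bool), ¬ Falsifies (embR ρ y) C := by
    intro C hC y hf
    unfold rhoUnits at hC
    obtain ⟨i, hi, rfl⟩ := Finset.mem_image.1 hC
    have hiN := (Finset.mem_filter.1 hi).2
    have h2 := hf (i, ρ i) (Finset.mem_singleton_self _)
    apply h2
    unfold embR
    rw [dif_neg (Nat.not_lt.2 hiN)]
  have hmain := mono_core (ι := Clause n) (δ := Real.exp (-(1 / (4 * ((1 + x) ^ N - 1))))) h0 h1 d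
    hd hk hN x hx hx1 le_rfl M
    (fun y => fun C => decide (C ∈ planted (allowed h k) (embR ρ y)))
    (fun F => fun C => decide (C ∈ cnfOf h k F ∪ rhoUnits (N * b) ρ))
    (baseT h k ρ) (by
      intro C t ht
      unfold baseT at ht
      unfold terms
      rw [Finset.mem_filter]
      split_ifs at ht with g1 g2
      · exact absurd ht (Finset.notMem_empty _)
      · rw [Finset.mem_singleton] at ht
        rw [ht]
        obtain ⟨e1, e2, _⟩ := g2.choose_spec
        exact ⟨Finset.mem_univ _, by omega, e2⟩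
      · rw [Finset.mem_singleton] at ht
        rw [ht]
        refine ⟨Finset.mem_univ _, by simp, ?_⟩
        exact mask_mask_of_subset (Finset.Subset.refl (∅ : Finset (Fin N))) default) (by
      intro C y hC
      rw [decide_eq_false_iff_not, mem_planted] at hC
      unfold baseT
      split_ifs with g1 g2
      · exfalso
        apply hC
        refine ⟨?_, hrho C g1 y⟩
        unfold allowed
        exact Finset.mem_union_right _ (rhoUnits_subset _ _ g1)
      · refine ⟨_, Finset.mem_singleton_self _, ?_⟩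
        obtain ⟨e1, e2, e3⟩ := g2.choose_spec
        have hCin : C ∈ allowed h k := by
          rw [e3]
          exact entry_mem_allowed h k _ _ e1 e2
        have hf : Falsifies (embR ρ y) C := by
          by_contra hcon
          exact hC ⟨hCin, hcon⟩
        rw [e3, falsifies_entry_embR h _ _ e2] at hf
        exact hf
      · refine ⟨(∅, mask ∅ default), Finset.mem_singleton_self _, ?_⟩
        have h2 : mask (∅ : Finset (Fin N)) y = mask ∅ default :=
          mask_eq_iff.2 (fun i hi => absurd hi (Finset.notMem_empty i))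
        exact h2) (by
      intro C F hex
      rw [decide_eq_false_iff_not]
      unfold baseT at hex
      intro hC
      split_ifs at hex with g1 g2
      · obtain ⟨t, ht, _⟩ := hex
        exact absurd ht (Finset.notMem_empty _)
      · obtain ⟨t, ht, hg⟩ := hex
        rw [Finset.mem_singleton] at ht
        obtain ⟨e1, e2, e3⟩ := g2.choose_spec
        rw [← ht] at e1 e2 e3
        rcases Finset.mem_union.1 hC with hC | hC
        · unfold cnfOf at hC
          obtain ⟨e, he, heC⟩ := Finset.mem_image.1 hC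
          obtain ⟨_, f1, f2, f3⟩ := Finset.mem_filter.1 he
          have hee := entryClause_inj h hb f3 e2 (heC.trans e3)
          have h5 := hg t.1 (Finset.Subset.refl _) e1
          rw [e2] at h5
          have h6 : e = t := Prod.ext hee.1 hee.2
          rw [h6] at f2
          have h7 : (t.1, t.2) = t := rfl
          rw [h7, f2] at h5
          exact absurd h5 (by simp)
        · exact g1 hC
      · rcases Finset.mem_union.1 hC with hC | hC
        · unfold cnfOf at hC
          obtain ⟨e, he, heC⟩ := Finset.mem_image.1 hC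
          obtain ⟨_, f1, f2, f3⟩ := Finset.mem_filter.1 he
          exact g2 ⟨e, f1, f3, heC.symm⟩
        · exact g1 hC) (by
      intro F hF
      apply hM
      · intro C hC
        rcases Finset.mem_union.1 hC with hC | hC
        · exact cnfOf_subset_allowed h k F hC
        · unfold allowed
          exact Finset.mem_union_right _ (rhoUnits_subset _ _ hC)
      · intro z
        obtain ⟨C, hC, hCz⟩ := cnfOf_unsat h k F hF z
        exact ⟨C, Finset.mem_union_left _ hC, hCz⟩) hnum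
  rw [hcardA] at hmain
  convert hmain

end MonoTransfer

/-- Polynomials are eventually smaller than `2 ^ n`. -/
lemma eventually_poly_lt (E : ℕ) : ∃ n0 : ℕ, ∀ n : ℕ, n0 ≤ n → (n + 1) ^ E < 2 ^ n := by
  have h1 := tendsto_pow_const_div_const_pow_of_one_lt (2 * E) (by norm_num : (1 : ℝ) < 2)
  have h2 := h1.eventually (gt_mem_nhds (by norm_num : (0 : ℝ) < 1))
  obtain ⟨n0, hn0⟩ := Filter.eventually_atTop.1 h2
  refine ⟨max n0 2, ?_⟩
  intro n hn
  have hn2 : 2 ≤ n := le_trans (le_max_right _ _) hn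
  have h3 := hn0 n (le_trans (le_max_left _ _) hn)
  rw [div_lt_one (by positivity)] at h3
  have h4 : n ^ (2 * E) < 2 ^ n := by exact_mod_cast h3
  refine lt_of_le_of_lt ?_ h4
  rw [pow_mul]
  apply Nat.pow_le_pow_left
  nlinarith

/-- The counting bound of the monotone circuit theorem, for fixed parameters. -/
lemma mono_regime (ε : ℝ) (hε : 0 < ε) (a k n d b N N1 : ℕ) (ha3 : 3 ≤ a) (hεa : 8 ≤ ε * a)
    (hk : 1 ≤ k) (hb : b = a * d) (hdpos : 1 ≤ d) (hbpos : 0 < b) (hNb : N * b ≤ n)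
    (hnlt : n ≤ (N + 1) * b) (haN : a ≤ N) (hN1 : N1 = N - N / a) (hkN1 : k ≤ N1)
    (p x : ℝ) (hp0 : 0 < p) (hp1 : p ≤ 1)
    (hx : x = (p ^ (N1 - 1).choose (k - 1))⁻¹ / 2 ^ d) (hx1 : x ≤ 1)
    (hnum : ∀ s : ℕ, s < 2 ^ n →
        (3 * s + 1) * ((terms N (Fin b → Bool) N1).card
            * Real.exp (-(1 / (4 * ((1 + x) ^ N - 1)))))
          + (Fintype.card (Fin N → (Fin b → Bool)) : ℝ) * p ^ (N.choose k)
          < p ^ (N1.choose k))
    (M : MCircuit (Clause n)) (hM : ∀ φ : CNF n, φ ⊆ allowed hNb k → Unsat φ → M.Accepts φ) :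
    (Nat.card {x : Fin n → Bool // ¬ M.Accepts (planted (allowed hNb k) x)} : ℝ)
          ≤ M.size * (2 : ℝ) ^ (ε * n) := by
  classical
  have hcard : Nat.card {x : Fin n → Bool // ¬ M.Accepts (planted (allowed hNb k) x)}
      = ((Finset.univ : Finset (Fin n → Bool)).filter
        (fun x => ¬ M.Accepts (planted (allowed hNb k) x))).card := by
    rw [Nat.card_eq_fintype_card, Fintype.card_subtype]
  rw [hcard]
  have hdiv1 : 1 ≤ N / a := (Nat.one_le_div_iff (by omega)).2 (by omega)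
  rcases Nat.lt_or_ge M.size (2 ^ n) with hsz | hsz
  swap
  · have h1 : (((Finset.univ : Finset (Fin n → Bool)).filter
        (fun x => ¬ M.Accepts (planted (allowed hNb k) x))).card : ℝ) ≤ 2 ^ n := by
      have h2 := Finset.card_filter_le (Finset.univ : Finset (Fin n → Bool))
        (fun x => ¬ M.Accepts (planted (allowed hNb k) x))
      rw [Finset.card_univ, Fintype.card_fun, Fintype.card_bool, Fintype.card_fin] at h2
      exact_mod_cast h2
    have h3 : (2 : ℝ) ^ n ≤ M.size := by exact_mod_cast hsz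
    have h4 : (1 : ℝ) ≤ (2 : ℝ) ^ (ε * n) := by
      apply Real.one_le_rpow (by norm_num)
      exact mul_nonneg hε.le (Nat.cast_nonneg _)
    calc _ ≤ (2 : ℝ) ^ n := h1
      _ ≤ M.size * 1 := by linarith
      _ ≤ M.size * (2 : ℝ) ^ (ε * n) := mul_le_mul_of_nonneg_left h4 (Nat.cast_nonneg _)
  have hrho : ∀ ρ : Fin n → Bool, (((Finset.univ : Finset (Fin N → (Fin b → Bool))).filter
      (fun y => ¬ M.Accepts (planted (allowed hNb k) (embR ρ y)))).card : ℝ)
      ≤ M.size * 2 ^ (3 * d * N) := by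
    intro ρ
    have h1 := mono_rho hNb hbpos k N1 d (by omega) hk (by omega) hkN1 p x hp0 hp1 hx hx1 M hM
      (hnum M.size hsz) ρ
    have h2 : 2 ^ (2 * d * (N1 + 1)) * (2 ^ b) ^ (N - (N1 + 1)) ≤ 2 ^ (3 * d * N) := by
      rw [← pow_mul, ← pow_add]
      apply Nat.pow_le_pow_right (by norm_num)
      have h3 : b * (N - (N1 + 1)) ≤ d * N := by
        have h4 : a * (N / a) ≤ N := Nat.mul_div_le N a
        calc b * (N - (N1 + 1)) ≤ b * (N / a) := Nat.mul_le_mul_left b (by omega)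
          _ = d * (a * (N / a)) := by rw [hb]; ring
          _ ≤ d * N := Nat.mul_le_mul_left d h4
      have h5 : 2 * d * (N1 + 1) ≤ 2 * d * N := Nat.mul_le_mul_left _ (by omega)
      calc 2 * d * (N1 + 1) + b * (N - (N1 + 1)) ≤ 2 * d * N + d * N := Nat.add_le_add h5 h3
        _ = 3 * d * N := by ring
    have h6 : ((Finset.univ : Finset (Fin N → (Fin b → Bool))).filter
        (fun y => ¬ M.Accepts (planted (allowed hNb k) (embR ρ y)))).card
        ≤ M.size * 2 ^ (3 * d * N) := by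
      refine le_trans (le_of_eq ?_) (h1.trans (Nat.mul_le_mul_left _ h2))
      congr 1
      apply Finset.filter_congr
      intro y _
      unfold MCircuit.Accepts
      rw [Bool.not_eq_true]
    exact_mod_cast h6
  have havg := average_embR hNb (fun x => ¬ M.Accepts (planted (allowed hNb k) x)) _ hrho
  obtain ⟨X, hX⟩ : ∃ X : ℝ, X = (((Finset.univ : Finset (Fin n → Bool)).filter
    (fun x => ¬ M.Accepts (planted (allowed hNb k) x))).card : ℝ) := ⟨_, rfl⟩
  rw [← hX] at havg ⊢
  have hfin : X * 2 ^ (b * N) ≤ (M.size * (2 : ℝ) ^ (ε * n)) * 2 ^ (b * N) := by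
    refine havg.trans ?_
    have e1 : (2 : ℝ) ^ n * (M.size * 2 ^ (3 * d * N))
        = M.size * (2 : ℝ) ^ ((n + 3 * d * N : ℕ) : ℝ) := by
      rw [Real.rpow_natCast, pow_add]
      ring
    have e2 : (M.size * (2 : ℝ) ^ (ε * n)) * 2 ^ (b * N)
        = M.size * (2 : ℝ) ^ (ε * n + (b * N : ℕ)) := by
      rw [Real.rpow_add (by norm_num), Real.rpow_natCast]
      ring
    rw [e1, e2]
    apply mul_le_mul_of_nonneg_left _ (Nat.cast_nonneg _)
    apply Real.rpow_le_rpow_of_exponent_le (by norm_num)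
    have e3 : n + 3 * d * N ≤ b * N + 4 * d * N := by
      have e4 : b ≤ d * N := by
        rw [hb, mul_comm]
        exact Nat.mul_le_mul_left d (by omega)
      have e5 : (N + 1) * b = b * N + b := by ring
      have e6 : 4 * d * N = d * N + 3 * d * N := by ring
      omega
    have e7 : ((n + 3 * d * N : ℕ) : ℝ) ≤ ((b * N + 4 * d * N : ℕ) : ℝ) := by exact_mod_cast e3
    refine e7.trans ?_
    have e8 : (4 * d * N : ℝ) ≤ ε * n := by
      have e9 : ((N * b : ℕ) : ℝ) ≤ n := by exact_mod_cast hNb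
      have e10 : ((N * b : ℕ) : ℝ) = a * (d * N) := by
        rw [hb]
        push_cast
        ring
      rw [e10] at e9
      have e11 : (0 : ℝ) ≤ d * N := mul_nonneg (Nat.cast_nonneg _) (Nat.cast_nonneg _)
      calc (4 * d * N : ℝ) ≤ 8 * (d * N) := by linarith
        _ ≤ (ε * a) * (d * N) := mul_le_mul_of_nonneg_right hεa e11
        _ = ε * (a * (d * N)) := by ring
        _ ≤ ε * n := mul_le_mul_of_nonneg_left e9 hε.le
    push_cast
    linarith
  exact le_of_mul_le_mul_right hfin (by positivity)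

/-- Size bounds of the allowed clauses. -/
lemma allowed_size (k n b N E : ℕ) (hNb : N * b ≤ n) (hn2 : 2 ≤ n) (hkN : k ≤ N)
    (sb1 : N ^ k * 2 ^ (b * k) ≤ (n + 1) ^ E) (sb2 : 2 ^ (k * b) ≤ (n + 1) ^ E) :
    (allowed hNb k).card ≤ n ^ (2 * E + 3) ∧ ∀ C ∈ allowed hNb k, 2 ^ C.card ≤ n ^ (2 * E + 3) := by
  have hB2E : (n + 1) ^ E ≤ n ^ (2 * E) := by
    rw [pow_mul]
    apply Nat.pow_le_pow_left
    nlinarith
  constructor
  · have h1 : (cnfOf hNb k (fun _ => true)).card ≤ (n + 1) ^ E :=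
      (cnfOf_card hNb k hkN _).trans sb1
    have h2 : (allowed hNb k).card ≤ (n + 1) ^ E + 2 * n := by
      unfold allowed
      exact (Finset.card_union_le _ _).trans (Nat.add_le_add h1 (leftUnits_card n (N * b)))
    have h3 : 1 ≤ n ^ (2 * E) := Nat.one_le_pow _ _ (by omega)
    have h4 : n ^ (2 * E + 3) = n ^ (2 * E) * (n * n * n) := by
      rw [pow_add]; ring
    have h5 : 2 * n ≤ n * n := Nat.mul_le_mul_right n hn2
    have h6 : n * n + 1 ≤ n * n * n := by nlinarith
    calc (allowed hNb k).card ≤ n ^ (2 * E) + 2 * n := by omega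
      _ ≤ n ^ (2 * E) * 1 + n ^ (2 * E) * (n * n) := by
          have : n * n ≤ n ^ (2 * E) * (n * n) := Nat.le_mul_of_pos_left _ h3
          omega
      _ = n ^ (2 * E) * (n * n + 1) := by ring
      _ ≤ n ^ (2 * E) * (n * n * n) := Nat.mul_le_mul_left _ h6
      _ = _ := h4.symm
  · intro C hC
    unfold allowed at hC
    rcases Finset.mem_union.1 hC with hC | hC
    · have h1 := cnfOf_width hNb k _ C hC
      calc 2 ^ C.card ≤ 2 ^ (k * b) := Nat.pow_le_pow_right (by norm_num) h1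
        _ ≤ (n + 1) ^ E := sb2
        _ ≤ n ^ (2 * E) := hB2E
        _ ≤ n ^ (2 * E + 3) := Nat.pow_le_pow_right (by omega) (by omega)
    · unfold leftUnits at hC
      obtain ⟨l, _, rfl⟩ := Finset.mem_image.1 hC
      rw [Finset.card_singleton]
      calc 2 ^ 1 ≤ n ^ 1 := by simpa using hn2
        _ ≤ n ^ (2 * E + 3) := Nat.pow_le_pow_right (by omega) (by omega)

/-- The theorem with explicit exponent. -/
lemma mono_circuit_aux (ε : ℝ) (hε : 0 < ε) (a k E : ℕ) (ha3 : 3 ≤ a) (hεa : 8 ≤ ε * a)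
    (hk : 1 ≤ k) (hka : (8 * a * k : ℝ) * (1 - 1 / (2 * a)) ^ (k - 1) ≤ 1)
    (hE : E = 46 * a * (2 * k + 2 * a) + 2 * k) (n : ℕ) (hn2 : 2 ≤ n)
    (hpoly : (n + 1) ^ E < 2 ^ n) :
    ∃ 𝒞 : CNF n, 𝒞.card ≤ n ^ (2 * E + 3) ∧ (∀ C ∈ 𝒞, 2 ^ C.card ≤ n ^ (2 * E + 3)) ∧
      (∀ x y : Fin n → Bool, (∀ C ∈ planted 𝒞 x, ¬ Falsifies y C) → y = x) ∧
      ∀ M : MCircuit (Clause n), (∀ φ : CNF n, φ ⊆ 𝒞 → Unsat φ → M.Accepts φ) →
        (Nat.card {x : Fin n → Bool // ¬ M.Accepts (planted 𝒞 x)} : ℝ)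
          ≤ M.size * (2 : ℝ) ^ (ε * n) := by
  obtain ⟨W, hW⟩ : ∃ W, W = n + 4 := ⟨_, rfl⟩
  have hWB : W ≤ (n + 1) ^ 3 := by
    have h1 : (n + 1) ^ 3 = (n + 1) * (n + 1) * (n + 1) := by ring
    have h2 : 4 * (n + 1) ≤ (n + 1) * (n + 1) * (n + 1) := by nlinarith
    omega
  obtain ⟨hd1, hd2⟩ := dprime_spec W (n + 1) (by omega) (by omega) hWB
  obtain ⟨d', hd'⟩ : ∃ d', d' = 4 * Nat.clog 2 W + 7 := ⟨_, rfl⟩
  rw [← hd'] at hd1 hd2
  obtain ⟨d, hd⟩ : ∃ d, d = 2 * d' := ⟨_, rfl⟩
  obtain ⟨b, hb⟩ : ∃ b, b = a * d := ⟨_, rfl⟩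
  have hdpos : 14 ≤ d := by omega
  have hbpos : 0 < b := by
    rw [hb]
    exact Nat.mul_pos (by omega) (by omega)
  obtain ⟨N, hN⟩ : ∃ N, N = n / b := ⟨_, rfl⟩
  have hNb : N * b ≤ n := by rw [hN]; exact Nat.div_mul_le_self n b
  have hNn : N ≤ n := (Nat.le_mul_of_pos_right N hbpos).trans hNb
  obtain ⟨sb1, sb2, sb3⟩ := size_bounds a (2 * k) n (n + 1) 0 d' d b N hd hb hd2 (by omega)
    (by omega)
  rw [← hE] at sb1 sb2 sb3
  have hreg : (2 * k + 2 * a) * b ≤ n := by
    by_contra hreg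
    push Not at hreg
    exact absurd hpoly (not_lt.2 (sb3 hreg.le))
  clear sb3 hpoly
  have hm0N : 2 * k + 2 * a ≤ N := by rw [hN]; exact (Nat.le_div_iff_mul_le hbpos).2 hreg
  have hnlt : n ≤ (N + 1) * b := by
    have h1 := Nat.div_add_mod n b
    have h2 := Nat.mod_lt n hbpos
    rw [← hN] at h1
    have h3 : (N + 1) * b = b * N + b := by ring
    omega
  have hNb2 : n ≤ 2 * N * b := by
    have h3 : (N + 1) * b ≤ 2 * N * b := Nat.mul_le_mul_right b (by omega)
    omega
  obtain ⟨N1, hN1⟩ : ∃ N1, N1 = N - N / a := ⟨_, rfl⟩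
  have hdiv2 : N / a ≤ N / 2 := Nat.div_le_div_left (by omega) (by norm_num)
  have hdiv1 : 1 ≤ N / a := (Nat.one_le_div_iff (by omega)).2 (by omega)
  have hkN1 : k ≤ N1 := by omega
  obtain ⟨p, x, hp0, hp1, hx, hx1, hnum⟩ := mono_params a k n d' d b N N1 W (by omega) hk hka hW
    hd1 hd hb hNb hNb2 (by omega) (by omega) hN1 (by omega)
  have sb1' : N ^ k * 2 ^ (b * k) ≤ (n + 1) ^ E := by
    refine le_trans ?_ sb1
    apply Nat.mul_le_mul
    · exact Nat.pow_le_pow_right (by omega) (by omega)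
    · apply Nat.pow_le_pow_right (by norm_num)
      exact Nat.mul_le_mul_left _ (by omega)
  have sb2' : 2 ^ (k * b) ≤ (n + 1) ^ E := by
    refine le_trans ?_ sb2
    apply Nat.pow_le_pow_right (by norm_num)
    exact Nat.mul_le_mul_right _ (by omega)
  obtain ⟨hs1, hs2⟩ := allowed_size k n b N E hNb hn2 (by omega) sb1' sb2'
  exact ⟨allowed hNb k, hs1, hs2, fun x y hxy => planted_unique hNb k hk (by omega) x y hxy,
    fun M hM => mono_regime ε hε a k n d b N N1 ha3 hεa hk hb (by omega) hbpos hNb hnlt (by omega)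
      hN1 hkN1 p x hp0 hp1 hx hx1 hnum M hM⟩

/-- **Monotone circuits.** -/
theorem mono_circuit_main (ε : ℝ) (hε : 0 < ε) : ∃ K : ℕ, ∀ n : ℕ, K ≤ n →
    ∃ 𝒞 : CNF n, 𝒞.card ≤ n ^ K ∧ (∀ C ∈ 𝒞, 2 ^ C.card ≤ n ^ K) ∧
      (∀ x y : Fin n → Bool, (∀ C ∈ planted 𝒞 x, ¬ Falsifies y C) → y = x) ∧
      ∀ M : MCircuit (Clause n), (∀ φ : CNF n, φ ⊆ 𝒞 → Unsat φ → M.Accepts φ) →
        ∀ X : Finset (Fin n → Bool), (∀ x ∈ X, ¬ M.Accepts (planted 𝒞 x)) →
          (X.card : ℝ) ≤ M.size * (2 : ℝ) ^ (ε * n) := by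
  classical
  obtain ⟨a, ha3, hεa⟩ : ∃ a : ℕ, 3 ≤ a ∧ 8 ≤ ε * a := by
    refine ⟨⌈8 / ε⌉₊ + 2, ?_, ?_⟩
    · have : 0 < ⌈8 / ε⌉₊ := Nat.ceil_pos.2 (by positivity)
      omega
    · have h1 := Nat.le_ceil (8 / ε)
      have h2 : 8 / ε ≤ ((⌈8 / ε⌉₊ + 2 : ℕ) : ℝ) := by push_cast; linarith
      rw [div_le_iff₀ hε] at h2
      linarith
  obtain ⟨k, hk, hka⟩ := exists_k a (by omega)
  obtain ⟨E, hE⟩ : ∃ E, E = 46 * a * (2 * k + 2 * a) + 2 * k := ⟨_, rfl⟩
  obtain ⟨n0, hn0⟩ := eventually_poly_lt E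
  refine ⟨max (2 * E + 3) n0, ?_⟩
  intro n hnK
  have hnE : 2 * E + 3 ≤ n := le_trans (le_max_left _ _) hnK
  have hnn0 : n0 ≤ n := le_trans (le_max_right _ _) hnK
  have hn2 : 2 ≤ n := by omega
  obtain ⟨𝒞, h1, h2, h3, h4⟩ := mono_circuit_aux ε hε a k E ha3 hεa hk hka hE n hn2 (hn0 n hnn0)
  have hnpow : n ^ (2 * E + 3) ≤ n ^ (max (2 * E + 3) n0) :=
    Nat.pow_le_pow_right (by omega) (le_max_left _ _)
  refine ⟨𝒞, h1.trans hnpow, fun C hC => (h2 C hC).trans hnpow, h3, ?_⟩
  intro M hM X hX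
  refine le_trans ?_ (h4 M hM)
  have hcard : Nat.card {x : Fin n → Bool // ¬ M.Accepts (planted 𝒞 x)}
      = ((Finset.univ : Finset (Fin n → Bool)).filter
        (fun x => ¬ M.Accepts (planted 𝒞 x))).card := by
    rw [Nat.card_eq_fintype_card, Fintype.card_subtype]
  rw [hcard]
  have h5 : X.card ≤ ((Finset.univ : Finset (Fin n → Bool)).filter
      (fun x => ¬ M.Accepts (planted 𝒞 x))).card :=
    Finset.card_le_card (fun x hx => Finset.mem_filter.2 ⟨Finset.mem_univ _, hX x hx⟩)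
  exact_mod_cast h5

end Pool.Agent.T9h20
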