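import Mathlib
import Pool.Agent.T9h20.MonoApprox
import Pool.Agent.T9h20.RealDefs

/-!
The approximation method for monotone real circuits, in block space.
-/

namespace Pool.Agent.T9h20

open Finset

set_option linter.unusedSectionVars false
set_option linter.unusedVariables false

section RealApprox

variable {N : ℕ} {A : Type} [Fintype A] [DecidableEq A] [Inhabited A]
variable {p δ : ℝ} {k c : ℕ}

/-- Plucking: among too many terms of size `l` there is a link whose kernel belongs to every closed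
family containing the link. -/
lemma pluck (h0 : 0 < p) (h1 : p ≤ 1) (d : ℕ) (hk : 1 ≤ k) (hN : 1 ≤ N)
    (x : ℝ) (hx : x = (p ^ (c - 1).choose (k - 1))⁻¹ / 2 ^ d) (hx1 : x ≤ 1)
    (hδ : Real.exp (-(1 / (4 * ((1 + x) ^ N - 1)))) ≤ δ) (l : ℕ) (hl : l ≤ c)
    (T : Finset (Term N A)) (hTl : ∀ t ∈ T, t.1.card = l) (hnorm : ∀ t ∈ T, mask t.1 t.2 = t.2)
    (hcon : 2 ^ (d * l) < T.card) :
    ∃ (s : Term N A) (LK : Finset (Term N A)), LK ⊆ T ∧ LK.Nonempty ∧ s.1.card < l ∧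
      (∀ t ∈ LK, s.1 ⊆ t.1 ∧ mask s.1 t.2 = s.2) ∧
      ∀ U : Finset (Term N A), ClosedF p δ k c U → LK ⊆ U → s ∈ U := by
  classical
  obtain ⟨g, hg⟩ : ∃ g : Finset (Fin N) × (Fin N → A) → ℕ, g = fun q =>
    (T.filter (fun t => q.1 ⊆ t.1 ∧ ∀ i ∈ q.1, t.2 i = q.2 i)).card * 2 ^ (d * q.1.card) :=
    ⟨_, rfl⟩
  obtain ⟨⟨S, z⟩, _, hmax⟩ := Finset.exists_max_image
    (Finset.univ : Finset (Finset (Fin N) × (Fin N → A))) g ⟨(∅, default), Finset.mem_univ _⟩
  have hmax' : ∀ q, g q ≤ g (S, z) := fun q => hmax q (Finset.mem_univ _)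
  obtain ⟨LK, hLK⟩ : ∃ LK, LK = T.filter (fun t => S ⊆ t.1 ∧ ∀ i ∈ S, t.2 i = z i) := ⟨_, rfl⟩
  have hgS : g (S, z) = LK.card * 2 ^ (d * S.card) := by
    rw [hg, hLK]
  have hbig : 2 ^ (d * l) < LK.card * 2 ^ (d * S.card) := by
    rw [← hgS]
    refine lt_of_lt_of_le hcon ?_
    refine le_trans ?_ (hmax' (∅, default))
    rw [hg]
    simp
  have hLKne : LK.Nonempty := by
    rw [Finset.nonempty_iff_ne_empty]
    intro he
    rw [he] at hbig
    simp at hbig
  have hLKm : ∀ t ∈ LK, t ∈ T ∧ S ⊆ t.1 ∧ ∀ i ∈ S, t.2 i = z i := by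
    intro t ht
    rw [hLK] at ht
    exact Finset.mem_filter.1 ht
  obtain ⟨t0, ht0⟩ := hLKne
  have hSl : S.card ≤ l := by
    obtain ⟨g1, g2, _⟩ := hLKm t0 ht0
    rw [← hTl t0 g1]
    exact Finset.card_le_card g2
  have hSlt : S.card < l := by
    rcases Nat.lt_or_ge S.card l with h | h
    · exact h
    exfalso
    have hSeq : ∀ t ∈ LK, S = t.1 := by
      intro t ht
      obtain ⟨g1, g2, _⟩ := hLKm t ht
      apply Finset.eq_of_subset_of_card_le g2
      rw [hTl t g1]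
      exact h
    have hone : LK.card ≤ 1 := by
      rw [Finset.card_le_one]
      intro a ha a' ha'
      obtain ⟨g1, _, g3⟩ := hLKm a ha
      obtain ⟨g1', _, g3'⟩ := hLKm a' ha'
      apply Prod.ext
      · rw [← hSeq a ha, ← hSeq a' ha']
      · rw [← hnorm a g1, ← hnorm a' g1', ← hSeq a ha, ← hSeq a' ha', mask_eq_iff]
        intro i hi
        rw [g3 i hi, g3' i hi]
    have hle : LK.card * 2 ^ (d * S.card) ≤ 1 * 2 ^ (d * l) :=
      Nat.mul_le_mul hone (Nat.pow_le_pow_right (by norm_num) (Nat.mul_le_mul_left d hSl))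
    omega
  have hspread : Spread d LK S := by
    intro I hI τ
    have h2 := hmax' (S ∪ I, fun i => if i ∈ S then z i else τ i)
    rw [hgS, hg] at h2
    dsimp only at h2
    rw [Finset.card_union_of_disjoint hI.symm, mul_add, pow_add] at h2
    have h3 : (LK.filter (fun t => I ⊆ t.1 ∧ ∀ i ∈ I, t.2 i = τ i)).card
        ≤ (T.filter (fun t => S ∪ I ⊆ t.1 ∧
          ∀ i ∈ S ∪ I, t.2 i = (if i ∈ S then z i else τ i))).card := by
      apply Finset.card_le_card
      intro t ht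
      obtain ⟨g1, g2, g3⟩ := Finset.mem_filter.1 ht
      obtain ⟨g4, g5, g6⟩ := hLKm t g1
      refine Finset.mem_filter.2 ⟨g4, Finset.union_subset g5 g2, ?_⟩
      intro i hi
      by_cases hiS : i ∈ S
      · rw [if_pos hiS]; exact g6 i hiS
      · rw [if_neg hiS]
        rcases Finset.mem_union.1 hi with h | h
        · exact absurd h hiS
        · exact g3 i h
    have h4 : (LK.filter (fun t => I ⊆ t.1 ∧ ∀ i ∈ I, t.2 i = τ i)).card * 2 ^ (d * I.card)
        * 2 ^ (d * S.card) ≤ LK.card * 2 ^ (d * S.card) := by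
      refine le_trans ?_ h2
      rw [mul_assoc, mul_comm (2 ^ (d * I.card))]
      exact Nat.mul_le_mul_right _ h3
    exact Nat.le_of_mul_le_mul_right h4 (by positivity)
  have hprob := prob_terms h0 h1 d k c hk hN LK ⟨t0, ht0⟩ S hspread (by
      intro t ht
      rw [hTl t (hLKm t ht).1]
      exact hl) (by
      intro t ht hsub
      have := Finset.card_le_card hsub
      rw [hTl t (hLKm t ht).1] at this
      omega) x hx hx1
  refine ⟨(S, mask S z), LK, fun t ht => (hLKm t ht).1, ⟨t0, ht0⟩, hSlt, ?_, ?_⟩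
  · intro t ht
    obtain ⟨g1, g2, g3⟩ := hLKm t ht
    exact ⟨g2, mask_eq_iff.2 g3⟩
  · intro U hU hLKU
    apply hU
    · unfold terms
      rw [Finset.mem_filter]
      refine ⟨Finset.mem_univ _, ?_, mask_mask_of_subset (Finset.Subset.refl _) _⟩
      dsimp only
      omega
    · refine le_trans ?_ (hprob.trans hδ)
      unfold pr
      apply ex_mono h0.le h1
      intro F
      by_cases hev : Good k F (S, mask S z) ∧ ∀ t' ∈ U, ¬ Good k F t'
      · rw [if_pos hev, if_pos]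
        intro t ht
        obtain ⟨g1, g2, g3⟩ := hLKm t ht
        have hng := hev.2 t (hLKU ht)
        unfold Good GoodOn at hng
        push Not at hng
        obtain ⟨V, hV1, hV2, hV3⟩ := hng
        have hVS : ¬ V ⊆ S := by
          intro hVS
          have h5 := hev.1 V hVS hV2
          dsimp only at h5
          rw [mask_mask_of_subset hVS] at h5
          have h6 : mask V t.2 = mask V z := mask_eq_iff.2 (fun i hi => g3 i (hVS hi))
          rw [h6, h5] at hV3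
          exact hV3 rfl
        refine ⟨(V, mask V t.2), ?_, by simpa using hV3⟩
        unfold entries
        exact Finset.mem_image.2 ⟨V, Finset.mem_filter.2
          ⟨Finset.mem_powersetCard.2 ⟨hV1, hV2⟩, hVS⟩, rfl⟩
      · rw [if_neg hev]
        split_ifs <;> norm_num

open Classical in
/-- Terms which are minimal in the first family of the chain to contain them. -/
noncomputable def firstT (U : ℝ → Finset (Term N A)) : Finset (Term N A) :=
  Finset.univ.filter (fun t => ∃ u, t ∈ minT (U u) ∧ ∀ u', t ∈ U u' → U u ⊆ U u')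

lemma mem_firstT {U : ℝ → Finset (Term N A)} {t : Term N A} :
    t ∈ firstT U ↔ ∃ u, t ∈ minT (U u) ∧ ∀ u', t ∈ U u' → U u ⊆ U u' := by
  classical
  unfold firstT
  rw [Finset.mem_filter]
  exact ⟨fun h => h.2, fun h => ⟨Finset.mem_univ _, h⟩⟩

lemma minT_spec {U : Finset (Term N A)} {t s : Term N A} (ht : t ∈ minT U) (hs : s ∈ U)
    (h1 : s.1 ⊆ t.1) (h2 : mask s.1 t.2 = s.2) : s.1 = t.1 := by
  classical
  unfold minT at ht
  exact (Finset.mem_filter.1 ht).2 s hs h1 h2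

lemma firstT_card_level (h0 : 0 < p) (h1 : p ≤ 1) (d : ℕ) (hk : 1 ≤ k) (hN : 1 ≤ N)
    (x : ℝ) (hx : x = (p ^ (c - 1).choose (k - 1))⁻¹ / 2 ^ d) (hx1 : x ≤ 1)
    (hδ : Real.exp (-(1 / (4 * ((1 + x) ^ N - 1)))) ≤ δ)
    {U : ℝ → Finset (Term N A)} (hU : ∀ u, ClosedF p δ k c (U u)) (hUt : ∀ u, U u ⊆ terms N A c)
    (hmono : ∀ s t, s ≤ t → U s ⊆ U t) (l : ℕ) (hl : l ≤ c) :
    ((firstT U).filter (fun t => t.1.card = l)).card ≤ 2 ^ (d * l) := by
  classical
  by_contra hcon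
  push Not at hcon
  have hmem : ∀ t ∈ (firstT U).filter (fun t => t.1.card = l),
      ∃ u, t ∈ minT (U u) ∧ ∀ u', t ∈ U u' → U u ⊆ U u' := by
    intro t ht
    exact mem_firstT.1 (Finset.mem_filter.1 ht).1
  obtain ⟨s, LK, g1, g2, g3, g4, g5⟩ := pluck h0 h1 d hk hN x hx hx1 hδ l hl
    ((firstT U).filter (fun t => t.1.card = l)) (fun t ht => (Finset.mem_filter.1 ht).2) (by
      intro t ht
      obtain ⟨u, hu, _⟩ := hmem t ht
      exact (Finset.mem_filter.1 (hUt u (minT_subset _ hu))).2.2) hcon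
  have hch : ∀ t ∈ LK, ∃ u, t ∈ minT (U u) := by
    intro t ht
    obtain ⟨u, hu, _⟩ := hmem t (g1 ht)
    exact ⟨u, hu⟩
  choose! f hf using hch
  obtain ⟨tm, htm, hmax⟩ := Finset.exists_max_image LK (fun t => (U (f t)).card) g2
  have hsub : ∀ t ∈ LK, U (f t) ⊆ U (f tm) := by
    intro t ht
    rcases le_total (f t) (f tm) with h | h
    · exact hmono _ _ h
    · have h2 := hmono _ _ h
      have h3 := Finset.eq_of_subset_of_card_le h2 (hmax t ht)
      rw [h3]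
  have hs := g5 (U (f tm)) (hU _) (fun t ht => hsub t ht (minT_subset _ (hf t ht)))
  obtain ⟨g6, g7⟩ := g4 tm htm
  have h4 := minT_spec (hf tm htm) hs g6 g7
  have h5 := (Finset.mem_filter.1 (g1 htm)).2
  rw [← h4] at h5
  omega

lemma firstT_card (h0 : 0 < p) (h1 : p ≤ 1) (d : ℕ) (hd : 1 ≤ d) (hk : 1 ≤ k) (hN : 1 ≤ N)
    (x : ℝ) (hx : x = (p ^ (c - 1).choose (k - 1))⁻¹ / 2 ^ d) (hx1 : x ≤ 1)
    (hδ : Real.exp (-(1 / (4 * ((1 + x) ^ N - 1)))) ≤ δ)
    {U : ℝ → Finset (Term N A)} (hU : ∀ u, ClosedF p δ k c (U u)) (hUt : ∀ u, U u ⊆ terms N A c)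
    (hmono : ∀ s t, s ≤ t → U s ⊆ U t) :
    (firstT U).card ≤ 2 ^ (d * (c + 1)) := by
  classical
  have hmaps : ∀ t ∈ firstT U, t.1.card ∈ Finset.range (c + 1) := by
    intro t ht
    obtain ⟨u, hu, _⟩ := mem_firstT.1 ht
    have := (Finset.mem_filter.1 (hUt u (minT_subset (U u) hu))).2.1
    rw [Finset.mem_range]
    omega
  rw [Finset.card_eq_sum_card_fiberwise hmaps]
  refine (Finset.sum_le_sum (fun l hl => firstT_card_level h0 h1 d hk hN x hx hx1 hδ hU hUt hmono l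
    (by rw [Finset.mem_range] at hl; omega))).trans ?_
  exact geom_le d (c + 1) hd

/-- A covered assignment is covered by a term of `firstT`, which lies in all later families. -/
lemma exists_firstT {U : ℝ → Finset (Term N A)} (hmono : ∀ s t, s ≤ t → U s ⊆ U t)
    {y : Fin N → A} {u : ℝ} (h : ∃ t ∈ U u, Cov t y) :
    ∃ t ∈ firstT U, Cov t y ∧ ∃ u0, t ∈ U u0 ∧ U u0 ⊆ U u := by
  classical
  -- choose the smallest family covering `y`
  obtain ⟨S, hS⟩ : ∃ S : Finset (Finset (Term N A)), S = Finset.univ.filter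
    (fun W => (∃ v, W = U v) ∧ ∃ t ∈ W, Cov t y) := ⟨_, rfl⟩
  have hSne : S.Nonempty := by
    rw [hS]
    exact ⟨U u, Finset.mem_filter.2 ⟨Finset.mem_univ _, ⟨u, rfl⟩, h⟩⟩
  obtain ⟨W, hW, hmin⟩ := Finset.exists_min_image S (fun W => W.card) hSne
  rw [hS] at hW
  obtain ⟨_, ⟨u0, rfl⟩, hcov⟩ := Finset.mem_filter.1 hW
  have hall : ∀ v, (∃ t ∈ U v, Cov t y) → U u0 ⊆ U v := by
    intro v hv
    rcases le_total u0 v with h2 | h2
    · exact hmono _ _ h2
    · have h3 := hmono _ _ h2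
      have h4 := hmin (U v) (by
        rw [hS]
        exact Finset.mem_filter.2 ⟨Finset.mem_univ _, ⟨v, rfl⟩, hv⟩)
      rw [Finset.eq_of_subset_of_card_le h3 h4]
  obtain ⟨t, ht, htc⟩ := exists_minT hcov
  refine ⟨t, mem_firstT.2 ⟨u0, ht, ?_⟩, htc, u0, minT_subset _ ht, hall u h⟩
  intro u' hu'
  exact hall u' ⟨t, hu', htc⟩

open Classical in
/-- The assignments lost at a gate. -/
noncomputable def rlost (U1 U2 : ℝ → Finset (Term N A)) : Finset (Fin N → A) :=
  Finset.univ.filter (fun y => ∃ u v, (∃ t ∈ U1 u, Cov t y) ∧ (∃ t ∈ U2 v, Cov t y) ∧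
    ¬ ∃ t ∈ U1 u ∩ U2 v, Cov t y)

lemma mem_rlost {U1 U2 : ℝ → Finset (Term N A)} {y : Fin N → A} :
    y ∈ rlost U1 U2 ↔ ∃ u v, (∃ t ∈ U1 u, Cov t y) ∧ (∃ t ∈ U2 v, Cov t y) ∧
      ¬ ∃ t ∈ U1 u ∩ U2 v, Cov t y := by
  classical
  unfold rlost
  rw [Finset.mem_filter]
  exact ⟨fun h => h.2, fun h => ⟨Finset.mem_univ _, h⟩⟩

lemma rlost_card (h0 : 0 < p) (h1 : p ≤ 1) (d : ℕ) (hd : 1 ≤ d) (hk : 1 ≤ k) (hN : 1 ≤ N)
    (x : ℝ) (hx : x = (p ^ (c - 1).choose (k - 1))⁻¹ / 2 ^ d) (hx1 : x ≤ 1)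
    (hδ : Real.exp (-(1 / (4 * ((1 + x) ^ N - 1)))) ≤ δ)
    {U1 U2 : ℝ → Finset (Term N A)} (hU1 : ∀ u, ClosedF p δ k c (U1 u))
    (hUt1 : ∀ u, U1 u ⊆ terms N A c) (hm1 : ∀ s t, s ≤ t → U1 s ⊆ U1 t)
    (hU2 : ∀ u, ClosedF p δ k c (U2 u)) (hUt2 : ∀ u, U2 u ⊆ terms N A c)
    (hm2 : ∀ s t, s ≤ t → U2 s ⊆ U2 t) :
    (rlost U1 U2).card ≤ 2 ^ (2 * d * (c + 1)) * (Fintype.card A) ^ (N - (c + 1)) := by
  classical
  have hδ0 : 0 ≤ δ := (Real.exp_pos _).le.trans hδ
  have hsub : rlost U1 U2 ⊆ (firstT U1 ×ˢ firstT U2).biUnion (fun q =>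
      Finset.univ.filter (fun y => Cov q.1 y ∧ Cov q.2 y ∧ c < (q.1.1 ∪ q.2.1).card)) := by
    intro y hy
    obtain ⟨u, v, g1, g2, g3⟩ := mem_rlost.1 hy
    obtain ⟨t1, ht1, hc1, u0, hu0, hs1⟩ := exists_firstT hm1 g1
    obtain ⟨t2, ht2, hc2, v0, hv0, hs2⟩ := exists_firstT hm2 g2
    rw [Finset.mem_biUnion]
    refine ⟨(t1, t2), Finset.mem_product.2 ⟨ht1, ht2⟩, ?_⟩
    refine Finset.mem_filter.2 ⟨Finset.mem_univ _, hc1, hc2, ?_⟩
    dsimp only
    by_contra hcon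
    push Not at hcon
    apply g3
    have hmem : ((t1.1 ∪ t2.1, mask (t1.1 ∪ t2.1) y) : Term N A) ∈ terms N A c := by
      unfold terms
      rw [Finset.mem_filter]
      exact ⟨Finset.mem_univ _, hcon, mask_mask_of_subset (Finset.Subset.refl _) _⟩
    refine ⟨(t1.1 ∪ t2.1, mask (t1.1 ∪ t2.1) y), ?_, rfl⟩
    rw [Finset.mem_inter]
    constructor
    · apply (hU1 u).up hδ0 (hs1 hu0) hmem Finset.subset_union_left
      dsimp only
      rw [mask_mask_of_subset Finset.subset_union_left]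
      exact hc1
    · apply (hU2 v).up hδ0 (hs2 hv0) hmem Finset.subset_union_right
      dsimp only
      rw [mask_mask_of_subset Finset.subset_union_right]
      exact hc2
  refine (Finset.card_le_card hsub).trans ?_
  have hq : 1 ≤ Fintype.card A := Fintype.card_pos
  have h2 := Finset.card_biUnion_le_card_mul (firstT U1 ×ˢ firstT U2) (fun q =>
      Finset.univ.filter (fun y => Cov q.1 y ∧ Cov q.2 y ∧ c < (q.1.1 ∪ q.2.1).card))
      ((Fintype.card A) ^ (N - (c + 1))) (by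
    rintro ⟨t1, t2⟩ _
    dsimp only
    by_cases hc : c < (t1.1 ∪ t2.1).card
    · refine (card_le_of_const _ (t1.1 ∪ t2.1) ?_).trans ?_
      · intro y hy y' hy' i hi
        obtain ⟨_, a1, a2, _⟩ := Finset.mem_filter.1 hy
        obtain ⟨_, b1, b2, _⟩ := Finset.mem_filter.1 hy'
        unfold Cov at a1 a2 b1 b2
        rcases Finset.mem_union.1 hi with h | h
        · exact mask_eq_iff.1 (a1.trans b1.symm) i h
        · exact mask_eq_iff.1 (a2.trans b2.symm) i h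
      · apply Nat.pow_le_pow_right hq
        omega
    · have he : Finset.univ.filter (fun y => Cov t1 y ∧ Cov t2 y ∧ c < (t1.1 ∪ t2.1).card)
          = (∅ : Finset (Fin N → A)) := by
        apply Finset.filter_false_of_mem
        rintro y _ ⟨_, _, h⟩
        exact hc h
      rw [he]
      simp)
  refine h2.trans ?_
  apply Nat.mul_le_mul_right
  rw [Finset.card_product]
  have h3 := firstT_card h0 h1 d hd hk hN x hx hx1 hδ hU1 hUt1 hm1
  have h4 := firstT_card h0 h1 d hd hk hN x hx hx1 hδ hU2 hUt2 hm2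
  calc (firstT U1).card * (firstT U2).card ≤ 2 ^ (d * (c + 1)) * 2 ^ (d * (c + 1)) :=
        Nat.mul_le_mul h3 h4
    _ = 2 ^ (2 * d * (c + 1)) := by rw [← pow_add]; congr 1; ring

open Classical in
/-- The closure of a family of terms. -/
noncomputable def clo (p δ : ℝ) (k c : ℕ) (T : Finset (Term N A)) : Finset (Term N A) :=
  (terms N A c).filter (fun t => ∀ U, U ⊆ terms N A c → ClosedF p δ k c U → T ⊆ U → t ∈ U)

lemma mem_clo {T : Finset (Term N A)} {t : Term N A} : t ∈ clo p δ k c T ↔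
    t ∈ terms N A c ∧ ∀ U, U ⊆ terms N A c → ClosedF p δ k c U → T ⊆ U → t ∈ U := by
  classical
  unfold clo
  rw [Finset.mem_filter]

lemma clo_sub (T : Finset (Term N A)) : clo p δ k c T ⊆ terms N A c :=
  fun _ ht => (mem_clo.1 ht).1

lemma subset_clo {T : Finset (Term N A)} (hT : T ⊆ terms N A c) : T ⊆ clo p δ k c T :=
  fun _ ht => mem_clo.2 ⟨hT ht, fun _ _ _ hTU => hTU ht⟩

lemma clo_mono {T T' : Finset (Term N A)} (h : T ⊆ T') : clo p δ k c T ⊆ clo p δ k c T' :=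
  fun _ ht => mem_clo.2 ⟨(mem_clo.1 ht).1, fun U hU1 hU2 hU3 =>
    (mem_clo.1 ht).2 U hU1 hU2 (h.trans hU3)⟩

lemma clo_closed (h0 : 0 ≤ p) (h1 : p ≤ 1) (T : Finset (Term N A)) :
    ClosedF p δ k c (clo p δ k c T) := by
  intro t ht hpr
  rw [mem_clo]
  refine ⟨ht, ?_⟩
  intro U hU1 hU2 hU3
  apply hU2 t ht
  refine (pr_mono h0 h1 ?_).trans hpr
  rintro F ⟨g1, g2⟩
  refine ⟨g1, fun t' ht' => g2 t' ((mem_clo.1 ht').2 U hU1 hU2 hU3)⟩

lemma clo_pr (h0 : 0 ≤ p) (h1 : p ≤ 1) (hδ : 0 ≤ δ) {T : Finset (Term N A)}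
    (hT : T ⊆ terms N A c) :
    pr p (fun F : (Finset (Fin N) × (Fin N → A)) → Bool =>
        (∃ t ∈ clo p δ k c T, Good k F t) ∧ ∀ t ∈ T, ¬ Good k F t)
      ≤ (terms N A c).card * δ := by
  obtain ⟨U, hU1, hU2, hU3, hU4⟩ := exists_closure (k := k) h0 h1 hδ T hT
  refine (pr_mono h0 h1 ?_).trans hU4
  rintro F ⟨⟨t, ht, hg⟩, g2⟩
  exact ⟨⟨t, (mem_clo.1 ht).2 U hU2 hU3 hU1, hg⟩, g2⟩

lemma terms_closed : ClosedF p δ k c (terms N A c) := fun t ht _ => ht

lemma pr_exists_le {E : Type*} [Fintype E] [DecidableEq E] (h0 : 0 ≤ p) (h1 : p ≤ 1) {ι : Type}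
    (s : Finset ι) (P : ι → (E → Bool) → Prop) (B : ℝ) (hB : ∀ i ∈ s, pr p (P i) ≤ B) :
    pr p (fun F => ∃ i ∈ s, P i F) ≤ s.card * B := by
  classical
  induction s using Finset.induction_on with
  | empty =>
    rw [pr_eq_zero]
    · simp
    · rintro F ⟨i, hi, _⟩
      exact absurd hi (Finset.notMem_empty _)
  | insert a s ha ih =>
    have h2 := ih (fun i hi => hB i (Finset.mem_insert_of_mem hi))
    have h3 := hB a (Finset.mem_insert_self _ _)
    have h4 : pr p (fun F => ∃ i ∈ insert a s, P i F)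
        ≤ pr p (fun F => P a F ∨ ∃ i ∈ s, P i F) := by
      apply pr_mono h0 h1
      rintro F ⟨i, hi, hP⟩
      rcases Finset.mem_insert.1 hi with rfl | hi
      · exact Or.inl hP
      · exact Or.inr ⟨i, hi, hP⟩
    have h5 := h4.trans (pr_or_le h0 h1 _ _)
    rw [Finset.card_insert_of_notMem ha]
    push_cast
    linarith

end RealApprox

end Pool.Agent.T9h20
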