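import Mathlib
import Pool.Agent.T9h20.RealApprox

/-!
The gate-by-gate approximation of a monotone real circuit.
-/

namespace Pool.Agent.T9h20

open Finset

set_option linter.unusedSectionVars false
set_option linter.unusedVariables false

section RealCirc

variable {N : ℕ} {A : Type} [Fintype A] [DecidableEq A] [Inhabited A]

/-- The chain `U` of families approximates the pair of real functions `fpos`, `fneg` outside the
error sets `L`, `G`. -/
structure RApprox (p δ : ℝ) (k c : ℕ) (fpos : (Fin N → A) → ℝ)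
    (fneg : ((Finset (Fin N) × (Fin N → A)) → Bool) → ℝ) (U : ℝ → Finset (Term N A))
    (L : Finset (Fin N → A)) (G : ((Finset (Fin N) × (Fin N → A)) → Bool) → Prop) : Prop where
  sub : ∀ t, U t ⊆ terms N A c
  closed : ∀ t, ClosedF p δ k c (U t)
  mono : ∀ s t, s ≤ t → U s ⊆ U t
  pos : ∀ y, y ∉ L → ∀ t, fpos y ≤ t → ∃ τ ∈ U t, Cov τ y
  neg : ∀ F, ¬ G F → ∀ t, (∃ τ ∈ U t, Good k F τ) → fneg F ≤ t

variable {p δ : ℝ} {k c : ℕ}

lemma RApprox.weaken {fpos : (Fin N → A) → ℝ}
    {fneg : ((Finset (Fin N) × (Fin N → A)) → Bool) → ℝ} {U : ℝ → Finset (Term N A)}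
    {L L' : Finset (Fin N → A)} {G G' : ((Finset (Fin N) × (Fin N → A)) → Bool) → Prop}
    (h : RApprox p δ k c fpos fneg U L G) (hL : L ⊆ L') (hG : ∀ F, G F → G' F) :
    RApprox p δ k c fpos fneg U L' G' :=
  ⟨h.sub, h.closed, h.mono, fun y hy => h.pos y (fun hyL => hy (hL hyL)),
    fun F hF => h.neg F (fun hGF => hF (hG F hGF))⟩

lemma empty_term_mem : ((∅, mask ∅ default) : Term N A) ∈ terms N A c := by
  unfold terms
  rw [Finset.mem_filter]
  refine ⟨Finset.mem_univ _, by simp, ?_⟩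
  exact mask_mask_of_subset (Finset.Subset.refl (∅ : Finset (Fin N))) default

lemma empty_term_cov (y : Fin N → A) : Cov ((∅, mask ∅ default) : Term N A) y := by
  have h2 : mask (∅ : Finset (Fin N)) y = mask ∅ default :=
    mask_eq_iff.2 (fun i hi => absurd hi (Finset.notMem_empty i))
  exact h2

open Classical in
/-- Approximation of a Boolean function with base family `T`. -/
lemma bool_rapprox (h0 : 0 ≤ p) (h1 : p ≤ 1) (hδ : 0 ≤ δ) (T : Finset (Term N A))
    (hT : T ⊆ terms N A c) (fpos : (Fin N → A) → Bool)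
    (fneg : ((Finset (Fin N) × (Fin N → A)) → Bool) → Bool)
    (hpos : ∀ y, fpos y = false → ∃ t ∈ T, Cov t y)
    (hneg : ∀ F, (∃ t ∈ T, Good k F t) → fneg F = false) :
    ∃ U G, pr p G ≤ 2 * ((terms N A c).card * δ) ∧
      RApprox p δ k c (fun y => if fpos y = true then 1 else 0)
        (fun F => if fneg F = true then 1 else 0) U ∅ G := by
  refine ⟨fun t => if t < 0 then clo p δ k c ∅ else if t < 1 then clo p δ k c T
      else terms N A c, fun F => ((∃ t ∈ clo p δ k c T, Good k F t) ∧ ∀ t ∈ T, ¬ Good k F t) ∨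
      ((∃ t ∈ clo p δ k c (∅ : Finset (Term N A)), Good k F t) ∧
        ∀ t ∈ (∅ : Finset (Term N A)), ¬ Good k F t), ?_, ?_, ?_, ?_, ?_, ?_⟩
  · have h2 := pr_or_le h0 h1 (fun F : (Finset (Fin N) × (Fin N → A)) → Bool =>
      ((∃ t ∈ clo p δ k c T, Good k F t) ∧ ∀ t ∈ T, ¬ Good k F t))
      (fun F => ((∃ t ∈ clo p δ k c (∅ : Finset (Term N A)), Good k F t) ∧
        ∀ t ∈ (∅ : Finset (Term N A)), ¬ Good k F t))
    have h3 := clo_pr (k := k) h0 h1 hδ hT
    have h4 := clo_pr (k := k) (c := c) h0 h1 hδ (Finset.empty_subset (terms N A c))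
    linarith
  · intro t
    split_ifs
    · exact clo_sub _
    · exact clo_sub _
    · exact Finset.Subset.refl _
  · intro t
    split_ifs
    · exact clo_closed h0 h1 _
    · exact clo_closed h0 h1 _
    · exact terms_closed
  · intro s t hst
    split_ifs with g1 g2 g3 g4 g5
    · exact Finset.Subset.refl _
    · exact clo_mono (Finset.empty_subset _)
    · exact clo_sub _
    · exfalso; linarith
    · exact Finset.Subset.refl _
    · exact clo_sub _
    · exfalso; linarith
    · exfalso; linarith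
    · exact Finset.Subset.refl _
  · intro y _ t ht
    by_cases hy : fpos y = true
    · rw [if_pos hy] at ht
      rw [if_neg (by linarith), if_neg (by linarith)]
      exact ⟨_, empty_term_mem, empty_term_cov y⟩
    · rw [if_neg hy] at ht
      rw [if_neg (by linarith)]
      split_ifs
      · obtain ⟨τ, hτ, hc⟩ := hpos y (by simpa using hy)
        exact ⟨τ, subset_clo hT hτ, hc⟩
      · exact ⟨_, empty_term_mem, empty_term_cov y⟩
  · intro F hF t hex
    push Not at hF
    obtain ⟨hF1, hF2⟩ := hF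
    by_cases g1 : t < 0
    · rw [if_pos g1] at hex
      obtain ⟨τ, hτ, _⟩ := hF2 hex
      exact absurd hτ (Finset.notMem_empty _)
    · rw [if_neg g1] at hex
      push Not at g1
      by_cases g2 : t < 1
      · rw [if_pos g2] at hex
        have h5 := hneg F (hF1 hex)
        rw [h5]
        simpa using g1
      · push Not at g2
        split_ifs <;> linarith

open Classical in
/-- The base families of a gate. -/
noncomputable def gateBase (c : ℕ) (op : ℝ → ℝ → ℝ) (U1 U2 : ℝ → Finset (Term N A)) (t : ℝ) :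
    Finset (Term N A) :=
  (terms N A c).filter (fun τ => ∃ u v, op u v ≤ t ∧ τ ∈ U1 u ∧ τ ∈ U2 v)

lemma mem_gateBase {op : ℝ → ℝ → ℝ} {U1 U2 : ℝ → Finset (Term N A)} {t : ℝ} {τ : Term N A} :
    τ ∈ gateBase c op U1 U2 t ↔ τ ∈ terms N A c ∧ ∃ u v, op u v ≤ t ∧ τ ∈ U1 u ∧ τ ∈ U2 v := by
  classical
  unfold gateBase
  rw [Finset.mem_filter]

lemma gateBase_mono {op : ℝ → ℝ → ℝ} {U1 U2 : ℝ → Finset (Term N A)} {s t : ℝ} (h : s ≤ t) :
    gateBase c op U1 U2 s ⊆ gateBase c op U1 U2 t := by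
  intro τ hτ
  obtain ⟨h1, u, v, h2, h3⟩ := mem_gateBase.1 hτ
  exact mem_gateBase.2 ⟨h1, u, v, h2.trans h, h3⟩

lemma gateBase_sub {op : ℝ → ℝ → ℝ} {U1 U2 : ℝ → Finset (Term N A)} {t : ℝ} :
    gateBase c op U1 U2 t ⊆ terms N A c := fun _ hτ => (mem_gateBase.1 hτ).1

/-- Approximation of a gate. -/
lemma gate_rapprox (h0 : 0 ≤ p) (h1 : p ≤ 1) (hδ : 0 ≤ δ) (op : ℝ → ℝ → ℝ)
    (hop : ∀ a a' b b' : ℝ, a ≤ a' → b ≤ b' → op a b ≤ op a' b')
    {f1 f2 : (Fin N → A) → ℝ} {f1' f2' : ((Finset (Fin N) × (Fin N → A)) → Bool) → ℝ}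
    {U1 U2 : ℝ → Finset (Term N A)} {L : Finset (Fin N → A)}
    {G1 G2 : ((Finset (Fin N) × (Fin N → A)) → Bool) → Prop}
    (hA1 : RApprox p δ k c f1 f1' U1 L G1) (hA2 : RApprox p δ k c f2 f2' U2 L G2) :
    ∃ U G0, pr p G0 ≤ ((terms N A c).card + 1) * ((terms N A c).card * δ) ∧
      RApprox p δ k c (fun y => op (f1 y) (f2 y)) (fun F => op (f1' F) (f2' F)) U
        (L ∪ rlost U1 U2) (fun F => G1 F ∨ G2 F ∨ G0 F) := by
  classical
  refine ⟨fun t => clo p δ k c (gateBase c op U1 U2 t), fun F => ∃ t,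
    (∃ τ ∈ clo p δ k c (gateBase c op U1 U2 t), Good k F τ) ∧
      ∀ τ ∈ gateBase c op U1 U2 t, ¬ Good k F τ, ?_, ?_, ?_, ?_, ?_, ?_⟩
  · have h2 : pr p (fun F : (Finset (Fin N) × (Fin N → A)) → Bool => ∃ t,
        (∃ τ ∈ clo p δ k c (gateBase c op U1 U2 t), Good k F τ) ∧
          ∀ τ ∈ gateBase c op U1 U2 t, ¬ Good k F τ)
        ≤ pr p (fun F : (Finset (Fin N) × (Fin N → A)) → Bool =>
          ∃ m ∈ Finset.range ((terms N A c).card + 1), ∃ t,
            (gateBase c op U1 U2 t).card = m ∧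
            (∃ τ ∈ clo p δ k c (gateBase c op U1 U2 t), Good k F τ) ∧
            ∀ τ ∈ gateBase c op U1 U2 t, ¬ Good k F τ) := by
      apply pr_mono h0 h1
      rintro F ⟨t, ht1, ht2⟩
      refine ⟨(gateBase c op U1 U2 t).card, ?_, t, rfl, ht1, ht2⟩
      rw [Finset.mem_range]
      have := Finset.card_le_card (gateBase_sub (c := c) (op := op) (U1 := U1) (U2 := U2) (t := t))
      omega
    have h3 := pr_exists_le h0 h1 (Finset.range ((terms N A c).card + 1))
      (fun m => fun F : (Finset (Fin N) × (Fin N → A)) → Bool => ∃ t,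
            (gateBase c op U1 U2 t).card = m ∧
            (∃ τ ∈ clo p δ k c (gateBase c op U1 U2 t), Good k F τ) ∧
            ∀ τ ∈ gateBase c op U1 U2 t, ¬ Good k F τ) ((terms N A c).card * δ) (by
      intro m _
      by_cases hm : ∃ t, (gateBase c op U1 U2 t).card = m
      · obtain ⟨t0, ht0⟩ := hm
        refine le_trans ?_ (clo_pr (k := k) h0 h1 hδ
          (gateBase_sub (c := c) (op := op) (U1 := U1) (U2 := U2) (t := t0)))
        apply pr_mono h0 h1
        rintro F ⟨t, ht, hr⟩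
        have heq : gateBase c op U1 U2 t = gateBase c op U1 U2 t0 := by
          rcases le_total t t0 with h | h
          · exact Finset.eq_of_subset_of_card_le (gateBase_mono h) (by rw [ht, ht0])
          · exact (Finset.eq_of_subset_of_card_le (gateBase_mono h) (by rw [ht, ht0])).symm
        rw [heq] at hr
        exact hr
      · rw [pr_eq_zero]
        · positivity
        · rintro F ⟨t, ht, _⟩
          exact hm ⟨t, ht⟩)
    rw [Finset.card_range, Nat.cast_add, Nat.cast_one] at h3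
    exact h2.trans h3
  · intro t
    exact clo_sub _
  · intro t
    exact clo_closed h0 h1 _
  · intro s t hst
    exact clo_mono (gateBase_mono hst)
  · intro y hy t ht
    rw [Finset.mem_union] at hy
    push Not at hy
    have g1 := hA1.pos y hy.1 (f1 y) le_rfl
    have g2 := hA2.pos y hy.1 (f2 y) le_rfl
    have g3 : ∃ τ ∈ U1 (f1 y) ∩ U2 (f2 y), Cov τ y := by
      by_contra hcon
      exact hy.2 (mem_rlost.2 ⟨f1 y, f2 y, g1, g2, hcon⟩)
    obtain ⟨τ, hτ, hc⟩ := g3
    obtain ⟨hτ1, hτ2⟩ := Finset.mem_inter.1 hτ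
    exact ⟨τ, subset_clo gateBase_sub
      (mem_gateBase.2 ⟨hA1.sub _ hτ1, f1 y, f2 y, ht, hτ1, hτ2⟩), hc⟩
  · intro F hF t hex
    push Not at hF
    obtain ⟨hF1, hF2, hF3⟩ := hF
    obtain ⟨τ, hτ, hg⟩ := hF3 t hex
    obtain ⟨_, u, v, huv, hτ1, hτ2⟩ := mem_gateBase.1 hτ
    exact (hop _ _ _ _ (hA1.neg F hF1 u ⟨τ, hτ1, hg⟩) (hA2.neg F hF2 v ⟨τ, hτ2, hg⟩)).trans huv

variable {ι : Type}

/-- Approximation of a wire. -/
lemma wire_rapprox (h0 : 0 ≤ p) (h1 : p ≤ 1) (hδ : 0 ≤ δ) (M : RCircuit ι)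
    (xpos : (Fin N → A) → (ι → Bool))
    (xneg : ((Finset (Fin N) × (Fin N → A)) → Bool) → (ι → Bool))
    (base : ι → Finset (Term N A)) (hbase : ∀ i, base i ⊆ terms N A c)
    (hpos : ∀ i y, xpos y i = false → ∃ t ∈ base i, Cov t y)
    (hneg : ∀ i F, (∃ t ∈ base i, Good k F t) → xneg F i = false)
    (m : ℕ) (U : ℕ → ℝ → Finset (Term N A)) (L : Finset (Fin N → A))
    (G : ((Finset (Fin N) × (Fin N → A)) → Bool) → Prop)
    (hU : ∀ j < m, RApprox p δ k c (fun y => M.val (xpos y) j) (fun F => M.val (xneg F) j)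
      (U j) L G) (w : RWire ι) :
    ∃ Uw G0, pr p G0 ≤ 2 * ((terms N A c).card * δ) ∧
      RApprox p δ k c (fun y => w.eval (xpos y) (fun j => if j < m then M.val (xpos y) j else 0))
        (fun F => w.eval (xneg F) (fun j => if j < m then M.val (xneg F) j else 0))
        Uw L (fun F => G F ∨ G0 F) := by
  classical
  cases w with
  | input i =>
    obtain ⟨Uw, G0, hG0, hA⟩ := bool_rapprox (k := k) (c := c) h0 h1 hδ (base i) (hbase i)
      (fun y => xpos y i) (fun F => xneg F i) (hpos i) (hneg i)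
    exact ⟨Uw, G0, hG0, hA.weaken (Finset.empty_subset _) (fun F hF => Or.inr hF)⟩
  | gate j =>
    by_cases hj : j < m
    · refine ⟨U j, fun _ => False, ?_, ?_⟩
      · rw [pr_false]
        positivity
      · have h2 := (hU j hj).weaken (Finset.Subset.refl L)
          (G' := fun F => G F ∨ False) (fun F hF => Or.inl hF)
        unfold RWire.eval
        simp only [if_pos hj]
        exact h2
    · obtain ⟨Uw, G0, hG0, hA⟩ := bool_rapprox (k := k) (c := c) h0 h1 hδ
        {((∅, mask ∅ default) : Term N A)} (by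
          intro t ht
          rw [Finset.mem_singleton] at ht
          rw [ht]
          exact empty_term_mem)
        (fun _ => false) (fun _ => false) (by
          intro y _
          exact ⟨_, Finset.mem_singleton_self _, empty_term_cov y⟩) (by intro F _; rfl)
      refine ⟨Uw, G0, hG0, ?_⟩
      have h2 := hA.weaken (L' := L) (G' := fun F => G F ∨ G0 F) (Finset.empty_subset _)
        (fun F hF => Or.inr hF)
      unfold RWire.eval
      simp only [if_neg hj]
      simpa using h2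

/-- Approximation of all gates. -/
lemma gates_rapprox (h0 : 0 < p) (h1 : p ≤ 1) (d : ℕ) (hd : 1 ≤ d) (hk : 1 ≤ k) (hN : 1 ≤ N)
    (x : ℝ) (hx : x = (p ^ (c - 1).choose (k - 1))⁻¹ / 2 ^ d) (hx1 : x ≤ 1)
    (hδ : Real.exp (-(1 / (4 * ((1 + x) ^ N - 1)))) ≤ δ) (M : RCircuit ι)
    (xpos : (Fin N → A) → (ι → Bool))
    (xneg : ((Finset (Fin N) × (Fin N → A)) → Bool) → (ι → Bool))
    (base : ι → Finset (Term N A)) (hbase : ∀ i, base i ⊆ terms N A c)
    (hpos : ∀ i y, xpos y i = false → ∃ t ∈ base i, Cov t y)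
    (hneg : ∀ i F, (∃ t ∈ base i, Good k F t) → xneg F i = false) (m : ℕ) :
    ∃ (U : ℕ → ℝ → Finset (Term N A)) (L : Finset (Fin N → A))
      (G : ((Finset (Fin N) × (Fin N → A)) → Bool) → Prop),
      L.card ≤ m * (2 ^ (2 * d * (c + 1)) * (Fintype.card A) ^ (N - (c + 1))) ∧
      pr p G ≤ m * (((terms N A c).card + 5) * ((terms N A c).card * δ)) ∧
      ∀ j < m, RApprox p δ k c (fun y => M.val (xpos y) j) (fun F => M.val (xneg F) j)
        (U j) L G := by
  have hδ0 : 0 ≤ δ := (Real.exp_pos _).le.trans hδ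
  induction m with
  | zero =>
    refine ⟨fun _ _ => ∅, ∅, fun _ => False, by simp, ?_, ?_⟩
    · rw [pr_false]
      simp
    · intro j hj
      exact absurd hj (Nat.not_lt_zero _)
  | succ m ih =>
    obtain ⟨U, L, G, hL, hG, hU⟩ := ih
    have hval : ∀ z : ι → Bool, M.val z m
        = (M.gate m).op ((M.gate m).left.eval z (fun j => if j < m then M.val z j else 0))
          ((M.gate m).right.eval z (fun j => if j < m then M.val z j else 0)) := by
      intro z
      rw [RCircuit.val]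
      congr 1
    obtain ⟨U1, G1, hG1, hA1⟩ := wire_rapprox h0.le h1 hδ0 M xpos xneg base hbase hpos hneg m
      U L G hU (M.gate m).left
    obtain ⟨U2, G2, hG2, hA2⟩ := wire_rapprox h0.le h1 hδ0 M xpos xneg base hbase hpos hneg m
      U L G hU (M.gate m).right
    obtain ⟨Um, G0, hG0, hA⟩ := gate_rapprox h0.le h1 hδ0 (M.gate m).op (M.gate m).mono hA1 hA2
    have hlc := rlost_card h0 h1 d hd hk hN x hx hx1 hδ hA1.closed hA1.sub hA1.mono
      hA2.closed hA2.sub hA2.mono
    refine ⟨Function.update U m Um, L ∪ rlost U1 U2,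
      fun F => (G F ∨ G1 F) ∨ (G F ∨ G2 F) ∨ G0 F, ?_, ?_, ?_⟩
    · refine (Finset.card_union_le _ _).trans ?_
      rw [add_mul, one_mul]
      exact Nat.add_le_add hL hlc
    · have e1 : pr p (fun F => (G F ∨ G1 F) ∨ (G F ∨ G2 F) ∨ G0 F)
          ≤ pr p (fun F => G F ∨ (G1 F ∨ (G2 F ∨ G0 F))) :=
        pr_mono h0.le h1 (fun F hF => by tauto)
      have e2 := pr_or_le h0.le h1 G (fun F => G1 F ∨ (G2 F ∨ G0 F))
      have e3 := pr_or_le h0.le h1 G1 (fun F => G2 F ∨ G0 F)
      have e4 := pr_or_le h0.le h1 G2 G0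
      push_cast
      nlinarith
    · intro j hj
      rcases Nat.lt_succ_iff_lt_or_eq.1 hj with h | rfl
      · rw [Function.update_of_ne (Nat.ne_of_lt h)]
        exact (hU j h).weaken Finset.subset_union_left (fun F hF => Or.inl (Or.inl hF))
      · rw [Function.update_self]
        simp only [hval]
        exact hA

/-- **Approximation theorem.** A small monotone real circuit which accepts all covering systems `F`
rejects few of the inputs `xpos y`. -/
theorem real_core (h0 : 0 < p) (h1 : p ≤ 1) (d : ℕ) (hd : 1 ≤ d) (hk : 1 ≤ k) (hN : 1 ≤ N)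
    (x : ℝ) (hx : x = (p ^ (c - 1).choose (k - 1))⁻¹ / 2 ^ d) (hx1 : x ≤ 1)
    (hδ : Real.exp (-(1 / (4 * ((1 + x) ^ N - 1)))) ≤ δ) (M : RCircuit ι)
    (xpos : (Fin N → A) → (ι → Bool))
    (xneg : ((Finset (Fin N) × (Fin N → A)) → Bool) → (ι → Bool))
    (base : ι → Finset (Term N A)) (hbase : ∀ i, base i ⊆ terms N A c)
    (hpos : ∀ i y, xpos y i = false → ∃ t ∈ base i, Cov t y)
    (hneg : ∀ i F, (∃ t ∈ base i, Good k F t) → xneg F i = false)
    (hunsat : ∀ F : (Finset (Fin N) × (Fin N → A)) → Bool,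
      (∀ y : Fin N → A, ∃ V : Finset (Fin N), V.card = k ∧ F (V, mask V y) = true) →
      1 ≤ M.eval (xneg F))
    (hnum : (M.size + 1) * (((terms N A c).card + 5) * ((terms N A c).card * δ))
      + (Fintype.card (Fin N → A) : ℝ) * p ^ (N.choose k) < p ^ (c.choose k)) :
    ∀ X : Finset (Fin N → A), (∀ y ∈ X, M.eval (xpos y) < 1) →
    X.card ≤ M.size * (2 ^ (2 * d * (c + 1)) * (Fintype.card A) ^ (N - (c + 1))) := by
  classical
  intro X hX
  have hδ0 : 0 ≤ δ := (Real.exp_pos _).le.trans hδ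
  obtain ⟨U, L, G, hL, hG, hU⟩ := gates_rapprox h0 h1 d hd hk hN x hx hx1 hδ M xpos xneg base
    hbase hpos hneg M.size
  obtain ⟨Uo, Go, hGo, hA⟩ := wire_rapprox h0.le h1 hδ0 M xpos xneg base hbase hpos hneg M.size
    U L G hU M.out
  by_contra hcon
  push Not at hcon
  have hex : ∃ y, y ∈ X ∧ y ∉ L := by
    by_contra hno
    push Not at hno
    have := Finset.card_le_card (fun y hy => hno y hy : X ⊆ L)
    omega
  obtain ⟨y, hy1, hy2⟩ := hex
  have hylt := hX y hy1
  obtain ⟨t, ht, _⟩ := hA.pos y hy2 (M.eval (xpos y)) le_rfl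
  have htc := (Finset.mem_filter.1 (hA.sub _ ht)).2.1
  -- the probability that t is clean
  obtain ⟨ES, hES⟩ : ∃ ES : Finset (Finset (Fin N) × (Fin N → A)),
    ES = (t.1.powersetCard k).image (fun V => (V, mask V t.2)) := ⟨_, rfl⟩
  have hEScard : ES.card ≤ c.choose k := by
    rw [hES]
    refine Finset.card_image_le.trans ?_
    rw [Finset.card_powersetCard]
    exact Nat.choose_le_choose k htc
  have hgoodp : p ^ (c.choose k) ≤ pr p (fun F => Good k F t) := by
    calc p ^ (c.choose k) ≤ p ^ ES.card := pow_le_pow_of_le_one h0.le h1 hEScard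
      _ = pr p (fun F => ∀ e ∈ ES, F e = false) := (pr_ind ES).symm
      _ ≤ _ := by
          apply pr_mono h0.le h1
          intro F hF V hV hVk
          apply hF
          rw [hES]
          exact Finset.mem_image.2 ⟨V, Finset.mem_powersetCard.2 ⟨hV, hVk⟩, rfl⟩
  have hcover : pr p (fun F : (Finset (Fin N) × (Fin N → A)) → Bool =>
      ∃ y : Fin N → A, ∀ e ∈ allEntries k y, F e = false)
      ≤ (Fintype.card (Fin N → A) : ℝ) * p ^ (N.choose k) := by
    have e1 : pr p (fun F : (Finset (Fin N) × (Fin N → A)) → Bool =>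
        ∃ y : Fin N → A, ∀ e ∈ allEntries k y, F e = false)
        ≤ ex p (fun F => ∑ y : Fin N → A, ind (allEntries k y) F) := by
      unfold pr
      apply ex_mono h0.le h1
      intro F
      by_cases hF : ∃ y : Fin N → A, ∀ e ∈ allEntries k y, F e = false
      · rw [if_pos hF]
        obtain ⟨y, hy⟩ := hF
        have e2 : ind (allEntries k y) F = 1 := by
          unfold ind
          rw [if_pos hy]
        rw [← e2]
        exact Finset.single_le_sum (f := fun y => ind (allEntries k y) F)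
          (fun z _ => ind_nonneg _ _) (Finset.mem_univ y)
      · rw [if_neg hF]
        exact Finset.sum_nonneg (fun z _ => ind_nonneg _ _)
    refine e1.trans (le_of_eq ?_)
    rw [ex_sum]
    simp_rw [ex_ind, allEntries_card]
    rw [Finset.sum_const, nsmul_eq_mul, Finset.card_univ]
  have hbound : pr p (fun F => Good k F t) ≤ pr p (fun F : (Finset (Fin N) × (Fin N → A)) → Bool =>
      (G F ∨ Go F) ∨ ∃ y : Fin N → A, ∀ e ∈ allEntries k y, F e = false) := by
    apply pr_mono h0.le h1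
    intro F hF
    by_contra hno
    push Not at hno
    obtain ⟨hno1, hno2⟩ := hno
    have e1 : M.eval (xneg F) ≤ M.eval (xpos y) :=
      hA.neg F (by push Not; exact hno1) _ ⟨t, ht, hF⟩
    have e2 := hunsat F (by
      intro y
      obtain ⟨e, he, hFe⟩ := hno2 y
      unfold allEntries at he
      obtain ⟨V, hV, rfl⟩ := Finset.mem_image.1 he
      exact ⟨V, (Finset.mem_powersetCard.1 hV).2, by simpa using hFe⟩)
    linarith
  have e3 := pr_or_le h0.le h1 (fun F => G F ∨ Go F)
    (fun F : (Finset (Fin N) × (Fin N → A)) → Bool =>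
      ∃ y : Fin N → A, ∀ e ∈ allEntries k y, F e = false)
  have e4 := pr_or_le h0.le h1 G Go
  have hT0 : (0 : ℝ) ≤ (terms N A c).card := Nat.cast_nonneg _
  have hTδ : 0 ≤ ((terms N A c).card : ℝ) * δ := mul_nonneg hT0 hδ0
  have e5 : 2 * ((terms N A c).card * δ) ≤ (((terms N A c).card : ℝ) + 5)
      * ((terms N A c).card * δ) := mul_le_mul_of_nonneg_right (by linarith) hTδ
  have e6 : ((M.size : ℝ) + 1) * (((terms N A c).card + 5) * ((terms N A c).card * δ))
      = M.size * (((terms N A c).card + 5) * ((terms N A c).card * δ))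
        + ((terms N A c).card + 5) * ((terms N A c).card * δ) := by ring
  linarith

end RealCirc

end Pool.Agent.T9h20
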