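import Mathlib
import Pool.Agent.T9h20.RealCirc
import Pool.Agent.T9h20.Params

/-!
Parameters for the theorem on monotone real circuits.
-/

namespace Pool.Agent.T9h20

open Finset

set_option linter.unusedSectionVars false
set_option linter.unusedVariables false

lemma terms_card_le' (n N b c : ℕ) (hNn : N ≤ n) (hNb : N * b ≤ n) :
    (terms N (Fin b → Bool) c).card ≤ 2 ^ (2 * n) := by
  refine (Finset.card_le_univ _).trans ?_
  rw [Fintype.card_prod, Fintype.card_finset, Fintype.card_fun, Fintype.card_fun, Fintype.card_fin,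
    Fintype.card_bool, Fintype.card_fin, ← pow_mul, ← pow_add]
  apply Nat.pow_le_pow_right (by norm_num)
  have : b * N = N * b := mul_comm _ _
  omega

/-- Parameters for the approximation theorem. -/
theorem real_params (a k n d' d b N N1 W : ℕ) (ha : 2 ≤ a) (hk : 1 ≤ k)
    (hka : (8 * a * k : ℝ) * (1 - 1 / (2 * a)) ^ (k - 1) ≤ 1)
    (hW : W = n + 4) (hd' : 128 * W ^ 4 ≤ 2 ^ d') (hd : d = 2 * d') (hb : b = a * d)
    (hNb : N * b ≤ n) (hNb2 : n ≤ 2 * N * b) (hNa : a ≤ N) (hNk : k ≤ N)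
    (hN1 : N1 = N - N / a) (hn : 1 ≤ n) :
    ∃ p x : ℝ, 0 < p ∧ p ≤ 1 ∧ x = (p ^ (N1 - 1).choose (k - 1))⁻¹ / 2 ^ d ∧ x ≤ 1 ∧
      ∀ s : ℕ, s < 2 ^ n →
        (s + 1) * (((terms N (Fin b → Bool) N1).card + 5) * ((terms N (Fin b → Bool) N1).card
            * Real.exp (-(1 / (4 * ((1 + x) ^ N - 1))))))
          + (Fintype.card (Fin N → (Fin b → Bool)) : ℝ) * p ^ (N.choose k)
          < p ^ (N1.choose k) := by
  have hM : 1 ≤ N.choose k := Nat.choose_pos hNk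
  have hM0 : (0 : ℝ) < N.choose k := by exact_mod_cast hM
  have hNpos : 1 ≤ N := by omega
  obtain ⟨p, hp⟩ : ∃ p : ℝ, p = (2 : ℝ) ^ (-(2 * n : ℝ) / (N.choose k : ℝ)) := ⟨_, rfl⟩
  have hp0 : 0 < p := by rw [hp]; exact Real.rpow_pos_of_pos (by norm_num) _
  have hp1 : p ≤ 1 := by
    rw [hp]
    apply Real.rpow_le_one_of_one_le_of_nonpos (by norm_num)
    apply div_nonpos_of_nonpos_of_nonneg _ hM0.le
    have : (0 : ℝ) ≤ n := Nat.cast_nonneg _
    linarith
  have hpM : p ^ (N.choose k) = ((2 : ℝ) ^ (2 * n))⁻¹ := by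
    rw [hp, ← Real.rpow_natCast, ← Real.rpow_mul (by norm_num), div_mul_cancel₀ _ hM0.ne',
      Real.rpow_neg (by norm_num)]
    congr 1
    rw [← Real.rpow_natCast]
    congr 1
    push_cast
    ring
  obtain ⟨K, hK⟩ : ∃ K, K = (N1 - 1).choose (k - 1) := ⟨_, rfl⟩
  have hKM := K_over_M a k N N1 ha hk hNa hNk hN1 hka
  rw [← hK] at hKM
  have hpK : (p ^ K)⁻¹ ≤ 2 ^ d' := by
    have h1 : (p ^ K)⁻¹ = (2 : ℝ) ^ ((2 * n * K : ℝ) / (N.choose k : ℝ)) := by
      rw [hp, ← Real.rpow_natCast, ← Real.rpow_mul (by norm_num), ← Real.rpow_neg (by norm_num)]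
      congr 1
      ring
    rw [h1, ← Real.rpow_natCast]
    apply Real.rpow_le_rpow_of_exponent_le (by norm_num)
    rw [div_le_iff₀ hM0]
    have h2 : (n : ℝ) ≤ 2 * N * (a * (2 * d')) := by
      have : n ≤ 2 * N * (a * (2 * d')) := by
        rw [hb, hd] at hNb2
        exact hNb2
      exact_mod_cast this
    have hK0 : (0 : ℝ) ≤ K := Nat.cast_nonneg _
    have hd0 : (0 : ℝ) ≤ d' := Nat.cast_nonneg _
    calc (2 * n * K : ℝ) ≤ 2 * (2 * N * (a * (2 * d'))) * K := by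
          apply mul_le_mul_of_nonneg_right _ hK0
          linarith
      _ = d' * ((8 * a * N : ℝ) * K) := by ring
      _ ≤ d' * N.choose k := mul_le_mul_of_nonneg_left hKM hd0
  obtain ⟨x, hx⟩ : ∃ x : ℝ, x = (p ^ K)⁻¹ / 2 ^ d := ⟨_, rfl⟩
  have hx0 : 0 < x := by rw [hx]; positivity
  have hxle : x ≤ 1 / 2 ^ d' := by
    rw [hx, div_le_div_iff₀ (by positivity) (by positivity)]
    calc (p ^ K)⁻¹ * 2 ^ d' ≤ 2 ^ d' * 2 ^ d' := mul_le_mul_of_nonneg_right hpK (by positivity)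
      _ = 1 * 2 ^ d := by rw [hd, ← pow_add]; ring_nf
  have hW4 : 4 ≤ W := by omega
  have h2d' : (128 : ℝ) * W ^ 4 ≤ 2 ^ d' := by exact_mod_cast hd'
  have hbpos : 1 ≤ b := by
    by_contra hcon
    have : b = 0 := by omega
    rw [this] at hNb2
    omega
  have hNn : N ≤ n := by nlinarith
  have hNW : (N : ℝ) ≤ W := by
    have : N ≤ W := by omega
    exact_mod_cast this
  have hN0 : (1 : ℝ) ≤ N := by exact_mod_cast hNpos
  have hWr : (4 : ℝ) ≤ W := by exact_mod_cast hW4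
  have hNx : N * x ≤ 1 / 2 := by
    calc (N : ℝ) * x ≤ N * (1 / 2 ^ d') := mul_le_mul_of_nonneg_left hxle (by linarith)
      _ ≤ W * (1 / (128 * W ^ 4)) := by
          apply mul_le_mul hNW _ (by positivity) (by linarith)
          exact one_div_le_one_div_of_le (by positivity) h2d'
      _ ≤ 1 / 2 := by
          rw [mul_one_div, div_le_div_iff₀ (by positivity) (by norm_num)]
          nlinarith [pow_le_pow_left₀ (by norm_num : (0:ℝ) ≤ 4) hWr 3]
  have hx1 : x ≤ 1 := by nlinarith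
  have hη : (1 + x) ^ N - 1 ≤ 2 * N / 2 ^ d' := by
    have h1 : (1 + x) ^ N ≤ Real.exp (N * x) := by
      have h2 : 1 + x ≤ Real.exp x := by linarith [Real.add_one_le_exp x]
      calc (1 + x) ^ N ≤ (Real.exp x) ^ N := pow_le_pow_left₀ (by linarith) h2 N
        _ = Real.exp (N * x) := by rw [← Real.exp_nat_mul]
    have h3 : Real.exp (N * x) ≤ 1 + 2 * (N * x) := by
      have h4 : 1 - N * x ≤ Real.exp (-(N * x)) := by
        have := Real.add_one_le_exp (-(N * x))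
        linarith
      have h5 : 0 < 1 - N * x := by linarith
      have h6 : Real.exp (N * x) ≤ 1 / (1 - N * x) := by
        rw [Real.exp_neg] at h4
        rw [le_div_iff₀ h5]
        have h7 := Real.exp_pos (N * x)
        calc Real.exp (N * x) * (1 - N * x) ≤ Real.exp (N * x) * (Real.exp (N * x))⁻¹ :=
              mul_le_mul_of_nonneg_left h4 h7.le
          _ = 1 := mul_inv_cancel₀ h7.ne'
      refine h6.trans ?_
      rw [div_le_iff₀ h5]
      have h8 : 0 ≤ N * x := by positivity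
      nlinarith
    have h9 : 2 * (N * x) ≤ 2 * N / 2 ^ d' := by
      calc 2 * (N * x) ≤ 2 * (N * (1 / 2 ^ d')) := by
            apply mul_le_mul_of_nonneg_left _ (by norm_num)
            exact mul_le_mul_of_nonneg_left hxle (by linarith)
        _ = _ := by ring
    linarith
  have hηpos : 0 < (1 + x) ^ N - 1 := by
    have h1 := one_add_mul_le_pow (by linarith : (-2 : ℝ) ≤ x) N
    have : 0 < N * x := by positivity
    linarith
  have hexp : 16 * (W : ℝ) ≤ 1 / (4 * ((1 + x) ^ N - 1)) := by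
    rw [le_div_iff₀ (by positivity)]
    calc 16 * (W : ℝ) * (4 * ((1 + x) ^ N - 1))
        ≤ 16 * (W : ℝ) * (4 * (2 * N / 2 ^ d')) := by
          apply mul_le_mul_of_nonneg_left _ (by positivity)
          linarith
      _ ≤ 16 * (W : ℝ) * (4 * (2 * W / (128 * W ^ 4))) := by
          apply mul_le_mul_of_nonneg_left _ (by positivity)
          apply mul_le_mul_of_nonneg_left _ (by norm_num)
          apply div_le_div₀ (by positivity) (by linarith) (by positivity) h2d'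
      _ = 1 / (W ^ 2) := by
          field_simp
          ring
      _ ≤ 1 := by
          rw [div_le_one (by positivity)]
          nlinarith
  have hδ : Real.exp (-(1 / (4 * ((1 + x) ^ N - 1)))) ≤ ((2 : ℝ) ^ (16 * W))⁻¹ := by
    have h1 : Real.exp (-(1 / (4 * ((1 + x) ^ N - 1)))) ≤ Real.exp (-(16 * (W : ℝ))) :=
      Real.exp_le_exp.2 (neg_le_neg hexp)
    have h2 : (2 : ℝ) ^ (16 * W) ≤ Real.exp (16 * (W : ℝ)) := by
      have h3 : (2 : ℝ) ≤ Real.exp 1 := by linarith [Real.add_one_le_exp (1 : ℝ)]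
      calc (2 : ℝ) ^ (16 * W) ≤ (Real.exp 1) ^ (16 * W) :=
            pow_le_pow_left₀ (by norm_num) h3 _
        _ = Real.exp (16 * (W : ℝ)) := by
            rw [← Real.exp_nat_mul]
            congr 1
            push_cast
            ring
    refine h1.trans ?_
    rw [Real.exp_neg]
    exact inv_anti₀ (by positivity) h2
  refine ⟨p, x, hp0, hp1, by rw [hx, hK], hx1, ?_⟩
  intro s hs
  -- the right hand side
  have h8C : 8 * N1.choose k ≤ N.choose k := by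
    have hdiv1 : 1 ≤ N / a := (Nat.one_le_div_iff (by omega)).2 hNa
    have hdivlt : N / a ≤ N / 2 := Nat.div_le_div_left ha (by norm_num)
    have hN1pos : 1 ≤ N1 := by omega
    have e1 : N1 * (N1 - 1).choose (k - 1) = N1.choose k * k := by
      have h := Nat.add_one_mul_choose_eq (N1 - 1) (k - 1)
      have h1 : N1 - 1 + 1 = N1 := by omega
      have h2 : k - 1 + 1 = k := by omega
      rw [h1, h2] at h
      exact h
    have e2 : N1.choose k ≤ N * K := by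
      calc N1.choose k ≤ N1.choose k * k := Nat.le_mul_of_pos_right _ hk
        _ = N1 * K := by rw [← e1, hK]
        _ ≤ N * K := Nat.mul_le_mul_right _ (by omega)
    have e3 : 8 * a * N * K ≤ N.choose k := by exact_mod_cast hKM
    calc 8 * N1.choose k ≤ 8 * (N * K) := Nat.mul_le_mul_left _ e2
      _ ≤ 8 * a * N * K := by
          have h9 : 8 * (1 * (N * K)) ≤ 8 * (a * (N * K)) :=
            Nat.mul_le_mul_left 8 (Nat.mul_le_mul_right _ (by omega))
          rw [one_mul] at h9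
          refine h9.trans (le_of_eq ?_)
          ring
      _ ≤ _ := e3
  obtain ⟨R, hR⟩ : ∃ R : ℝ, R = p ^ (N1.choose k) := ⟨_, rfl⟩
  have hR0 : 0 < R := by rw [hR]; exact pow_pos hp0 _
  have hR8 : ((2 : ℝ) ^ (2 * n))⁻¹ ≤ R ^ 8 := by
    rw [← hpM, hR, ← pow_mul]
    apply pow_le_pow_of_le_one hp0.le hp1
    rw [mul_comm]
    exact h8C
  have hRbig : 5 / 4 * ((2 : ℝ) ^ n)⁻¹ < R := by
    by_contra hcon
    push Not at hcon
    have h1 : R ^ 8 ≤ (5 / 4 * ((2 : ℝ) ^ n)⁻¹) ^ 8 := pow_le_pow_left₀ hR0.le hcon 8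
    have h2 : (5 / 4 * ((2 : ℝ) ^ n)⁻¹) ^ 8 = (5 / 4) ^ 8 * (((2 : ℝ) ^ n)⁻¹) ^ 8 := mul_pow _ _ _
    have h3 : (((2 : ℝ) ^ n)⁻¹) ^ 8 = ((2 : ℝ) ^ (2 * n))⁻¹ * ((2 : ℝ) ^ (6 * n))⁻¹ := by
      rw [← mul_inv, ← pow_add, inv_pow, ← pow_mul]
      congr 2
      ring
    have h4 : ((2 : ℝ) ^ (6 * n))⁻¹ ≤ (64 : ℝ)⁻¹ := by
      apply inv_anti₀ (by norm_num)
      calc (64 : ℝ) = 2 ^ (6 * 1) := by norm_num
        _ ≤ 2 ^ (6 * n) := pow_le_pow_right₀ (by norm_num) (by omega)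
    have h5 : (0 : ℝ) < ((2 : ℝ) ^ (2 * n))⁻¹ := by positivity
    have h6 : R ^ 8 < ((2 : ℝ) ^ (2 * n))⁻¹ := by
      calc R ^ 8 ≤ (5 / 4) ^ 8 * (((2 : ℝ) ^ (2 * n))⁻¹ * ((2 : ℝ) ^ (6 * n))⁻¹) := by
            rw [← h3, ← h2]; exact h1
        _ ≤ (5 / 4) ^ 8 * (((2 : ℝ) ^ (2 * n))⁻¹ * (64 : ℝ)⁻¹) := by
            apply mul_le_mul_of_nonneg_left _ (by norm_num)
            exact mul_le_mul_of_nonneg_left h4 h5.le
        _ = ((5 / 4) ^ 8 / 64) * ((2 : ℝ) ^ (2 * n))⁻¹ := by ring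
        _ < 1 * ((2 : ℝ) ^ (2 * n))⁻¹ := by
            apply mul_lt_mul_of_pos_right _ h5
            norm_num
        _ = _ := one_mul _
    linarith
  rw [← hR]
  have hT : ((terms N (Fin b → Bool) N1).card : ℝ) ≤ 2 ^ (2 * n) := by
    exact_mod_cast terms_card_le' n N b N1 hNn hNb
  have hcov : (Fintype.card (Fin N → (Fin b → Bool)) : ℝ) * p ^ (N.choose k)
      ≤ ((2 : ℝ) ^ n)⁻¹ := by
    have hΩ : (Fintype.card (Fin N → (Fin b → Bool)) : ℝ) = 2 ^ (b * N) := by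
      rw [Fintype.card_fun, Fintype.card_fun, Fintype.card_bool, Fintype.card_fin,
        Fintype.card_fin, ← pow_mul]
      push_cast
      rfl
    rw [hΩ, hpM]
    have h1 : (2 : ℝ) ^ (b * N) ≤ 2 ^ n :=
      pow_le_pow_right₀ (by norm_num) (by rw [mul_comm]; exact hNb)
    have h2 : (2 : ℝ) ^ (2 * n) = 2 ^ n * 2 ^ n := by rw [two_mul, pow_add]
    rw [h2]
    calc (2 : ℝ) ^ (b * N) * (2 ^ n * 2 ^ n)⁻¹ ≤ 2 ^ n * (2 ^ n * 2 ^ n)⁻¹ :=
          mul_le_mul_of_nonneg_right h1 (by positivity)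
      _ = (2 ^ n)⁻¹ := by
          rw [mul_inv, ← mul_assoc, mul_inv_cancel₀ (by positivity), one_mul]
  have hs' : ((s : ℝ) + 1) ≤ 2 ^ n := by
    have h1 : s + 1 ≤ 2 ^ n := hs
    exact_mod_cast h1
  have hT5 : ((terms N (Fin b → Bool) N1).card : ℝ) + 5 ≤ 8 * 2 ^ (2 * n) := by
    have h1 : (1 : ℝ) ≤ 2 ^ (2 * n) := one_le_pow₀ (by norm_num)
    linarith
  have hfirst : ((s : ℝ) + 1) * (((terms N (Fin b → Bool) N1).card + 5)
      * ((terms N (Fin b → Bool) N1).card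
        * Real.exp (-(1 / (4 * ((1 + x) ^ N - 1)))))) ≤ 1 / 4 * ((2 : ℝ) ^ n)⁻¹ := by
    have e1 : ((terms N (Fin b → Bool) N1).card : ℝ)
        * Real.exp (-(1 / (4 * ((1 + x) ^ N - 1)))) ≤ 2 ^ (2 * n) * ((2 : ℝ) ^ (16 * W))⁻¹ :=
      mul_le_mul hT hδ (Real.exp_pos _).le (by positivity)
    have e1' : (((terms N (Fin b → Bool) N1).card : ℝ) + 5)
        * (((terms N (Fin b → Bool) N1).card : ℝ)
        * Real.exp (-(1 / (4 * ((1 + x) ^ N - 1)))))
        ≤ (8 * 2 ^ (2 * n)) * (2 ^ (2 * n) * ((2 : ℝ) ^ (16 * W))⁻¹) :=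
      mul_le_mul hT5 e1 (by positivity) (by positivity)
    have e2 : ((s : ℝ) + 1) * (((terms N (Fin b → Bool) N1).card + 5)
        * ((terms N (Fin b → Bool) N1).card
        * Real.exp (-(1 / (4 * ((1 + x) ^ N - 1))))))
        ≤ 2 ^ n * ((8 * 2 ^ (2 * n)) * (2 ^ (2 * n) * ((2 : ℝ) ^ (16 * W))⁻¹)) :=
      mul_le_mul hs' e1' (by positivity) (by positivity)
    refine e2.trans ?_
    have e3 : (2 : ℝ) ^ (16 * W) = 2 ^ n * 2 ^ (2 * n) * 2 ^ (2 * n) * 2 ^ n * 2 ^ (10 * n + 64) := by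
      rw [hW, ← pow_add, ← pow_add, ← pow_add, ← pow_add]
      congr 1
      ring
    rw [e3]
    have h2n : (0 : ℝ) < 2 ^ n := by positivity
    have h22n : (0 : ℝ) < 2 ^ (2 * n) := by positivity
    have e4 : (2 : ℝ) ^ n * ((8 * 2 ^ (2 * n)) * (2 ^ (2 * n) *
        (2 ^ n * 2 ^ (2 * n) * 2 ^ (2 * n) * 2 ^ n * 2 ^ (10 * n + 64))⁻¹))
        = (8 * ((2 : ℝ) ^ (10 * n + 64))⁻¹) * ((2 : ℝ) ^ n)⁻¹ := by
      field_simp
    rw [e4]
    apply mul_le_mul_of_nonneg_right _ (by positivity)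
    have e5 : ((2 : ℝ) ^ (10 * n + 64))⁻¹ ≤ ((2 : ℝ) ^ 64)⁻¹ := by
      apply inv_anti₀ (by positivity)
      exact pow_le_pow_right₀ (by norm_num) (by omega)
    calc 8 * ((2 : ℝ) ^ (10 * n + 64))⁻¹ ≤ 8 * ((2 : ℝ) ^ 64)⁻¹ :=
          mul_le_mul_of_nonneg_left e5 (by norm_num)
      _ ≤ 1 / 4 := by norm_num
  linarith

end Pool.Agent.T9h20
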